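import Pool.Agent.SYM.RegData

/-!
# SYM/V3/QData : the prequantum line bundles of a singular hyperkahler metric, the data

`X` is the regular part of a projective primitive symplectic variety `X_0` (complex structure `I`),
with the metric of Eyssidieux, Guedj and Zeriahi, `J` is another parallel complex structure such
that a multiple of the class of `ω_J` is integral. `L^j → X` is the `J`-holomorphic hermitian line
bundle with curvature form `j κ ω_J`.
-/

set_option autoImplicit false

namespace Pool.Agent.SYM.V3

/-- A finite cover of `X_0` by small open sets; `U c` is the trace on `X`. On `U c` there is an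
`I`-holomorphic 1-form `μ_c` with `d μ_c = ω_J + i ω_K`; `u c = |μ_c|²`, `a c = |∇ μ_c|²`
(outside `U c` any non-negative values). `z c` is a partition of unity by functions which are smooth on the
ambient space. -/
structure Charts (D : Reg) where
  N : ℕ
  U : Fin N → Set D.X
  z : Fin N → D.X → ℝ
  u : Fin N → D.X → ℝ
  a : Fin N → D.X → ℝ

/-- The smooth sections of a hermitian vector bundle over `X`, with the pointwise inner product and
the multiplication by real functions. -/
structure Sec (X : Type) where
  S : Type
  [grp : AddCommGroup S]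
  [mod : Module ℂ S]
  ip : S → S → X → ℂ
  mul : (X → ℝ) → S → S

attribute [instance] Sec.grp Sec.mod

/-- the square of the pointwise norm -/
def Sec.n {X : Type} (A : Sec X) (s : A.S) (x : X) : ℝ := (A.ip s s x).re

/-- `A0`, `A1`, `A2`: smooth sections of `L`, smooth `(0,1)_J`-forms and `(0,2)_J`-forms with values
in `L`; `d0`, `d1` is `∂bar_J`, `ds` the formal adjoint of `d0`, `nab s = |∇ s|²`
`= |∇^{1,0} s|² + |∇^{0,1} s|²`. -/
structure Bun (D : Reg) where
  A0 : Sec D.X
  A1 : Sec D.X
  A2 : Sec D.X
  d0 : A0.S → A1.S
  d1 : A1.S → A2.S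
  ds : A1.S → A0.S
  nab : A0.S → D.X → ℝ

/-- `m` is the complex dimension, `κ > 0` is such that the class of `κ ω_J / 2π` is integral and
sufficiently divisible, `B j` is the bundle `L^j` with curvature `j κ ω_J`, `v j`, `l j` its
eigensections and eigenvalues, `co j` the frames. -/
structure Quant (D : Reg) where
  φ : D.X → ℝ
  C : Charts D
  m : ℕ
  κ : ℝ
  B : ℕ → Bun D
  v : ∀ j, ℕ → (B j).A0.S
  l : ℕ → ℕ → ℝ
  co : ∀ j, Fin C.N → (B j).A0.S → D.X → ℂ

end Pool.Agent.SYM.V3
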