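import Pool.Agent.SYM.V3.Pub3
import Pool.Agent.SYM.SingMain
import Pool.Agent.SYP.Second

/-!
# SYM/V3/FinalA3 : the assembly, given the lattice part and the rotation
-/

set_option autoImplicit false

open MeasureTheory Set Filter Topology Module

namespace Pool.Agent.SYM.V3.Fam

open SYP (Vec IsIntegral HKData)

variable {n b : ℕ} {C : Fam n b}

/-- Singular Ricci-flat metrics are `RCD(0, 4n)` metrics: the eigenfunctions have bounded
gradient. -/
theorem MetricAxioms.rcd_main (hC : C.MetricAxioms) :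
    (∃ B, C.M.D.Heat B) ∧ C.M.D.toGeo.Regularity := by
  refine hC.rcd fun g f hf l hK hl => ?_
  obtain ⟨φ, hφ⟩ := hC.pole g
  obtain ⟨K, hK⟩ := hK
  exact Reg.lipschitz_of_sobolev (hC.calculus g) (hC.leibniz g) hφ (hC.approx g)
    (hC.sobolev g) hf hK hl

/-- a nef isotropic line bundle is semiample if it is trivial on a covering family of
`n`-dimensional subvarieties -/
theorem NefAxioms.semiample_of_covered (hC : C.NefAxioms) {i : C.I} {a : Vec b}
    (h : C.NefLine i a) (ha : a ≠ 0) (hq : C.q a a = 0) (hT : C.Covered i a) :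
    C.Semiample i a := by
  have h1 := hC.nefDim_le i a h hT
  have h2 := hC.numDim_le i a h
  have h3 := hC.numDim_eq i a h ha hq
  have h4 : C.numDim i a = C.nefDim i a := by omega
  exact hC.kawamata i a h (hC.kod_eq i a h h4)

/-- The conclusion of the lattice part: the special member `j` and the classes of its metrics. If
the line bundle is semiample on `X_j` then it is semiample on `X_i`. -/
structure Orbit (C : Fam n b) (i : C.I) (a : Vec b) (A A₀ ω : Vec b) (j : C.I)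
    (y t : ℕ → ℝ) : Prop where
  self : C.Semiample j a → C.Semiample i a
  line : C.NefLine j a
  intA : IsIntegral A
  intA₀ : IsIntegral A₀
  αA : C.q a A = 0
  αA₀ : C.q a A₀ = 0
  AA₀ : C.q A A₀ = 0
  posA : 0 < C.q A A
  posA₀ : 0 < C.q A₀ A₀
  ωω : C.q ω ω = 0
  ωA : C.q ω A = 0
  αω : 0 < C.q a ω
  top : Tendsto y atTop atTop
  pos : ∀ k, 0 < t k
  kahler : ∀ k, C.orbRe a A₀ ω (y k) ∈ C.kahler j
  ratRe : ∀ k, IsRational (C.orbRe a A₀ ω (y k))
  per : ∀ k, C.per j (t k • A) (-C.orbIm a A₀ ω (y k))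
  ratIm : ∀ k, IsRational (-C.orbIm a A₀ ω (y k))
  orth : ∀ k, C.q (t k • A) (-C.orbIm a A₀ ω (y k)) = 0
  normA : ∀ k, C.q (t k • A) (t k • A) = C.q (C.orbRe a A₀ ω (y k)) (C.orbRe a A₀ ω (y k))
  normIm : ∀ k, C.q (-C.orbIm a A₀ ω (y k)) (-C.orbIm a A₀ ω (y k)) =
    C.q (C.orbRe a A₀ ω (y k)) (C.orbRe a A₀ ω (y k))

variable {i j : C.I} {a A A₀ ω : Vec b} {y t : ℕ → ℝ}

theorem nil_A₀ (hA : C.q a A₀ = 0) : C.nil a A₀ A₀ = (-C.q A₀ A₀) • a := by
  rw [nil, hA, zero_smul, zero_sub, neg_smul]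

/-- the Lagrangian torus in the special member -/
theorem exists_torus (hM : C.MetricAxioms) (hD : C.DegenerationAxiom) (hP : C.ExistsPol)
    (haa : C.q a a = 0) (hO : Orbit C i a A A₀ ω j y t) : C.Torus j a := by
  have hex : ∀ k, ∃ h, C.IsMem h 0 j ∧ C.M.cls h 0 = C.orbRe a A₀ ω (y k) ∧
      C.M.cls h 1 = t k • A ∧ C.M.cls h 2 = -C.orbIm a A₀ ω (y k) ∧ C.Pol h A := fun k =>
    hP j (t k • A) (-C.orbIm a A₀ ω (y k)) (C.orbRe a A₀ ω (y k)) A (t k) hO.line.1 (hO.ratRe k)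
      (hO.per k) (hO.kahler k) (hO.orth k) (hO.normA k) (hO.normIm k) hO.intA (hO.pos k) rfl
      (hO.ratIm k)
  choose h hmem h0 h1 h2 hpol using hex
  obtain ⟨s, Q, B', hs, hQ⟩ := hD a A A₀ ω hO.line.2.1 hO.intA hO.intA₀ haa hO.αA hO.αA₀ hO.AA₀
    hO.posA hO.posA₀ hO.ωω hO.ωA hO.αω h y t hO.top hpol fun k => ⟨hO.pos k, h0 k, h1 k, h2 k⟩
  obtain ⟨hH, hR⟩ := hM.rcd_main
  obtain ⟨k, hk⟩ := Q.exists_torus (hM.hk hH hR) (fun k => h (s k)) A _ B' hQ (fun k j l => by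
    constructor
    · rw [h1, hQ.res_smul, hQ.res_A, mul_zero]
    · rw [h2, ← neg_one_smul ℝ, hQ.res_smul, orbIm, hQ.res_smul, hQ.res_N, mul_zero, mul_zero]) a
    (fun k j l => by
      have h3 := hQ.res_N k A₀ j l
      rw [nil_A₀ hO.αA₀, hQ.res_smul] at h3
      have h4 : -C.q A₀ A₀ ≠ 0 := by
        have := hO.posA₀
        linarith
      exact (mul_eq_zero.1 h3).resolve_left h4)
  exact hM.torus (h (s k)) j a (hmem (s k)) hk

theorem main_of (hC : C.Axioms) (hP : C.ExistsPol)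
    (hlat : ∀ (i : C.I) (a : Vec b), C.NefLine i a → a ≠ 0 → C.q a a = 0 →
      ∃ (A A₀ ω : Vec b) (j : C.I) (y t : ℕ → ℝ), Orbit C i a A A₀ ω j y t)
    (i : C.I) (a : Vec b) (ha : C.NefLine i a) (ha0 : a ≠ 0) (haa : C.q a a = 0) :
    C.Semiample i a := by
  obtain ⟨A, A₀, ω, j, y, t, hO⟩ := hlat i a ha ha0 haa
  have hT := exists_torus hC.toMetricAxioms hC.degeneration hP haa hO
  exact hO.self (hC.toNefAxioms.semiample_of_covered hO.line ha0 haa (hC.sweep j a hO.line hT))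

end Pool.Agent.SYM.V3.Fam
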