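import Pool.Agent.SYM.V3.Pub3
import Pool.Agent.SYR.Family

/-!
# SYM/V3/RotS : hyperkähler rotation by a small angle (all `b`)
-/

set_option autoImplicit false

open Set

namespace Pool.Agent.SYM.V3.Fam

open SYP (Vec IsIntegral)

variable {n b : ℕ} {C : Fam n b}

/-- Rotation by a small angle. Let `h = (g, I, J, K)` be the hyperkähler structure of the projective
member `X_i` in the rational Kähler class `κ`, with period `x + i y`. For small `u ≥ 0` let `X_u` be
the fibre of the universal locally trivial deformation of `X_i` with symplectic form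
`[σ_u] = y - i (cos u x - sin u κ)` (local Torelli theorem; Namikawa, Bakker-Lehn), so `X_0 = X_i` and
`σ_0 = -i σ`. The class `κ_u = cos u κ + sin u x` is of type `(1,1)` on `X_u` and near `κ`, so it is the
class of an ambient smooth Kähler form `θ_u`. The `X_u`, `0 ≤ u ≤ U`, have ambient smooth
trivialisations. `G` is the form `L_{V_0} σ_u - i θ_u` for one of them, see SYR/Gauge. If it is the
differential of a global form, then there is a trivialisation by a vector field `V` with
`L_V σ_u = i θ_u`, and `T` is the family of the Ricci-flat metrics in the classes `κ_u`, see SYR/Arc and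
SYR/Family, on `M = X_i^reg`. `Ang h u`: with the complex structure `cos u I + sin u J`, `X` is the
regular part of `X_u` and `g` is its singular Ricci-flat metric in the class `κ_u` (the marking is
preserved by continuity in `u`). -/
def RotArc (C : Fam n b) (Ang : C.M.HK → ℝ → Prop) : Prop :=
  ∀ i x y κ h, C.Projective i → IsRational κ → C.per i x y → κ ∈ C.kahler i →
    C.q x y = 0 → C.q x x = C.q κ κ → C.q y y = C.q κ κ → C.IsMem h 0 i → C.M.cls h 0 = κ →
    C.M.cls h 1 = x → C.M.cls h 2 = y →
    ∃ G : SYR.Cech, G.Facts ∧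
      (G.Global → ∃ (T : SYR.Family (Fin (4 * n))) (c : ℝ), T.Facts c ∧
        (T.Rotated → ∀ u ∈ Icc 0 T.U, Ang h u))

/-- The singular Ricci-flat metric of `X_i` is also that of the varieties `X_u`, for small `u`. -/
theorem RotArc.exists_ang {Ang : C.M.HK → ℝ → Prop} (hR : C.RotArc Ang) {i : C.I}
    {x y κ : Vec b} {h : C.M.HK} (hi : C.Projective i) (hκr : IsRational κ) (hper : C.per i x y)
    (hκ : κ ∈ C.kahler i) (hxy : C.q x y = 0) (hxx : C.q x x = C.q κ κ)
    (hyy : C.q y y = C.q κ κ) (hmem : C.IsMem h 0 i) (h0 : C.M.cls h 0 = κ)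
    (h1 : C.M.cls h 1 = x) (h2 : C.M.cls h 2 = y) :
    ∃ U : ℝ, 0 < U ∧ ∀ u ∈ Icc 0 U, Ang h u := by
  obtain ⟨G, hG, hGT⟩ := hR i x y κ h hi hκr hper hκ hxy hxx hyy hmem h0 h1 h2
  obtain ⟨T, c, hT, hTP⟩ := hGT hG.global
  exact ⟨T.U, hT.geom.U_pos, hTP (SYR.Family.rotated hT)⟩

end Pool.Agent.SYM.V3.Fam
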