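import Pool.Agent.SYM.V3.PkMain
import Pool.Agent.SYM.V3.RotS
import Pool.Agent.SYM.V3.FinalA3

/-!
# SYM/V3/PkTop : rotation for all `b`, by sections of tensor products
-/

set_option autoImplicit false

open MeasureTheory Set Filter Topology Module

namespace Pool.Agent.SYM.V3.Fam

open SYP (Vec IsIntegral HKData)

variable {n b : ℕ} {C : Fam n b}

/-- `P g`: the points of the completion of `(X, g)`. `T h u` for `h = (g, I, J, K)`: the data of `Peak`
for the complex structures `I`, `cos u I + sin u J` and `J`. Let `A` be integral and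
`[ω_J] = t A`; `κ` is the constant of `Quant`, so the class of `κ ω_J / 2π` is integral and
sufficiently divisible. Let also the class of `κ₂ ω_I / 2π` be integral, and `tan u = κ / κ₂`. If with
`cos u I + sin u J` the manifold `X` is the regular part of the deformation `X_u` of `X_0 = X_i` and
`g` is its singular Ricci-flat metric (`Ang h u`, see `RotArc`), then
`κ₂ ω_I + κ ω_J = κ₁ ω_u`, `κ₁² = κ₂² + κ²`, and the class of `κ₁ ω_u / 2π` is integral, so `X_u` is
projective. -/
def PeakAxiom (C : Fam n b) (Ang : C.M.HK → ℝ → Prop) (P : ∀ g, Pts (C.reg g))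
    (T : ∀ h : C.M.HK, ℝ → Peak (C.reg (C.M.met h))) : Prop :=
  ∀ h i A (t κ₂ u : ℝ), C.Projective i → C.IsMem h 0 i → IsRational (C.M.cls h 0) →
    IsIntegral A → 0 < t → C.M.cls h 1 = t • A → 0 < κ₂ →
    IsIntegral ((κ₂ / (2 * Real.pi)) • C.M.cls h 0) → u ∈ Ioo 0 (Real.pi / 2) →
    Real.tan u = (C.quant h).κ / κ₂ → Ang h u → (T h u).Facts (C.quant h) (P (C.M.met h))

/-- Let `X̂` be the completion of `(X, g)`, an `RCD` space (`EigenLip`, Honda), homeomorphic to `X_i`
(Székelyhidi). If the bounded Lipschitz `J`-holomorphic sections of the powers of `L` have no common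
zeros on `X̂` and separate its points, then `X̂` with `J` is a normal projective variety `Y` with
regular part `X`, so it is homeomorphic to `X_i` by an extension of the identity of `X`, and `L`
extends to an ample `ℚ`-line bundle. This is the last step of the proof of Donaldson and Sun
(Gromov-Hausdorff limits of Kähler manifolds and algebraic geometry, Section 4):
For divisible `k` the sections of `L^k` give a Lipschitz map `Φ_k` from `X̂` to a projective space
(compactness), holomorphic on `X`. It has rank `m` at some point of `X` (otherwise the germs of the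
fibres through a point of maximal rank would be the same for all divisible `k`). `X̂ \ X` has
Hausdorff dimension at most `2m - 4` (De Philippis-Gigli; the parallel `I`, `J`, `K` pass to the
tangent cones), so the image of `Φ_k` is analytic outside the image `E` of `X̂ \ X` (Remmert),
everywhere (Shiffman), and algebraic (Chow). For divisible `k` these images are birational to each
other and have the same normalisation `Y`, so they are independent of `k` (noetherian modules), and
`Φ_k` is injective. The sections of the powers of the ample line bundle on `Y` are bounded on `X`,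
hence Lipschitz (`Quant`), so the image of `Φ_k` is `Y`. `Ω` extends to `Y_reg` without zeros and has
finite norm: `Y` has trivial canonical class and canonical singularities. The potential
`log ∑ |s_l|²` of `ω_J` is bounded with bounded gradient, so its Monge-Ampère measure has no mass on
`E` (Stokes), and `g` is the singular Ricci-flat metric of `Y`, by uniqueness. So it is smooth on
`Y_reg`, and `Y_reg = X`, because the points of `X_i` near which the metric is smooth (volume density
`1`) are the smooth points of `X_i`. As `Y` is homeomorphic to `X_i`, one has `H¹(Y, O) = 0`, the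
singular set has codimension at least `4`, so `Y` is terminal (Namikawa), and `Y` is `ℚ`-factorial (for
rational singularities this is a condition on Betti numbers). Its reflexive 2-forms are parallel, so
they are the multiples of `ω_K + i ω_I`, as for `X_i`. Finally `A` is of type `(1,1)`, so it is the class
of a line bundle on `Y`, modulo torsion. -/
def CloseAxiom (C : Fam n b) (P : ∀ g, Pts (C.reg g)) : Prop :=
  ∀ h i A (t : ℝ), C.Projective i → C.IsMem h 0 i → IsRational (C.M.cls h 0) → IsIntegral A →
    0 < t → C.M.cls h 1 = t • A → (C.reg (C.M.met h)).EigenLip →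
    (C.quant h).Sep (P (C.M.met h)) → C.Pol h A

/-- The singular Ricci-flat metric of `X_i` is also that of the varieties `X_u`, for small `u`. -/
def RotEx (C : Fam n b) (Ang : C.M.HK → ℝ → Prop) : Prop :=
  ∀ i x y κ h, C.Projective i → IsRational κ → C.per i x y → κ ∈ C.kahler i →
    C.q x y = 0 → C.q x x = C.q κ κ → C.q y y = C.q κ κ → C.IsMem h 0 i → C.M.cls h 0 = κ →
    C.M.cls h 1 = x → C.M.cls h 2 = y → ∃ U : ℝ, 0 < U ∧ ∀ u ∈ Icc 0 U, Ang h u

theorem RotArc.rotEx {Ang : C.M.HK → ℝ → Prop} (hR : C.RotArc Ang) : C.RotEx Ang :=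
  fun _ _ _ _ _ h1 h2 h3 h4 h5 h6 h7 h8 h9 h10 h11 =>
    hR.exists_ang h1 h2 h3 h4 h5 h6 h7 h8 h9 h10 h11

theorem existsPol_of_ang (hC : C.MetricAxioms) {Ang : C.M.HK → ℝ → Prop}
    {P : ∀ g, Pts (C.reg g)} {T : ∀ h : C.M.HK, ℝ → Peak (C.reg (C.M.met h))}
    (hR : C.RotEx Ang) (hT : C.PeakAxiom Ang P T) (hP : C.CloseAxiom P) : C.ExistsPol := by
  intro i x y κ A t hi hκ hper hkah hxy hx hy hA ht hxA _
  obtain ⟨h, hmem, h0, h1, h2⟩ := hC.egz i x y κ hi hκ hper hkah hxy hx hy
  have h1' : C.M.cls h 1 = x := h1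
  have h2' : C.M.cls h 2 = y := h2
  have h1A : C.M.cls h 1 = t • A := h1'.trans hxA
  have hQ := hC.quant_facts h i A t hi hmem (h0 ▸ hκ) hA ht h1A
  obtain ⟨U, hU, hang⟩ := hR i x y κ h hi hκ hper hkah hxy hx hy hmem h0 h1' h2'
  obtain ⟨r, hr, hri⟩ := hκ
  have hκQ := hQ.κ_pos
  -- `N` with `arctan (κ / (2 π r N)) ≤ U`
  have hlim : Tendsto (fun N : ℕ => Real.arctan ((C.quant h).κ / (2 * Real.pi * r * N)))
      atTop (𝓝 0) := by
    have h3 : Tendsto (fun N : ℕ => (C.quant h).κ / (2 * Real.pi * r * N)) atTop (𝓝 0) := by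
      refine Tendsto.div_atTop tendsto_const_nhds ?_
      exact (tendsto_natCast_atTop_atTop).const_mul_atTop (by positivity)
    have := (Real.continuous_arctan.tendsto 0).comp h3
    rwa [Real.arctan_zero] at this
  obtain ⟨N, hN1, hN2⟩ := ((hlim.eventually (gt_mem_nhds hU)).and (eventually_ge_atTop 1)).exists
  have hN0 : (0 : ℝ) < N := by exact_mod_cast hN2
  set κ₂ : ℝ := 2 * Real.pi * r * N with hκ₂
  have hκ₂0 : 0 < κ₂ := by positivity
  have hq0 : 0 < (C.quant h).κ / κ₂ := div_pos hκQ hκ₂0
  set u : ℝ := Real.arctan ((C.quant h).κ / κ₂) with hu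
  have hu0 : 0 < u := Real.arctan_pos.2 hq0
  have hint : IsIntegral ((κ₂ / (2 * Real.pi)) • C.M.cls h 0) := by
    have e : κ₂ / (2 * Real.pi) = N * r := by
      rw [hκ₂]
      field_simp
    rw [e, h0, mul_smul]
    intro k
    obtain ⟨z, hz⟩ := hri k
    refine ⟨N * z, ?_⟩
    rw [Pi.smul_apply, hz, smul_eq_mul]
    push_cast
    ring
  have hF := hT h i A t κ₂ u hi hmem (h0 ▸ ⟨r, hr, hri⟩) hA ht h1A hκ₂0 hint
    ⟨hu0, Real.arctan_lt_pi_div_two _⟩ (Real.tan_arctan _) (hang u ⟨hu0.le, hN1.le⟩)
  exact ⟨h, hmem, h0, h1', h2', hP h i A t hi hmem (h0 ▸ ⟨r, hr, hri⟩) hA ht h1A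
    (fun _ hf _ _ hM hl =>
      Reg.lipschitz_of_sobolev hQ.calculus hQ.leib hQ.pole hQ.approx hQ.sobolev hf hM hl)
    (sep_main hQ hF)⟩

theorem existsPol_of_peak (hC : C.MetricAxioms) {Ang : C.M.HK → ℝ → Prop}
    {P : ∀ g, Pts (C.reg g)} {T : ∀ h : C.M.HK, ℝ → Peak (C.reg (C.M.met h))}
    (hR : C.RotArc Ang) (hT : C.PeakAxiom Ang P T) (hP : C.CloseAxiom P) : C.ExistsPol :=
  existsPol_of_ang hC hR.rotEx hT hP

end Pool.Agent.SYM.V3.Fam
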