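import Pool.Agent.SYM.RegData

/-!
# SYM/V3/PkData : the data of SYM/V3/Peak

`X` is the regular part of a projective primitive symplectic variety `X_0` (complex structure `I`),
`g` its singular Ricci-flat metric, `κ₂ ω_I / 2π` in an integral class. `J` is another parallel complex
structure such that the class of `κ ω_J / 2π` is integral, and `κ₁ ω_u = κ₂ ω_I + κ ω_J`,
`κ₁² = κ₂² + κ²`. For `κ₂ / κ` large the complex structure `u` is close to `I`, and by the rotation
theorem `X` with `u` is the regular part of a small deformation `X_u` of `X_0`, `g` is its singular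
Ricci-flat metric, and `X_u` is projective. Let `L` be the hermitian line bundle on `X` of `Quant`,
holomorphic for `J`, with curvature `κ ω_J`, let `L₂` be one which is holomorphic for `I`, with
curvature `κ₂ ω_I`, and `L₁ = L ⊗ L₂`. It has curvature `κ₁ ω_u`, so it is holomorphic for `u`. If `j` is
sufficiently divisible, `L₂^j` and `L₁^j` extend to ample line bundles on `X_0` and `X_u` (`H_1(X, ℤ)`
is finite, so flat unitary line bundles on `X` are torsion).
-/

set_option autoImplicit false

namespace Pool.Agent.SYM.V3

/-- The points `p` of the completion `X̂` of `X`, with the distances `d p x` to the points of `X`. -/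
structure Pts (D : Reg) where
  P : Type
  d : P → D.X → ℝ

/-- `κ₁` as above. `pot j φ φ' U` (for `j ≥ 1`; nothing for `j = 0`): there are an `I`-holomorphic
section `s₂` of `L₂^j` and a `u`-holomorphic section `s₁` of `L₁^j`, without zeros in the open set
`U`, with `φ = - log |s₂|² / (j κ₂)` and `φ' = - log |s₁|² / (j κ₁)` on `U`. -/
structure Peak (D : Reg) where
  κ₁ : ℝ
  pot : ℕ → (D.X → ℝ) → (D.X → ℝ) → Set D.X → Prop

end Pool.Agent.SYM.V3
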