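import Pool.Agent.SYM.V3.Quant
import Pool.Agent.SYM.V3.PkData

/-!
# SYM/V3/Peak : holomorphic sections for the rotated complex structure

`X` is the regular part of a projective primitive symplectic variety `X_0` (complex structure `I`),
`g` its singular Ricci-flat metric, `κ₂ ω_I` in an integral class. `J` is another parallel complex
structure such that the class of `κ ω_J` is integral, and `κ₁ ω_u = κ₂ ω_I + κ ω_J`,
`κ₁² = κ₂² + κ²`. For `κ₂ / κ` large the complex structure `u` is close to `I`, and by the rotation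
theorem `X` with `u` is the regular part of a small deformation `X_u` of `X_0`, `g` is its singular
Ricci-flat metric, and `X_u` is projective. Let `L` be the hermitian line bundle on `X` of `Quant`,
holomorphic for `J`, with curvature `κ ω_J`, let `L₂` be one which is holomorphic for `I`, with
curvature `κ₂ ω_I`, and `L₁ = L ⊗ L₂`. It has curvature `κ₁ ω_u`, so it is holomorphic for `u`. If `j` is
sufficiently divisible, `L₂^j` and `L₁^j` extend to ample line bundles on `X_0` and `X_u` (`H_1(X, ℤ)`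
is finite, so flat unitary line bundles on `X` are torsion).

Fields: calculus on `X`, the theory of compact `RCD` spaces, and the Gaussian sections of Donaldson
and Sun for the projective varieties `X_0 × X_u` and `(X_0 × X_u)²`. PROVED in the modules `V3/Pk*`:
the `J`-holomorphic sections of the powers of `L` have no common zeros on the completion of `X`, and
separate its points.
-/

set_option autoImplicit false

open MeasureTheory Set Filter
open scoped Topology ContDiff ComplexConjugate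

namespace Pool.Agent.SYM.V3

/-- `X̂` is a compact non-collapsed `RCD(0, 2m)` space, of which `X` is the regular part, with
complement of capacity zero, and its distance is given by the lengths of the curves in `X`.
* `vol_le`, `le_vol`: Bishop-Gromov.
* `mean`: the mean value inequality (Moser iteration on balls of radius `λ^(-1/2)`) for bounded
  solutions of `Δ w ≥ - λ w`. -/
structure Pts.Rcd {D : Reg} (P : Pts D) (m : ℕ) (B : ℝ) : Prop where
  one_le : 1 ≤ B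
  nonneg : ∀ p x, 0 ≤ P.d p x
  cont : ∀ p, Continuous (P.d p)
  sep : ∀ p q, p ≠ q → ∃ ρ : ℝ, 0 < ρ ∧ ∀ x, ρ ≤ P.d p x + P.d q x
  vol_le : ∀ p ρ, 0 < ρ → D.vol.real {x | P.d p x < ρ} ≤ B * ρ ^ (2 * m)
  le_vol : ∀ p ρ, 0 < ρ → ρ ≤ 1 → ρ ^ (2 * m) ≤ B * D.vol.real {x | P.d p x < ρ}
  cut : ∀ p ρ, 0 < ρ → ∃ χ ∈ D.sm, (∀ x, 0 ≤ χ x) ∧ (∀ x, χ x ≤ 1) ∧
    (∀ x, P.d p x < ρ → χ x = 1) ∧ tsupport χ ⊆ {x | P.d p x < 2 * ρ} ∧
    ∀ x, D.gr χ χ x ≤ B / ρ ^ 2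
  lip : ∀ w ∈ D.sm, ∀ K : ℝ, 0 ≤ K → (∀ x, D.gr w w x ≤ K ^ 2) →
    ∀ p x y, |w x - w y| ≤ B * K * (P.d p x + P.d p y)
  mean : ∀ w ∈ D.sm, (∀ x, 0 ≤ w x) → (∃ M, ∀ x, w x ≤ M) → ∀ lam : ℝ, 1 ≤ lam →
    (∀ x, -(lam * w x) ≤ D.lap w x) → ∀ x, w x ≤ B * lam ^ m * ∫ y, w y ∂D.vol

/-- Bochner's formula for `∇ s`, `s` a holomorphic section of the line bundle `L` with curvature
`k ω`: `Δ |∇ s|² = |∇ ∇ s|² + m k² |s|² - (m + 2) k |∇ s|²`, as `Ric = 0` and the curvature of `L` is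
parallel. -/
structure Bun.Grad {D : Reg} (B : Bun D) (k : ℝ) (m : ℕ) : Prop where
  nab_sm : ∀ s, B.nab s ∈ D.sm
  weitz1 : ∀ s, B.d0 s = 0 → ∀ x, -((m + 2) * k * B.nab s x) ≤ D.lap (B.nab s) x

/-- * `lap`: `i ∂∂̄ φ = ω_I` and `i ∂_u ∂̄_u φ' = ω_u`.
* `tensor`: `e = (s₁ / |s₁|) ⊗ (s₂ / |s₂|)⁻¹` is a unitary frame of `L^j` over `U`. As
  `κ₁ d^c_u = κ₂ d^c_I + κ d^c_J` one has `∇ e = - (i j / 2) (κ d^c_J φ + κ₁ d^c_u (φ' - φ)) e`, so
  `v = χ exp(- j κ φ / 2) e` has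
  `∂̄_J v = (∂̄_J χ - (i j κ₁ / 2) χ (d^c_u (φ' - φ))^{0,1}) exp(- j κ φ / 2) e`.
* `rcd`: `EigenLip` is Honda's criterion for the `RCD` property of the completion.
* `peak`: let `Y` be a projective variety with klt singularities and `K = 0`, `L` an ample line bundle
  with a metric of curvature the singular Ricci-flat metric, the completion of `Y_reg` an `RCD` space.
  For `z ∈ Y` and `ζ > 0` there are arbitrarily large `j` and sections `s` of `L^j` such that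
  `| |s| - exp(- j d(z, ·)² / 4) | < ζ` (Donaldson-Sun for smooth `Y`; Liu-Székelyhidi, Proposition
  3.1; Székelyhidi, Singular Kähler-Einstein metrics and RCD spaces). This is applied to
  `Y = (X_0 × X_u)²`, `L = (L₂ ⊠ L₁)^{⊠ 2}` and `z = (p, p, q, q)`, and then `s` is restricted to the
  four factors through `z` (the potential of the metric is continuous on `Y`). So `j` is the same
  for the four potentials. -/
structure Peak.Facts {D : Reg} (T : Peak D) (Q : Quant D) (P : Pts D) : Prop where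
  κ₁_pos : 0 < T.κ₁
  grad : ∀ j, 1 ≤ j → (Q.B j).Grad (j * Q.κ) Q.m
  smooth : ∀ j φ φ' U, T.pot j φ φ' U → D.SmoothOn U φ ∧ D.SmoothOn U φ'
  lap : ∀ j φ φ' U, T.pot j φ φ' U → ∀ x ∈ U, D.lap φ x = Q.m ∧ D.lap φ' x = Q.m
  tensor : ∀ j φ φ' U, 1 ≤ j → IsOpen U → T.pot j φ φ' U → ∀ χ ∈ D.sm, tsupport χ ⊆ U →
    ∃ v : (Q.B j).A0.S,
      (∀ x ∈ U, (Q.B j).A0.n v x = χ x ^ 2 * Real.exp (-(j * Q.κ * φ x))) ∧
      (∀ x, x ∉ U → (Q.B j).A0.n v x = 0 ∧ (Q.B j).A1.n ((Q.B j).d0 v) x = 0) ∧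
      ∀ x ∈ U, (Q.B j).A1.n ((Q.B j).d0 v) x ≤
        2 * (D.gr χ χ x + (j * T.κ₁ / 2) ^ 2 * χ x ^ 2 *
          D.gr (fun y => φ' y - φ y) (fun y => φ' y - φ y) x) * Real.exp (-(j * Q.κ * φ x))
  rcd : D.EigenLip → ∃ B, P.Rcd Q.m B
  peak : D.EigenLip → ∀ p q, ∀ R ζ ρ : ℝ, 0 < R → 0 < ζ → 0 < ρ →
    ∃ j : ℕ, 1 ≤ j ∧ 1 ≤ j * Q.κ * ρ ^ 2 ∧ ∀ z, z = p ∨ z = q →
      ∃ φ φ', T.pot j φ φ' {x | j * Q.κ * P.d z x ^ 2 < R ^ 2} ∧
        ∀ x, j * Q.κ * P.d z x ^ 2 < R ^ 2 →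
          |j * Q.κ * φ x - j * Q.κ * P.d z x ^ 2 / 2| ≤ ζ ∧
          |j * Q.κ * φ' x - j * Q.κ * P.d z x ^ 2 / 2| ≤ ζ

/-- bounded holomorphic sections of `L^j` with bounded gradient -/
def Quant.Hol {D : Reg} (Q : Quant D) (j : ℕ) (s : (Q.B j).A0.S) : Prop :=
  (Q.B j).d0 s = 0 ∧ ∃ M, ∀ x, (Q.B j).A0.n s x ≤ M ∧ (Q.B j).nab s x ≤ M

/-- The holomorphic sections of the powers of `L` have no common zeros on `X̂`, and separate the
points of `X̂`: for `p ≠ q` there are `s` and `t` with `|s(q)| |t(p)| < |s(p)| |t(q)|`. -/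
structure Quant.Sep {D : Reg} (Q : Quant D) (P : Pts D) : Prop where
  bpf : ∀ p, ∃ (j : ℕ) (s : (Q.B j).A0.S) (c ρ : ℝ), 1 ≤ j ∧ Q.Hol j s ∧ 0 < c ∧ 0 < ρ ∧
    ∀ x, P.d p x < ρ → c ≤ (Q.B j).A0.n s x
  sep : ∀ p q, p ≠ q → ∃ (j : ℕ) (s t : (Q.B j).A0.S) (c ρ : ℝ), 1 ≤ j ∧ Q.Hol j s ∧ Q.Hol j t ∧
    0 < c ∧ 0 < ρ ∧ (∀ x, P.d p x < ρ → c ≤ (Q.B j).A0.n s x ∧ (Q.B j).A0.n t x ≤ c / 2) ∧
    ∀ x, P.d q x < ρ → c ≤ (Q.B j).A0.n t x ∧ (Q.B j).A0.n s x ≤ c / 2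

end Pool.Agent.SYM.V3
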