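import Pool.Agent.SYP.HK
import Pool.Agent.SYM.V3.Peak
import Pool.Agent.SYM.V3P.CalcD

/-!
# SYM/V3/Pub3 : locally trivial deformation classes of primitive symplectic varieties

`Fam n b` is a locally trivial deformation class of marked primitive symplectic varieties `X_i` of
dimension `2n` with `ℚ`-factorial terminal singularities and second Betti number `b`, more precisely
a connected component of their moduli space; for example a deformation class of compact
hyperkähler manifolds. Its members, projective or not, share the lattice `H²(X, ℤ) = ℤ^b` (modulo
torsion) and its Beauville-Bogomolov-Fujiki form. Locally trivial families are topologically locally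
trivial, so the regular parts `(X_i)_reg` have the same underlying manifold, the space `X` of
`D : Geo2 (2n)`; `(X_i)_reg` is identified with `X` by parallel transport in such families from one
member, compatibly with the markings (`H²(X_i, ℚ) = H²((X_i)_reg, ℚ)`, as `X_i` is `ℚ`-factorial and
terminal).
-/

set_option autoImplicit false

open MeasureTheory Set Filter Topology Module

namespace Pool.Agent.SYM.V3

open SYP (Vec IsIntegral HKData)

/-- `v` is a real multiple of a rational class. -/
def IsRational {b : ℕ} (v : Vec b) : Prop := ∃ r : ℝ, 0 < r ∧ IsIntegral (r • v)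

/-- The metric `g` on `X`, with the data of `Reg`. -/
def regOf {n b : ℕ} (M : HKData n b) (diff : M.D.Met → Calc M.D.X) (g : M.D.Met) : Reg :=
  (diff g).reg (M.D.vol g)

/-- The data of a locally trivial deformation class of primitive symplectic varieties of dimension
`2n`. -/
structure Fam (n b : ℕ) where
  /-- the Beauville-Bogomolov-Fujiki form -/
  q : Vec b → Vec b → ℝ
  /-- the wall divisor classes (primitive MBM classes); used for `b ≥ 5` only -/
  S : Set (Vec b)
  /-- the members of the class: marked compact Kähler spaces `X_i`, primitive symplectic, with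
  `ℚ`-factorial terminal singularities -/
  I : Type
  /-- `per i x y`: `(x, y)` is a positively oriented basis of the plane `⟨Re σ, Im σ⟩` of `X_i` -/
  per : I → Vec b → Vec b → Prop
  /-- the Kähler cone of `X_i` in `H²(X_i, ℝ)` -/
  kahler : I → Set (Vec b)
  /-- the line bundle of class `a` on the projective variety `X_i` is semiample -/
  Semiample : I → Vec b → Prop
  /-- `(X_i)_reg` contains a compact complex torus of dimension `n`, a Lagrangian submanifold, on
  which the class `a` restricts to `0` -/
  Torus : I → Vec b → Prop
  /-- through every point of the projective variety `X_i` there is a closed subvariety of dimension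
  `n` on all of whose curves the line bundle of class `a` has degree `0` -/
  Covered : I → Vec b → Prop
  /-- there are a connected neighbourhood of `X_i` in the space of the marked members on which `a` is
  of type `(1,1)`, and a homology class `γ` of degree `2n` with `a ∩ γ = 0`, such that each member
  `X_j` in this neighbourhood is covered by compact analytic cycles of dimension `n` and class `γ` -/
  Swept : I → Vec b → Prop
  /-- nef dimension (Bauer et al.), numerical dimension, Iitaka dimension of the nef line bundle of
  class `a` on the projective variety `X_i` -/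
  nefDim : I → Vec b → ℕ
  numDim : I → Vec b → ℕ
  kod : I → Vec b → ℕ
  /-- the common underlying manifold `X` of the regular parts `(X_i)_reg`, and the hyperkähler
  structures `(g, I, J, K)` on it such that for one of the parallel complex structures of `g`
  (not always `J`) `X` is the regular part of a projective member and `g` is its singular Ricci-flat
  metric in a real multiple of a rational class -/
  M : HKData n b
  /-- smooth functions, Laplacian, Hessians of the metrics. For every metric `g` one of the parallel
  complex structures is fixed with which `X` is the regular part of a projective member and `g` is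
  its singular Ricci-flat metric (see `M`; not always the complex structure `J` of `D.Met`); the
  types of the Hessian are those for this complex structure. -/
  diff : M.D.Met → Calc M.D.X
  /-- `IsMem h c i`: with its `c`-th complex structure (`I`, `J`, `K` for `c = 0, 1, 2`) `X` is the
  regular part of the projective member `X_i`, and `g` is the singular Ricci-flat metric of
  Eyssidieux, Guedj and Zeriahi in the class `cls h c` -/
  IsMem : M.HK → Fin 3 → I → Prop
  /-- `Pol h A`: with its second complex structure `J` the manifold `X` is the regular part of a
  projective primitive symplectic variety `Y` with `ℚ`-factorial terminal singularities, `Y` is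
  homeomorphic to the members of the class (by an extension of the identity of `X`), `A` is the class
  of an ample line bundle on `Y`, and `g` is the singular Ricci-flat metric of `Y` in the class
  `cls h 1` -/
  Pol : M.HK → Vec b → Prop
  /-- if a positive multiple of `cls h 1` is integral: the powers of the `J`-holomorphic hermitian
  line bundle on `X` with this class (or a multiple of it) and curvature a multiple of `ω_J`, see
  `Quant` -/
  quant : ∀ h : M.HK, Quant (regOf M diff (M.met h))
  /-- the points of the completion of `(X, g)` -/
  pts : ∀ g : M.D.Met, Pts (regOf M diff g)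
  /-- `Ang h u`, `h = (g, I, J, K)`: with the complex structure `cos u I + sin u J` the manifold `X` is
  the regular part of a small locally trivial deformation `X_u` of the member whose complex
  structure is `I`, and `g` is its singular Ricci-flat metric, see `RotArc` -/
  Ang : M.HK → ℝ → Prop
  /-- the line bundles on `X_0` and `X_u` and the potentials of their sections, see `Peak` and
  `PeakAxiom` -/
  pk : ∀ (h : M.HK) (_ : ℝ), Peak (regOf M diff (M.met h))

namespace Fam

variable {n b : ℕ} (C : Fam n b)

/-- The metric `g` on `X`, with the data of `Reg`. -/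
def reg (g : C.M.D.Met) : Reg := regOf C.M C.diff g

/-- `v` is of type `(1,1)` for the period plane `⟨x, y⟩`. -/
def Type11 (x y v : Vec b) : Prop := C.q v x = 0 ∧ C.q v y = 0

/-- `(x, y)` is a basis of a positive definite plane. -/
def PosPlane (x y : Vec b) : Prop :=
  ∀ s t : ℝ, s ≠ 0 ∨ t ≠ 0 → 0 < C.q (s • x + t • y) (s • x + t • y)

/-- `X_i` is projective (Kodaira, Grauert). -/
def Projective (i : C.I) : Prop := ∃ A ∈ C.kahler i, IsIntegral A

/-- `a` is a nef class: it is in the closure of the Kähler cone. For an integral class on a
projective `X_i`: the line bundle has non-negative degree on all curves (Kleiman). -/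
def Nef (i : C.I) (a : Vec b) : Prop := a ∈ closure (C.kahler i)

/-- `X_i` is projective and `a` is the class of a nef line bundle on it. -/
def NefLine (i : C.I) (a : Vec b) : Prop := C.Projective i ∧ IsIntegral a ∧ C.Nef i a

/-- The nilpotent operator `N x = q(α, x) A₀ - q(A₀, x) α`. -/
def nil (α A₀ x : Vec b) : Vec b := C.q α x • A₀ - C.q A₀ x • α

/-- The real part of `exp(i y N) ω`, where `N³ = 0`. -/
noncomputable def orbRe (α A₀ ω : Vec b) (y : ℝ) : Vec b :=
  ω - (y ^ 2 / 2) • C.nil α A₀ (C.nil α A₀ ω)

/-- The imaginary part of `exp(i y N) ω`. -/
noncomputable def orbIm (α A₀ ω : Vec b) (y : ℝ) : Vec b := y • C.nil α A₀ ω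

/-- The lattice: the form is bilinear, symmetric, integral, of signature `(3, b - 3)` (Beauville,
Bogomolov, Fujiki; Namikawa, Kirschner, Schwald, Bakker-Lehn). -/
structure LatticeAxioms : Prop where
  q_add : ∀ x x' y, C.q (x + x') y = C.q x y + C.q x' y
  q_smul : ∀ (c : ℝ) (x y), C.q (c • x) y = c * C.q x y
  symm : ∀ x y, C.q x y = C.q y x
  integral : ∀ x y, IsIntegral x → IsIntegral y → ∃ m : ℤ, C.q x y = m
  signature : ∃ W : Submodule ℝ (Vec b), finrank ℝ W = 3 ∧ (∀ x ∈ W, x ≠ 0 → 0 < C.q x x) ∧
    ∀ x, (∀ y ∈ W, C.q x y = 0) → x ≠ 0 → C.q x x < 0

/-- Period planes and Kähler cones. -/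
structure KahlerAxioms : Prop where
  per_exists : ∀ i, ∃ x y, C.per i x y
  /-- the period plane is positive definite -/
  per_pos : ∀ i x y, C.per i x y → C.PosPlane x y
  /-- the oriented bases of the period plane -/
  per_basis : ∀ i x y, C.per i x y → ∀ s t u v : ℝ, 0 < s * v - t * u →
    C.per i (s • x + t • y) (u • x + v • y)
  kahler_nonempty : ∀ i, (C.kahler i).Nonempty
  /-- Kähler classes are of type `(1,1)` and in one component of the positive cone -/
  kahler_type : ∀ i x y, C.per i x y → ∀ κ ∈ C.kahler i, C.Type11 x y κ
  kahler_pos : ∀ i, ∀ κ ∈ C.kahler i, ∀ κ' ∈ C.kahler i, 0 < C.q κ κ'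
  kahler_smul : ∀ i, ∀ κ ∈ C.kahler i, ∀ c : ℝ, 0 < c → c • κ ∈ C.kahler i
  /-- the sum of a Kähler class and a nef class is a Kähler class -/
  kahler_add : ∀ i, ∀ κ ∈ C.kahler i, ∀ a, C.Nef i a → κ + a ∈ C.kahler i

/-- Walls and deformations of projective members (`b ≥ 5`). -/
structure NearAxioms : Prop where
  /-- wall divisor classes are integral, of negative square -/
  wall : ∀ s ∈ C.S, IsIntegral s ∧ C.q s s < 0
  /-- they have bounded square (Amerik-Verbitsky; Lehn-Mongardi-Pacienza) -/
  wall_bound : ∃ K : ℝ, ∀ s ∈ C.S, -K ≤ C.q s s
  /-- the ample cone of a projective member is a chamber of the positive cone for the wall divisor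
  classes of type `(1,1)` (Markman; Lehn-Mongardi-Pacienza) -/
  ample_iff : ∀ i x y, C.per i x y → ∀ A ∈ C.kahler i, IsIntegral A → ∀ B, IsIntegral B →
    (B ∈ C.kahler i ↔ C.Type11 x y B ∧ 0 < C.q B B ∧ 0 < C.q B A ∧
      ∀ s ∈ C.S, C.Type11 x y s → 0 < C.q s A * C.q s B)
  /-- Small deformations of the pair `(X_i, a)`: near `(x, y, κ)` every plane `⟨x', y'⟩` orthogonal
  to `a` is the period plane of a member `X_j` on which a given class `κ'` of type `(1,1)` is a Kähler
  class (local Torelli theorem for locally trivial deformations, Namikawa, Bakker-Lehn; stability of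
  Kähler classes). These `X_j` are the fibres of one locally trivial family over a ball. The relative
  space of cycles of class `γ` is proper over the ball (Bishop, Barlet), so the points of these
  cycles form a closed analytic subset of the total space (Remmert), and it is everything if it
  contains a non-empty open set. -/
  near : ∀ i a x y κ, C.NefLine i a → a ≠ 0 → C.q a a = 0 → C.per i x y → κ ∈ C.kahler i →
    ∃ ε : ℝ, 0 < ε ∧ ∀ x' y' κ', C.Type11 x' y' κ' → C.Type11 x' y' a → dist x' x < ε →
      dist y' y < ε → dist κ' κ < ε →
      ∃ j, C.per j x' y' ∧ κ' ∈ C.kahler j ∧ (C.Swept j a → C.Swept i a)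
  /-- Matsushita, Schwald: a semiample line bundle with `q(a, a) = 0` defines a Lagrangian
  fibration, whose general fibre `F` is a complex torus in the regular locus, and `H²(X_i) → H²(F)`
  has the kernel `a^⊥`; so `F` deforms with the pair `(X_i, a)` (Voisin; Kamenova-Lehn for singular
  `X_i`) and its deformations cover an open set; their limits cover the nearby members -/
  spread : ∀ i a, C.NefLine i a → a ≠ 0 → C.q a a = 0 → C.Semiample i a → C.Swept i a
  /-- a nef class which has degree `0` on a cycle is numerically trivial on its components -/
  covered : ∀ i a, C.NefLine i a → C.Swept i a → C.Covered i a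

/-- Ricci-flat metrics. -/
structure MetricAxioms : Prop where
  /-- singular Ricci-flat metrics (Yau; Eyssidieux-Guedj-Zeriahi) in multiples of rational classes on
  projective members; the symplectic form is parallel (Greb-Kebekus-Peternell; Claudon, Graf,
  Guenancia, Naumann), so it defines a hyperkähler structure on the regular part. Here `κ` is the
  class of `ω_I` and `σ_I = ω_J + i ω_K`. -/
  egz : ∀ i x y κ, C.Projective i → IsRational κ → C.per i x y → κ ∈ C.kahler i → C.q x y = 0 →
    C.q x x = C.q κ κ → C.q y y = C.q κ κ → ∃ h, C.IsMem h 0 i ∧
      C.M.cls h 0 = κ ∧ C.M.cls h 1 = x ∧ C.M.cls h 2 = y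
  /-- calculus on the regular part, the singular set, approximation, Sobolev inequality, see
  `Reg` -/
  calculus : ∀ g, (C.reg g).Calculus
  leibniz : ∀ g, (C.reg g).Leibniz
  pole : ∀ g, ∃ φ, (C.reg g).Pole φ
  approx : ∀ g, (C.reg g).Approx
  sobolev : ∀ g, (C.reg g).Sobolev
  /-- Honda's criterion: if the eigenfunctions have bounded gradient, then the completion of `X` is a
  non-collapsed `RCD(0, 4n)` space, and the theory of these spaces applies (De Philippis-Gigli,
  Bruè-Naber-Semola). A ball of the completion which is metrically almost flat is in `X`, for all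
  the metrics with the same constant: the volume density at a singular point is the local volume
  divided by `(2n)^(2n)` (Székelyhidi 2024 for projective members and rational classes; Li-Xu,
  Donaldson-Sun), it is less than `1` (Liu-Xu) and takes finitely many values, since the germs of
  all the members are those of one of them. -/
  rcd : (∀ g, ∀ f ∈ (C.reg g).sm, ∀ l : ℝ, (∃ K, ∀ x, |f x| ≤ K) →
      (∀ x, (C.reg g).lap f x = - l * f x) → ∃ K, ∀ x, (C.reg g).gr f f x ≤ K) →
    (∃ B, C.M.D.Heat B) ∧ C.M.D.toGeo.Regularity
  /-- metrics, charts, special Lagrangian tori -/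
  hk : (∃ B, C.M.D.Heat B) → C.M.D.toGeo.Regularity → C.M.Facts
  /-- calculus of the line bundles of `Quant` -/
  quant_facts : ∀ h i A (t : ℝ), C.Projective i → C.IsMem h 0 i → IsRational (C.M.cls h 0) →
    IsIntegral A → 0 < t → C.M.cls h 1 = t • A → (C.quant h).Facts
  /-- compatibility of the definitions -/
  torus : ∀ h i a, C.IsMem h 0 i → C.M.LagTorus h a → C.Torus i a

/-- Degenerations of maximal type: `h k` are hyperkähler structures such that `(X, J)` is the regular
part of a projective variety `Y_k` polarised by `A`, see `Pol`, with period `exp(i y_k N) ω`, i.e.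
`σ_J = ω_K + i ω_I = i exp(i y_k N) ω`, `y_k → ∞`. Infinitely many of the `Y_k` are fibres of one
projective degeneration over a disc. The `(Y_k, A)` are bounded (Matsusaka, Kollár; Birkar).
They have locally trivial deformations only (Namikawa), so the period map of a component `Z` of their
moduli space (Viehweg) to `Γ \ D`, `D` the period domain of `A^⊥`, is quasi-finite (local Torelli
theorem) and algebraic (Baily-Borel, Borel). Infinitely many `k` are on one branch of `Z` over the
holomorphic disc `exp(z N) ω` (`ω` need not be rational). The markings of `Y_k` as a fibre and by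
`(X, J)` differ by an isometry which fixes `A` and the period, so for large `k` it maps `α` to `±α` and
commutes with `N`, and `res_N`, `res_A` hold for both. Then one takes a semistable model and a deepest
point of its central fibre (Nicaise-Xu, Kollár-Nicaise-Xu), see `Model` and `LogModel`. -/
def DegenerationAxiom : Prop :=
  ∀ α A A₀ ω : Vec b, IsIntegral α → IsIntegral A → IsIntegral A₀ →
    C.q α α = 0 → C.q α A = 0 → C.q α A₀ = 0 → C.q A A₀ = 0 → 0 < C.q A A → 0 < C.q A₀ A₀ →
    C.q ω ω = 0 → C.q ω A = 0 → 0 < C.q α ω →
    ∀ (h : ℕ → C.M.HK) (y t : ℕ → ℝ), Tendsto y atTop atTop → (∀ k, C.Pol (h k) A) →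
    (∀ k, 0 < t k ∧ C.M.cls (h k) 0 = C.orbRe α A₀ ω (y k) ∧ C.M.cls (h k) 1 = t k • A ∧
      C.M.cls (h k) 2 = -C.orbIm α A₀ ω (y k)) →
    ∃ (s : ℕ → ℕ) (Q : C.M.LogModel) (B : ℝ), StrictMono s ∧
      Q.Facts (fun k => h (s k)) A (C.nil α A₀) B

/-- Nef line bundles on the projective members (klt varieties with `K = 0` and `h¹(O) = 0`). -/
structure NefAxioms : Prop where
  trivial : ∀ i, C.Projective i → C.Semiample i 0
  /-- the base point free theorem: a nef line bundle `L` with `q(L) > 0` is big and semiample -/
  base_point_free : ∀ i a, C.NefLine i a → 0 < C.q a a → C.Semiample i a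
  /-- the deformations of a Lagrangian torus in the regular locus are unobstructed and cover an
  open set (Voisin, Ran); their limits (properness of the Chow variety) cover `X_i` -/
  sweep : ∀ i a, C.NefLine i a → C.Torus i a → C.Covered i a
  /-- nef reduction (Bauer, Campana, Eckl, Kebekus, Peternell, Rams, Szemberg, Wotzlaw) -/
  nefDim_le : ∀ i a, C.NefLine i a → C.Covered i a → C.nefDim i a ≤ n
  numDim_le : ∀ i a, C.NefLine i a → C.numDim i a ≤ C.nefDim i a
  /-- the Fujiki relation `∫ (a + t κ)^{2n} = c q(a + t κ)^n` -/
  numDim_eq : ∀ i a, C.NefLine i a → a ≠ 0 → C.q a a = 0 → C.numDim i a = n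
  /-- if the numerical dimension is the dimension of the base of the nef reduction then a multiple
  of the line bundle is, on a modification, the pull-back of a nef and big line bundle (Nakayama,
  Lehmann; `H¹(X_i, O) = 0`) -/
  kod_eq : ∀ i a, C.NefLine i a → C.numDim i a = C.nefDim i a → C.kod i a = C.numDim i a
  /-- Kawamata: nef and abundant line bundles on klt varieties with `K = 0` are semiample -/
  kawamata : ∀ i a, C.NefLine i a → C.kod i a = C.numDim i a → C.Semiample i a

/-- The published facts used for all second Betti numbers. -/
structure Axioms : Prop extends LatticeAxioms C, KahlerAxioms C, MetricAxioms C, NefAxioms C where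
  near : 5 ≤ b → C.NearAxioms
  degeneration : C.DegenerationAxiom

/-- Rotation: the singular Ricci-flat hyperkähler structure of a projective member with rational
period plane, in a rational Kähler class `κ`, is also, for `J`, that of a projective variety
polarised by `A`. -/
def ExistsPol : Prop :=
  ∀ i x y κ A (t : ℝ), C.Projective i → IsRational κ → C.per i x y → κ ∈ C.kahler i →
    C.q x y = 0 → C.q x x = C.q κ κ → C.q y y = C.q κ κ → IsIntegral A → 0 < t → x = t • A →
    IsRational y → ∃ h, C.IsMem h 0 i ∧ C.M.cls h 0 = κ ∧ C.M.cls h 1 = x ∧ C.M.cls h 2 = y ∧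
      C.Pol h A

end Fam

end Pool.Agent.SYM.V3
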