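import Pool.Agent.SYM.SingMain
import Pool.Agent.SYM.V3.QData

/-!
# SYM/V3/Quant : the prequantum line bundles of a singular hyperkahler metric

`X` is the regular part of a projective primitive symplectic variety `X_0` (complex structure `I`),
with the metric of Eyssidieux, Guedj and Zeriahi, `J` is another parallel complex structure such
that a multiple of the class of `ω_J` is integral. `L^j → X` is the `J`-holomorphic hermitian line
bundle with curvature form `j κ ω_J`.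

Fields are elementary calculus on `X` or published facts. PROVED from them in the modules `V3/Q*`:
the local primitives of `ω_J` are bounded, the eigensections of `∂bar* ∂bar` are bounded with
bounded gradient, and the `L²` estimate for `∂bar_J` with values in `L^j`.
-/

set_option autoImplicit false

open MeasureTheory Set Filter
open scoped Topology ContDiff ComplexConjugate

namespace Pool.Agent.SYM

namespace Reg

variable (D : Reg)

/-- `f` is smooth on the open set `U` (its values outside `U` do not matter) -/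
def SmoothOn (U : Set D.X) (f : D.X → ℝ) : Prop :=
  ∀ x ∈ U, ∃ h ∈ D.sm, h =ᶠ[𝓝 x] f

/-- Smoothness is local, `gr` and `lap` are differential operators; by definition `lap f x = 0` and
`gr f k x = 0` if `f` (or `k`) is not smooth near `x`. -/
structure Sheaf : Prop where
  glue : ∀ f, D.SmoothOn univ f → f ∈ D.sm
  lap_loc : ∀ f h x, f =ᶠ[𝓝 x] h → D.lap f x = D.lap h x
  gr_loc : ∀ f h k x, f =ᶠ[𝓝 x] h → D.gr f k x = D.gr h k x ∧ D.gr k f x = D.gr k h x

/-- The gradient estimates for Poisson's equation on a compact `RCD(0, N)` space of which `X` is the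
regular part, with complement of capacity zero, so that bounded functions with finite energy are in
`W^{1,2}`. With the bounds of Jiang, Li and Zhang for the heat kernel and its gradient and
`vol B(x, r) ≥ c r^N` one has `|dw| ∈ L^q` if `Δ w ∈ L^p`, `1 / q > 1 / p - 1 / N`, and `|dw|` is
bounded if `p > N`. -/
structure GradEst (N : ℕ) : Prop where
  gain : ∀ p : ℝ, 2 ≤ p → ∀ w ∈ D.sm, (∃ M, ∀ x, |w x| ≤ M) → Integrable (D.gr w w) D.vol →
    Integrable (fun x => |D.lap w x| ^ p) D.vol →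
    Integrable (fun x => (D.gr w w x) ^ (p * (1 + 1 / N) / 2)) D.vol
  sup : ∀ p : ℝ, N < p → 2 ≤ p → ∀ w ∈ D.sm, (∃ M, ∀ x, |w x| ≤ M) →
    Integrable (D.gr w w) D.vol → Integrable (fun x => |D.lap w x| ^ p) D.vol →
    ∃ K, ∀ x, D.gr w w x ≤ K

/-- Bounded eigenfunctions have bounded gradient: Honda's criterion for the `RCD` property. -/
def EigenLip : Prop :=
  ∀ f ∈ D.sm, ∀ M l : ℝ, (∀ x, |f x| ≤ M) → (∀ x, D.lap f x = - l * f x) → ∃ K, ∀ x, D.gr f f x ≤ K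

end Reg

namespace V3

/-! ## the local primitives -/

/-- * `z_bdd`: the trace of an ambient metric is bounded; `z c` is a square.
* `lap_u`, `kato`: Bochner's formula for a holomorphic 1-form, `Ric = 0`.
* `comp`: on overlaps `μ_c - μ_c' = dF` with `F` holomorphic on a normal space, so `|dF|` is bounded.
* `growth`: `μ_c` extends to a reflexive form and `ω ≥ c |F|^C θ`. -/
structure Charts.Facts {D : Reg} (C : Charts D) (φ : D.X → ℝ) : Prop where
  isOpen : ∀ c, IsOpen (C.U c)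
  z_sm : ∀ c, C.z c ∈ D.sm
  z_nonneg : ∀ c x, 0 ≤ C.z c x
  z_sum : ∀ x, ∑ c, C.z c x = 1
  z_supp : ∀ c, tsupport (C.z c) ⊆ C.U c
  z_bdd : ∃ K : ℝ, 0 ≤ K ∧ ∀ c x, |D.lap (C.z c) x| ≤ K ∧ D.gr (C.z c) (C.z c) x ≤ K * C.z c x
  u_sm : ∀ c, D.SmoothOn (C.U c) (C.u c)
  u_nonneg : ∀ c x, 0 ≤ C.u c x
  a_nonneg : ∀ c x, 0 ≤ C.a c x
  lap_u : ∀ c, ∀ x ∈ C.U c, D.lap (C.u c) x = C.a c x
  kato : ∀ c, ∀ x ∈ C.U c, D.gr (C.u c) (C.u c) x ≤ C.a c x * C.u c x
  comp : ∃ K : ℝ, 0 ≤ K ∧ ∀ c c' x, x ∈ tsupport (C.z c) → x ∈ tsupport (C.z c') →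
    C.u c x ≤ 2 * C.u c' x + K
  growth : ∃ K : ℝ, 0 ≤ K ∧ ∀ c, ∀ x ∈ tsupport (C.z c), C.u c x ≤ Real.exp (-(K * φ x))

/-! ## hermitian vector bundles -/

structure Sec.Facts (D : Reg) (A : Sec D.X) : Prop where
  add_left : ∀ s t r x, A.ip (s + t) r x = A.ip s r x + A.ip t r x
  smul_left : ∀ (c : ℂ) s t x, A.ip (c • s) t x = conj c * A.ip s t x
  symm : ∀ s t x, conj (A.ip t s x) = A.ip s t x
  nonneg : ∀ s x, 0 ≤ A.n s x
  eq_zero : ∀ s, (∀ x, A.n s x = 0) → s = 0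
  cont : ∀ s t, Continuous (A.ip s t)
  mul_ip : ∀ χ ∈ D.sm, ∀ s t x, A.ip (A.mul χ s) t x = χ x * A.ip s t x

/-- `d` is linear -/
def IsLin {X : Type} {A A' : Sec X} (d : A.S → A'.S) : Prop :=
  ∀ (s : A.S) (c : ℂ) (t : A.S), d (s + c • t) = d s + c • d t

namespace IsLin

variable {X : Type} {A A' : Sec X} {d : A.S → A'.S} (h : IsLin (A := A) (A' := A') d)

/-- the linear map -/
def map : A.S →ₗ[ℂ] A'.S where
  toFun := d
  map_add' := fun s t => by
    have := h s 1 t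
    rwa [one_smul, one_smul] at this
  map_smul' := fun c s => by
    have h0 : d 0 = 0 := by
      have := h 0 1 0
      rw [smul_zero, add_zero, one_smul] at this
      exact left_eq_add.1 this
    have := h 0 c s
    rw [zero_add, h0, zero_add] at this
    exact this

include h

theorem zero : d 0 = 0 := h.map.map_zero

theorem sub (s t : A.S) : d (s - t) = d s - d t := h.map.map_sub s t

theorem smul (c : ℂ) (s : A.S) : d (c • s) = c • d s := h.map.map_smul c s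

theorem sum {ι : Type} (S : Finset ι) (f : ι → A.S) : d (∑ i ∈ S, f i) = ∑ i ∈ S, d (f i) :=
  map_sum h.map f S

end IsLin

/-- Algebra: the hermitian bundles, linearity, `∂bar² = 0`, `|∇ s|²`. -/
structure Bun.Alg {D : Reg} (B : Bun D) : Prop where
  l0 : IsLin (A := B.A0) (A' := B.A1) B.d0
  l1 : IsLin (A := B.A1) (A' := B.A2) B.d1
  ls : IsLin (A := B.A1) (A' := B.A0) B.ds
  f0 : B.A0.Facts D
  f1 : B.A1.Facts D
  f2 : B.A2.Facts D
  d1_d0 : ∀ s, B.d1 (B.d0 s) = 0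
  n_sm : ∀ s, B.A0.n s ∈ D.sm
  nab_cont : ∀ s, Continuous (B.nab s)
  nab_add : ∀ s t x, B.nab (s + t) x ≤ 2 * B.nab s x + 2 * B.nab t x
  nab_smul : ∀ (c : ℂ) s x, B.nab (c • s) x = ‖c‖ ^ 2 * B.nab s x
  d0_le : ∀ s x, B.A1.n (B.d0 s) x ≤ B.nab s x

/-- The Leibniz rules for the product with a real function `χ`. -/
structure Bun.Leib {D : Reg} (B : Bun D) : Prop where
  leib0 : ∀ χ ∈ D.sm, ∀ s x,
    B.A1.n (B.d0 (B.A0.mul χ s) - B.A1.mul χ (B.d0 s)) x ≤ D.gr χ χ x * B.A0.n s x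
  leib1 : ∀ χ ∈ D.sm, ∀ e x,
    B.A2.n (B.d1 (B.A1.mul χ e) - B.A2.mul χ (B.d1 e)) x ≤ D.gr χ χ x * B.A1.n e x
  leibs : ∀ χ ∈ D.sm, ∀ e x,
    B.A0.n (B.ds (B.A1.mul χ e) - B.A0.mul χ (B.ds e)) x ≤ D.gr χ χ x * B.A1.n e x

/-- Stokes' theorem and the Bochner-Kodaira inequality (`Ric = 0`, curvature `k ω_J`) for the section
`χ v` and the form `χ e` with compact support. -/
structure Bun.Stokes {D : Reg} (B : Bun D) (k : ℝ) : Prop where
  adj : ∀ χ ∈ D.cs, ∀ v e,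
    ∫ x, B.A1.ip (B.d0 (B.A0.mul χ v)) e x ∂D.vol = ∫ x, B.A0.ip (B.A0.mul χ v) (B.ds e) x ∂D.vol
  bk : ∀ χ ∈ D.cs, ∀ e,
    k * ∫ x, B.A1.n (B.A1.mul χ e) x ∂D.vol ≤
      ∫ x, B.A2.n (B.d1 (B.A1.mul χ e)) x ∂D.vol + ∫ x, B.A0.n (B.ds (B.A1.mul χ e)) x ∂D.vol

/-- Elementary calculus for `L` with curvature `k ω_J`, in complex dimension `m`; `weitz` is
`Δ |s|² = |∇ s|² - 2 Re ⟨∂bar* ∂bar s, s⟩ - k m |s|²`. -/
structure Bun.Facts {D : Reg} (B : Bun D) (k : ℝ) (m : ℕ) : Prop extends B.Alg, B.Leib,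
    B.Stokes k where
  weitz : ∀ s x, D.lap (B.A0.n s) x =
    B.nab s x - 2 * (B.A0.ip (B.ds (B.d0 s)) s x).re - k * m * B.A0.n s x
  kato : ∀ s x, D.gr (B.A0.n s) (B.A0.n s) x ≤ 2 * B.nab s x * B.A0.n s x

/-- The Friedrichs extension of `∂bar* ∂bar` has compact resolvent (Sobolev inequality, Kato's
inequality, Rellich's theorem in the interior), so there is an orthonormal basis of the space of
square integrable sections which consists of (smooth) eigensections with finite energy. -/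
structure Bun.Spectrum {D : Reg} (B : Bun D) (v : ℕ → B.A0.S) (l : ℕ → ℝ) : Prop where
  eig : ∀ i, B.ds (B.d0 (v i)) = (l i : ℂ) • v i
  int : ∀ i, Integrable (B.A0.n (v i)) D.vol
  nab_int : ∀ i, Integrable (B.nab (v i)) D.vol
  ortho : ∀ i j, ∫ x, B.A0.ip (v i) (v j) x ∂D.vol = if i = j then 1 else 0
  parseval : ∀ s : B.A0.S, Integrable (B.A0.n s) D.vol →
    HasSum (fun i => ‖∫ x, B.A0.ip (v i) s x ∂D.vol‖ ^ 2) (∫ x, B.A0.n s x ∂D.vol)

/-- Over `U c` the bundle `L` has a unitary frame with connection form `k λ`, `λ = Re μ_c`,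
`d* λ = 0`, `dλ = ω_J`: twisted by `- k λ` the connection is flat, and its holonomy is trivial, as
the local fundamental groups of klt singularities are finite (Xu, Braun) and `κ` contains the order
of the groups `H_1(U c)`;
`co c s` is the coefficient `f` of `s`, so `∇ s = df - i k λ f`,
`Δ f = - ∂bar* ∂bar s + O (|λ| |∇ s| + (1 + |λ|²) |s|)` in the frame. -/
structure Bun.Frame {D : Reg} (B : Bun D) (C : Charts D) (co : Fin C.N → B.A0.S → D.X → ℂ) :
    Prop where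
  re_sm : ∀ c s, D.SmoothOn (C.U c) (fun x => (co c s x).re)
  im_sm : ∀ c s, D.SmoothOn (C.U c) (fun x => (co c s x).im)
  abs_eq : ∀ c s, ∀ x ∈ C.U c, ‖co c s x‖ ^ 2 = B.A0.n s x
  gr_le : ∃ K : ℝ, 0 ≤ K ∧ ∀ c s, ∀ x ∈ C.U c,
    D.gr (fun x => (co c s x).re) (fun x => (co c s x).re) x +
      D.gr (fun x => (co c s x).im) (fun x => (co c s x).im) x ≤
      K * (B.nab s x + C.u c x * B.A0.n s x)
  nab_le : ∃ K : ℝ, 0 ≤ K ∧ ∀ c s, ∀ x ∈ C.U c, B.nab s x ≤
    K * (D.gr (fun x => (co c s x).re) (fun x => (co c s x).re) x +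
      D.gr (fun x => (co c s x).im) (fun x => (co c s x).im) x + C.u c x * B.A0.n s x)
  lap_le : ∃ K : ℝ, 0 ≤ K ∧ ∀ c s, ∀ x ∈ C.U c,
    |D.lap (fun x => (co c s x).re) x| + |D.lap (fun x => (co c s x).im) x| ≤
      K * (√(B.A0.n (B.ds (B.d0 s)) x) + (1 + C.u c x) * √(B.A0.n s x) + √(C.u c x * B.nab s x))

/-! ## conclusions -/

/-- The `L²` estimate: for a bounded `∂bar`-closed `f` with square integrable `∂bar* f` there are
bounded sections `g_n` with bounded gradient, Cauchy in `L²`, `k ‖g_n‖² ≤ ‖f‖²`, `∂bar g_n → f`.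
(So the limit `u` of the `g_n` satisfies `∂bar u = f`, `k ‖u‖² ≤ ‖f‖²`.) -/
def Bun.L2Est {D : Reg} (B : Bun D) (k : ℝ) : Prop :=
  ∀ f : B.A1.S, (∃ M, ∀ x, B.A1.n f x ≤ M) → Integrable (B.A0.n (B.ds f)) D.vol → B.d1 f = 0 →
    ∃ g : ℕ → B.A0.S,
      (∀ n, ∃ M, ∀ x, B.A0.n (g n) x ≤ M ∧ B.nab (g n) x ≤ M) ∧
      (∀ n, k * ∫ x, B.A0.n (g n) x ∂D.vol ≤ ∫ x, B.A1.n f x ∂D.vol) ∧
      (∀ ε : ℝ, 0 < ε → ∃ n₀, ∀ n, n₀ ≤ n → ∀ n', n₀ ≤ n' →
        ∫ x, B.A0.n (g n - g n') x ∂D.vol < ε) ∧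
      Tendsto (fun n => ∫ x, B.A1.n (B.d0 (g n) - f) x ∂D.vol) atTop (𝓝 0)

/-- square integrable holomorphic sections with finite energy are bounded with bounded gradient -/
def Bun.LipHol {D : Reg} (B : Bun D) : Prop :=
  ∀ s : B.A0.S, Integrable (B.A0.n s) D.vol → Integrable (B.nab s) D.vol → B.d0 s = 0 →
    ∃ M, ∀ x, B.A0.n s x ≤ M ∧ B.nab s x ≤ M

/-! ## the prequantum data -/

structure Quant.Facts {D : Reg} (Q : Quant D) : Prop where
  calculus : D.Calculus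
  leib : D.Leibniz
  sheaf : D.Sheaf
  pole : D.Pole Q.φ
  phi_sq : Integrable (fun x => Q.φ x ^ 2) D.vol
  approx : D.Approx
  sobolev : D.Sobolev
  honda : D.EigenLip → D.GradEst (2 * Q.m)
  m_pos : 0 < Q.m
  κ_pos : 0 < Q.κ
  charts : Q.C.Facts Q.φ
  bun : ∀ j, 1 ≤ j → (Q.B j).Facts (j * Q.κ) Q.m
  spec : ∀ j, 1 ≤ j → (Q.B j).Spectrum (Q.v j) (Q.l j)
  frame : ∀ j, 1 ≤ j → (Q.B j).Frame Q.C (Q.co j)

/-- the statement proved in `V3/QMain` -/
def Quant.Goal {D : Reg} (Q : Quant D) : Prop :=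
  ∀ j : ℕ, 1 ≤ j → (Q.B j).L2Est (j * Q.κ) ∧ (Q.B j).LipHol

end V3

end Pool.Agent.SYM
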