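import Pool.Agent.SYM.V3.NearP

/-!
# SYM/V3/NearQ : the special member near a given projective member, its nilpotent orbit
-/

set_option autoImplicit false
set_option linter.unusedSectionVars false

open Module Filter Topology

namespace Pool.Agent.SYM.V3.Lat

namespace LData

variable {b : ℕ} {C : LData b}

/-- a positively oriented orthogonal basis of the period plane -/
theorem Base.exists_orth (hC : C.Base) (hB : C.PerBasis) (i : C.I) :
    ∃ x y, C.per i x y ∧ C.q x y = 0 := by
  obtain ⟨x, y, hp⟩ := hC.per_exists i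
  have hpp := hC.per_pos i x y hp
  have hxx : 0 < C.q x x := by
    have := hpp 1 0 (Or.inl one_ne_zero)
    simpa using this
  have h1 := hB i x y hp 1 0 (-(C.q x y / C.q x x)) 1 (by simp)
  rw [one_smul, zero_smul, add_zero, one_smul] at h1
  refine ⟨x, (-(C.q x y / C.q x x)) • x + y, h1, ?_⟩
  rw [map_add, map_smul, smul_eq_mul]
  field_simp
  ring

/-- a special member near `X_i` -/
theorem exists_cusp_local (hC : C.Base) (hW : C.Walls) (hB : C.PerBasis) {i : C.I} {α κ : Vec b}
    (hα : α ∈ lattice b) (hα0 : α ≠ 0) (hαα : C.q α α = 0) (hnef : C.Nef i α)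
    (hκ : κ ∈ C.kahler i) (hκl : κ ∈ lattice b) {P : C.I → Prop} (hN : C.NearBy α P i) :
    ∃ D : Cusp C α, (P D.j → P i) ∧ D.Facts := by
  obtain ⟨x, y, hp, hxy⟩ := hC.exists_orth hB i
  obtain ⟨hαx, hαy, hακ⟩ := hC.nef_pos hp hnef hα0 hαα hκ
  obtain ⟨hκx, hκy⟩ := hC.kahler_type _ _ _ hp _ hκ
  have hpp := hC.per_pos i x y hp
  have hxx : 0 < C.q x x := by
    have := hpp 1 0 (Or.inl one_ne_zero)
    simpa using this
  have hyy : 0 < C.q y y := by
    have := hpp 0 1 (Or.inr one_ne_zero)
    simpa using this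
  obtain ⟨ε₁, hε₁, hnear⟩ := hN x y κ hp hκ
  obtain ⟨ε₂, hε₂, hwall⟩ := near_wall hC hW hp hκ hκl hα hα0 hαα hnef
  -- the projection of `κ` depends continuously on the plane
  let f : Vec b × Vec b → Vec b := fun z =>
    κ - (C.q κ z.1 / C.q z.1 z.1) • z.1 - (C.q κ z.2 / C.q z.2 z.2) • z.2
  have hq1 : Continuous fun z : Vec b => C.q κ z :=
    LinearMap.continuous_of_finiteDimensional (C.q κ)
  have hq2 : Continuous fun z : Vec b => C.q z z := continuous_q_self
  have hfc : ContinuousAt f (x, y) := by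
    have c1 : ContinuousAt (fun z : Vec b × Vec b => C.q κ z.1 / C.q z.1 z.1) (x, y) :=
      (hq1.comp continuous_fst).continuousAt.div (hq2.comp continuous_fst).continuousAt hxx.ne'
    have c2 : ContinuousAt (fun z : Vec b × Vec b => C.q κ z.2 / C.q z.2 z.2) (x, y) :=
      (hq1.comp continuous_snd).continuousAt.div (hq2.comp continuous_snd).continuousAt hyy.ne'
    exact (continuousAt_const.sub (c1.smul continuousAt_fst)).sub (c2.smul continuousAt_snd)
  have hfx : f (x, y) = κ := by
    change κ - (C.q κ x / C.q x x) • x - (C.q κ y / C.q y y) • y = κ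
    rw [hκx, hκy]
    simp
  obtain ⟨δ, hδ, hfδ⟩ := Metric.continuousAt_iff.1 hfc (min ε₁ ε₂) (lt_min hε₁ hε₂)
  obtain ⟨A, hA, A0, hA0, s, t, hs, ht, hAα, hA0α, hAA0, posA, posA0, h1, h2⟩ :=
    approx_plane (C := C.bare) hC.bare (x := x) (y := y) (α := α) hα hα0 hpp hxy hαx hαy
      (ε := min δ (min ε₁ ε₂)) (lt_min hδ (lt_min hε₁ hε₂))
  change C.q A α = 0 at hAα
  change C.q A0 α = 0 at hA0α
  change C.q A A0 = 0 at hAA0
  change 0 < C.q A A at posA
  change 0 < C.q A0 A0 at posA0
  have hA0A : C.q A0 A = 0 := by rw [hC.symm, hAA0]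
  have hαA : C.q α A = 0 := by rw [hC.symm, hAα]
  have hαA0 : C.q α A0 = 0 := by rw [hC.symm, hA0α]
  obtain ⟨r', hr'⟩ := hC.integral A hA A hA
  obtain ⟨r0', hr0'⟩ := hC.integral A0 hA0 A0 hA0
  obtain ⟨c', hc'⟩ := hC.integral κ hκl A hA
  obtain ⟨c0', hc0'⟩ := hC.integral κ hκl A0 hA0
  set r : ℝ := C.q A A with hr
  set r0 : ℝ := C.q A0 A0 with hr0
  -- the rational Kähler class
  set w : Vec b := (r0 * r) • κ - (r * C.q κ A0) • A0 - (r0 * C.q κ A) • A with hw
  have hwl : w ∈ lattice b := by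
    rw [hw, hr', hr0', hc', hc0']
    have e1 : ((r0' : ℝ) * (r' : ℝ)) • κ ∈ lattice b := by
      have := lattice_smul hκl (r0' * r')
      push_cast at this
      exact this
    have e2 : ((r' : ℝ) * (c0' : ℝ)) • A0 ∈ lattice b := by
      have := lattice_smul hA0 (r' * c0')
      push_cast at this
      exact this
    have e3 : ((r0' : ℝ) * (c' : ℝ)) • A ∈ lattice b := by
      have := lattice_smul hA (r0' * c')
      push_cast at this
      exact this
    exact (lattice b).sub_mem ((lattice b).sub_mem e1 e2) e3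
  have hκ'f : f (s • A0, t • A) = (r0 * r)⁻¹ • w := by
    change κ - (C.q κ (s • A0) / C.q (s • A0) (s • A0)) • (s • A0) -
      (C.q κ (t • A) / C.q (t • A) (t • A)) • (t • A) = _
    have e1 : C.q κ (s • A0) / C.q (s • A0) (s • A0) * s = C.q κ A0 / r0 := by
      rw [map_smul, map_smul, C.q.map_smul, LinearMap.smul_apply, smul_eq_mul, smul_eq_mul,
        smul_eq_mul, ← hr0]
      field_simp
    have e2 : C.q κ (t • A) / C.q (t • A) (t • A) * t = C.q κ A / r := by
      rw [map_smul, map_smul, C.q.map_smul, LinearMap.smul_apply, smul_eq_mul, smul_eq_mul,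
        smul_eq_mul, ← hr]
      field_simp
    rw [smul_smul, smul_smul, e1, e2, hw, smul_sub, smul_sub, smul_smul, smul_smul, smul_smul,
      inv_mul_cancel₀ (by positivity), one_smul]
    congr 2
    · congr 1
      field_simp
    · field_simp
  have hdist : dist ((r0 * r)⁻¹ • w) κ < min ε₁ ε₂ := by
    rw [← hκ'f]
    have h3 : dist (s • A0, t • A) (x, y) < δ := by
      rw [Prod.dist_eq]
      exact max_lt (lt_of_lt_of_le h1 (min_le_left _ _)) (lt_of_lt_of_le h2 (min_le_left _ _))
    have h4 := hfδ h3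
    rwa [hfx] at h4
  have hwA0 : C.q w A0 = 0 := by
    rw [hw]
    simp only [map_sub, map_smul, LinearMap.sub_apply, LinearMap.smul_apply, smul_eq_mul, hAA0]
    rw [← hr0]
    ring
  have hwA : C.q w A = 0 := by
    rw [hw]
    simp only [map_sub, map_smul, LinearMap.sub_apply, LinearMap.smul_apply, smul_eq_mul, hA0A]
    rw [← hr]
    ring
  have hε : min δ (min ε₁ ε₂) ≤ min ε₁ ε₂ := min_le_right _ _
  obtain ⟨j, hj, hκj, hjP⟩ := hnear (s • A0) (t • A) ((r0 * r)⁻¹ • w)
    (by rw [map_smul, C.q.map_smul, LinearMap.smul_apply, hwA0, smul_zero, smul_zero])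
    (by rw [map_smul, C.q.map_smul, LinearMap.smul_apply, hwA, smul_zero, smul_zero])
    (by rw [map_smul, hαA0, smul_zero]) (by rw [map_smul, hαA, smul_zero])
    (lt_of_lt_of_le h1 (hε.trans (min_le_left _ _)))
    (lt_of_lt_of_le h2 (hε.trans (min_le_left _ _))) (lt_of_lt_of_le hdist (min_le_left _ _))
  have hwj : w ∈ C.kahler j := by
    have h3 := hC.kahler_smul _ _ hκj (r0 * r) (by positivity)
    rwa [smul_smul, mul_inv_cancel₀ (by positivity), one_smul] at h3
  have hj' : C.per j A0 A := by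
    have h3 := hB j _ _ hj s⁻¹ 0 0 t⁻¹ (by
      have : 0 < s⁻¹ * t⁻¹ := by positivity
      linarith)
    rw [smul_smul, inv_mul_cancel₀ hs.ne', one_smul, zero_smul, add_zero, zero_smul, zero_add,
      smul_smul, inv_mul_cancel₀ ht.ne', one_smul] at h3
    exact h3
  have hαw : C.q α w = r0 * r * C.q α κ := by
    rw [hw]
    simp only [map_sub, map_smul, smul_eq_mul, hαA, hαA0]
    ring
  have hαwpos : 0 < C.q α w := by rw [hαw]; positivity
  have hwα : C.q w α = C.q α w := hC.symm _ _
  have hww := hC.kahler_pos j w hwj w hwj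
  -- walls on `X_j`
  have hwallj : ∀ v, C.Sym v → C.q v A0 = 0 → C.q v A = 0 → 0 < C.q v w → 0 ≤ C.q v α := by
    intro v hv hv0 hvA hvw
    refine hwall j (s • A0) (t • A) ((r0 * r)⁻¹ • w) hj hκj
      (by rw [map_smul, hαA0, smul_zero]) (by rw [map_smul, hαA, smul_zero])
      (lt_of_lt_of_le h1 (hε.trans (min_le_right _ _)))
      (lt_of_lt_of_le h2 (hε.trans (min_le_right _ _))) (lt_of_lt_of_le hdist (min_le_right _ _))
      v hv (by rw [map_smul, hv0, smul_zero]) (by rw [map_smul, hvA, smul_zero]) ?_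
    rw [map_smul, smul_eq_mul]
    positivity
  have hample : ∀ M : ℕ, 0 < M → w + (M : ℝ) • α ∈ C.kahler j := by
    intro M hM
    have hMr : (0 : ℝ) < M := by exact_mod_cast hM
    have hl : w + (M : ℝ) • α ∈ lattice b := by
      have := lattice_smul hα (M : ℤ)
      push_cast at this
      exact (lattice b).add_mem hwl this
    refine (hW.ample_iff j A0 A hj' w hwj hwl _ hl).2 ⟨?_, ?_, ?_, ?_, ?_⟩
    · rw [C.q.map_add, C.q.map_smul, LinearMap.add_apply, LinearMap.smul_apply, hwA0, hαA0]
      simp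
    · rw [C.q.map_add, C.q.map_smul, LinearMap.add_apply, LinearMap.smul_apply, hwA, hαA]
      simp
    · simp only [map_add, map_smul, LinearMap.add_apply, LinearMap.smul_apply, smul_eq_mul, hαα,
        hwα]
      have : 0 < (M : ℝ) * C.q α w := by positivity
      linarith
    · rw [C.q.map_add, C.q.map_smul, LinearMap.add_apply, LinearMap.smul_apply, smul_eq_mul]
      have : 0 < (M : ℝ) * C.q α w := by positivity
      linarith
    · intro v hv hv0 hvA
      have h3 := hW.sym_pos hj' hwj hwl hwj hwl (Or.inl hv) hv0 hvA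
      rw [map_add, map_smul, smul_eq_mul]
      rcases lt_trichotomy (C.q v w) 0 with h4 | h4 | h4
      · have h5 := hwallj (-v) (Or.inr (by rwa [neg_neg]))
          (by rw [map_neg, LinearMap.neg_apply, hv0, neg_zero])
          (by rw [map_neg, LinearMap.neg_apply, hvA, neg_zero])
          (by rw [map_neg, LinearMap.neg_apply]; linarith)
        rw [map_neg, LinearMap.neg_apply] at h5
        have h6 : (M : ℝ) * C.q v α ≤ 0 := by
          have := mul_nonneg hMr.le h5
          linarith
        exact mul_pos_of_neg_of_neg h4 (by linarith)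
      · rw [h4] at h3
        simp at h3
      · have h5 := hwallj v (Or.inl hv) hv0 hvA h4
        have h6 : 0 ≤ (M : ℝ) * C.q v α := mul_nonneg hMr.le h5
        exact mul_pos h4 (by linarith)
  have hnefj : C.Nef j α := by
    have h3 : Tendsto (fun M : ℕ => ((M : ℝ) + 1)⁻¹ • w + α) atTop (𝓝 ((0 : ℝ) • w + α)) := by
      refine Tendsto.add_const _ (Tendsto.smul_const ?_ w)
      simpa [one_div] using tendsto_one_div_add_atTop_nhds_zero_nat (𝕜 := ℝ)
    rw [zero_smul, zero_add] at h3
    refine mem_closure_of_tendsto h3 (Eventually.of_forall fun M => ?_)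
    have h4 := hC.kahler_smul _ _ (hample (M + 1) (Nat.succ_pos M)) ((M : ℝ) + 1)⁻¹
      (by positivity)
    rw [smul_add, smul_smul] at h4
    push_cast at h4
    rw [inv_mul_cancel₀ (by positivity), one_smul] at h4
    exact h4
  exact ⟨⟨A, A0, w, j⟩, hjP,
    { hα := hα, hα0 := hα0, hαα := hαα, hA := hA, hA0 := hA0, hAα := hAα, hA0α := hA0α
      hAA0 := hAA0, posA := posA, posA0 := posA0, per := hj', kah := hwj, hω := hwl
      nef := hnefj }⟩

end LData

end Pool.Agent.SYM.V3.Lat
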