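import Pool.Agent.SYM.V3.FinalA3
import Pool.Agent.SYM.V3.NearQ

/-!
# SYM/V3/LatMain3 : the lattice part, for the data of `Fam`
-/

set_option autoImplicit false

open Module Filter Topology

namespace Pool.Agent.SYM.V3.Fam

open SYP (Vec IsIntegral)

variable {n b : ℕ} {C : Fam n b}

/-- The lattice data of a `Fam`. -/
def toLat (C : Fam n b) (hL : C.LatticeAxioms) : Lat.LData b where
  q := LinearMap.mk₂ ℝ C.q hL.q_add hL.q_smul
    (fun x y z => by rw [hL.symm, hL.q_add, hL.symm y, hL.symm z])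
    (fun c x y => by rw [hL.symm, hL.q_smul, hL.symm y]; rfl)
  S := C.S
  I := C.I
  per := C.per
  kahler := C.kahler

theorem toLat_q (hL : C.LatticeAxioms) (x y : Vec b) : (C.toLat hL).q x y = C.q x y := rfl

theorem toLat_base (hL : C.LatticeAxioms) (hK : C.KahlerAxioms) : (C.toLat hL).Base where
  symm := hL.symm
  integral := fun x hx y hy => hL.integral x y hx hy
  signature := hL.signature
  per_exists := hK.per_exists
  per_pos := hK.per_pos
  kahler_type := fun i x y hp κ hκ => hK.kahler_type i x y hp κ hκ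
  kahler_pos := hK.kahler_pos
  kahler_add := fun i κ hκ a ha => hK.kahler_add i κ hκ a ha
  kahler_smul := hK.kahler_smul

theorem toLat_perBasis (hL : C.LatticeAxioms) (hK : C.KahlerAxioms) : (C.toLat hL).PerBasis :=
  hK.per_basis

theorem toLat_walls (hL : C.LatticeAxioms) (hM : C.NearAxioms) : (C.toLat hL).Walls where
  wall_mem := fun s hs => (hM.wall s hs).1
  wall_sq := fun s hs => (hM.wall s hs).2
  wall_bound := hM.wall_bound
  ample_iff := by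
    intro i x y hp A hA hAi B hB
    refine (hM.ample_iff i x y hp A hA hAi B hB).trans ?_
    constructor
    · rintro ⟨⟨h1, h2⟩, h3, h4, h5⟩
      exact ⟨h1, h2, h3, h4, fun s hs hsx hsy => h5 s hs ⟨hsx, hsy⟩⟩
    · rintro ⟨h1, h2, h3, h4, h5⟩
      exact ⟨⟨h1, h2⟩, h3, h4, fun s hs hs' => h5 s hs hs'.1 hs'.2⟩

theorem toLat_nearBy (hL : C.LatticeAxioms) (hM : C.NearAxioms) {i : C.I} {a : Vec b}
    (ha : C.NefLine i a) (ha0 : a ≠ 0) (haa : C.q a a = 0) :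
    (C.toLat hL).NearBy a (fun j => C.Swept j a) i := by
  intro x y κ hp hκ
  obtain ⟨ε, hε, h⟩ := hM.near i a x y κ ha ha0 haa hp hκ
  exact ⟨ε, hε, fun x' y' κ' h1 h2 h3 h4 => h x' y' κ' ⟨h1, h2⟩ ⟨h3, h4⟩⟩

/-- The special member and its metrics: the hyperkähler rotations of the Ricci-flat metrics in the
integral Kähler classes `orbRe a A0 w k` of `X_j` lie on a nilpotent orbit. Here `j = i`, or `X_j`
is a small deformation of `X_i`. -/
theorem exists_orbit (hL : C.LatticeAxioms) (hK : C.KahlerAxioms) (hM : 5 ≤ b → C.NearAxioms)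
    {i : C.I} {a : Vec b} (ha : C.NefLine i a) (ha0 : a ≠ 0) (haa : C.q a a = 0) :
    ∃ (A A0 w : Vec b) (j : C.I) (y t : ℕ → ℝ),
      (b = 4 ∧ j = i ∨ 5 ≤ b ∧ (C.Swept j a → C.Swept i a)) ∧ C.NefLine j a ∧
      IsIntegral A ∧ IsIntegral A0 ∧ C.q a A = 0 ∧ C.q a A0 = 0 ∧ C.q A A0 = 0 ∧
      0 < C.q A A ∧ 0 < C.q A0 A0 ∧ C.q w w = 0 ∧ C.q w A = 0 ∧ 0 < C.q a w ∧
      Tendsto y atTop atTop ∧
      ∀ k, 0 < t k ∧ C.orbRe a A0 w (y k) ∈ C.kahler j ∧ IsRational (C.orbRe a A0 w (y k)) ∧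
        C.per j (t k • A) (-C.orbIm a A0 w (y k)) ∧ IsRational (-C.orbIm a A0 w (y k)) ∧
        C.q (t k • A) (-C.orbIm a A0 w (y k)) = 0 ∧
        C.q (t k • A) (t k • A) = C.q (C.orbRe a A0 w (y k)) (C.orbRe a A0 w (y k)) ∧
        C.q (-C.orbIm a A0 w (y k)) (-C.orbIm a A0 w (y k)) =
          C.q (C.orbRe a A0 w (y k)) (C.orbRe a A0 w (y k)) := by
  have ha' := ha
  obtain ⟨⟨κ, hκ, hκi⟩, hai, hnef⟩ := ha'
  have hB := toLat_base hL hK
  have hPB := toLat_perBasis hL hK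
  obtain ⟨A, A0, w, j, k₀, hb, hji, hA, hA0, hw, hAa, hA0a, hAA0, hpA, hpA0, hww, hwA, hwA0, haw,
    hnj, -, hproj, -, hk⟩ := Lat.LData.lat_pred hB hPB (fun j => C.Swept j a → C.Swept i a)
      (fun h => Lat.LData.exists_cusp_local hB (toLat_walls hL (hM h)) hPB hai ha0 haa hnef hκ hκi
        (toLat_nearBy hL (hM h) ha ha0 haa)) hai ha0 haa hnef hκ hκi
  have hN : ∀ x, (C.toLat hL).nil a A0 x = C.nil a A0 x := by
    intro x
    change C.q x a • A0 - C.q x A0 • a = C.q a x • A0 - C.q A0 x • a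
    rw [hL.symm a x, hL.symm A0 x]
  have hRe : ∀ y : ℝ, Lat.LData.orbRe ((C.toLat hL).nil a A0) w 0 y = C.orbRe a A0 w y := by
    intro y
    rw [Lat.LData.orbRe, orbRe, hN, hN, zero_smul, add_zero, sub_eq_add_neg w, ← neg_smul]
    have e : ((0 : ℝ) ^ 2 - y ^ 2) / 2 = -(y ^ 2 / 2) := by ring
    rw [e]
  have hIm : ∀ y : ℝ, Lat.LData.orbIm ((C.toLat hL).nil a A0) w 0 y = C.orbIm a A0 w y := by
    intro y
    rw [Lat.LData.orbIm, orbIm, hN, zero_mul, zero_smul, add_zero]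
  have key : ∀ k : ℕ, ∃ t : ℝ, 0 < t ∧ IsIntegral (C.orbRe a A0 w ((k₀ + k : ℕ) : ℝ)) ∧
      C.orbRe a A0 w ((k₀ + k : ℕ) : ℝ) ∈ C.kahler j ∧
      C.per j (t • A) (-C.orbIm a A0 w ((k₀ + k : ℕ) : ℝ)) ∧
      C.q (t • A) (-C.orbIm a A0 w ((k₀ + k : ℕ) : ℝ)) = 0 ∧
      C.q (t • A) (t • A) = C.q (C.orbRe a A0 w ((k₀ + k : ℕ) : ℝ))
        (C.orbRe a A0 w ((k₀ + k : ℕ) : ℝ)) ∧
      C.q (-C.orbIm a A0 w ((k₀ + k : ℕ) : ℝ)) (-C.orbIm a A0 w ((k₀ + k : ℕ) : ℝ)) =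
        C.q (C.orbRe a A0 w ((k₀ + k : ℕ) : ℝ)) (C.orbRe a A0 w ((k₀ + k : ℕ) : ℝ)) := by
    intro k
    obtain ⟨t, h1, h2, h3, h4, h5, h6, h7⟩ := hk (k₀ + k) (Nat.le_add_right _ _)
    rw [hRe] at h2 h3 h6 h7
    rw [hIm] at h4 h5 h7
    exact ⟨t, h1, h2, h3, h4, h5, h6, h7⟩
  choose t ht1 ht2 ht3 ht4 ht5 ht6 ht7 using key
  refine ⟨A, A0, w, j, fun k => ((k₀ + k : ℕ) : ℝ), t, hji, ⟨hproj.imp fun _ h => ⟨h.2, h.1⟩,
    hai, hnj⟩, hA, hA0, (hL.symm _ _).trans hAa, (hL.symm _ _).trans hA0a, hAA0, hpA, hpA0, hww,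
    hwA, haw, ?_, fun k => ⟨ht1 k, ht3 k, ⟨1, one_pos, ?_⟩, ht4 k, ⟨1, one_pos, ?_⟩, ht5 k,
      ht6 k, ht7 k⟩⟩
  · exact tendsto_natCast_atTop_atTop.comp
      (tendsto_atTop_mono (fun k => Nat.le_add_left k k₀) tendsto_id)
  · rw [one_smul]
    exact ht2 k
  · rw [one_smul]
    obtain ⟨m, hm⟩ := hL.integral a w hai hw
    have hA0w : C.q A0 w = 0 := (hL.symm _ _).trans hwA0
    intro l
    obtain ⟨r, hr⟩ := hA0 l
    refine ⟨-((k₀ + k : ℕ) * (m * r)), ?_⟩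
    rw [orbIm, nil, hA0w, zero_smul, sub_zero, hm]
    simp only [Pi.neg_apply, Pi.smul_apply, smul_eq_mul]
    rw [hr]
    push_cast
    ring

/-- The lattice part, in the form of `FinalA3`. -/
theorem exists_orbit' (hL : C.LatticeAxioms) (hK : C.KahlerAxioms) (hM : 5 ≤ b → C.NearAxioms)
    (hN : C.NefAxioms) (i : C.I) (a : Vec b) (ha : C.NefLine i a) (ha0 : a ≠ 0)
    (haa : C.q a a = 0) :
    ∃ (A A₀ ω : Vec b) (j : C.I) (y t : ℕ → ℝ), Orbit C i a A A₀ ω j y t := by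
  obtain ⟨A, A₀, ω, j, y, t, h1, h2, h3, h4, h5, h6, h7, h8, h9, h10, h11, h12, h13, h⟩ :=
    exists_orbit hL hK hM ha ha0 haa
  refine ⟨A, A₀, ω, j, y, t, ?_, h2, h3, h4, h5, h6, h7, h8, h9, h10, h11, h12, h13,
    fun k => (h k).1, fun k => (h k).2.1, fun k => (h k).2.2.1, fun k => (h k).2.2.2.1,
    fun k => (h k).2.2.2.2.1, fun k => (h k).2.2.2.2.2.1, fun k => (h k).2.2.2.2.2.2.1,
    fun k => (h k).2.2.2.2.2.2.2⟩
  rcases h1 with ⟨-, hji⟩ | ⟨hb, hs⟩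
  · rw [hji]
    exact id
  · exact fun h => hN.semiample_of_covered ha ha0 haa ((hM hb).covered i a ha
      (hs ((hM hb).spread j a h2 ha0 haa h)))

/-- Semiampleness of the nef isotropic line bundles, given the rotation. -/
theorem main_iso (hC : C.Axioms) (hP : C.ExistsPol) (i : C.I) (a : Vec b) (ha : C.NefLine i a)
    (ha0 : a ≠ 0) (haa : C.q a a = 0) : C.Semiample i a :=
  main_of hC hP (exists_orbit' hC.toLatticeAxioms hC.toKahlerAxioms hC.near hC.toNefAxioms)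
    i a ha ha0 haa

/-- a nef class has non-negative square -/
theorem nef_sq (hL : C.LatticeAxioms) (hK : C.KahlerAxioms) {i : C.I} {a : Vec b}
    (h : C.Nef i a) : 0 ≤ C.q a a := by
  have hcl : IsClosed {B : Vec b | 0 ≤ (C.toLat hL).q B B} :=
    isClosed_le continuous_const Lat.LData.continuous_q_self
  exact hcl.closure_subset_iff.2 (fun B hB => (hK.kahler_pos i B hB B hB).le) h

/-- All nef line bundles on the projective members, given the rotation. -/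
theorem main_nef (hC : C.Axioms) (hP : C.ExistsPol) (i : C.I) (a : Vec b) (ha : C.NefLine i a) :
    C.Semiample i a := by
  by_cases ha0 : a = 0
  · rw [ha0]
    exact hC.trivial i ha.1
  rcases (nef_sq hC.toLatticeAxioms hC.toKahlerAxioms ha.2.2).eq_or_lt with h | h
  · exact main_iso hC hP i a ha ha0 h.symm
  · exact hC.base_point_free i a ha h

end Pool.Agent.SYM.V3.Fam
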