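import Pool.Agent.SYM.V3.NearR

/-!
# SYM/V3/Lat4 : the special member, for all `b ≥ 4`

For `b = 4` the projective member `X_i` itself has a rational period plane; nothing is used on walls
and on the surjectivity of the period map.
-/

set_option autoImplicit false

open Module Filter Topology

namespace Pool.Agent.SYM.V3.Lat

namespace LData

variable {b : ℕ} {C : LData b}

/-- if `b = 4` the plane orthogonal to two independent lattice vectors is rational -/
theorem plane4 (hb : b = 4) (hC : C.Facts) {x y α κ : Vec b} (hpp : C.PosPlane x y)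
    (hα : α ∈ lattice b) (hαα : C.q α α = 0) (hκl : κ ∈ lattice b) (hαx : C.q α x = 0)
    (hαy : C.q α y = 0) (ha : 0 < C.q α κ) (hκx : C.q κ x = 0) (hκy : C.q κ y = 0) :
    ∃ A ∈ lattice b, ∃ A0 ∈ lattice b, C.q A α = 0 ∧ C.q A0 α = 0 ∧ C.q A A0 = 0 ∧
      0 < C.q A A ∧ 0 < C.q A0 A0 ∧ ∃ u w s t : ℝ, 0 < u * t - w * s ∧
        A0 = u • x + w • y ∧ A = s • x + t • y := by
  set a : ℝ := C.q α κ with haa
  set m : ℝ := C.q κ κ with hm
  have hκα : C.q κ α = a := hC.symm _ _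
  have hxα : C.q x α = 0 := by rw [hC.symm, hαx]
  have hyα : C.q y α = 0 := by rw [hC.symm, hαy]
  have hxκ : C.q x κ = 0 := by rw [hC.symm, hκx]
  have hyκ : C.q y κ = 0 := by rw [hC.symm, hκy]
  have hyx : C.q y x = C.q x y := hC.symm _ _
  -- `x, y, α, κ` is a basis
  have hli : LinearIndependent ℝ ![x, y, α, κ] := by
    rw [Fintype.linearIndependent_iff]
    intro c hc
    rw [Fin.sum_univ_four] at hc
    change c 0 • x + c 1 • y + c 2 • α + c 3 • κ = 0 at hc
    have e1 : c 3 * a = 0 := by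
      have := congrArg (fun v => C.q v α) hc
      simp only [map_add, map_smul, LinearMap.add_apply, LinearMap.smul_apply, smul_eq_mul, hxα,
        hyα, hαα, hκα, map_zero, LinearMap.zero_apply] at this
      linarith
    have c3 : c 3 = 0 := (mul_eq_zero.1 e1).resolve_right ha.ne'
    have e2 : c 2 * a = 0 := by
      have := congrArg (fun v => C.q v κ) hc
      simp only [map_add, map_smul, LinearMap.add_apply, LinearMap.smul_apply, smul_eq_mul, hxκ,
        hyκ, c3, map_zero, LinearMap.zero_apply] at this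
      rw [← haa] at this
      linarith
    have c2 : c 2 = 0 := (mul_eq_zero.1 e2).resolve_right ha.ne'
    rw [c2, c3, zero_smul, zero_smul, add_zero, add_zero] at hc
    have c01 : ¬ (c 0 ≠ 0 ∨ c 1 ≠ 0) := by
      intro h
      have := hpp _ _ h
      rw [hc] at this
      simp at this
    push Not at c01
    intro k
    fin_cases k
    · exact c01.1
    · exact c01.2
    · exact c2
    · exact c3
  have hspan := hli.span_eq_top_of_card_eq_finrank (by simp [hb])
  have hmem : ∀ v, C.q v α = 0 → C.q v κ = 0 → ∃ s t : ℝ, v = s • x + t • y := by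
    intro v h1 h2
    have hv : v ∈ Submodule.span ℝ (Set.range ![x, y, α, κ]) := by
      rw [hspan]
      exact Submodule.mem_top
    obtain ⟨c, hc⟩ := (Submodule.mem_span_range_iff_exists_fun ℝ).1 hv
    rw [Fin.sum_univ_four] at hc
    change c 0 • x + c 1 • y + c 2 • α + c 3 • κ = v at hc
    have e1 : c 3 * a = 0 := by
      rw [← hc] at h1
      simp only [map_add, map_smul, LinearMap.add_apply, LinearMap.smul_apply, smul_eq_mul, hxα,
        hyα, hαα, hκα] at h1
      linarith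
    have c3 : c 3 = 0 := (mul_eq_zero.1 e1).resolve_right ha.ne'
    have e2 : c 2 * a = 0 := by
      rw [← hc] at h2
      simp only [map_add, map_smul, LinearMap.add_apply, LinearMap.smul_apply, smul_eq_mul, hxκ,
        hyκ, c3] at h2
      rw [← haa] at h2
      linarith
    have c2 : c 2 = 0 := (mul_eq_zero.1 e2).resolve_right ha.ne'
    refine ⟨c 0, c 1, ?_⟩
    rw [← hc, c2, c3, zero_smul, zero_smul, add_zero, add_zero]
  -- the projection to `⟨α, κ⟩^⊥`
  obtain ⟨a', ha'⟩ := hC.integral α hα κ hκl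
  obtain ⟨m', hm'⟩ := hC.integral κ hκl κ hκl
  rw [← haa] at ha'
  rw [← hm] at hm'
  let P : Vec b →ₗ[ℝ] Vec b := (a * a) • LinearMap.id -
    (a • C.q κ - m • C.q α).smulRight α - (a • C.q α).smulRight κ
  have hP : ∀ v, P v = (a * a) • v - (a * C.q κ v - m * C.q α v) • α - (a * C.q α v) • κ :=
    fun v => by simp [P]
  have hPα : ∀ v, C.q (P v) α = 0 := by
    intro v
    rw [hP]
    simp only [map_sub, map_smul, LinearMap.sub_apply, LinearMap.smul_apply, smul_eq_mul, hαα,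
      hκα]
    rw [hC.symm v α]
    ring
  have hPκ : ∀ v, C.q (P v) κ = 0 := by
    intro v
    rw [hP]
    simp only [map_sub, map_smul, LinearMap.sub_apply, LinearMap.smul_apply, smul_eq_mul]
    rw [hC.symm v κ, ← haa, ← hm]
    ring
  have hPlat : ∀ v ∈ lattice b, P v ∈ lattice b := by
    intro v hv
    obtain ⟨k, hk⟩ := hC.integral κ hκl v hv
    obtain ⟨l, hl⟩ := hC.integral α hα v hv
    rw [hP, hk, hl, ha', hm']
    have e1 : ((a' : ℝ) * (a' : ℝ)) • v ∈ lattice b := by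
      have := lattice_smul hv (a' * a')
      push_cast at this
      exact this
    have e2 : ((a' : ℝ) * (k : ℝ) - (m' : ℝ) * (l : ℝ)) • α ∈ lattice b := by
      have := lattice_smul hα (a' * k - m' * l)
      push_cast at this
      exact this
    have e3 : ((a' : ℝ) * (l : ℝ)) • κ ∈ lattice b := by
      have := lattice_smul hκl (a' * l)
      push_cast at this
      exact this
    exact (lattice b).sub_mem ((lattice b).sub_mem e1 e2) e3
  have hx0 : x ≠ 0 := by
    rintro rfl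
    have := hpp 1 0 (Or.inl one_ne_zero)
    simp at this
  have hPz : ∀ z, C.q z α = 0 → C.q z κ = 0 → P z = (a * a) • z := by
    intro z h1 h2
    rw [hP, hC.symm κ z, hC.symm α z, h1, h2]
    simp
  have haane : a * a ≠ 0 := by positivity
  obtain ⟨v, hv, hv0⟩ := exists_lattice_ne (L := P) (z := x) (by
    rw [hPz x hxα hxκ]
    exact smul_ne_zero haane hx0)
  set A : Vec b := P v with hA
  have hAlat : A ∈ lattice b := hPlat v hv
  obtain ⟨s, t, hst⟩ := hmem A (hPα v) (hPκ v)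
  have hpos : ∀ s t : ℝ, s • x + t • y ≠ 0 → 0 < C.q (s • x + t • y) (s • x + t • y) := by
    intro s t h
    apply hpp
    by_contra hcon
    push Not at hcon
    apply h
    rw [hcon.1, hcon.2]
    simp
  have posA : 0 < C.q A A := by
    rw [hst]
    exact hpos s t (by rw [← hst]; exact hv0)
  obtain ⟨r, hr⟩ := hC.integral A hAlat A hAlat
  -- the projection to `⟨α, κ, A⟩^⊥`
  let P2 : Vec b →ₗ[ℝ] Vec b := (C.q A A) • P - ((C.q A).comp P).smulRight A
  have hP2 : ∀ v, P2 v = C.q A A • P v - C.q A (P v) • A := fun v => by simp [P2]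
  have hAα : C.q A α = 0 := hPα v
  have hAκ : C.q A κ = 0 := hPκ v
  have hP2lat : ∀ v ∈ lattice b, P2 v ∈ lattice b := by
    intro v hv
    obtain ⟨k, hk⟩ := hC.integral A hAlat (P v) (hPlat v hv)
    rw [hP2, hr, hk]
    exact (lattice b).sub_mem (lattice_smul (hPlat v hv) r) (lattice_smul hAlat k)
  set z : Vec b := C.q y A • x - C.q x A • y with hz
  have hzA : C.q z A = 0 := by
    rw [hz]
    simp only [map_sub, map_smul, LinearMap.sub_apply, LinearMap.smul_apply, smul_eq_mul]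
    ring
  have hzα : C.q z α = 0 := by
    rw [hz]
    simp only [map_sub, map_smul, LinearMap.sub_apply, LinearMap.smul_apply, smul_eq_mul, hxα,
      hyα]
    ring
  have hzκ : C.q z κ = 0 := by
    rw [hz]
    simp only [map_sub, map_smul, LinearMap.sub_apply, LinearMap.smul_apply, smul_eq_mul, hxκ,
      hyκ]
    ring
  have hz0 : z ≠ 0 := by
    intro h0
    have h1 : ¬ (C.q y A ≠ 0 ∨ -C.q x A ≠ 0) := by
      intro h
      have h2 := hpp _ _ h
      have h3 : C.q y A • x + (-C.q x A) • y = z := by rw [hz, neg_smul, sub_eq_add_neg]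
      rw [h3, h0] at h2
      simp at h2
    push Not at h1
    have h2 : C.q A A = s * C.q x A + t * C.q y A := by
      have e : C.q A A = C.q (s • x + t • y) A := by rw [← hst]
      rw [e, C.q.map_add, C.q.map_smul, C.q.map_smul, LinearMap.add_apply, LinearMap.smul_apply,
        LinearMap.smul_apply, smul_eq_mul, smul_eq_mul]
    rw [h1.1, neg_eq_zero.1 h1.2] at h2
    rw [h2] at posA
    simp at posA
  obtain ⟨v2, hv2, hv20⟩ := exists_lattice_ne (L := P2) (z := z) (by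
    rw [hP2, hPz z hzα hzκ, map_smul, hC.symm A z, hzA, smul_zero, zero_smul, sub_zero]
    exact smul_ne_zero posA.ne' (smul_ne_zero haane hz0))
  set A0 : Vec b := P2 v2 with hA0
  have hA0lat : A0 ∈ lattice b := hP2lat v2 hv2
  have hA0α : C.q A0 α = 0 := by
    rw [hA0, hP2]
    simp only [map_sub, map_smul, LinearMap.sub_apply, LinearMap.smul_apply, smul_eq_mul, hAα]
    rw [hPα]
    ring
  have hA0κ : C.q A0 κ = 0 := by
    rw [hA0, hP2]
    simp only [map_sub, map_smul, LinearMap.sub_apply, LinearMap.smul_apply, smul_eq_mul, hAκ]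
    rw [hPκ]
    ring
  have hAA0 : C.q A A0 = 0 := by
    rw [hA0, hP2]
    simp only [map_sub, map_smul, smul_eq_mul]
    ring
  obtain ⟨u, w, huw⟩ := hmem A0 hA0α hA0κ
  have posA0 : 0 < C.q A0 A0 := by
    rw [huw]
    exact hpos u w (by rw [← huw]; exact hv20)
  have hdet : u * t - w * s ≠ 0 := by
    intro h0
    have e1 : C.q A A = s * s * C.q x x + 2 * (s * t) * C.q x y + t * t * C.q y y := by
      rw [hst]
      simp only [map_add, map_smul, LinearMap.add_apply, LinearMap.smul_apply, smul_eq_mul, hyx]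
      ring
    have e2 : C.q A0 A0 = u * u * C.q x x + 2 * (u * w) * C.q x y + w * w * C.q y y := by
      rw [huw]
      simp only [map_add, map_smul, LinearMap.add_apply, LinearMap.smul_apply, smul_eq_mul, hyx]
      ring
    have e3 : C.q A A0 = s * u * C.q x x + (s * w + t * u) * C.q x y + t * w * C.q y y := by
      rw [hst, huw]
      simp only [map_add, map_smul, LinearMap.add_apply, LinearMap.smul_apply, smul_eq_mul, hyx]
      ring
    have e4 : C.q A A * C.q A0 A0 = (u * t - w * s) ^ 2 * (C.q x x * C.q y y - C.q x y ^ 2) +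
        C.q A A0 ^ 2 := by
      rw [e1, e2, e3]
      ring
    rw [h0, hAA0] at e4
    have : 0 < C.q A A * C.q A0 A0 := by positivity
    rw [e4] at this
    simp at this
  rcases lt_or_gt_of_ne hdet with hneg | hpos'
  · refine ⟨A, hAlat, -A0, (lattice b).neg_mem hA0lat, hAα,
      by rw [map_neg, LinearMap.neg_apply, hA0α, neg_zero], by rw [map_neg, hAA0, neg_zero], posA,
      by rw [map_neg, map_neg, LinearMap.neg_apply, neg_neg]; exact posA0,
      -u, -w, s, t, by linarith, ?_, hst⟩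
    rw [huw, neg_add, neg_smul, neg_smul]
  · exact ⟨A, hAlat, A0, hA0lat, hAα, hA0α, hAA0, posA, posA0, u, w, s, t, hpos', huw, hst⟩


/-- What is used of the form, the periods and the Kähler cones, for all `b`. -/
structure Base (C : LData b) : Prop where
  symm : ∀ x y, C.q x y = C.q y x
  integral : ∀ x ∈ lattice b, ∀ y ∈ lattice b, ∃ m : ℤ, C.q x y = m
  signature : ∃ W : Submodule ℝ (Vec b), finrank ℝ W = 3 ∧ (∀ x ∈ W, x ≠ 0 → 0 < C.q x x) ∧
    ∀ x, (∀ y ∈ W, C.q x y = 0) → x ≠ 0 → C.q x x < 0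
  per_exists : ∀ i, ∃ x y, C.per i x y
  per_pos : ∀ i x y, C.per i x y → C.PosPlane x y
  kahler_type : ∀ i x y, C.per i x y → ∀ κ ∈ C.kahler i, C.q κ x = 0 ∧ C.q κ y = 0
  kahler_pos : ∀ i, ∀ κ ∈ C.kahler i, ∀ κ' ∈ C.kahler i, 0 < C.q κ κ'
  kahler_add : ∀ i, ∀ κ ∈ C.kahler i, ∀ a ∈ closure (C.kahler i), κ + a ∈ C.kahler i
  kahler_smul : ∀ i, ∀ κ ∈ C.kahler i, ∀ c : ℝ, 0 < c → c • κ ∈ C.kahler i

/-- the lattice without members -/
def bare (C : LData b) : LData b where
  q := C.q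
  S := ∅
  I := Empty
  per := fun i => i.elim
  kahler := fun i => i.elim

theorem Base.bare (hC : C.Base) : C.bare.Facts where
  symm := hC.symm
  integral := hC.integral
  signature := hC.signature
  wall_mem := fun s hs => absurd hs (Set.notMem_empty s)
  wall_sq := fun s hs => absurd hs (Set.notMem_empty s)
  wall_bound := fun _ _ _ => ⟨0, fun s hs => absurd hs (Set.notMem_empty s)⟩
  per_exists := fun i => i.elim
  per_pos := fun i => i.elim
  kahler_nonempty := fun i => i.elim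
  kahler_iff := fun i => i.elim

/-- a non-zero nef isotropic class is positive on Kähler classes and of type `(1,1)` -/
theorem Base.nef_pos (hC : C.Base) {i : C.I} {x y α κ : Vec b} (hp : C.per i x y)
    (hα : C.Nef i α) (hα0 : α ≠ 0) (hαα : C.q α α = 0) (hκ : κ ∈ C.kahler i) :
    C.q α x = 0 ∧ C.q α y = 0 ∧ 0 < C.q α κ := by
  have hαx : C.q α x = 0 := by
    have hcl : IsClosed {B : Vec b | C.q B x = 0} :=
      isClosed_eq (continuous_q_left x) continuous_const
    exact hcl.closure_subset_iff.2 (fun B hB => (hC.kahler_type i x y hp B hB).1) hα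
  have hαy : C.q α y = 0 := by
    have hcl : IsClosed {B : Vec b | C.q B y = 0} :=
      isClosed_eq (continuous_q_left y) continuous_const
    exact hcl.closure_subset_iff.2 (fun B hB => (hC.kahler_type i x y hp B hB).2) hα
  have hακ : 0 ≤ C.q α κ := by
    have hcl : IsClosed {B : Vec b | 0 ≤ C.q B κ} :=
      isClosed_le continuous_const (continuous_q_left κ)
    exact hcl.closure_subset_iff.2 (fun B hB => (hC.kahler_pos i B hB κ hκ).le) hα
  refine ⟨hαx, hαy, lt_of_le_of_ne hακ ?_⟩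
  intro h0
  obtain ⟨h1, h2⟩ := hC.kahler_type i x y hp κ hκ
  have h3 := hodge_pos (C := C.bare) hC.bare (x := x) (y := y) (A := κ) (v := α)
    (hC.per_pos i x y hp) h1 h2 (hC.kahler_pos i κ hκ κ hκ) hαx hαy h0.symm hα0
  have h4 : C.q α α < 0 := h3
  linarith

/-- the facts for all `b` follow from the chamber description -/
theorem Facts.base (hC : C.Facts) : C.Base where
  symm := hC.symm
  integral := hC.integral
  signature := hC.signature
  per_exists := hC.per_exists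
  per_pos := hC.per_pos
  kahler_type := fun i x y hp κ hκ => by
    obtain ⟨h1, h2, -⟩ := (hC.kahler_iff i x y hp κ hκ κ).1 hκ
    exact ⟨h1, h2⟩
  kahler_pos := fun i κ hκ κ' hκ' => by
    obtain ⟨x, y, hp⟩ := hC.per_exists i
    obtain ⟨-, -, -, h, -⟩ := (hC.kahler_iff i x y hp κ' hκ' κ).1 hκ
    exact h
  kahler_add := by
    intro i κ hκ a ha
    obtain ⟨x, y, hp⟩ := hC.per_exists i
    obtain ⟨h1, h2, h3, -, -⟩ := (hC.kahler_iff i x y hp κ hκ κ).1 hκ
    have hax : C.q a x = 0 := by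
      have hcl : IsClosed {B : Vec b | C.q B x = 0} :=
        isClosed_eq (continuous_q_left x) continuous_const
      exact hcl.closure_subset_iff.2 (fun B hB => ((hC.kahler_iff i x y hp κ hκ B).1 hB).1) ha
    have hay : C.q a y = 0 := by
      have hcl : IsClosed {B : Vec b | C.q B y = 0} :=
        isClosed_eq (continuous_q_left y) continuous_const
      exact hcl.closure_subset_iff.2 (fun B hB => ((hC.kahler_iff i x y hp κ hκ B).1 hB).2.1) ha
    have haa : 0 ≤ C.q a a := by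
      have hcl : IsClosed {B : Vec b | 0 ≤ C.q B B} :=
        isClosed_le continuous_const continuous_q_self
      exact hcl.closure_subset_iff.2
        (fun B hB => ((hC.kahler_iff i x y hp κ hκ B).1 hB).2.2.1.le) ha
    have haκ : 0 ≤ C.q a κ := by
      have hcl : IsClosed {B : Vec b | 0 ≤ C.q B κ} :=
        isClosed_le continuous_const (continuous_q_left κ)
      exact hcl.closure_subset_iff.2
        (fun B hB => ((hC.kahler_iff i x y hp κ hκ B).1 hB).2.2.2.1.le) ha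
    have hκa : C.q κ a = C.q a κ := hC.symm _ _
    refine (hC.kahler_iff i x y hp κ hκ _).2 ⟨?_, ?_, ?_, ?_, ?_⟩
    · rw [C.q.map_add, LinearMap.add_apply, h1, hax, add_zero]
    · rw [C.q.map_add, LinearMap.add_apply, h2, hay, add_zero]
    · simp only [map_add, LinearMap.add_apply, hκa]
      linarith
    · rw [C.q.map_add, LinearMap.add_apply]
      linarith
    · intro w hw hw1 hw2 hw3
      have h7 : 0 ≤ C.q w a := by
        have hcl : IsClosed {B : Vec b | 0 ≤ C.q w B} :=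
          isClosed_le continuous_const (LinearMap.continuous_of_finiteDimensional (C.q w))
        exact hcl.closure_subset_iff.2 (fun B hB =>
          (((hC.kahler_iff i x y hp κ hκ B).1 hB).2.2.2.2 w hw hw1 hw2 hw3).le) ha
      rw [map_add]
      linarith
  kahler_smul := fun i κ hκ c hc => LData.kahler_smul hC hκ hc

/-- `b ≥ 4` if some member has a non-zero nef isotropic class -/
theorem Base.four_le (hC : C.Base) {i : C.I} {α κ : Vec b} (hα0 : α ≠ 0) (hαα : C.q α α = 0)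
    (hnef : C.Nef i α) (hκ : κ ∈ C.kahler i) : 4 ≤ b := by
  obtain ⟨x, y, hp⟩ := hC.per_exists i
  obtain ⟨hαx, hαy, ha⟩ := hC.nef_pos hp hnef hα0 hαα hκ
  obtain ⟨hκx, hκy⟩ := hC.kahler_type i x y hp κ hκ
  have hpp := hC.per_pos i x y hp
  have hκα : C.q κ α = C.q α κ := hC.symm _ _
  have hxα : C.q x α = 0 := by rw [hC.symm, hαx]
  have hyα : C.q y α = 0 := by rw [hC.symm, hαy]
  have hxκ : C.q x κ = 0 := by rw [hC.symm, hκx]
  have hyκ : C.q y κ = 0 := by rw [hC.symm, hκy]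
  have hli : LinearIndependent ℝ ![x, y, α, κ] := by
    rw [Fintype.linearIndependent_iff]
    intro c hc
    rw [Fin.sum_univ_four] at hc
    change c 0 • x + c 1 • y + c 2 • α + c 3 • κ = 0 at hc
    have e1 : c 3 * C.q α κ = 0 := by
      have := congrArg (fun v => C.q v α) hc
      simp only [map_add, map_smul, LinearMap.add_apply, LinearMap.smul_apply, smul_eq_mul, hxα,
        hyα, hαα, hκα, map_zero, LinearMap.zero_apply] at this
      linarith
    have c3 : c 3 = 0 := (mul_eq_zero.1 e1).resolve_right ha.ne'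
    have e2 : c 2 * C.q α κ = 0 := by
      have := congrArg (fun v => C.q v κ) hc
      simp only [map_add, map_smul, LinearMap.add_apply, LinearMap.smul_apply, smul_eq_mul, hxκ,
        hyκ, c3, map_zero, LinearMap.zero_apply] at this
      linarith
    have c2 : c 2 = 0 := (mul_eq_zero.1 e2).resolve_right ha.ne'
    rw [c2, c3, zero_smul, zero_smul, add_zero, add_zero] at hc
    have c01 : ¬ (c 0 ≠ 0 ∨ c 1 ≠ 0) := by
      intro h
      have := hpp _ _ h
      rw [hc] at this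
      simp at this
    push Not at c01
    intro k
    fin_cases k
    · exact c01.1
    · exact c01.2
    · exact c2
    · exact c3
  have h := hli.fintype_card_le_finrank
  simpa using h

/-- the special member, for `b = 4`: it is the given projective member -/
theorem Base.exists_cusp4 (hb : b = 4) (hC : C.Base) (hB : C.PerBasis) {i : C.I} {α κ : Vec b}
    (hα : α ∈ lattice b) (hα0 : α ≠ 0) (hαα : C.q α α = 0) (hnef : C.Nef i α)
    (hκ : κ ∈ C.kahler i) (hκl : κ ∈ lattice b) : ∃ D : Cusp C α, D.j = i ∧ D.Facts := by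
  obtain ⟨x, y, hp⟩ := hC.per_exists i
  obtain ⟨hαx, hαy, ha⟩ := hC.nef_pos hp hnef hα0 hαα hκ
  obtain ⟨hκx, hκy⟩ := hC.kahler_type i x y hp κ hκ
  obtain ⟨A, hA, A0, hA0, hAα, hA0α, hAA0, posA, posA0, u, w, s, t, hdet, e1, e2⟩ :=
    plane4 (C := C.bare) hb hC.bare (x := x) (y := y) (α := α) (κ := κ) (hC.per_pos i x y hp) hα
      hαα hκl hαx hαy ha hκx hκy
  have h1 := hB i x y hp u w s t hdet
  rw [← e1, ← e2] at h1
  exact ⟨⟨A, A0, κ, i⟩, rfl,
    { hα := hα, hα0 := hα0, hαα := hαα, hA := hA, hA0 := hA0, hAα := hAα, hA0α := hA0α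
      hAA0 := hAA0, posA := posA, posA0 := posA0, per := h1, kah := hκ, hω := hκl
      nef := hnef }⟩

/-- The nilpotent operator `N x = q(x, α) A₀ - q(x, A₀) α`. -/
noncomputable def nil (C : LData b) (α A₀ : Vec b) : Vec b →ₗ[ℝ] Vec b :=
  (C.q.flip α).smulRight A₀ - (C.q.flip A₀).smulRight α

/-- The special member and the rotations of its metrics, for all `b ≥ 4`: `ω` is an integral
isotropic class, the classes `orbRe N ω 0 k`, `k ≥ k₀`, are integral Kähler classes. -/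
theorem lat_pred (hC : C.Base) (hB : C.PerBasis) {i : C.I} {α κ : Vec b} (Q : C.I → Prop)
    (h5 : 5 ≤ b → ∃ D : Cusp C α, Q D.j ∧ D.Facts)
    (hα : α ∈ lattice b) (hα0 : α ≠ 0) (hαα : C.q α α = 0) (hnef : C.Nef i α)
    (hκ : κ ∈ C.kahler i) (hκl : κ ∈ lattice b) :
    ∃ (A A₀ ω : Vec b) (j : C.I) (k₀ : ℕ), 4 ≤ b ∧ (b = 4 ∧ j = i ∨ 5 ≤ b ∧ Q j) ∧
      A ∈ lattice b ∧ A₀ ∈ lattice b ∧ ω ∈ lattice b ∧ C.q A α = 0 ∧ C.q A₀ α = 0 ∧
      C.q A A₀ = 0 ∧ 0 < C.q A A ∧ 0 < C.q A₀ A₀ ∧ C.q ω ω = 0 ∧ C.q ω A = 0 ∧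
      C.q ω A₀ = 0 ∧ 0 < C.q α ω ∧ C.Nef j α ∧ C.per j A₀ A ∧
      (∃ w ∈ lattice b, w ∈ C.kahler j) ∧ 1 ≤ k₀ ∧
      ∀ k : ℕ, k₀ ≤ k → ∃ t : ℝ, 0 < t ∧
        orbRe (C.nil α A₀) ω 0 k ∈ lattice b ∧ orbRe (C.nil α A₀) ω 0 k ∈ C.kahler j ∧
        C.per j (t • A) (-orbIm (C.nil α A₀) ω 0 k) ∧
        C.q (t • A) (-orbIm (C.nil α A₀) ω 0 k) = 0 ∧
        C.q (t • A) (t • A) = C.q (orbRe (C.nil α A₀) ω 0 k) (orbRe (C.nil α A₀) ω 0 k) ∧
        C.q (-orbIm (C.nil α A₀) ω 0 k) (-orbIm (C.nil α A₀) ω 0 k) =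
          C.q (orbRe (C.nil α A₀) ω 0 k) (orbRe (C.nil α A₀) ω 0 k) := by
  have hb4 := hC.four_le hα0 hαα hnef hκ
  obtain ⟨D, hDi, hD⟩ : ∃ D : Cusp C α, (b = 4 ∧ D.j = i ∨ 5 ≤ b ∧ Q D.j) ∧ D.Facts := by
    by_cases hb : b = 4
    · obtain ⟨D, h1, h2⟩ := hC.exists_cusp4 hb hB hα hα0 hαα hnef hκ hκl
      exact ⟨D, Or.inl ⟨hb, h1⟩, h2⟩
    · have hb5 : 5 ≤ b := by omega
      obtain ⟨D, h1, h2⟩ := h5 hb5
      exact ⟨D, Or.inr ⟨hb5, h1⟩, h2⟩
  -- products
  obtain ⟨hωA0, hωA⟩ := hC.kahler_type _ _ _ hD.per _ hD.kah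
  obtain ⟨hαA0, hαA, ha⟩ := hC.nef_pos hD.per hD.nef hα0 hαα hD.kah
  have hωα : C.q D.ω α = C.q α D.ω := hC.symm _ _
  obtain ⟨a', ha'⟩ := hC.integral α hα D.ω hD.hω
  obtain ⟨m', hm'⟩ := hC.integral D.ω hD.hω D.ω hD.hω
  obtain ⟨r', hr'⟩ := hC.integral D.A0 hD.hA0 D.A0 hD.hA0
  set a : ℝ := C.q α D.ω with haa
  set m : ℝ := C.q D.ω D.ω with hm
  set r : ℝ := C.q D.A0 D.A0 with hr
  have hrpos : 0 < r := hD.posA0
  have hA0A : C.q D.A0 D.A = 0 := by rw [hC.symm, hD.hAA0]
  set ω : Vec b := (2 * a) • D.ω - m • α with hω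
  have hωω : C.q ω ω = 0 := by
    rw [hω]
    simp only [map_sub, map_smul, LinearMap.sub_apply, LinearMap.smul_apply, smul_eq_mul, hαα, hωα]
    rw [← hm, ← haa]
    ring
  have hωA' : C.q ω D.A = 0 := by
    rw [hω]
    simp only [map_sub, map_smul, LinearMap.sub_apply, LinearMap.smul_apply, smul_eq_mul, hωA,
      hαA]
    ring
  have hωA0' : C.q ω D.A0 = 0 := by
    rw [hω]
    simp only [map_sub, map_smul, LinearMap.sub_apply, LinearMap.smul_apply, smul_eq_mul, hωA0,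
      hαA0]
    ring
  have hαω : C.q α ω = 2 * a * a := by
    rw [hω]
    simp only [map_sub, map_smul, smul_eq_mul, hαα]
    rw [← haa]
    ring
  have hωα' : C.q ω α = 2 * a * a := by rw [hC.symm]; exact hαω
  have hωlat : ω ∈ lattice b := by
    rw [hω, ha', hm']
    have e1 : (2 * (a' : ℝ)) • D.ω ∈ lattice b := by
      have := lattice_smul hD.hω (2 * a')
      push_cast at this
      exact this
    exact (lattice b).sub_mem e1 (lattice_smul hα m')
  have hN : ∀ v, C.nil α D.A0 v = C.q v α • D.A0 - C.q v D.A0 • α := fun v => by simp [nil]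
  have hNω : C.nil α D.A0 ω = (2 * a * a) • D.A0 := by
    rw [hN, hωα', hωA0', zero_smul, sub_zero]
  have hNNω : C.nil α D.A0 (C.nil α D.A0 ω) = -(2 * a * a * r) • α := by
    rw [hNω, map_smul, hN, hD.hA0α, zero_smul, zero_sub, smul_neg, smul_smul, neg_smul]
  have hRe : ∀ y : ℝ, orbRe (C.nil α D.A0) ω 0 y = (2 * a) • D.ω + (y ^ 2 * a * a * r - m) • α := by
    intro y
    rw [orbRe, hNNω, hω, zero_smul, add_zero, smul_smul]
    have e : ((0 : ℝ) ^ 2 - y ^ 2) / 2 * -(2 * a * a * r) = y ^ 2 * a * a * r := by ring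
    rw [e, sub_smul]
    abel
  have hIm : ∀ y : ℝ, orbIm (C.nil α D.A0) ω 0 y = (y * (2 * a * a)) • D.A0 := by
    intro y
    rw [orbIm, hNω, zero_mul, zero_smul, add_zero, smul_smul]
  have hqRe : ∀ y : ℝ, C.q (orbRe (C.nil α D.A0) ω 0 y) (orbRe (C.nil α D.A0) ω 0 y) =
      (y * (2 * a * a)) ^ 2 * r := by
    intro y
    rw [hRe]
    simp only [map_add, map_smul, LinearMap.add_apply, LinearMap.smul_apply, smul_eq_mul, hαα,
      hωα]
    rw [← hm, ← haa]
    ring
  obtain ⟨k₀, hk₀⟩ := exists_nat_gt (|m| / (a * a * r) + 1)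
  have hk₀1 : (1 : ℝ) < k₀ := by
    have : 0 ≤ |m| / (a * a * r) := by positivity
    linarith
  refine ⟨D.A, D.A0, ω, D.j, k₀, hb4, hDi, hD.hA, hD.hA0, hωlat, hD.hAα, hD.hA0α, hD.hAA0,
    hD.posA, hD.posA0, hωω, hωA', hωA0', by rw [hαω]; positivity, hD.nef, hD.per,
    ⟨D.ω, hD.hω, hD.kah⟩, by exact_mod_cast hk₀1.le, ?_⟩
  intro k hk
  have hkr : (k₀ : ℝ) ≤ k := by exact_mod_cast hk
  have hk1 : (1 : ℝ) < k := lt_of_lt_of_le hk₀1 hkr
  have hkpos : (0 : ℝ) < k := by linarith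
  have hcoef : 0 < (k : ℝ) ^ 2 * a * a * r - m := by
    have h1 : |m| / (a * a * r) < k := by linarith
    rw [div_lt_iff₀ (by positivity)] at h1
    have h2 := le_abs_self m
    have h3 : (k : ℝ) * (a * a * r) ≤ (k : ℝ) ^ 2 * (a * a * r) := by
      apply mul_le_mul_of_nonneg_right _ (by positivity)
      nlinarith
    nlinarith
  have hkah : orbRe (C.nil α D.A0) ω 0 k ∈ C.kahler D.j := by
    rw [hRe]
    apply hC.kahler_add _ _ (hC.kahler_smul _ _ hD.kah _ (by positivity))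
    have h1 : (fun v : Vec b => ((k : ℝ) ^ 2 * a * a * r - m) • v) α ∈
        closure ((fun v : Vec b => ((k : ℝ) ^ 2 * a * a * r - m) • v) '' C.kahler D.j) :=
      (image_closure_subset_closure_image (continuous_const_smul _))
        (Set.mem_image_of_mem _ hD.nef)
    refine closure_mono ?_ h1
    rintro _ ⟨v, hv, rfl⟩
    exact hC.kahler_smul _ _ hv _ hcoef
  have hlat : orbRe (C.nil α D.A0) ω 0 k ∈ lattice b := by
    rw [hRe, ha', hm', hr']
    have e1 : (2 * (a' : ℝ)) • D.ω ∈ lattice b := by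
      have := lattice_smul hD.hω (2 * a')
      push_cast at this
      exact this
    have e2 : ((k : ℝ) ^ 2 * (a' : ℝ) * (a' : ℝ) * (r' : ℝ) - (m' : ℝ)) • α ∈ lattice b := by
      have := lattice_smul hα ((k : ℤ) ^ 2 * a' * a' * r' - m')
      push_cast at this
      exact this
    exact (lattice b).add_mem e1 e2
  set t : ℝ := (k : ℝ) * (2 * a * a) * Real.sqrt (r / C.q D.A D.A) with ht
  have hposA := hD.posA
  have htpos : 0 < t := by positivity
  have htt : t ^ 2 * C.q D.A D.A = ((k : ℝ) * (2 * a * a)) ^ 2 * r := by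
    rw [ht, mul_pow, Real.sq_sqrt (by positivity)]
    field_simp
  refine ⟨t, htpos, hlat, hkah, ?_, ?_, ?_, ?_⟩
  · have h1 := hB _ _ _ hD.per 0 t (-((k : ℝ) * (2 * a * a))) 0 (by
      have : 0 < t * ((k : ℝ) * (2 * a * a)) := by positivity
      linarith)
    rw [zero_smul, zero_add, zero_smul, add_zero, neg_smul] at h1
    rw [hIm]
    exact h1
  · rw [hIm, map_neg, map_smul, C.q.map_smul, LinearMap.smul_apply, hD.hAA0]
    simp
  · rw [hqRe, ← htt, map_smul, C.q.map_smul, LinearMap.smul_apply, smul_eq_mul, smul_eq_mul]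
    ring
  · rw [hqRe, hIm, map_neg, map_neg, LinearMap.neg_apply, neg_neg, map_smul, C.q.map_smul,
      LinearMap.smul_apply, smul_eq_mul, smul_eq_mul, ← hr]
    ring

/-- The same, without a condition on the special member. -/
theorem lat_gen (hC : C.Base) (hB : C.PerBasis) {i : C.I} {α κ : Vec b}
    (h5 : 5 ≤ b → ∃ D : Cusp C α, D.Facts)
    (hα : α ∈ lattice b) (hα0 : α ≠ 0) (hαα : C.q α α = 0) (hnef : C.Nef i α)
    (hκ : κ ∈ C.kahler i) (hκl : κ ∈ lattice b) :
    ∃ (A A₀ ω : Vec b) (j : C.I) (k₀ : ℕ), 4 ≤ b ∧ (b = 4 → j = i) ∧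
      A ∈ lattice b ∧ A₀ ∈ lattice b ∧ ω ∈ lattice b ∧ C.q A α = 0 ∧ C.q A₀ α = 0 ∧
      C.q A A₀ = 0 ∧ 0 < C.q A A ∧ 0 < C.q A₀ A₀ ∧ C.q ω ω = 0 ∧ C.q ω A = 0 ∧
      C.q ω A₀ = 0 ∧ 0 < C.q α ω ∧ C.Nef j α ∧ C.per j A₀ A ∧
      (∃ w ∈ lattice b, w ∈ C.kahler j) ∧ 1 ≤ k₀ ∧
      ∀ k : ℕ, k₀ ≤ k → ∃ t : ℝ, 0 < t ∧
        orbRe (C.nil α A₀) ω 0 k ∈ lattice b ∧ orbRe (C.nil α A₀) ω 0 k ∈ C.kahler j ∧
        C.per j (t • A) (-orbIm (C.nil α A₀) ω 0 k) ∧
        C.q (t • A) (-orbIm (C.nil α A₀) ω 0 k) = 0 ∧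
        C.q (t • A) (t • A) = C.q (orbRe (C.nil α A₀) ω 0 k) (orbRe (C.nil α A₀) ω 0 k) ∧
        C.q (-orbIm (C.nil α A₀) ω 0 k) (-orbIm (C.nil α A₀) ω 0 k) =
          C.q (orbRe (C.nil α A₀) ω 0 k) (orbRe (C.nil α A₀) ω 0 k) := by
  obtain ⟨A, A₀, ω, j, k₀, h4, h, h'⟩ := lat_pred hC hB (fun _ => True)
    (fun h => by
      obtain ⟨D, hD⟩ := h5 h
      exact ⟨D, trivial, hD⟩) hα hα0 hαα hnef hκ hκl
  refine ⟨A, A₀, ω, j, k₀, h4, fun hb => ?_, h'⟩
  rcases h with h | h
  · exact h.2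
  · omega

/-- The same, with the special member from the chamber description and the surjectivity of the
period map. -/
theorem lat_all (hC : C.Base) (hB : C.PerBasis)
    (h5 : 5 ≤ b → C.Facts ∧ C.KahlerOpen ∧ C.Period) {i : C.I} {α κ : Vec b}
    (hα : α ∈ lattice b) (hα0 : α ≠ 0) (hαα : C.q α α = 0) (hnef : C.Nef i α)
    (hκ : κ ∈ C.kahler i) (hκl : κ ∈ lattice b) :
    ∃ (A A₀ ω : Vec b) (j : C.I) (k₀ : ℕ), 4 ≤ b ∧ (b = 4 → j = i) ∧
      A ∈ lattice b ∧ A₀ ∈ lattice b ∧ ω ∈ lattice b ∧ C.q A α = 0 ∧ C.q A₀ α = 0 ∧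
      C.q A A₀ = 0 ∧ 0 < C.q A A ∧ 0 < C.q A₀ A₀ ∧ C.q ω ω = 0 ∧ C.q ω A = 0 ∧
      C.q ω A₀ = 0 ∧ 0 < C.q α ω ∧ C.Nef j α ∧ C.per j A₀ A ∧
      (∃ w ∈ lattice b, w ∈ C.kahler j) ∧ 1 ≤ k₀ ∧
      ∀ k : ℕ, k₀ ≤ k → ∃ t : ℝ, 0 < t ∧
        orbRe (C.nil α A₀) ω 0 k ∈ lattice b ∧ orbRe (C.nil α A₀) ω 0 k ∈ C.kahler j ∧
        C.per j (t • A) (-orbIm (C.nil α A₀) ω 0 k) ∧
        C.q (t • A) (-orbIm (C.nil α A₀) ω 0 k) = 0 ∧
        C.q (t • A) (t • A) = C.q (orbRe (C.nil α A₀) ω 0 k) (orbRe (C.nil α A₀) ω 0 k) ∧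
        C.q (-orbIm (C.nil α A₀) ω 0 k) (-orbIm (C.nil α A₀) ω 0 k) =
          C.q (orbRe (C.nil α A₀) ω 0 k) (orbRe (C.nil α A₀) ω 0 k) :=
  lat_gen hC hB (fun h => by
    obtain ⟨hF, hO, hP⟩ := h5 h
    exact exists_cusp hF hO hP i hα hα0 hαα hnef) hα hα0 hαα hnef hκ hκl

end LData

end Pool.Agent.SYM.V3.Lat
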