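import Pool.Agent.SYM.V3.LatQ

/-!
# SYM/V3/CuspR : the special member with a rational period plane, its nilpotent orbit
-/

set_option autoImplicit false
set_option linter.unusedSectionVars false

open Module Filter Topology

namespace Pool.Agent.SYM.V3.Lat

namespace LData

variable {b : ℕ} {C : LData b}

/-- the Kähler cone is open in `⟨Re σ, Im σ⟩^⊥` -/
def KahlerOpen (C : LData b) : Prop :=
  ∀ i x y, C.per i x y → ∀ κ ∈ C.kahler i, ∃ ε : ℝ, 0 < ε ∧ ∀ B, C.q B x = 0 → C.q B y = 0 →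
    dist B κ < ε → B ∈ C.kahler i

/-- positively oriented bases of the period plane -/
def PerBasis (C : LData b) : Prop :=
  ∀ i x y, C.per i x y → ∀ s t u v : ℝ, 0 < s * v - t * u →
    C.per i (s • x + t • y) (u • x + v • y)

/-- a Kähler class is orthogonal to no wall of type `(1,1)` -/
theorem kahler_wall (hC : C.Facts) (hO : C.KahlerOpen) {i : C.I} {x y κ s : Vec b}
    (hp : C.per i x y) (hκ : κ ∈ C.kahler i) (hs : s ∈ C.S) (hsx : C.q s x = 0)
    (hsy : C.q s y = 0) : C.q s κ ≠ 0 := by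
  intro h0
  obtain ⟨ε, hε, hball⟩ := hO i x y hp κ hκ
  obtain ⟨hκx, hκy, -, -, -⟩ := (hC.kahler_iff i x y hp κ hκ κ).1 hκ
  have hss := hC.wall_sq s hs
  have hs0 : s ≠ 0 := by
    rintro rfl
    simp at hss
  have hn : 0 < ‖s‖ := norm_pos_iff.2 hs0
  set δ : ℝ := ε / (2 * ‖s‖) with hδ
  have hδpos : 0 < δ := by positivity
  have hδs : ‖δ • s‖ < ε := by
    rw [norm_smul, Real.norm_eq_abs, abs_of_pos hδpos, hδ, div_mul_eq_mul_div,
      div_lt_iff₀ (by positivity)]
    nlinarith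
  have h1 : κ - δ • s ∈ C.kahler i := hball _ (by
      rw [C.q.map_sub, C.q.map_smul, LinearMap.sub_apply, LinearMap.smul_apply, hκx, hsx]
      simp) (by
      rw [C.q.map_sub, C.q.map_smul, LinearMap.sub_apply, LinearMap.smul_apply, hκy, hsy]
      simp) (by
      rw [dist_eq_norm, sub_sub_cancel_left, norm_neg]
      exact hδs)
  have h2 : κ + δ • s ∈ C.kahler i := hball _ (by
      rw [C.q.map_add, C.q.map_smul, LinearMap.add_apply, LinearMap.smul_apply, hκx, hsx]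
      simp) (by
      rw [C.q.map_add, C.q.map_smul, LinearMap.add_apply, LinearMap.smul_apply, hκy, hsy]
      simp) (by
      rw [dist_eq_norm, add_sub_cancel_left]
      exact hδs)
  have h3 := ((hC.kahler_iff i x y hp _ h1 _).1 h2).2.2.2.2 s hs hsx hsy (by
    rw [map_sub, map_smul, h0, smul_eq_mul]
    nlinarith)
  rw [map_add, map_smul, h0, smul_eq_mul] at h3
  nlinarith

/-- Kähler classes form a cone -/
theorem kahler_smul (hC : C.Facts) {i : C.I} {κ : Vec b} (hκ : κ ∈ C.kahler i) {c : ℝ}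
    (hc : 0 < c) : c • κ ∈ C.kahler i := by
  obtain ⟨x, y, hp⟩ := hC.per_exists i
  have h3 := (hC.kahler_iff i x y hp κ hκ κ).1 hκ
  refine (hC.kahler_iff i x y hp κ hκ _).2 ⟨?_, ?_, ?_, ?_, ?_⟩
  · rw [C.q.map_smul, LinearMap.smul_apply, h3.1, smul_zero]
  · rw [C.q.map_smul, LinearMap.smul_apply, h3.2.1, smul_zero]
  · rw [C.q.map_smul, LinearMap.smul_apply, map_smul, smul_eq_mul, smul_eq_mul]
    have := h3.2.2.1
    positivity
  · rw [C.q.map_smul, LinearMap.smul_apply, smul_eq_mul]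
    have := h3.2.2.1
    positivity
  · intro w hw hw1 hw2 hw3
    rw [map_smul, smul_eq_mul]
    positivity

/-- the sum of a nef isotropic class and of a Kähler class is a Kähler class -/
theorem nef_add (hC : C.Facts) {i : C.I} {α κ : Vec b} (hα0 : α ≠ 0)
    (hαα : C.q α α = 0) (hnef : C.Nef i α) (hκ : κ ∈ C.kahler i) {s : ℝ} (hs : 0 < s) :
    α + s • κ ∈ C.kahler i := by
  obtain ⟨x, y, hp⟩ := hC.per_exists i
  obtain ⟨hαx, hαy, hακ⟩ := nef_pos hC hp hnef hα0 hκ
  have h3 := (hC.kahler_iff i x y hp κ hκ κ).1 hκ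
  have hκα : C.q κ α = C.q α κ := hC.symm _ _
  refine (hC.kahler_iff i x y hp κ hκ _).2 ⟨?_, ?_, ?_, ?_, ?_⟩
  · rw [C.q.map_add, C.q.map_smul, LinearMap.add_apply, LinearMap.smul_apply, h3.1, hαx]
    simp
  · rw [C.q.map_add, C.q.map_smul, LinearMap.add_apply, LinearMap.smul_apply, h3.2.1, hαy]
    simp
  · simp only [map_add, map_smul, LinearMap.add_apply, LinearMap.smul_apply, smul_eq_mul, hαα,
      hκα]
    have h4 := h3.2.2.1
    have h5 : 0 < s * C.q α κ := by positivity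
    have h6 : 0 < s * (s * C.q κ κ) := by positivity
    linarith
  · rw [C.q.map_add, C.q.map_smul, LinearMap.add_apply, LinearMap.smul_apply, smul_eq_mul]
    have h4 := h3.2.2.1
    positivity
  · intro w hw hw1 hw2 hw3
    have h7 : 0 ≤ C.q w α := by
      have hcl : IsClosed {B : Vec b | 0 ≤ C.q w B} :=
        isClosed_le continuous_const (LinearMap.continuous_of_finiteDimensional (C.q w))
      exact hcl.closure_subset_iff.2 (fun B hB =>
        (((hC.kahler_iff i x y hp κ hκ B).1 hB).2.2.2.2 w hw hw1 hw2 hw3).le) hnef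
    rw [map_add, map_smul, smul_eq_mul]
    have : 0 < s * C.q w κ := by positivity
    linarith

variable {α : Vec b}

/-- the special member `j`, of period plane `⟨A₀, A⟩`, and an ample class `ω` of it -/
structure Cusp (C : LData b) (α : Vec b) where
  A : Vec b
  A0 : Vec b
  ω : Vec b
  j : C.I

/-- what is required of the special member -/
structure Cusp.Facts (D : Cusp C α) : Prop where
  hα : α ∈ lattice b
  hα0 : α ≠ 0
  hαα : C.q α α = 0
  hA : D.A ∈ lattice b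
  hA0 : D.A0 ∈ lattice b
  hAα : C.q D.A α = 0
  hA0α : C.q D.A0 α = 0
  hAA0 : C.q D.A D.A0 = 0
  posA : 0 < C.q D.A D.A
  posA0 : 0 < C.q D.A0 D.A0
  per : C.per D.j D.A0 D.A
  kah : D.ω ∈ C.kahler D.j
  hω : D.ω ∈ lattice b
  nef : C.Nef D.j α

variable {D : Cusp C α}

/-- the logarithm `N` of the monodromy: `N v = q(v, α) A₀ - q(v, A₀) α` -/
noncomputable def Cusp.N (D : Cusp C α) : Vec b →ₗ[ℝ] Vec b :=
  (C.q.flip α).smulRight D.A0 - (C.q.flip D.A0).smulRight α

/-- the isotropic class `ω' = ω - (q(ω) / 2 q(α, ω)) α` -/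
noncomputable def Cusp.ω' (D : Cusp C α) : Vec b :=
  D.ω - (C.q D.ω D.ω / (2 * C.q α D.ω)) • α

/-- the real part of `exp (z N) w`, `z = u + i y`, for `N³ = 0` -/
noncomputable def orbRe (N : Vec b →ₗ[ℝ] Vec b) (w : Vec b) (u y : ℝ) : Vec b :=
  w + u • N w + ((u ^ 2 - y ^ 2) / 2) • N (N w)

/-- the imaginary part of `exp (z N) w`, `z = u + i y`, for `N³ = 0` -/
noncomputable def orbIm (N : Vec b →ₗ[ℝ] Vec b) (w : Vec b) (u y : ℝ) : Vec b :=
  y • N w + (u * y) • N (N w)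

namespace Cusp.Facts

theorem N_apply (D : Cusp C α) (v : Vec b) : D.N v = C.q v α • D.A0 - C.q v D.A0 • α := by
  simp [Cusp.N]

variable (hC : C.Facts) (hD : D.Facts)

include hC in
theorem N_skew (v w : Vec b) : C.q (D.N v) w + C.q v (D.N w) = 0 := by
  rw [N_apply, N_apply]
  simp only [map_sub, map_smul, LinearMap.sub_apply, LinearMap.smul_apply, smul_eq_mul]
  rw [hC.symm D.A0 w, hC.symm α w]
  ring

include hC hD

theorem hαA : C.q α D.A = 0 := by rw [hC.symm, hD.hAα]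

theorem hαA0 : C.q α D.A0 = 0 := by rw [hC.symm, hD.hA0α]

theorem hA0A : C.q D.A0 D.A = 0 := by rw [hC.symm, hD.hAA0]

theorem plane : C.PosPlane D.A0 D.A := hC.per_pos _ _ _ hD.per

theorem kahω : C.q D.ω D.A0 = 0 ∧ C.q D.ω D.A = 0 ∧ 0 < C.q D.ω D.ω := by
  have h := (hC.kahler_iff _ _ _ hD.per D.ω hD.kah D.ω).1 hD.kah
  exact ⟨h.1, h.2.1, h.2.2.1⟩

theorem pos : 0 < C.q α D.ω := (nef_pos hC hD.per hD.nef hD.hα0 hD.kah).2.2

theorem kadd {s : ℝ} (hs : 0 < s) : α + s • D.ω ∈ C.kahler D.j :=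
  nef_add hC hD.hα0 hD.hαα hD.nef hD.kah hs

theorem N_lattice {v : Vec b} (hv : v ∈ lattice b) : D.N v ∈ lattice b := by
  obtain ⟨m, hm⟩ := hC.integral v hv α hD.hα
  obtain ⟨l, hl⟩ := hC.integral v hv D.A0 hD.hA0
  rw [N_apply, hm, hl]
  exact (lattice b).sub_mem (lattice_smul hD.hA0 m) (lattice_smul hD.hα l)

theorem N_α : D.N α = 0 := by
  rw [N_apply, hD.hαα, hαA0 hC hD]
  simp

theorem N_A : D.N D.A = 0 := by
  rw [N_apply, hD.hAα, hD.hAA0]
  simp

theorem N_A0 : D.N D.A0 = -(C.q D.A0 D.A0) • α := by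
  rw [N_apply, hD.hA0α]
  simp

theorem N_cube (v : Vec b) : D.N (D.N (D.N v)) = 0 := by
  have h1 : D.N (D.N v) = C.q v α • D.N D.A0 := by
    rw [N_apply D v, map_sub, map_smul, map_smul, N_α hC hD, smul_zero, sub_zero]
  rw [h1, N_A0 hC hD, map_smul, map_smul, N_α hC hD]
  simp

theorem ω'_α : C.q D.ω' α = C.q α D.ω := by
  unfold Cusp.ω'
  rw [C.q.map_sub, C.q.map_smul, LinearMap.sub_apply, LinearMap.smul_apply, hD.hαα,
    hC.symm D.ω α]
  simp

theorem ω'_A0 : C.q D.ω' D.A0 = 0 := by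
  unfold Cusp.ω'
  rw [C.q.map_sub, C.q.map_smul, LinearMap.sub_apply, LinearMap.smul_apply,
    (kahω hC hD).1, hαA0 hC hD]
  simp

theorem ω'_A : C.q D.ω' D.A = 0 := by
  unfold Cusp.ω'
  rw [C.q.map_sub, C.q.map_smul, LinearMap.sub_apply, LinearMap.smul_apply,
    (kahω hC hD).2.1, hαA hC hD]
  simp

theorem ω'_iso : C.q D.ω' D.ω' = 0 := by
  have h := pos hC hD
  unfold Cusp.ω'
  simp only [map_sub, map_smul, LinearMap.sub_apply, LinearMap.smul_apply, smul_eq_mul, hD.hαα]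
  rw [hC.symm D.ω α]
  field_simp
  ring

theorem N_ω' : D.N D.ω' = C.q α D.ω • D.A0 := by
  rw [N_apply, ω'_α hC hD, ω'_A0 hC hD, zero_smul, sub_zero]

theorem NN_ω' : D.N (D.N D.ω') = -(C.q α D.ω * C.q D.A0 D.A0) • α := by
  rw [N_ω' hC hD, map_smul, N_A0 hC hD, smul_smul]
  congr 1
  ring

/-- `Re exp (z N) ω'` -/
theorem orbRe_eq (u y : ℝ) : orbRe D.N D.ω' u y =
    D.ω' + (u * C.q α D.ω) • D.A0 - ((u ^ 2 - y ^ 2) / 2 * (C.q α D.ω * C.q D.A0 D.A0)) • α := by
  rw [orbRe, NN_ω' hC hD, N_ω' hC hD, smul_smul, smul_smul, mul_neg, neg_smul,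
    ← sub_eq_add_neg]

/-- `Im exp (z N) ω'` -/
theorem orbIm_eq (u y : ℝ) : orbIm D.N D.ω' u y =
    (y * C.q α D.ω) • D.A0 - (u * y * (C.q α D.ω * C.q D.A0 D.A0)) • α := by
  rw [orbIm, NN_ω' hC hD, N_ω' hC hD, smul_smul, smul_smul, mul_neg, neg_smul,
    ← sub_eq_add_neg]

/-- `1 / s`, as a function of `y` -/
noncomputable def invS (D : Cusp C α) (y : ℝ) : ℝ :=
  y ^ 2 * (C.q α D.ω * C.q D.A0 D.A0) / 2 - C.q D.ω D.ω / (2 * C.q α D.ω)

/-- the period of the rotation: `exp (i y N) ω' = (1 / s) (α + s ω) + i y q(α, ω) A'` -/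
theorem orb_rotation (y : ℝ) : orbRe D.N D.ω' 0 y = D.ω + (invS D y) • α ∧
    orbIm D.N D.ω' 0 y = (y * C.q α D.ω) • D.A0 := by
  constructor
  · rw [orbRe_eq hC hD, Cusp.ω', invS]
    simp only [zero_mul, zero_smul, add_zero, sub_smul]
    rw [show ((0 : ℝ) ^ 2 - y ^ 2) / 2 * (C.q α D.ω * C.q D.A0 D.A0) =
      -(y ^ 2 * (C.q α D.ω * C.q D.A0 D.A0) / 2) by ring, neg_smul]
    abel
  · rw [orbIm_eq hC hD]
    simp

theorem q_re_re (u y : ℝ) : C.q (orbRe D.N D.ω' u y) (orbRe D.N D.ω' u y) =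
    y ^ 2 * (C.q α D.ω ^ 2 * C.q D.A0 D.A0) := by
  rw [orbRe_eq hC hD]
  simp only [map_add, map_sub, map_smul, LinearMap.add_apply, LinearMap.sub_apply,
    LinearMap.smul_apply, smul_eq_mul, hD.hαα, ω'_iso hC hD, ω'_A0 hC hD, ω'_α hC hD,
    hC.symm α D.ω', hC.symm D.A0 D.ω', hαA0 hC hD, hD.hA0α]
  ring

theorem q_im_im (u y : ℝ) : C.q (orbIm D.N D.ω' u y) (orbIm D.N D.ω' u y) =
    y ^ 2 * (C.q α D.ω ^ 2 * C.q D.A0 D.A0) := by
  rw [orbIm_eq hC hD]
  simp only [map_sub, map_smul, LinearMap.sub_apply,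
    LinearMap.smul_apply, smul_eq_mul, hD.hαα, hαA0 hC hD, hD.hA0α]
  ring

theorem q_re_im (u y : ℝ) : C.q (orbRe D.N D.ω' u y) (orbIm D.N D.ω' u y) = 0 := by
  rw [orbRe_eq hC hD, orbIm_eq hC hD]
  simp only [map_add, map_sub, map_smul, LinearMap.add_apply, LinearMap.sub_apply,
    LinearMap.smul_apply, smul_eq_mul, hD.hαα, ω'_A0 hC hD, ω'_α hC hD, hαA0 hC hD,
    hD.hA0α]
  ring

theorem q_re_A (u y : ℝ) : C.q (orbRe D.N D.ω' u y) D.A = 0 := by
  rw [orbRe_eq hC hD]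
  simp only [map_add, map_sub, map_smul, LinearMap.add_apply, LinearMap.sub_apply,
    LinearMap.smul_apply, smul_eq_mul, ω'_A hC hD, hαA hC hD, hA0A hC hD]
  ring

theorem q_im_A (u y : ℝ) : C.q (orbIm D.N D.ω' u y) D.A = 0 := by
  rw [orbIm_eq hC hD]
  simp only [map_sub, map_smul, LinearMap.sub_apply,
    LinearMap.smul_apply, smul_eq_mul, hαA hC hD, hA0A hC hD]
  ring

theorem q_re_α (u y : ℝ) : C.q (orbRe D.N D.ω' u y) α = C.q α D.ω := by
  rw [orbRe_eq hC hD]
  simp only [map_add, map_sub, map_smul, LinearMap.add_apply, LinearMap.sub_apply,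
    LinearMap.smul_apply, smul_eq_mul, ω'_α hC hD, hD.hαα, hD.hA0α]
  ring

theorem q_im_α (u y : ℝ) : C.q (orbIm D.N D.ω' u y) α = 0 := by
  rw [orbIm_eq hC hD]
  simp only [map_sub, map_smul, LinearMap.sub_apply,
    LinearMap.smul_apply, smul_eq_mul, hD.hαα, hD.hA0α]
  ring

theorem orb_plane (u : ℝ) {y : ℝ} (hy : 0 < y) :
    C.PosPlane (orbRe D.N D.ω' u y) (orbIm D.N D.ω' u y) := by
  intro s t hst
  have h1 := q_re_re hC hD u y
  have h2 := q_im_im hC hD u y
  have h3 := q_re_im hC hD u y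
  have h4 : C.q (orbIm D.N D.ω' u y) (orbRe D.N D.ω' u y) = 0 := by rw [hC.symm, h3]
  have e : C.q (s • orbRe D.N D.ω' u y + t • orbIm D.N D.ω' u y)
      (s • orbRe D.N D.ω' u y + t • orbIm D.N D.ω' u y) =
      (s ^ 2 + t ^ 2) * (y ^ 2 * (C.q α D.ω ^ 2 * C.q D.A0 D.A0)) := by
    simp only [map_add, map_smul, LinearMap.add_apply, LinearMap.smul_apply, smul_eq_mul, h1, h2,
      h3, h4]
    ring
  rw [e]
  have h5 : 0 < s ^ 2 + t ^ 2 := by
    rcases hst with h | h <;> positivity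
  have h6 := pos hC hD
  have h7 := hD.posA0
  positivity

/-- no wall meets the nilpotent orbit -/
theorem no_wall (hO : C.KahlerOpen) : ∃ y₀ : ℝ, 0 < y₀ ∧ ∀ u y : ℝ, y₀ ≤ y → ∀ s ∈ C.S, C.q s D.A = 0 →
    C.q s (orbRe D.N D.ω' u y) = 0 → C.q s (orbIm D.N D.ω' u y) = 0 → False := by
  obtain ⟨K, hK⟩ := hC.wall_bound D.A hD.hA hD.posA
  have hA0 := hD.posA0
  have ha := pos hC hD
  refine ⟨(|K| + 1) / C.q D.A0 D.A0 + 1, by positivity, ?_⟩
  intro u y hy s hs hsA hre him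
  have hy1 : 1 ≤ y := le_trans (by
    have : 0 ≤ (|K| + 1) / C.q D.A0 D.A0 := by positivity
    linarith) hy
  have hy0 : 0 < y := by linarith
  have hyK : |K| < y ^ 2 * C.q D.A0 D.A0 := by
    have h1 : (|K| + 1) / C.q D.A0 D.A0 ≤ y := by linarith
    rw [div_le_iff₀ hA0] at h1
    have h2 : y * C.q D.A0 D.A0 ≤ y ^ 2 * C.q D.A0 D.A0 := by
      apply mul_le_mul_of_nonneg_right _ hA0.le
      nlinarith
    linarith
  set a : ℝ := C.q α D.ω with ha'
  set k : ℝ := C.q D.A0 D.A0 with hk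
  set R : Vec b := orbRe D.N D.ω' u y with hR
  set M : Vec b := orbIm D.N D.ω' u y with hM
  have hRR : C.q R R = y ^ 2 * (a ^ 2 * k) := q_re_re hC hD u y
  have hRα : C.q R α = a := q_re_α hC hD u y
  -- the vector `s + t (α - R / (y² a k))`
  obtain ⟨d, hd⟩ := hC.integral s (hC.wall_mem s hs) α hD.hα
  set e : ℝ := 1 / (y ^ 2 * k) with he
  have hepos : 0 < e := by positivity
  set v : Vec b := s + (d / e) • (α - (1 / (y ^ 2 * a * k)) • R) with hv
  have hαR : C.q α R = a := by rw [hC.symm, hRα]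
  have hαM : C.q α M = 0 := by rw [hC.symm]; exact q_im_α hC hD u y
  have hRM : C.q R M = 0 := q_re_im hC hD u y
  have hRA : C.q R D.A = 0 := q_re_A hC hD u y
  have hMA : C.q M D.A = 0 := q_im_A hC hD u y
  have hsα : C.q s α = d := hd
  have hαs : C.q α s = d := by rw [hC.symm]; exact hd
  have hRs : C.q R s = 0 := by rw [hC.symm]; exact hre
  have hvR : C.q v R = 0 := by
    rw [hv]
    simp only [map_add, map_sub, map_smul, LinearMap.add_apply, LinearMap.sub_apply,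
      LinearMap.smul_apply, smul_eq_mul, hre, hαR, hRR]
    field_simp
    ring
  have hvM : C.q v M = 0 := by
    rw [hv]
    simp only [map_add, map_sub, map_smul, LinearMap.add_apply, LinearMap.sub_apply,
      LinearMap.smul_apply, smul_eq_mul, him, hαM, hRM]
    ring
  have hvA : C.q v D.A = 0 := by
    rw [hv]
    simp only [map_add, map_sub, map_smul, LinearMap.add_apply, LinearMap.sub_apply,
      LinearMap.smul_apply, smul_eq_mul, hsA, hαA hC hD, hRA]
    ring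
  have hvv : C.q v v = C.q s s + d ^ 2 / e := by
    rw [hv]
    simp only [map_add, map_sub, map_smul, LinearMap.add_apply, LinearMap.sub_apply,
      LinearMap.smul_apply, smul_eq_mul, hre, hαR, hRα, hRR, hsα, hαs, hRs, hD.hαα]
    rw [he]
    field_simp
    ring
  have hle : C.q v v ≤ 0 := by
    by_cases hv0 : v = 0
    · rw [hv0]
      simp
    · exact (hodge_pos hC (orb_plane hC hD u hy0) (by rw [hC.symm]; exact hRA)
        (by rw [hC.symm]; exact hMA) hD.posA hvR hvM hvA hv0).le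
  have hd0 : d = 0 := by
    by_contra hne
    have h1 : (1 : ℝ) ≤ (d : ℝ) ^ 2 := by
      have h2 : (1 : ℤ) ≤ d ^ 2 := by
        have h3 : 0 < d ^ 2 := by positivity
        omega
      exact_mod_cast h2
    have h2 : y ^ 2 * k ≤ (d : ℝ) ^ 2 / e := by
      rw [he, div_div_eq_mul_div, div_one]
      have : 0 ≤ y ^ 2 * k := by positivity
      nlinarith
    have h3 := hK s hs hsA
    have h4 := le_abs_self K
    linarith
  -- `s` is of type `(1,1)` on the special member and orthogonal to `ω`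
  have hsα0 : C.q s α = 0 := by rw [hsα, hd0]; simp
  have hsA0 : C.q s D.A0 = 0 := by
    have h1 : C.q s M = y * a * C.q s D.A0 := by
      rw [hM, orbIm_eq hC hD, map_sub, map_smul, map_smul, hsα0]
      simp [ha']
    rw [him] at h1
    have h2 : y * a ≠ 0 := by positivity
    rcases mul_eq_zero.1 h1.symm with h | h
    · exact absurd h h2
    · exact h
  have hsω : C.q s D.ω = 0 := by
    have h1 : C.q s R = C.q s D.ω := by
      rw [hR, orbRe_eq hC hD, map_sub, map_add, map_smul, map_smul, hsα0, hsA0, Cusp.ω', map_sub,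
        map_smul, hsα0]
      simp
    rw [← h1]
    exact hre
  exact kahler_wall hC hO hD.per hD.kah hs hsA0 hsA hsω

/-- a linear map which kills `A` and the image of `N` kills `α` and `A'` -/
theorem restriction {V : Type*} [AddCommGroup V] [Module ℝ V] (r : Vec b →ₗ[ℝ] V)
    (hN : ∀ v, r (D.N v) = 0) : r α = 0 ∧ r D.A0 = 0 := by
  have h1 := hN D.A0
  rw [N_A0 hC hD, map_smul] at h1
  have h2 := hN D.ω'
  rw [N_ω' hC hD, map_smul] at h2
  constructor
  · rcases smul_eq_zero.1 h1 with h | h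
    · have := hD.posA0
      linarith
    · exact h
  · rcases smul_eq_zero.1 h2 with h | h
    · have := pos hC hD
      linarith
    · exact h


end Cusp.Facts

end LData

end Pool.Agent.SYM.V3.Lat
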