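import Pool.Agent.SYM.V3.CuspR

/-!
# SYM/V3/ExistsR : existence of the special member
-/

set_option autoImplicit false

open Module Filter Topology

namespace Pool.Agent.SYM.V3.Lat

namespace LData

variable {b : ℕ} {C : LData b}

/-- near `α` no wall is orthogonal to `α + t x` unless it is orthogonal to `α` -/
theorem wall_small (hC : C.Facts) {α A0 A x : Vec b} {K t : ℝ} (hα : α ∈ lattice b)
    (hαα : C.q α α = 0) (hp : C.PosPlane A0 A) (hαA0 : C.q α A0 = 0) (hαA : C.q α A = 0)
    (hxA0 : C.q x A0 = 0) (hxA : C.q x A = 0) (hpos : 0 < C.q α x) (ht : 0 < t)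
    (hte : t * |C.q x x| ≤ C.q α x) (htK : |K| * (t * C.q α x) < 1)
    (hK : ∀ s ∈ C.S, C.q s A = 0 → -K ≤ C.q s s) {s : Vec b} (hs : s ∈ C.S)
    (hsA0 : C.q s A0 = 0) (hsA : C.q s A = 0) (h : C.q s (α + t • x) = 0) : C.q s α = 0 := by
  obtain ⟨d, hd⟩ := hC.integral s (hC.wall_mem s hs) α hα
  set p : ℝ := C.q α x with hpdef
  set e : ℝ := C.q x x with he
  set κ : Vec b := α + t • x with hκ
  have hxα : C.q x α = p := hC.symm _ _
  have hακ : C.q α κ = t * p := by
    rw [hκ, map_add, map_smul, hαα, smul_eq_mul, zero_add]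
  have hκα : C.q κ α = t * p := by rw [hC.symm]; exact hακ
  have hκκ : C.q κ κ = t * (2 * p + t * e) := by
    rw [hκ]
    simp only [map_add, map_smul, LinearMap.add_apply, LinearMap.smul_apply, smul_eq_mul, hαα,
      hxα]
    rw [← hpdef, ← he]
    ring
  have hge : p ≤ 2 * p + t * e := by
    have h1 : -(t * |e|) ≤ t * e := by
      have := neg_abs_le e
      nlinarith
    linarith
  have hκpos : 0 < C.q κ κ := by rw [hκκ]; exact mul_pos ht (by linarith)
  set m : ℝ := C.q κ κ with hm
  set ε : ℝ := (t * p) ^ 2 / m with hε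
  have hεpos : 0 < ε := by positivity
  have hκA0 : C.q κ A0 = 0 := by
    rw [hκ, C.q.map_add, C.q.map_smul, LinearMap.add_apply, LinearMap.smul_apply, hαA0, hxA0]
    simp
  have hκA : C.q κ A = 0 := by
    rw [hκ, C.q.map_add, C.q.map_smul, LinearMap.add_apply, LinearMap.smul_apply, hαA, hxA]
    simp
  have hκs : C.q κ s = 0 := by rw [hC.symm]; exact h
  have hαs : C.q α s = d := by rw [hC.symm]; exact hd
  set v : Vec b := s + (d / ε) • (α - (t * p / m) • κ) with hv
  have hvA0 : C.q v A0 = 0 := by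
    rw [hv]
    simp only [map_add, map_sub, map_smul, LinearMap.add_apply, LinearMap.sub_apply,
      LinearMap.smul_apply, smul_eq_mul, hsA0, hαA0, hκA0]
    ring
  have hvA : C.q v A = 0 := by
    rw [hv]
    simp only [map_add, map_sub, map_smul, LinearMap.add_apply, LinearMap.sub_apply,
      LinearMap.smul_apply, smul_eq_mul, hsA, hαA, hκA]
    ring
  have hvκ : C.q v κ = 0 := by
    rw [hv]
    simp only [map_add, map_sub, map_smul, LinearMap.add_apply, LinearMap.sub_apply,
      LinearMap.smul_apply, smul_eq_mul, h, hακ]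
    rw [← hm]
    field_simp
    ring
  have hvv : C.q v v = C.q s s + d ^ 2 / ε := by
    rw [hv]
    simp only [map_add, map_sub, map_smul, LinearMap.add_apply, LinearMap.sub_apply,
      LinearMap.smul_apply, smul_eq_mul, h, hακ, hκα, hd, hαs, hκs, hαα]
    rw [← hm, hε]
    field_simp
    ring
  have hle : C.q v v ≤ 0 := by
    by_cases hv0 : v = 0
    · rw [hv0]
      simp
    · exact (hodge_pos hC hp hκA0 hκA hκpos hvA0 hvA hvκ hv0).le
  by_contra hne
  have hd0 : d ≠ 0 := by
    rintro rfl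
    apply hne
    rw [hd]
    simp
  have h1 : (1 : ℝ) ≤ (d : ℝ) ^ 2 := by
    have h2 : (1 : ℤ) ≤ d ^ 2 := by
      have h3 : 0 < d ^ 2 := by positivity
      omega
    exact_mod_cast h2
  have h2 : ε ≤ t * p := by
    rw [hε, div_le_iff₀ hκpos, hκκ]
    have h3 : (t * p) ^ 2 = t * p * (t * p) := by ring
    rw [h3]
    apply mul_le_mul_of_nonneg_left _ (by positivity)
    nlinarith
  have h3 : (d : ℝ) ^ 2 ≤ |K| * ε := by
    have h4 : (d : ℝ) ^ 2 / ε ≤ |K| := by
      have := hK s hs hsA
      have := le_abs_self K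
      linarith
    rwa [div_le_iff₀ hεpos] at h4
  have h4 : |K| * ε ≤ |K| * (t * p) := mul_le_mul_of_nonneg_left h2 (abs_nonneg K)
  linarith

/-- the special member with the rational period plane `⟨A₀, A⟩` -/
theorem exists_real (hC : C.Facts) (hP : C.Period) (i : C.I) {α : Vec b} (hα : α ∈ lattice b)
    (hα0 : α ≠ 0) (hαα : C.q α α = 0) (hnef : C.Nef i α) :
    ∃ A ∈ lattice b, ∃ A0 ∈ lattice b, ∃ (ω : Vec b) (j : C.I), C.q A α = 0 ∧ C.q A0 α = 0 ∧
      C.q A A0 = 0 ∧ 0 < C.q A A ∧ 0 < C.q A0 A0 ∧ C.per j A0 A ∧ ω ∈ C.kahler j ∧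
      C.Nef j α := by
  obtain ⟨x, y, hp⟩ := hC.per_exists i
  obtain ⟨κ, hκ⟩ := hC.kahler_nonempty i
  obtain ⟨-, -, hακ⟩ := nef_pos hC hp hnef hα0 hκ
  have hκκ := (hC.kahler_iff i x y hp κ hκ κ).1 hκ
  obtain ⟨A, hA, A0, hA0, hAα, hA0α, hAA0, posA, posA0⟩ := exists_pair_pos hC hα hα0 hαα
  obtain ⟨K, hK⟩ := hC.wall_bound A hA posA
  have hαA : C.q α A = 0 := by rw [hC.symm, hAα]
  have hαA0 : C.q α A0 = 0 := by rw [hC.symm, hA0α]
  have hA0A : C.q A0 A = 0 := by rw [hC.symm, hAA0]
  have hpp : C.PosPlane A0 A := by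
    intro s t hst
    have e : C.q (s • A0 + t • A) (s • A0 + t • A) = s ^ 2 * C.q A0 A0 + t ^ 2 * C.q A A := by
      simp only [map_add, map_smul, LinearMap.add_apply, LinearMap.smul_apply, smul_eq_mul, hAA0,
        hA0A]
      ring
    rw [e]
    rcases hst with h | h
    · have h1 : 0 < s ^ 2 * C.q A0 A0 := by positivity
      have h2 : 0 ≤ t ^ 2 * C.q A A := by positivity
      linarith
    · have h1 : 0 ≤ s ^ 2 * C.q A0 A0 := by positivity
      have h2 : 0 < t ^ 2 * C.q A A := by positivity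
      linarith
  -- a generic class of `⟨A₀, A⟩^⊥`
  let N : Submodule ℝ (Vec b) := Submodule.span ℝ {A0, A}
  set v0 : Vec b := κ - (C.q κ A0 / C.q A0 A0) • A0 - (C.q κ A / C.q A A) • A with hv0
  have hv0A0 : C.q v0 A0 = 0 := by
    rw [hv0]
    simp only [map_sub, map_smul, LinearMap.sub_apply, LinearMap.smul_apply, smul_eq_mul, hAA0]
    field_simp
    ring
  have hv0A : C.q v0 A = 0 := by
    rw [hv0]
    simp only [map_sub, map_smul, LinearMap.sub_apply, LinearMap.smul_apply, smul_eq_mul, hA0A]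
    field_simp
    ring
  have hv0α : 0 < C.q v0 α := by
    rw [hv0]
    simp only [map_sub, map_smul, LinearMap.sub_apply, LinearMap.smul_apply, smul_eq_mul, hA0α,
      hAα]
    rw [hC.symm κ α]
    linarith
  have hN : ∀ v, (∀ w ∈ N, C.q v w = 0) ↔ C.q v A0 = 0 ∧ C.q v A = 0 := by
    intro v
    constructor
    · intro h
      exact ⟨h _ (Submodule.subset_span (by simp)), h _ (Submodule.subset_span (by simp))⟩
    · rintro ⟨h1, h2⟩ w hw
      obtain ⟨s, t, rfl⟩ := Submodule.mem_span_pair.1 hw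
      rw [map_add, map_smul, map_smul, h1, h2]
      simp
  obtain ⟨ε, hε, hball⟩ := Metric.isOpen_iff.1
    (isOpen_lt continuous_const (continuous_q_left α) : IsOpen {v : Vec b | 0 < C.q v α}) v0 hv0α
  obtain ⟨x', hx'N, hx'd, hx's⟩ := exists_generic hC N v0 ((hN v0).2 ⟨hv0A0, hv0A⟩) hε
  have hx'α : 0 < C.q x' α := hball hx'd
  obtain ⟨hx'A0, hx'A⟩ := (hN x').1 hx'N
  have hαx' : C.q α x' = C.q x' α := hC.symm _ _
  set p : ℝ := C.q x' α with hpdef
  set δ : ℝ := min (p / (|C.q x' x'| + 1)) (1 / ((|K| + 1) * (p + 1))) with hδ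
  have hδpos : 0 < δ := lt_min (by positivity) (by positivity)
  have hδ1 : δ * |C.q x' x'| ≤ p := by
    have h1 : δ ≤ p / (|C.q x' x'| + 1) := min_le_left _ _
    rw [le_div_iff₀ (by positivity)] at h1
    have := abs_nonneg (C.q x' x')
    nlinarith
  have hδ2 : |K| * (δ * p) < 1 := by
    have h1 : δ ≤ 1 / ((|K| + 1) * (p + 1)) := min_le_right _ _
    rw [le_div_iff₀ (by positivity)] at h1
    have h2 := abs_nonneg K
    have h3 : |K| * (δ * p) < δ * ((|K| + 1) * (p + 1)) := by
      have h4 : δ * ((|K| + 1) * (p + 1)) = |K| * (δ * p) + δ * (|K| + p + 1) := by ring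
      have h5 : 0 < δ * (|K| + p + 1) := by positivity
      linarith
    linarith
  -- no wall of `⟨A₀, A⟩^⊥` is orthogonal to `α + t x'`, `0 < t ≤ δ`
  have hnw : ∀ t : ℝ, 0 < t → t ≤ δ → ∀ s ∈ C.S, C.q s A0 = 0 → C.q s A = 0 →
      C.q s (α + t • x') ≠ 0 := by
    intro t ht htδ s hs h1 h2 h3
    have h4 := wall_small hC hα hαα hpp hαA0 hαA hx'A0 hx'A (by rw [hαx']; exact hx'α) ht
      (by
        rw [hαx']
        have := abs_nonneg (C.q x' x')
        nlinarith)
      (by
        rw [hαx']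
        have h5 : |K| * (t * p) ≤ |K| * (δ * p) := by gcongr
        linarith) hK hs h1 h2 h3
    rw [map_add, map_smul, h4, zero_add, smul_eq_mul] at h3
    rcases mul_eq_zero.1 h3 with h | h
    · exact ht.ne' h
    · refine hx's s (hC.wall_mem s hs) ?_ h
      intro hsN
      obtain ⟨a, a', rfl⟩ := Submodule.mem_span_pair.1 hsN
      have h4 := hC.wall_sq _ hs
      have h5 := posPlane_nonneg hpp a a'
      linarith
  set ω : Vec b := α + δ • x' with hω
  have hqA0 : ∀ t : ℝ, C.q (α + t • x') A0 = 0 := by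
    intro t
    rw [C.q.map_add, C.q.map_smul, LinearMap.add_apply, LinearMap.smul_apply, hx'A0, hαA0]
    simp
  have hqA : ∀ t : ℝ, C.q (α + t • x') A = 0 := by
    intro t
    rw [C.q.map_add, C.q.map_smul, LinearMap.add_apply, LinearMap.smul_apply, hx'A, hαA]
    simp
  have hqq : ∀ t : ℝ, 0 < t → t ≤ δ → 0 < C.q (α + t • x') (α + t • x') := by
    intro t ht htδ
    have e : C.q (α + t • x') (α + t • x') = t * (2 * p + t * C.q x' x') := by
      simp only [map_add, map_smul, LinearMap.add_apply, LinearMap.smul_apply, smul_eq_mul, hαα,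
        hαx']
      ring
    rw [e]
    apply mul_pos ht
    have h1 : t * |C.q x' x'| ≤ p := by
      have := abs_nonneg (C.q x' x')
      nlinarith
    have h2 := neg_abs_le (C.q x' x')
    nlinarith
  have hωA0 : C.q ω A0 = 0 := hqA0 δ
  have hωA : C.q ω A = 0 := hqA δ
  have hωpos : 0 < C.q ω ω := hqq δ hδpos le_rfl
  have hαω : C.q α ω = δ * p := by
    rw [hω, map_add, map_smul, hαα, hαx', smul_eq_mul, zero_add]
  have hα_ω : 0 < C.q α ω := by rw [hαω]; positivity
  have hwall := hnw δ hδpos le_rfl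
  -- the classes `α + s ω`
  have e1 : ∀ s : ℝ, 0 < s → α + s • ω = (1 + s) • (α + (s * δ / (1 + s)) • x') := by
    intro s hs
    have h1 : (1 + s) ≠ 0 := by positivity
    rw [hω, smul_add, smul_add, smul_smul, smul_smul, add_smul, one_smul,
      mul_div_cancel₀ _ h1, add_assoc]
  have hle : ∀ s : ℝ, 0 < s → 0 < s * δ / (1 + s) ∧ s * δ / (1 + s) ≤ δ := by
    intro s hs
    refine ⟨by positivity, ?_⟩
    rw [div_le_iff₀ (by positivity)]
    nlinarith
  have hne : ∀ s : ℝ, 0 < s → ∀ w ∈ C.S, C.q w A0 = 0 → C.q w A = 0 →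
      C.q w (α + s • ω) ≠ 0 := by
    intro s hs w hw h1 h2
    rw [e1 s hs, map_smul, smul_eq_mul]
    exact mul_ne_zero (by positivity) (hnw _ (hle s hs).1 (hle s hs).2 w hw h1 h2)
  have hkadd : ∀ j : C.I, ∀ A0' : Vec b, (∀ v, C.q v A0' = 0 ↔ C.q v A0 = 0) → C.per j A0' A →
      ω ∈ C.kahler j → ∀ s : ℝ, 0 < s → α + s • ω ∈ C.kahler j := by
    intro j A0' hiff hj hωj s hs
    refine (hC.kahler_iff j A0' A hj ω hωj _).2 ⟨?_, ?_, ?_, ?_, ?_⟩
    · rw [hiff, e1 s hs, C.q.map_smul, LinearMap.smul_apply, hqA0, smul_zero]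
    · rw [e1 s hs, C.q.map_smul, LinearMap.smul_apply, hqA, smul_zero]
    · have h1 := hqq _ (hle s hs).1 (hle s hs).2
      rw [e1 s hs, C.q.map_smul, LinearMap.smul_apply, map_smul, smul_eq_mul, smul_eq_mul]
      positivity
    · rw [C.q.map_add, C.q.map_smul, LinearMap.add_apply, LinearMap.smul_apply, smul_eq_mul]
      positivity
    · intro w hw h1 h2 h3
      rw [hiff] at h1
      by_contra hcon
      push Not at hcon
      -- the zero `s'` of `q(w, α + s ω)`
      have h4 : C.q w (α + s • ω) = C.q w α + s * C.q w ω := by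
        rw [map_add, map_smul, smul_eq_mul]
      rw [h4] at hcon
      have h5 : C.q w α < 0 := by
        have : 0 < s * C.q w ω := by positivity
        linarith
      have h6 : 0 < -C.q w α / C.q w ω := div_pos (by linarith) h3
      apply hne _ h6 w hw h1 h2
      rw [map_add, map_smul, smul_eq_mul, div_mul_cancel₀ _ h3.ne']
      ring
  have hnefj : ∀ j : C.I, (∀ s : ℝ, 0 < s → α + s • ω ∈ C.kahler j) → C.Nef j α := by
    intro j h
    have h1 : Tendsto (fun n : ℕ => α + (1 / ((n : ℝ) + 1)) • ω) atTop (𝓝 (α + (0 : ℝ) • ω)) :=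
      tendsto_const_nhds.add (tendsto_one_div_add_atTop_nhds_zero_nat.smul_const ω)
    rw [zero_smul, add_zero] at h1
    exact mem_closure_of_tendsto h1 (Eventually.of_forall fun n => h _ (by positivity))
  have hdet := gram_ne_zero hC (hC.per_pos i x y hp) hκκ.1 hκκ.2.1 hκκ.2.2.1 hpp hωA0 hωA hωpos
  rcases lt_or_gt_of_ne hdet with hneg | hpos
  · -- change the sign of `A₀`
    have hpp' : C.PosPlane (-A0) A := by
      intro s t hst
      have := hpp (-s) t (by
        rcases hst with h | h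
        · exact Or.inl (neg_ne_zero.2 h)
        · exact Or.inr h)
      have e : s • (-A0) + t • A = (-s) • A0 + t • A := by rw [smul_neg, neg_smul]
      rw [e]
      exact this
    have hgram : C.gram x y κ (-A0) A ω = -C.gram x y κ A0 A ω := gram_neg _ _ _ _ _ _
    obtain ⟨j, hj, hωj⟩ := hP i x y hp κ hκ (-A0) A ω hpp' (by rw [map_neg, hωA0, neg_zero])
      hωA hωpos (by rw [hgram]; linarith) (by
        intro s hs h1 h2
        rw [map_neg, neg_eq_zero] at h1
        exact hwall s hs h1 h2)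
    exact ⟨A, hA, -A0, (lattice b).neg_mem hA0, ω, j, hAα,
      by rw [map_neg, LinearMap.neg_apply, hA0α, neg_zero], by rw [map_neg, hAA0, neg_zero], posA,
      by rw [map_neg, map_neg, LinearMap.neg_apply, neg_neg]; exact posA0, hj, hωj,
      hnefj j (hkadd j (-A0) (fun v => by rw [map_neg, neg_eq_zero]) hj hωj)⟩
  · obtain ⟨j, hj, hωj⟩ := hP i x y hp κ hκ A0 A ω hpp hωA0 hωA hωpos hpos hwall
    exact ⟨A, hA, A0, hA0, ω, j, hAα, hA0α, hAA0, posA, posA0, hj, hωj,
      hnefj j (hkadd j A0 (fun v => Iff.rfl) hj hωj)⟩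

theorem gram_formula (x y A x' y' A' : Vec b) : C.gram x y A x' y' A' =
    C.q x x' * C.q y y' * C.q A A' - C.q x x' * C.q y A' * C.q A y' -
      C.q x y' * C.q y x' * C.q A A' + C.q x y' * C.q y A' * C.q A x' +
      C.q x A' * C.q y x' * C.q A y' - C.q x A' * C.q y y' * C.q A x' := by
  rw [gram, Matrix.det_fin_three]
  rfl

/-- the arc of rotated complex structures -/
theorem exists_arc (hC : C.Facts) (hP : C.Period) {i : C.I} {x y κ : Vec b} (hper : C.per i x y)
    (hκ : κ ∈ C.kahler i) (hxy : C.q x y = 0) (hxx : C.q x x = C.q κ κ)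
    (hyy : C.q y y = C.q κ κ)
    (hw : ∀ s ∈ C.S, C.q s x = 0 → C.q s y = 0 → C.q s κ ≠ 0) (u : ℝ) :
    ∃ k, C.per k (Real.cos u • x - Real.sin u • κ) y ∧
      (Real.cos u • κ + Real.sin u • x) ∈ C.kahler k := by
  obtain ⟨hκx, hκy, hκκ, -, -⟩ := (hC.kahler_iff i x y hper κ hκ κ).1 hκ
  have hxκ : C.q x κ = 0 := by rw [hC.symm, hκx]
  have hyκ : C.q y κ = 0 := by rw [hC.symm, hκy]
  have hyx : C.q y x = 0 := by rw [hC.symm, hxy]
  have hcs := Real.sin_sq_add_cos_sq u
  set c : ℝ := Real.cos u with hc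
  set d : ℝ := Real.sin u with hd
  set r : ℝ := C.q κ κ with hr
  have hq1 : C.q (c • x - d • κ) (c • x - d • κ) = r := by
    simp only [map_sub, map_smul, LinearMap.sub_apply, LinearMap.smul_apply, smul_eq_mul, hxκ,
      hκx, hxx]
    rw [← hr]
    linear_combination r * hcs
  have hq2 : C.q (c • κ + d • x) (c • κ + d • x) = r := by
    simp only [map_add, map_smul, LinearMap.add_apply, LinearMap.smul_apply, smul_eq_mul, hxκ,
      hκx, hxx]
    rw [← hr]
    linear_combination r * hcs
  have hq3 : C.q (c • x - d • κ) y = 0 := by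
    simp only [map_sub, map_smul, LinearMap.sub_apply, LinearMap.smul_apply, smul_eq_mul, hxy,
      hκy]
    ring
  have hq3' : C.q y (c • x - d • κ) = 0 := by rw [hC.symm, hq3]
  have hq4 : C.q (c • κ + d • x) (c • x - d • κ) = 0 := by
    simp only [map_add, map_sub, map_smul, LinearMap.add_apply,
      LinearMap.smul_apply, smul_eq_mul, hxκ, hκx, hxx]
    rw [← hr]
    ring
  have hq5 : C.q (c • κ + d • x) y = 0 := by
    simp only [map_add, map_smul, LinearMap.add_apply, LinearMap.smul_apply, smul_eq_mul, hxy,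
      hκy]
    ring
  have hplane : C.PosPlane (c • x - d • κ) y := by
    intro s t hst
    have e : C.q (s • (c • x - d • κ) + t • y) (s • (c • x - d • κ) + t • y) =
        (s ^ 2 + t ^ 2) * r := by
      have h0 : C.q (s • (c • x - d • κ) + t • y) (s • (c • x - d • κ) + t • y) =
          s ^ 2 * C.q (c • x - d • κ) (c • x - d • κ) + s * t * C.q (c • x - d • κ) y +
            t * s * C.q y (c • x - d • κ) + t ^ 2 * C.q y y := by
        generalize c • x - d • κ = z
        simp only [map_add, map_smul, LinearMap.add_apply, LinearMap.smul_apply, smul_eq_mul]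
        ring
      rw [h0, hq1, hq3, hq3', hyy]
      ring
    rw [e]
    have h5 : 0 < s ^ 2 + t ^ 2 := by
      rcases hst with h | h <;> positivity
    positivity
  refine hP i x y hper κ hκ _ _ _ hplane hq4 hq5 (by rw [hq2]; exact hκκ) ?_ ?_
  · have e : C.gram x y κ (c • x - d • κ) y (c • κ + d • x) = r ^ 3 := by
      rw [gram_formula]
      simp only [map_add, map_sub, map_smul, smul_eq_mul, hxx, hyy, hxy, hyx, hxκ, hκx, hyκ, hκy]
      rw [← hr]
      linear_combination r ^ 3 * hcs
    rw [e]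
    positivity
  · intro s hs h1 h2 h3
    have h4 : C.q s x * c - C.q s κ * d = 0 := by
      rw [map_sub, map_smul, map_smul, smul_eq_mul, smul_eq_mul] at h1
      linarith
    have h5 : C.q s κ * c + C.q s x * d = 0 := by
      rw [map_add, map_smul, map_smul, smul_eq_mul, smul_eq_mul] at h3
      linarith
    have h6 : C.q s x = 0 := by linear_combination c * h4 + d * h5 - C.q s x * hcs
    have h7 : C.q s κ = 0 := by linear_combination c * h5 - d * h4 - C.q s κ * hcs
    exact hw s hs h6 h2 h7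


/-- an ample class on a member with a rational period plane -/
theorem exists_ample (hC : C.Facts) (hO : C.KahlerOpen) {j : C.I} {A A0 ω : Vec b}
    (hA : A ∈ lattice b) (hA0 : A0 ∈ lattice b) (hAA0 : C.q A A0 = 0) (posA : 0 < C.q A A)
    (posA0 : 0 < C.q A0 A0) (hj : C.per j A0 A) (hω : ω ∈ C.kahler j) :
    ∃ w ∈ lattice b, w ∈ C.kahler j := by
  obtain ⟨a, ha⟩ := hC.integral A hA A hA
  obtain ⟨a0, ha0⟩ := hC.integral A0 hA0 A0 hA0
  obtain ⟨h1, h2, -, -, -⟩ := (hC.kahler_iff j _ _ hj ω hω ω).1 hω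
  have hA0A : C.q A0 A = 0 := by rw [hC.symm, hAA0]
  let p : Vec b →ₗ[ℝ] Vec b := (C.q A0 A0 * C.q A A) • LinearMap.id -
    (C.q A A) • (C.q A0).smulRight A0 - (C.q A0 A0) • (C.q A).smulRight A
  have hp : ∀ v, p v = (C.q A0 A0 * C.q A A) • v - (C.q A A * C.q A0 v) • A0 -
      (C.q A0 A0 * C.q A v) • A := fun v => by simp [p, smul_smul]
  have hpA0 : ∀ v, C.q (p v) A0 = 0 := by
    intro v
    rw [hp]
    simp only [map_sub, map_smul, LinearMap.sub_apply, LinearMap.smul_apply, smul_eq_mul, hAA0]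
    rw [hC.symm v A0]
    ring
  have hpA : ∀ v, C.q (p v) A = 0 := by
    intro v
    rw [hp]
    simp only [map_sub, map_smul, LinearMap.sub_apply, LinearMap.smul_apply, smul_eq_mul, hA0A]
    rw [hC.symm v A]
    ring
  have hpω : p ω = (C.q A0 A0 * C.q A A) • ω := by
    rw [hp, hC.symm A0 ω, hC.symm A ω, h1, h2]
    simp
  have hplat : ∀ v ∈ lattice b, p v ∈ lattice b := by
    intro v hv
    obtain ⟨m, hm⟩ := hC.integral A hA v hv
    obtain ⟨m0, hm0⟩ := hC.integral A0 hA0 v hv
    rw [hp, hm, hm0, ha, ha0]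
    have e1 : ((a0 : ℝ) * (a : ℝ)) • v ∈ lattice b := by
      have := lattice_smul hv (a0 * a)
      push_cast at this
      exact this
    have e2 : ((a : ℝ) * (m0 : ℝ)) • A0 ∈ lattice b := by
      have := lattice_smul hA0 (a * m0)
      push_cast at this
      exact this
    have e3 : ((a0 : ℝ) * (m : ℝ)) • A ∈ lattice b := by
      have := lattice_smul hA (a0 * m)
      push_cast at this
      exact this
    exact (lattice b).sub_mem ((lattice b).sub_mem e1 e2) e3
  have hpc : Continuous p := LinearMap.continuous_of_finiteDimensional p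
  have hcpos : 0 < C.q A0 A0 * C.q A A := by positivity
  have hcω := kahler_smul hC hω hcpos
  obtain ⟨ε, hε, hball⟩ := hO j _ _ hj _ hcω
  have hU : IsOpen {v : Vec b | dist (p v) ((C.q A0 A0 * C.q A A) • ω) < ε} :=
    isOpen_lt (hpc.dist continuous_const) continuous_const
  obtain ⟨v, hv, N, hN, hvU⟩ := exists_rat hU (x := ω) (by
    change dist (p ω) _ < ε
    rw [hpω, dist_self]
    exact hε)
  have hNr : (0 : ℝ) < N := by exact_mod_cast hN
  have h3 : p ((N : ℝ)⁻¹ • v) ∈ C.kahler j := hball _ (hpA0 _) (hpA _) hvU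
  have h4 := kahler_smul hC h3 hNr
  rw [map_smul, smul_smul, mul_inv_cancel₀ hNr.ne', one_smul] at h4
  exact ⟨p v, hplat v hv, h4⟩

/-- the special member, by surjectivity of the period map -/
theorem exists_cusp (hC : C.Facts) (hO : C.KahlerOpen) (hP : C.Period) (i : C.I) {α : Vec b}
    (hα : α ∈ lattice b) (hα0 : α ≠ 0) (hαα : C.q α α = 0) (hnef : C.Nef i α) :
    ∃ D : Cusp C α, D.Facts := by
  obtain ⟨A, hA, A0, hA0, ω, j, hAα, hA0α, hAA0, posA, posA0, hj, hω, hnefj⟩ :=
    exists_real hC hP i hα hα0 hαα hnef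
  obtain ⟨w, hw, hwk⟩ := exists_ample hC hO hA hA0 hAA0 posA posA0 hj hω
  exact ⟨⟨A, A0, w, j⟩,
    { hα := hα, hα0 := hα0, hαα := hαα, hA := hA, hA0 := hA0, hAα := hAα, hA0α := hA0α
      hAA0 := hAA0, posA := posA, posA0 := posA0, per := hj, kah := hwk, hω := hw
      nef := hnefj }⟩

/-- a linear map which is not zero is not zero on some lattice vector -/
theorem exists_lattice_ne {L : Vec b →ₗ[ℝ] Vec b} {z : Vec b} (hz : L z ≠ 0) :
    ∃ v ∈ lattice b, L v ≠ 0 := by
  classical
  by_contra hcon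
  push Not at hcon
  apply hz
  have h0 : L = 0 := (Pi.basisFun ℝ (Fin b)).ext fun k => by
    rw [Pi.basisFun_apply]
    refine hcon _ fun j => ?_
    by_cases hj : j = k
    · subst hj; exact ⟨1, by simp⟩
    · exact ⟨0, by simp [hj]⟩
  rw [h0]
  rfl

/-- if `b = 4` a projective member with a nef isotropic class is its own special member -/
theorem exists_cusp4 (hb : b = 4) (hC : C.Facts) (hB : C.PerBasis) {i : C.I} {α κ : Vec b}
    (hα : α ∈ lattice b) (hα0 : α ≠ 0) (hαα : C.q α α = 0) (hnef : C.Nef i α)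
    (hκ : κ ∈ C.kahler i) (hκl : κ ∈ lattice b) : ∃ D : Cusp C α, D.Facts := by
  obtain ⟨x, y, hp⟩ := hC.per_exists i
  obtain ⟨hαx, hαy, ha⟩ := nef_pos hC hp hnef hα0 hκ
  obtain ⟨hκx, hκy, hκκ, -, -⟩ := (hC.kahler_iff i x y hp κ hκ κ).1 hκ
  have hpp := hC.per_pos i x y hp
  set a : ℝ := C.q α κ with haa
  set m : ℝ := C.q κ κ with hm
  have hκα : C.q κ α = a := hC.symm _ _
  have hxα : C.q x α = 0 := by rw [hC.symm, hαx]
  have hyα : C.q y α = 0 := by rw [hC.symm, hαy]
  have hxκ : C.q x κ = 0 := by rw [hC.symm, hκx]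
  have hyκ : C.q y κ = 0 := by rw [hC.symm, hκy]
  have hyx : C.q y x = C.q x y := hC.symm _ _
  -- `x, y, α, κ` is a basis
  have hli : LinearIndependent ℝ ![x, y, α, κ] := by
    rw [Fintype.linearIndependent_iff]
    intro c hc
    rw [Fin.sum_univ_four] at hc
    change c 0 • x + c 1 • y + c 2 • α + c 3 • κ = 0 at hc
    have e1 : c 3 * a = 0 := by
      have := congrArg (fun v => C.q v α) hc
      simp only [map_add, map_smul, LinearMap.add_apply, LinearMap.smul_apply, smul_eq_mul, hxα,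
        hyα, hαα, hκα, map_zero, LinearMap.zero_apply] at this
      linarith
    have c3 : c 3 = 0 := (mul_eq_zero.1 e1).resolve_right ha.ne'
    have e2 : c 2 * a = 0 := by
      have := congrArg (fun v => C.q v κ) hc
      simp only [map_add, map_smul, LinearMap.add_apply, LinearMap.smul_apply, smul_eq_mul, hxκ,
        hyκ, c3, map_zero, LinearMap.zero_apply] at this
      rw [← haa] at this
      linarith
    have c2 : c 2 = 0 := (mul_eq_zero.1 e2).resolve_right ha.ne'
    rw [c2, c3, zero_smul, zero_smul, add_zero, add_zero] at hc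
    have c01 : ¬ (c 0 ≠ 0 ∨ c 1 ≠ 0) := by
      intro h
      have := hpp _ _ h
      rw [hc] at this
      simp at this
    push Not at c01
    intro k
    fin_cases k
    · exact c01.1
    · exact c01.2
    · exact c2
    · exact c3
  have hspan := hli.span_eq_top_of_card_eq_finrank (by simp [hb])
  have hmem : ∀ v, C.q v α = 0 → C.q v κ = 0 → ∃ s t : ℝ, v = s • x + t • y := by
    intro v h1 h2
    have hv : v ∈ Submodule.span ℝ (Set.range ![x, y, α, κ]) := by
      rw [hspan]
      exact Submodule.mem_top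
    obtain ⟨c, hc⟩ := (Submodule.mem_span_range_iff_exists_fun ℝ).1 hv
    rw [Fin.sum_univ_four] at hc
    change c 0 • x + c 1 • y + c 2 • α + c 3 • κ = v at hc
    have e1 : c 3 * a = 0 := by
      rw [← hc] at h1
      simp only [map_add, map_smul, LinearMap.add_apply, LinearMap.smul_apply, smul_eq_mul, hxα,
        hyα, hαα, hκα] at h1
      linarith
    have c3 : c 3 = 0 := (mul_eq_zero.1 e1).resolve_right ha.ne'
    have e2 : c 2 * a = 0 := by
      rw [← hc] at h2
      simp only [map_add, map_smul, LinearMap.add_apply, LinearMap.smul_apply, smul_eq_mul, hxκ,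
        hyκ, c3] at h2
      rw [← haa] at h2
      linarith
    have c2 : c 2 = 0 := (mul_eq_zero.1 e2).resolve_right ha.ne'
    refine ⟨c 0, c 1, ?_⟩
    rw [← hc, c2, c3, zero_smul, zero_smul, add_zero, add_zero]
  -- the projection to `⟨α, κ⟩^⊥`
  obtain ⟨a', ha'⟩ := hC.integral α hα κ hκl
  obtain ⟨m', hm'⟩ := hC.integral κ hκl κ hκl
  rw [← haa] at ha'
  rw [← hm] at hm'
  let P : Vec b →ₗ[ℝ] Vec b := (a * a) • LinearMap.id -
    (a • C.q κ - m • C.q α).smulRight α - (a • C.q α).smulRight κ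
  have hP : ∀ v, P v = (a * a) • v - (a * C.q κ v - m * C.q α v) • α - (a * C.q α v) • κ :=
    fun v => by simp [P]
  have hPα : ∀ v, C.q (P v) α = 0 := by
    intro v
    rw [hP]
    simp only [map_sub, map_smul, LinearMap.sub_apply, LinearMap.smul_apply, smul_eq_mul, hαα,
      hκα]
    rw [hC.symm v α]
    ring
  have hPκ : ∀ v, C.q (P v) κ = 0 := by
    intro v
    rw [hP]
    simp only [map_sub, map_smul, LinearMap.sub_apply, LinearMap.smul_apply, smul_eq_mul]
    rw [hC.symm v κ, ← haa, ← hm]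
    ring
  have hPlat : ∀ v ∈ lattice b, P v ∈ lattice b := by
    intro v hv
    obtain ⟨k, hk⟩ := hC.integral κ hκl v hv
    obtain ⟨l, hl⟩ := hC.integral α hα v hv
    rw [hP, hk, hl, ha', hm']
    have e1 : ((a' : ℝ) * (a' : ℝ)) • v ∈ lattice b := by
      have := lattice_smul hv (a' * a')
      push_cast at this
      exact this
    have e2 : ((a' : ℝ) * (k : ℝ) - (m' : ℝ) * (l : ℝ)) • α ∈ lattice b := by
      have := lattice_smul hα (a' * k - m' * l)
      push_cast at this
      exact this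
    have e3 : ((a' : ℝ) * (l : ℝ)) • κ ∈ lattice b := by
      have := lattice_smul hκl (a' * l)
      push_cast at this
      exact this
    exact (lattice b).sub_mem ((lattice b).sub_mem e1 e2) e3
  have hx0 : x ≠ 0 := by
    rintro rfl
    have := hpp 1 0 (Or.inl one_ne_zero)
    simp at this
  have hPz : ∀ z, C.q z α = 0 → C.q z κ = 0 → P z = (a * a) • z := by
    intro z h1 h2
    rw [hP, hC.symm κ z, hC.symm α z, h1, h2]
    simp
  have haane : a * a ≠ 0 := by positivity
  obtain ⟨v, hv, hv0⟩ := exists_lattice_ne (L := P) (z := x) (by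
    rw [hPz x hxα hxκ]
    exact smul_ne_zero haane hx0)
  set A : Vec b := P v with hA
  have hAlat : A ∈ lattice b := hPlat v hv
  obtain ⟨s, t, hst⟩ := hmem A (hPα v) (hPκ v)
  have hpos : ∀ s t : ℝ, s • x + t • y ≠ 0 → 0 < C.q (s • x + t • y) (s • x + t • y) := by
    intro s t h
    apply hpp
    by_contra hcon
    push Not at hcon
    apply h
    rw [hcon.1, hcon.2]
    simp
  have posA : 0 < C.q A A := by
    rw [hst]
    exact hpos s t (by rw [← hst]; exact hv0)
  obtain ⟨r, hr⟩ := hC.integral A hAlat A hAlat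
  -- the projection to `⟨α, κ, A⟩^⊥`
  let P2 : Vec b →ₗ[ℝ] Vec b := (C.q A A) • P - ((C.q A).comp P).smulRight A
  have hP2 : ∀ v, P2 v = C.q A A • P v - C.q A (P v) • A := fun v => by simp [P2]
  have hAα : C.q A α = 0 := hPα v
  have hAκ : C.q A κ = 0 := hPκ v
  have hP2lat : ∀ v ∈ lattice b, P2 v ∈ lattice b := by
    intro v hv
    obtain ⟨k, hk⟩ := hC.integral A hAlat (P v) (hPlat v hv)
    rw [hP2, hr, hk]
    exact (lattice b).sub_mem (lattice_smul (hPlat v hv) r) (lattice_smul hAlat k)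
  set z : Vec b := C.q y A • x - C.q x A • y with hz
  have hzA : C.q z A = 0 := by
    rw [hz]
    simp only [map_sub, map_smul, LinearMap.sub_apply, LinearMap.smul_apply, smul_eq_mul]
    ring
  have hzα : C.q z α = 0 := by
    rw [hz]
    simp only [map_sub, map_smul, LinearMap.sub_apply, LinearMap.smul_apply, smul_eq_mul, hxα,
      hyα]
    ring
  have hzκ : C.q z κ = 0 := by
    rw [hz]
    simp only [map_sub, map_smul, LinearMap.sub_apply, LinearMap.smul_apply, smul_eq_mul, hxκ,
      hyκ]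
    ring
  have hz0 : z ≠ 0 := by
    intro h0
    have h1 : ¬ (C.q y A ≠ 0 ∨ -C.q x A ≠ 0) := by
      intro h
      have h2 := hpp _ _ h
      have h3 : C.q y A • x + (-C.q x A) • y = z := by rw [hz, neg_smul, sub_eq_add_neg]
      rw [h3, h0] at h2
      simp at h2
    push Not at h1
    have h2 : C.q A A = s * C.q x A + t * C.q y A := by
      have e : C.q A A = C.q (s • x + t • y) A := by rw [← hst]
      rw [e, C.q.map_add, C.q.map_smul, C.q.map_smul, LinearMap.add_apply, LinearMap.smul_apply,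
        LinearMap.smul_apply, smul_eq_mul, smul_eq_mul]
    rw [h1.1, neg_eq_zero.1 h1.2] at h2
    rw [h2] at posA
    simp at posA
  obtain ⟨v2, hv2, hv20⟩ := exists_lattice_ne (L := P2) (z := z) (by
    rw [hP2, hPz z hzα hzκ, map_smul, hC.symm A z, hzA, smul_zero, zero_smul, sub_zero]
    exact smul_ne_zero posA.ne' (smul_ne_zero haane hz0))
  set A0 : Vec b := P2 v2 with hA0
  have hA0lat : A0 ∈ lattice b := hP2lat v2 hv2
  have hA0α : C.q A0 α = 0 := by
    rw [hA0, hP2]
    simp only [map_sub, map_smul, LinearMap.sub_apply, LinearMap.smul_apply, smul_eq_mul, hAα]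
    rw [hPα]
    ring
  have hA0κ : C.q A0 κ = 0 := by
    rw [hA0, hP2]
    simp only [map_sub, map_smul, LinearMap.sub_apply, LinearMap.smul_apply, smul_eq_mul, hAκ]
    rw [hPκ]
    ring
  have hAA0 : C.q A A0 = 0 := by
    rw [hA0, hP2]
    simp only [map_sub, map_smul, smul_eq_mul]
    ring
  obtain ⟨u, w, huw⟩ := hmem A0 hA0α hA0κ
  have posA0 : 0 < C.q A0 A0 := by
    rw [huw]
    exact hpos u w (by rw [← huw]; exact hv20)
  have hdet : u * t - w * s ≠ 0 := by
    intro h0
    have e1 : C.q A A = s * s * C.q x x + 2 * (s * t) * C.q x y + t * t * C.q y y := by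
      rw [hst]
      simp only [map_add, map_smul, LinearMap.add_apply, LinearMap.smul_apply, smul_eq_mul, hyx]
      ring
    have e2 : C.q A0 A0 = u * u * C.q x x + 2 * (u * w) * C.q x y + w * w * C.q y y := by
      rw [huw]
      simp only [map_add, map_smul, LinearMap.add_apply, LinearMap.smul_apply, smul_eq_mul, hyx]
      ring
    have e3 : C.q A A0 = s * u * C.q x x + (s * w + t * u) * C.q x y + t * w * C.q y y := by
      rw [hst, huw]
      simp only [map_add, map_smul, LinearMap.add_apply, LinearMap.smul_apply, smul_eq_mul, hyx]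
      ring
    have e4 : C.q A A * C.q A0 A0 = (u * t - w * s) ^ 2 * (C.q x x * C.q y y - C.q x y ^ 2) +
        C.q A A0 ^ 2 := by
      rw [e1, e2, e3]
      ring
    rw [h0, hAA0] at e4
    have : 0 < C.q A A * C.q A0 A0 := by positivity
    rw [e4] at this
    simp at this
  rcases lt_or_gt_of_ne hdet with hneg | hpos'
  · have h1 := hB i x y hp (-u) (-w) s t (by linarith)
    have e1 : (-u) • x + (-w) • y = -A0 := by
      rw [huw, neg_add, neg_smul, neg_smul]
    rw [e1, ← hst] at h1
    exact ⟨⟨A, -A0, κ, i⟩,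
      { hα := hα, hα0 := hα0, hαα := hαα, hA := hAlat, hA0 := (lattice b).neg_mem hA0lat
        hAα := hAα
        hA0α := by rw [map_neg, LinearMap.neg_apply, hA0α, neg_zero]
        hAA0 := by rw [map_neg, hAA0, neg_zero]
        posA := posA
        posA0 := by rw [map_neg, map_neg, LinearMap.neg_apply, neg_neg]; exact posA0
        per := h1, kah := hκ, hω := hκl, nef := hnef }⟩
  · have h1 := hB i x y hp u w s t (by linarith)
    rw [← huw, ← hst] at h1
    exact ⟨⟨A, A0, κ, i⟩,
      { hα := hα, hα0 := hα0, hαα := hαα, hA := hAlat, hA0 := hA0lat, hAα := hAα, hA0α := hA0α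
        hAA0 := hAA0, posA := posA, posA0 := posA0, per := h1, kah := hκ, hω := hκl
        nef := hnef }⟩

end LData

end Pool.Agent.SYM.V3.Lat
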