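import Mathlib

/-!
# SYM/V3/LatQ : the lattice part, with a rational period plane

`LData b` holds the lattice, the wall classes, the period planes and the Kähler cones of a
deformation class of compact hyperkähler manifolds.
-/

set_option autoImplicit false

open Module

namespace Pool.Agent.SYM.V3.Lat

/-- The cohomology group `H²(X, ℝ) = ℝ^b`. -/
abbrev Vec (b : ℕ) : Type := Fin b → ℝ

/-- The lattice `H²(X, ℤ) = ℤ^b`. -/
def lattice (b : ℕ) : AddSubgroup (Vec b) where
  carrier := {v | ∀ k, ∃ m : ℤ, v k = m}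
  zero_mem' := fun _ => ⟨0, by simp⟩
  add_mem' := by
    intro u v hu hv k
    obtain ⟨m, hm⟩ := hu k
    obtain ⟨m', hm'⟩ := hv k
    exact ⟨m + m', by push_cast; rw [Pi.add_apply, hm, hm']⟩
  neg_mem' := by
    intro u hu k
    obtain ⟨m, hm⟩ := hu k
    exact ⟨-m, by push_cast; rw [Pi.neg_apply, hm]⟩

/-- Lattice, walls, period planes, Kähler cones. -/
structure LData (b : ℕ) where
  /-- the Beauville-Bogomolov-Fujiki form -/
  q : Vec b →ₗ[ℝ] Vec b →ₗ[ℝ] ℝ
  /-- the MBM classes (wall divisors) -/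
  S : Set (Vec b)
  /-- the members of the class: the marked compact hyperkähler manifolds `X_i` -/
  I : Type
  /-- `per i x y`: `(x, y)` is a positively oriented basis of the plane `⟨Re σ, Im σ⟩` of `X_i` -/
  per : I → Vec b → Vec b → Prop
  /-- the Kähler cone of `X_i` in `H²(X_i, ℝ)` -/
  kahler : I → Set (Vec b)

namespace LData

section defs

variable {b : ℕ} (C : LData b)

/-- The Gram determinant of two triples of vectors. -/
noncomputable def gram (x y A x' y' A' : Vec b) : ℝ :=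
  Matrix.det !![C.q x x', C.q x y', C.q x A'; C.q y x', C.q y y', C.q y A';
    C.q A x', C.q A y', C.q A A']

/-- `(x, y)` is a basis of a positive definite plane. -/
def PosPlane (x y : Vec b) : Prop :=
  ∀ s t : ℝ, s ≠ 0 ∨ t ≠ 0 → 0 < C.q (s • x + t • y) (s • x + t • y)

/-- `a` is a nef class: it is in the closure of the Kähler cone. -/
def Nef (i : C.I) (a : Vec b) : Prop := a ∈ closure (C.kahler i)

/-- The published facts used. -/
structure Facts : Prop where
  symm : ∀ x y, C.q x y = C.q y x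
  integral : ∀ x ∈ lattice b, ∀ y ∈ lattice b, ∃ m : ℤ, C.q x y = m
  signature : ∃ W : Submodule ℝ (Vec b), finrank ℝ W = 3 ∧ (∀ x ∈ W, x ≠ 0 → 0 < C.q x x) ∧
    ∀ x, (∀ y ∈ W, C.q x y = 0) → x ≠ 0 → C.q x x < 0
  wall_mem : ∀ s ∈ C.S, s ∈ lattice b
  wall_sq : ∀ s ∈ C.S, C.q s s < 0
  wall_bound : ∀ A ∈ lattice b, 0 < C.q A A → ∃ K : ℝ, ∀ s ∈ C.S, C.q s A = 0 → -K ≤ C.q s s
  per_exists : ∀ i, ∃ x y, C.per i x y
  per_pos : ∀ i x y, C.per i x y → C.PosPlane x y
  kahler_nonempty : ∀ i, (C.kahler i).Nonempty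
  kahler_iff : ∀ i x y, C.per i x y → ∀ A ∈ C.kahler i, ∀ B, B ∈ C.kahler i ↔
    C.q B x = 0 ∧ C.q B y = 0 ∧ 0 < C.q B B ∧ 0 < C.q B A ∧
      ∀ s ∈ C.S, C.q s x = 0 → C.q s y = 0 → 0 < C.q s A → 0 < C.q s B

/-- Surjectivity of the period map. -/
def Period : Prop :=
  ∀ i x y, C.per i x y → ∀ A ∈ C.kahler i, ∀ x' y' B, C.PosPlane x' y' →
    C.q B x' = 0 → C.q B y' = 0 → 0 < C.q B B → 0 < C.gram x y A x' y' B →
    (∀ s ∈ C.S, C.q s x' = 0 → C.q s y' = 0 → C.q s B ≠ 0) →
    ∃ j, C.per j x' y' ∧ B ∈ C.kahler j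

end defs


variable {b : ℕ} {C : LData b}

/-- a subspace on which `q ≥ 0` has dimension at most `3` (project it to the positive definite
`3`-space of the signature axiom) -/
theorem finrank_le_of_nonneg (hC : C.Facts) (N : Submodule ℝ (Vec b))
    (h : ∀ x ∈ N, 0 ≤ C.q x x) : finrank ℝ N ≤ 3 := by
  obtain ⟨W, hW, -, hneg⟩ := hC.signature
  let φ : N →ₗ[ℝ] (W →ₗ[ℝ] ℝ) :=
    { toFun := fun x => (C.q (x : Vec b)).comp W.subtype
      map_add' := by
        intro x y
        ext w
        simp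
      map_smul' := by
        intro c x
        ext w
        simp }
  have hinj : Function.Injective φ := by
    rw [injective_iff_map_eq_zero]
    intro x hx
    by_contra hne
    have hne' : (x : Vec b) ≠ 0 := fun h0 => hne (Subtype.ext h0)
    have h1 : ∀ y ∈ W, C.q (x : Vec b) y = 0 := by
      intro y hy
      have := LinearMap.congr_fun hx (⟨y, hy⟩ : W)
      simpa [φ] using this
    have h2 := hneg (x : Vec b) h1 hne'
    have h3 := h (x : Vec b) x.2
    linarith
  have h1 := LinearMap.finrank_le_finrank_of_injective hinj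
  have h2 : finrank ℝ (W →ₗ[ℝ] ℝ) = 3 := by
    rw [finrank_linearMap, finrank_self, mul_one, hW]
  rw [h2] at h1
  exact h1

/-- the form is non-degenerate -/
theorem nondeg (hC : C.Facts) (x : Vec b) (h : ∀ y, C.q x y = 0) : x = 0 := by
  obtain ⟨W, -, -, hneg⟩ := hC.signature
  by_contra hx
  have h1 := hneg x (fun y _ => h y) hx
  rw [h x] at h1
  exact lt_irrefl _ h1

/-- no four independent vectors span a non-negative space -/
theorem four_false (hC : C.Facts) (u : Fin 4 → Vec b)
    (h0 : ∀ c : Fin 4 → ℝ, 0 ≤ C.q (∑ k, c k • u k) (∑ k, c k • u k))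
    (h1 : ∀ c : Fin 4 → ℝ, ∑ k, c k • u k = 0 → c = 0) : False := by
  let L : (Fin 4 → ℝ) →ₗ[ℝ] Vec b :=
    { toFun := fun c => ∑ k, c k • u k
      map_add' := by
        intro c d
        simp [add_smul, Finset.sum_add_distrib]
      map_smul' := by
        intro r c
        simp [mul_smul, Finset.smul_sum] }
  have hL : Function.Injective L := by
    rw [injective_iff_map_eq_zero]
    intro c hc
    exact h1 c hc
  have h2 := finrank_le_of_nonneg hC (LinearMap.range L) (by
    rintro _ ⟨c, rfl⟩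
    exact h0 c)
  rw [LinearMap.finrank_range_of_inj hL] at h2
  simp at h2

theorem q_expand (hC : C.Facts) {x y z v : Vec b} (hzx : C.q z x = 0) (hzy : C.q z y = 0)
    (hvx : C.q v x = 0) (hvy : C.q v y = 0) (hvz : C.q v z = 0) (a₁ a₂ a₃ a₄ : ℝ) :
    C.q (a₁ • x + a₂ • y + a₃ • z + a₄ • v) (a₁ • x + a₂ • y + a₃ • z + a₄ • v) =
      C.q (a₁ • x + a₂ • y) (a₁ • x + a₂ • y) + a₃ ^ 2 * C.q z z + a₄ ^ 2 * C.q v v := by
  have hxz : C.q x z = 0 := by rw [hC.symm, hzx]
  have hyz : C.q y z = 0 := by rw [hC.symm, hzy]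
  have hxv : C.q x v = 0 := by rw [hC.symm, hvx]
  have hyv : C.q y v = 0 := by rw [hC.symm, hvy]
  have hzv : C.q z v = 0 := by rw [hC.symm, hvz]
  simp only [map_add, map_smul, LinearMap.add_apply, LinearMap.smul_apply, smul_eq_mul, hxz, hyz,
    hxv, hyv, hzv, hzx, hzy, hvx, hvy, hvz]
  ring

theorem posPlane_nonneg {x y : Vec b} (hp : C.PosPlane x y) (s t : ℝ) :
    0 ≤ C.q (s • x + t • y) (s • x + t • y) := by
  by_cases h : s ≠ 0 ∨ t ≠ 0
  · exact (hp s t h).le
  · push Not at h
    rw [h.1, h.2]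
    simp

theorem sum_four (u : Fin 4 → Vec b) (c : Fin 4 → ℝ) :
    ∑ k, c k • u k = c 0 • u 0 + c 1 • u 1 + c 2 • u 2 + c 3 • u 3 := by
  rw [Fin.sum_univ_four]

/-- Hodge index theorem -/
theorem hodge_pos (hC : C.Facts) {x y A v : Vec b} (hp : C.PosPlane x y) (hAx : C.q A x = 0)
    (hAy : C.q A y = 0) (hA : 0 < C.q A A) (hvx : C.q v x = 0) (hvy : C.q v y = 0)
    (hvA : C.q v A = 0) (hv : v ≠ 0) : C.q v v < 0 := by
  by_contra hcon
  push Not at hcon
  apply four_false hC ![x, y, A, v]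
  · intro c
    rw [sum_four]
    change 0 ≤ C.q (c 0 • x + c 1 • y + c 2 • A + c 3 • v) (c 0 • x + c 1 • y + c 2 • A + c 3 • v)
    rw [q_expand hC hAx hAy hvx hvy hvA]
    have h1 := posPlane_nonneg hp (c 0) (c 1)
    positivity
  · intro c hc
    rw [sum_four] at hc
    change c 0 • x + c 1 • y + c 2 • A + c 3 • v = 0 at hc
    have h2 := q_expand hC hAx hAy hvx hvy hvA (c 0) (c 1) (c 2) (c 3)
    rw [hc, map_zero] at h2
    have h1 := posPlane_nonneg hp (c 0) (c 1)
    have h3 : 0 ≤ c 2 ^ 2 * C.q A A := by positivity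
    have h4 : 0 ≤ c 3 ^ 2 * C.q v v := by positivity
    have e1 : c 2 ^ 2 * C.q A A = 0 := by linarith
    have e2 : C.q (c 0 • x + c 1 • y) (c 0 • x + c 1 • y) = 0 := by linarith
    have c2 : c 2 = 0 := by
      rcases mul_eq_zero.1 e1 with h | h
      · exact pow_eq_zero_iff (two_ne_zero) |>.1 h
      · exact absurd h hA.ne'
    have c01 : c 0 = 0 ∧ c 1 = 0 := by
      by_contra hn
      have : c 0 ≠ 0 ∨ c 1 ≠ 0 := by
        by_contra hn2
        push Not at hn2
        exact hn hn2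
      exact absurd e2 (hp _ _ this).ne'
    have c3 : c 3 = 0 := by
      rw [c01.1, c01.2, c2] at hc
      simp only [zero_smul, add_zero, zero_add] at hc
      rcases smul_eq_zero.1 hc with h | h
      · exact h
      · exact absurd h hv
    funext k
    fin_cases k
    · exact c01.1
    · exact c01.2
    · exact c2
    · exact c3

/-- Hodge index theorem, for an isotropic class -/
theorem hodge_iso (hC : C.Facts) {x y α v : Vec b} (hp : C.PosPlane x y) (hαx : C.q α x = 0)
    (hαy : C.q α y = 0) (hα : C.q α α = 0) (hα0 : α ≠ 0) (hvx : C.q v x = 0)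
    (hvy : C.q v y = 0) (hvα : C.q v α = 0) (hv : ∀ a : ℝ, v ≠ a • α) : C.q v v < 0 := by
  by_contra hcon
  push Not at hcon
  apply four_false hC ![x, y, α, v]
  · intro c
    rw [sum_four]
    change 0 ≤ C.q (c 0 • x + c 1 • y + c 2 • α + c 3 • v) (c 0 • x + c 1 • y + c 2 • α + c 3 • v)
    rw [q_expand hC hαx hαy hvx hvy hvα, hα]
    have h1 := posPlane_nonneg hp (c 0) (c 1)
    positivity
  · intro c hc
    rw [sum_four] at hc
    change c 0 • x + c 1 • y + c 2 • α + c 3 • v = 0 at hc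
    have h2 := q_expand hC hαx hαy hvx hvy hvα (c 0) (c 1) (c 2) (c 3)
    rw [hc, map_zero, hα, mul_zero] at h2
    have h1 := posPlane_nonneg hp (c 0) (c 1)
    have h4 : 0 ≤ c 3 ^ 2 * C.q v v := by positivity
    have e2 : C.q (c 0 • x + c 1 • y) (c 0 • x + c 1 • y) = 0 := by
      linarith
    have c01 : c 0 = 0 ∧ c 1 = 0 := by
      by_contra hn
      have : c 0 ≠ 0 ∨ c 1 ≠ 0 := by
        by_contra hn2
        push Not at hn2
        exact hn hn2
      exact absurd e2 (hp _ _ this).ne'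
    rw [c01.1, c01.2] at hc
    simp only [zero_smul, zero_add] at hc
    have c3 : c 3 = 0 := by
      by_contra h3
      apply hv (-(c 2) / c 3)
      have h5 : c 3 • v = (-(c 2)) • α := by
        rw [neg_smul]
        exact eq_neg_of_add_eq_zero_right hc
      have h6 : v = (c 3)⁻¹ • (c 3 • v) := by rw [smul_smul, inv_mul_cancel₀ h3, one_smul]
      rw [h6, h5, smul_smul]
      congr 1
      field_simp
    have c2 : c 2 = 0 := by
      rw [c3, zero_smul, add_zero] at hc
      rcases smul_eq_zero.1 hc with h | h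
      · exact h
      · exact absurd h hα0
    funext k
    fin_cases k
    · exact c01.1
    · exact c01.2
    · exact c2
    · exact c3

/-- the positive cone: `q(α, A) > 0`, `q(α, B) > 0` with `α` isotropic put `A`, `B` in the same
component -/
theorem cone_pos (hC : C.Facts) {x y α A B : Vec b} (hp : C.PosPlane x y)
    (hαx : C.q α x = 0) (hαy : C.q α y = 0) (hα : C.q α α = 0)
    (hAx : C.q A x = 0) (hAy : C.q A y = 0) (hA : 0 < C.q A A)
    (hBx : C.q B x = 0) (hBy : C.q B y = 0) (hB : 0 < C.q B B)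
    (hαA : 0 < C.q α A) (hαB : 0 < C.q α B) : 0 < C.q A B := by
  by_contra hcon
  push Not at hcon
  have hα0 : α ≠ 0 := by
    intro h
    rw [h] at hαA
    simp at hαA
  set s : ℝ := C.q α B / C.q α A with hs
  have hspos : 0 < s := div_pos hαB hαA
  have hsA : s * C.q α A = C.q α B := by rw [hs, div_mul_cancel₀ _ hαA.ne']
  have hAα : C.q A α = C.q α A := hC.symm _ _
  have hBα : C.q B α = C.q α B := hC.symm _ _
  have hBA : C.q B A = C.q A B := hC.symm _ _
  have hvv : C.q (B - s • A) (B - s • A) = C.q B B - 2 * s * C.q A B + s ^ 2 * C.q A A := by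
    simp only [map_sub, map_smul, LinearMap.sub_apply, LinearMap.smul_apply, smul_eq_mul, hBA]
    ring
  have hvpos : 0 < C.q (B - s • A) (B - s • A) := by
    rw [hvv]
    have h1 : 0 ≤ -(2 * s * C.q A B) := by
      have : 0 ≤ 2 * s * (-(C.q A B)) := by
        apply mul_nonneg (by positivity)
        linarith
      linarith
    have h2 : 0 ≤ s ^ 2 * C.q A A := by positivity
    linarith
  have h1 : ∀ a : ℝ, B - s • A ≠ a • α := by
    intro a ha
    rw [ha] at hvpos
    simp only [map_smul, LinearMap.smul_apply, smul_eq_mul, hα, mul_zero] at hvpos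
    exact lt_irrefl _ hvpos
  have h2 := hodge_iso hC (v := B - s • A) hp hαx hαy hα hα0
    (by simp only [map_sub, map_smul, LinearMap.sub_apply, LinearMap.smul_apply, smul_eq_mul, hAx,
          hBx, mul_zero, sub_zero])
    (by simp only [map_sub, map_smul, LinearMap.sub_apply, LinearMap.smul_apply, smul_eq_mul, hAy,
          hBy, mul_zero, sub_zero])
    (by simp only [map_sub, map_smul, LinearMap.sub_apply, LinearMap.smul_apply, smul_eq_mul, hAα,
          hBα, hsA, sub_self]) h1
  linarith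

theorem continuous_q_left (A : Vec b) : Continuous fun B : Vec b => C.q B A :=
  LinearMap.continuous_of_finiteDimensional (C.q.flip A)

theorem continuous_q_self : Continuous fun B : Vec b => C.q B B := by
  have h1 : (fun B : Vec b => C.q B B) =
      fun B : Vec b => ∑ k, B k * C.q (fun j => if k = j then 1 else 0) B := by
    funext B
    have h := LinearMap.pi_apply_eq_sum_univ (C.q.flip B) B
    simpa using h
  rw [h1]
  refine continuous_finsetSum _ fun k _ => ?_
  exact (continuous_apply k).mul (LinearMap.continuous_of_finiteDimensional _)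

/-- a non-zero nef isotropic class is positive on Kähler classes and of type `(1,1)` -/
theorem nef_pos (hC : C.Facts) {i : C.I} {x y α A : Vec b} (hp : C.per i x y) (hα : C.Nef i α)
    (hα0 : α ≠ 0) (hA : A ∈ C.kahler i) :
    C.q α x = 0 ∧ C.q α y = 0 ∧ 0 < C.q α A := by
  have hAA := (hC.kahler_iff i x y hp A hA A).1 hA
  have hαx : C.q α x = 0 := by
    have hcl : IsClosed {B : Vec b | C.q B x = 0} :=
      isClosed_eq (continuous_q_left x) continuous_const
    exact hcl.closure_subset_iff.2 (fun B hB => ((hC.kahler_iff i x y hp A hA B).1 hB).1) hα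
  have hαy : C.q α y = 0 := by
    have hcl : IsClosed {B : Vec b | C.q B y = 0} :=
      isClosed_eq (continuous_q_left y) continuous_const
    exact hcl.closure_subset_iff.2 (fun B hB => ((hC.kahler_iff i x y hp A hA B).1 hB).2.1) hα
  have hαα : 0 ≤ C.q α α := by
    have hcl : IsClosed {B : Vec b | 0 ≤ C.q B B} :=
      isClosed_le continuous_const continuous_q_self
    exact hcl.closure_subset_iff.2
      (fun B hB => ((hC.kahler_iff i x y hp A hA B).1 hB).2.2.1.le) hα
  have hαA : 0 ≤ C.q α A := by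
    have hcl : IsClosed {B : Vec b | 0 ≤ C.q B A} :=
      isClosed_le continuous_const (continuous_q_left A)
    exact hcl.closure_subset_iff.2
      (fun B hB => ((hC.kahler_iff i x y hp A hA B).1 hB).2.2.2.1.le) hα
  refine ⟨hαx, hαy, lt_of_le_of_ne hαA ?_⟩
  intro h0
  have h1 := hodge_pos hC (hC.per_pos i x y hp) hAA.1 hAA.2.1 hAA.2.2.1 hαx hαy h0.symm hα0
  linarith



private theorem lattice_countable (b : ℕ) : (lattice b : Set (Vec b)).Countable := by
  have h : (lattice b : Set (Vec b)) ⊆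
      Set.range (fun (m : Fin b → ℤ) => (fun k => (m k : ℝ) : Vec b)) := by
    intro v hv
    have hv' : ∀ k, ∃ m : ℤ, v k = m := hv
    choose m hm using hv'
    exact ⟨m, funext fun k => (hm k).symm⟩
  exact (Set.countable_range _).mono h

/-- Baire (or measure zero): a generic vector of `N^⊥` is orthogonal to no lattice vector outside
`N = N^⊥⊥`. -/
theorem exists_generic (hC : C.Facts) (N : Submodule ℝ (Vec b)) (x₀ : Vec b)
    (hx₀ : ∀ v ∈ N, C.q x₀ v = 0) {ε : ℝ} (hε : 0 < ε) :
    ∃ x', (∀ v ∈ N, C.q x' v = 0) ∧ dist x' x₀ < ε ∧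
      ∀ s ∈ lattice b, s ∉ N → C.q s x' ≠ 0 := by
  classical
  have hrefl : LinearMap.BilinForm.IsRefl (C.q : LinearMap.BilinForm ℝ (Vec b)) := by
    intro x y h
    rw [hC.symm]
    exact h
  have hnd : LinearMap.BilinForm.Nondegenerate (C.q : LinearMap.BilinForm ℝ (Vec b)) := by
    constructor
    · intro x hx
      exact nondeg hC x hx
    · intro x hx
      exact nondeg hC x fun y => by rw [hC.symm]; exact hx y
  let M : Submodule ℝ (Vec b) :=
    LinearMap.BilinForm.orthogonal (C.q : LinearMap.BilinForm ℝ (Vec b)) N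
  have hM : ∀ x, x ∈ M ↔ ∀ v ∈ N, C.q x v = 0 := by
    intro x
    rw [LinearMap.BilinForm.mem_orthogonal_iff]
    constructor
    · intro h v hv
      rw [hC.symm]
      exact h v hv
    · intro h v hv
      change C.q v x = 0
      rw [hC.symm]
      exact h v hv
  have hNN : ∀ s, s ∉ N → ∃ x ∈ M, C.q s x ≠ 0 := by
    intro s hs
    by_contra hcon
    push Not at hcon
    apply hs
    rw [← LinearMap.BilinForm.orthogonal_orthogonal hnd hrefl N,
      LinearMap.BilinForm.mem_orthogonal_iff]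
    intro x hx
    change C.q x s = 0
    rw [hC.symm]
    exact hcon x hx
  let S : Set (Vec b) := {s | s ∈ lattice b ∧ s ∉ N}
  have hS : S.Countable := (lattice_countable b).mono fun s hs => hs.1
  let f : Vec b → Set M := fun s => {x | C.q s (x : Vec b) ≠ 0}
  have hcont : ∀ s, Continuous fun x : M => C.q s (x : Vec b) := fun s =>
    (LinearMap.continuous_of_finiteDimensional (C.q s)).comp continuous_subtype_val
  have ho : ∀ s ∈ S, IsOpen (f s) := fun s _ => isOpen_ne_fun (hcont s) continuous_const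
  have hd : ∀ s ∈ S, Dense (f s) := by
    intro s hs
    have h1 : f s = ((LinearMap.ker ((C.q s).comp M.subtype) : Set M))ᶜ := by
      ext x
      simp [f]
    rw [h1, ← interior_eq_empty_iff_dense_compl]
    by_contra hne
    have h2 := Submodule.eq_top_of_nonempty_interior' (LinearMap.ker ((C.q s).comp M.subtype))
      (Set.nonempty_iff_ne_empty.2 hne)
    obtain ⟨x, hx, hx'⟩ := hNN s hs.2
    have h3 : (⟨x, hx⟩ : M) ∈ LinearMap.ker ((C.q s).comp M.subtype) := by
      rw [h2]
      exact Submodule.mem_top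
    exact hx' h3
  have hcomp : CompleteSpace M := FiniteDimensional.complete ℝ M
  have hdense := dense_biInter_of_isOpen ho hS hd
  obtain ⟨x', hx', hdist⟩ := hdense.exists_dist_lt ⟨x₀, (hM x₀).2 hx₀⟩ hε
  refine ⟨x', (hM _).1 x'.2, ?_, fun s hs hsN => ?_⟩
  · rw [dist_comm]
    exact hdist
  · have h4 := Set.mem_iInter₂.1 hx' s ⟨hs, hsN⟩
    exact h4


theorem lattice_smul {v : Vec b} (hv : v ∈ lattice b) (m : ℤ) : (m : ℝ) • v ∈ lattice b := by
  intro k
  obtain ⟨l, hl⟩ := hv k
  exact ⟨m * l, by rw [Pi.smul_apply, hl, smul_eq_mul]; push_cast; ring⟩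

/-- every non-empty open set contains a rational vector -/
theorem exists_rat {U : Set (Vec b)} (hU : IsOpen U) {x : Vec b} (hx : x ∈ U) :
    ∃ v ∈ lattice b, ∃ N : ℕ, 0 < N ∧ (N : ℝ)⁻¹ • v ∈ U := by
  obtain ⟨ε, hε, hball⟩ := Metric.isOpen_iff.1 hU x hx
  obtain ⟨N, hN⟩ := exists_nat_gt (ε⁻¹)
  have hNpos : (0 : ℝ) < N := lt_trans (inv_pos.2 hε) hN
  have hN0 : 0 < N := by exact_mod_cast hNpos
  refine ⟨fun k => (round ((N : ℝ) * x k) : ℝ), fun k => ⟨_, rfl⟩, N, hN0, hball ?_⟩
  rw [Metric.mem_ball, dist_eq_norm]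
  refine (pi_norm_lt_iff hε).2 fun k => ?_
  have h1 : ((N : ℝ)⁻¹ • (fun k => (round ((N : ℝ) * x k) : ℝ)) - x) k =
      -((N : ℝ)⁻¹ * ((N : ℝ) * x k - round ((N : ℝ) * x k))) := by
    simp only [Pi.sub_apply, Pi.smul_apply, smul_eq_mul]
    field_simp
    ring
  rw [h1, Real.norm_eq_abs, abs_neg, abs_mul, abs_of_pos (inv_pos.2 hNpos)]
  have h2 := abs_sub_round ((N : ℝ) * x k)
  have h3 : (N : ℝ)⁻¹ < ε := inv_lt_of_inv_lt₀ hε hN
  have h4 : (0 : ℝ) < (N : ℝ)⁻¹ := inv_pos.2 hNpos
  nlinarith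

/-- a lattice vector which pairs non-trivially with a non-zero vector -/
theorem exists_pair (hC : C.Facts) {α : Vec b} (hα0 : α ≠ 0) :
    ∃ w ∈ lattice b, C.q α w ≠ 0 := by
  classical
  obtain ⟨k, hk⟩ : ∃ k : Fin b, C.q α (Pi.single k 1) ≠ 0 := by
    by_contra hcon
    push Not at hcon
    have h0 : C.q α = 0 := (Pi.basisFun ℝ (Fin b)).ext fun k => by
      rw [Pi.basisFun_apply]
      exact hcon k
    exact hα0 (nondeg hC α fun y => by rw [h0]; rfl)
  refine ⟨Pi.single k 1, fun j => ?_, hk⟩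
  by_cases hj : j = k
  · subst hj; exact ⟨1, by simp⟩
  · exact ⟨0, by simp [hj]⟩

/-- two linear forms have a common zero on a space of dimension `3` -/
theorem exists_zero {W : Submodule ℝ (Vec b)} (hW : finrank ℝ W = 3)
    (f g : Vec b →ₗ[ℝ] ℝ) : ∃ z ∈ W, z ≠ 0 ∧ f z = 0 ∧ g z = 0 := by
  let F : W →ₗ[ℝ] (Fin 2 → ℝ) := LinearMap.pi ![f.comp W.subtype, g.comp W.subtype]
  have h1 := F.finrank_range_add_finrank_ker
  have h2 : finrank ℝ (LinearMap.range F) ≤ 2 := by
    have := Submodule.finrank_le (LinearMap.range F)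
    simpa using this
  have h3 : 0 < finrank ℝ (LinearMap.ker F) := by omega
  obtain ⟨z, hz⟩ := (finrank_pos_iff_exists_ne_zero (R := ℝ) (M := LinearMap.ker F)).1 h3
  have h4 : F z.1 = 0 := z.2
  refine ⟨z.1.1, z.1.2, ?_, ?_, ?_⟩
  · intro h
    apply hz
    apply Subtype.ext
    apply Subtype.ext
    exact h
  · have := congrFun h4 0
    simpa [F] using this
  · have := congrFun h4 1
    simpa [F] using this

/-- rational vectors `A`, `A₀` of positive square, orthogonal to each other and to `α` -/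
theorem exists_pair_pos (hC : C.Facts) {α : Vec b} (hα : α ∈ lattice b) (hα0 : α ≠ 0)
    (_hαα : C.q α α = 0) : ∃ A ∈ lattice b, ∃ A0 ∈ lattice b, C.q A α = 0 ∧ C.q A0 α = 0 ∧
      C.q A A0 = 0 ∧ 0 < C.q A A ∧ 0 < C.q A0 A0 := by
  obtain ⟨W, hW, hpos, -⟩ := hC.signature
  obtain ⟨w, hw, hd⟩ := exists_pair hC hα0
  obtain ⟨d, hd'⟩ := hC.integral α hα w hw
  -- the projection to `α^⊥`
  let p : Vec b →ₗ[ℝ] Vec b := (C.q α w) • LinearMap.id - (C.q α).smulRight w
  have hp : ∀ v, p v = C.q α w • v - C.q α v • w := fun v => by simp [p]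
  have hpα : ∀ v, C.q (p v) α = 0 := by
    intro v
    rw [hp, map_sub, map_smul, map_smul, LinearMap.sub_apply, LinearMap.smul_apply,
      LinearMap.smul_apply, smul_eq_mul, smul_eq_mul, hC.symm v α, hC.symm w α]
    ring
  have hplat : ∀ v ∈ lattice b, p v ∈ lattice b := by
    intro v hv
    obtain ⟨m, hm⟩ := hC.integral α hα v hv
    rw [hp, hd', hm]
    exact (lattice b).sub_mem (lattice_smul hv d) (lattice_smul hw m)
  have hpc : Continuous p := LinearMap.continuous_of_finiteDimensional p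
  obtain ⟨x, hxW, hx0, hxα, -⟩ := exists_zero hW (C.q α) (C.q α)
  have hpx : p x = C.q α w • x := by rw [hp, hxα, zero_smul, sub_zero]
  have hU : IsOpen {v : Vec b | 0 < C.q (p v) (p v)} :=
    isOpen_lt continuous_const (continuous_q_self.comp hpc)
  have hxU : x ∈ {v : Vec b | 0 < C.q (p v) (p v)} := by
    change 0 < C.q (p x) (p x)
    rw [hpx]
    simp only [map_smul, LinearMap.smul_apply, smul_eq_mul]
    have h1 := hpos x hxW hx0
    have h2 : 0 < (C.q α w) ^ 2 := by positivity
    nlinarith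
  obtain ⟨v, hv, N, hN, hvU⟩ := exists_rat hU hxU
  have hNr : (0 : ℝ) < N := by exact_mod_cast hN
  have hA : 0 < C.q (p v) (p v) := by
    have h1 : 0 < C.q (p ((N : ℝ)⁻¹ • v)) (p ((N : ℝ)⁻¹ • v)) := hvU
    simp only [map_smul, LinearMap.smul_apply, smul_eq_mul] at h1
    have h2 : (0 : ℝ) < (N : ℝ)⁻¹ := inv_pos.2 hNr
    by_contra hcon
    push Not at hcon
    nlinarith [mul_nonneg h2.le h2.le, mul_nonneg (mul_nonneg h2.le h2.le) (neg_nonneg.2 hcon)]
  set A : Vec b := p v with hAdef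
  have hAlat : A ∈ lattice b := hplat v hv
  obtain ⟨a, ha⟩ := hC.integral A hAlat A hAlat
  -- the projection to `⟨α, A⟩^⊥`
  let p2 : Vec b →ₗ[ℝ] Vec b := (C.q A A) • p - ((C.q A).comp p).smulRight A
  have hp2 : ∀ v, p2 v = C.q A A • p v - C.q A (p v) • A := fun v => by simp [p2]
  have hp2α : ∀ v, C.q (p2 v) α = 0 := by
    intro v
    rw [hp2, map_sub, map_smul, map_smul, LinearMap.sub_apply, LinearMap.smul_apply,
      LinearMap.smul_apply, smul_eq_mul, smul_eq_mul, hpα, hpα]
    ring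
  have hp2A : ∀ v, C.q A (p2 v) = 0 := by
    intro v
    rw [hp2, map_sub, map_smul, map_smul, smul_eq_mul, smul_eq_mul]
    ring
  have hp2lat : ∀ v ∈ lattice b, p2 v ∈ lattice b := by
    intro v hv
    obtain ⟨m, hm⟩ := hC.integral A hAlat (p v) (hplat v hv)
    rw [hp2, ha, hm]
    exact (lattice b).sub_mem (lattice_smul (hplat v hv) a) (lattice_smul hAlat m)
  have hp2c : Continuous p2 := LinearMap.continuous_of_finiteDimensional p2
  obtain ⟨z, hzW, hz0, hzα, hzA⟩ := exists_zero hW (C.q α) (C.q A)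
  have hpz : p2 z = (C.q A A * C.q α w) • z := by
    rw [hp2, hp, hzα, zero_smul, sub_zero, map_smul, hzA, smul_zero, zero_smul, sub_zero,
      smul_smul]
  have hU2 : IsOpen {v : Vec b | 0 < C.q (p2 v) (p2 v)} :=
    isOpen_lt continuous_const (continuous_q_self.comp hp2c)
  have hzU : z ∈ {v : Vec b | 0 < C.q (p2 v) (p2 v)} := by
    change 0 < C.q (p2 z) (p2 z)
    rw [hpz]
    simp only [map_smul, LinearMap.smul_apply, smul_eq_mul]
    have h1 := hpos z hzW hz0
    have h2 : 0 < (C.q A A * C.q α w) * (C.q A A * C.q α w) := by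
      exact mul_self_pos.2 (mul_ne_zero hA.ne' hd)
    nlinarith
  obtain ⟨u, hu, M, hM, huU⟩ := exists_rat hU2 hzU
  have hMr : (0 : ℝ) < M := by exact_mod_cast hM
  have hA0 : 0 < C.q (p2 u) (p2 u) := by
    have h1 : 0 < C.q (p2 ((M : ℝ)⁻¹ • u)) (p2 ((M : ℝ)⁻¹ • u)) := huU
    simp only [map_smul, LinearMap.smul_apply, smul_eq_mul] at h1
    have h2 : (0 : ℝ) < (M : ℝ)⁻¹ := inv_pos.2 hMr
    by_contra hcon
    push Not at hcon
    nlinarith [mul_nonneg h2.le h2.le, mul_nonneg (mul_nonneg h2.le h2.le) (neg_nonneg.2 hcon)]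
  exact ⟨A, hAlat, p2 u, hp2lat u hu, hpα v, hp2α u, hp2A u, hA, hA0⟩

/-- two positive three-spaces are in duality -/
theorem gram_ne_zero (hC : C.Facts) {x y κ x' y' B : Vec b} (hp : C.PosPlane x y)
    (hκx : C.q κ x = 0) (hκy : C.q κ y = 0) (hκ : 0 < C.q κ κ) (hp' : C.PosPlane x' y')
    (hBx : C.q B x' = 0) (hBy : C.q B y' = 0) (hB : 0 < C.q B B) :
    C.gram x y κ x' y' B ≠ 0 := by
  intro hdet
  obtain ⟨v, hv0, hv⟩ := Matrix.exists_mulVec_eq_zero_iff.2 hdet
  have e : ∀ u, C.q u (v 0 • x' + v 1 • y' + v 2 • B) =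
      C.q u x' * v 0 + C.q u y' * v 1 + C.q u B * v 2 := by
    intro u
    simp only [map_add, map_smul, smul_eq_mul]
    ring
  have h0 := congrFun hv 0
  have h1 := congrFun hv 1
  have h2 := congrFun hv 2
  simp only [Matrix.mulVec, dotProduct, Fin.sum_univ_three, Matrix.of_apply, Matrix.cons_val',
    Matrix.cons_val_zero, Matrix.cons_val_one, Matrix.cons_val_two, Matrix.cons_val_fin_one,
    Matrix.head_cons, Matrix.tail_cons, Pi.zero_apply] at h0 h1 h2
  set w : Vec b := v 0 • x' + v 1 • y' + v 2 • B with hw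
  have hxw : C.q w x = 0 := by rw [hC.symm, e]; exact h0
  have hyw : C.q w y = 0 := by rw [hC.symm, e]; exact h1
  have hκw : C.q w κ = 0 := by rw [hC.symm, e]; exact h2
  have hx'B : C.q x' B = 0 := by rw [hC.symm, hBx]
  have hy'B : C.q y' B = 0 := by rw [hC.symm, hBy]
  have hww : C.q w w = C.q (v 0 • x' + v 1 • y') (v 0 • x' + v 1 • y') + v 2 ^ 2 * C.q B B := by
    rw [hw]
    simp only [map_add, map_smul, LinearMap.add_apply, LinearMap.smul_apply, smul_eq_mul, hBx,
      hBy, hx'B, hy'B]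
    ring
  have hpos : 0 < C.q w w := by
    rw [hww]
    by_cases hz : v 0 ≠ 0 ∨ v 1 ≠ 0
    · have h3 := hp' (v 0) (v 1) hz
      positivity
    · push Not at hz
      have h3 : v 2 ≠ 0 := by
        intro h4
        apply hv0
        funext k
        fin_cases k
        · exact hz.1
        · exact hz.2
        · exact h4
      have h5 := posPlane_nonneg hp' (v 0) (v 1)
      have h6 : 0 < v 2 ^ 2 * C.q B B := by positivity
      linarith
  have hw0 : w ≠ 0 := by
    intro h
    rw [h] at hpos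
    simp at hpos
  have := hodge_pos hC hp hκx hκy hκ hxw hyw hκw hw0
  linarith

theorem gram_neg (x y κ x' y' B : Vec b) :
    C.gram x y κ (-x') y' B = -C.gram x y κ x' y' B := by
  simp only [gram, map_neg, Matrix.det_fin_three]
  simp
  ring


end LData

end Pool.Agent.SYM.V3.Lat
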