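import Pool.Agent.SYM.V3.Lat4

/-!
# SYM/V3/NearP : a special member near a given projective member

`X_i` is a projective member on which the isotropic class `α` is nef. Near `X_i` there is a
projective member `X_j` with a rational period plane, and `α` is nef on `X_j`. Only local
deformation theory and the walls of the ample cones of projective members are used.
-/

set_option autoImplicit false
set_option linter.unusedSectionVars false

open Module Filter Topology

namespace Pool.Agent.SYM.V3.Lat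

namespace LData

variable {b : ℕ} {C : LData b}

/-- Walls and ample cones: projective members and integral classes. -/
structure Walls (C : LData b) : Prop where
  wall_mem : ∀ s ∈ C.S, s ∈ lattice b
  wall_sq : ∀ s ∈ C.S, C.q s s < 0
  wall_bound : ∃ K : ℝ, ∀ s ∈ C.S, -K ≤ C.q s s
  ample_iff : ∀ i x y, C.per i x y → ∀ A ∈ C.kahler i, A ∈ lattice b → ∀ B ∈ lattice b,
    (B ∈ C.kahler i ↔ C.q B x = 0 ∧ C.q B y = 0 ∧ 0 < C.q B B ∧ 0 < C.q B A ∧
      ∀ s ∈ C.S, C.q s x = 0 → C.q s y = 0 → 0 < C.q s A * C.q s B)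

/-- small deformations of `X_i` along which `α` is of type `(1,1)`; `P` is a property which passes
from them to `X_i` -/
def NearBy (C : LData b) (α : Vec b) (P : C.I → Prop) (i : C.I) : Prop :=
  ∀ x y κ, C.per i x y → κ ∈ C.kahler i → ∃ ε : ℝ, 0 < ε ∧ ∀ x' y' κ',
    C.q κ' x' = 0 → C.q κ' y' = 0 → C.q α x' = 0 → C.q α y' = 0 → dist x' x < ε →
    dist y' y < ε → dist κ' κ < ε → ∃ j, C.per j x' y' ∧ κ' ∈ C.kahler j ∧ (P j → P i)

/-- `s` or `-s` is a wall divisor class -/
def Sym (C : LData b) (s : Vec b) : Prop := s ∈ C.S ∨ -s ∈ C.S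

theorem Walls.sym_mem (hW : C.Walls) {s : Vec b} (hs : C.Sym s) : s ∈ lattice b := by
  rcases hs with h | h
  · exact hW.wall_mem s h
  · have := (lattice b).neg_mem (hW.wall_mem _ h)
    rwa [neg_neg] at this

theorem Walls.sym_bound (hW : C.Walls) : ∃ K : ℝ, 0 ≤ K ∧ ∀ s, C.Sym s → -K ≤ C.q s s := by
  obtain ⟨K, hK⟩ := hW.wall_bound
  refine ⟨|K|, abs_nonneg _, fun s hs => ?_⟩
  have h1 := le_abs_self K
  rcases hs with h | h
  · have := hK s h
    linarith
  · have := hK _ h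
    rw [map_neg, map_neg, LinearMap.neg_apply, neg_neg] at this
    linarith

theorem Walls.sym_pos (hW : C.Walls) {i : C.I} {x y A B : Vec b} (hp : C.per i x y)
    (hA : A ∈ C.kahler i) (hAl : A ∈ lattice b) (hB : B ∈ C.kahler i) (hBl : B ∈ lattice b)
    {s : Vec b} (hs : C.Sym s) (hsx : C.q s x = 0) (hsy : C.q s y = 0) :
    0 < C.q s A * C.q s B := by
  have h := ((hW.ample_iff i x y hp A hA hAl B hBl).1 hB).2.2.2.2
  rcases hs with h1 | h1
  · exact h s h1 hsx hsy
  · have h2 := h _ h1 (by rw [map_neg, LinearMap.neg_apply, hsx, neg_zero])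
      (by rw [map_neg, LinearMap.neg_apply, hsy, neg_zero])
    rw [map_neg, LinearMap.neg_apply, LinearMap.neg_apply, neg_mul_neg] at h2
    exact h2

theorem Base.nef_smul (hC : C.Base) {i : C.I} {α : Vec b} (hnef : C.Nef i α) {c : ℝ}
    (hc : 0 < c) : C.Nef i (c • α) := by
  have h1 : (fun v : Vec b => c • v) α ∈ closure ((fun v : Vec b => c • v) '' C.kahler i) :=
    (image_closure_subset_closure_image (continuous_const_smul _)) (Set.mem_image_of_mem _ hnef)
  refine closure_mono ?_ h1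
  rintro _ ⟨v, hv, rfl⟩
  exact hC.kahler_smul _ _ hv _ hc

/-- walls are non-negative on nef classes: on the member itself -/
theorem nef_wall (hC : C.Base) (hW : C.Walls) {i : C.I} {x y κ α : Vec b} (hp : C.per i x y)
    (hκ : κ ∈ C.kahler i) (hκl : κ ∈ lattice b) (hα : α ∈ lattice b) (hnef : C.Nef i α)
    {s : Vec b} (hs : C.Sym s) (hsx : C.q s x = 0) (hsy : C.q s y = 0)
    (h0 : 0 ≤ C.q s κ) : 0 < C.q s κ ∧ 0 ≤ C.q s α := by
  have h1 := hW.sym_pos hp hκ hκl hκ hκl hs hsx hsy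
  have h2 : 0 < C.q s κ := lt_of_le_of_ne h0 (fun h => by rw [← h] at h1; simp at h1)
  refine ⟨h2, ?_⟩
  by_contra hcon
  push Not at hcon
  obtain ⟨M, hM⟩ := exists_nat_gt (C.q s κ / -C.q s α)
  have hM0 : (0 : ℝ) < M := lt_trans (div_pos h2 (by linarith)) hM
  have h3 : κ + (M : ℝ) • α ∈ C.kahler i := hC.kahler_add i κ hκ _ (hC.nef_smul hnef hM0)
  have h4 : κ + (M : ℝ) • α ∈ lattice b := by
    have := lattice_smul hα (M : ℤ)
    push_cast at this
    exact (lattice b).add_mem hκl this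
  have h5 := hW.sym_pos hp hκ hκl h3 h4 hs hsx hsy
  have h6 : 0 < C.q s (κ + (M : ℝ) • α) := (mul_pos_iff_of_pos_left h2).1 h5
  rw [map_add, map_smul, smul_eq_mul] at h6
  rw [div_lt_iff₀ (by linarith)] at hM
  linarith

/-- the inequality of the walls -/
theorem wall_ineq (hC : C.Base) {x y κ α s : Vec b} (hpp : C.PosPlane x y) (hκx : C.q κ x = 0)
    (hκy : C.q κ y = 0) (hκκ : 0 < C.q κ κ) (hαα : C.q α α = 0) (hαx : C.q α x = 0)
    (hαy : C.q α y = 0) (hακ : 0 < C.q α κ) (hsx : C.q s x = 0) (hsy : C.q s y = 0) :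
    C.q s s ≤ 2 * C.q s α * C.q s κ / C.q α κ -
      C.q s α ^ 2 * C.q κ κ / C.q α κ ^ 2 := by
  set a : ℝ := C.q α κ with ha
  set k : ℝ := C.q κ κ with hk
  set m : ℝ := C.q s α with hm
  set p : ℝ := C.q s κ with hpdef
  have hκα : C.q κ α = a := hC.symm _ _
  have hαs : C.q α s = m := hC.symm _ _
  have hκs : C.q κ s = p := hC.symm _ _
  set X : ℝ := (p - m * k / a) / a with hX
  set Z : ℝ := m / a with hZ
  set v : Vec b := s - X • α - Z • κ with hv
  have hvx : C.q v x = 0 := by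
    rw [hv]
    simp only [map_sub, map_smul, LinearMap.sub_apply, LinearMap.smul_apply, smul_eq_mul, hsx,
      hαx, hκx]
    ring
  have hvy : C.q v y = 0 := by
    rw [hv]
    simp only [map_sub, map_smul, LinearMap.sub_apply, LinearMap.smul_apply, smul_eq_mul, hsy,
      hαy, hκy]
    ring
  have hvκ : C.q v κ = 0 := by
    rw [hv]
    simp only [map_sub, map_smul, LinearMap.sub_apply, LinearMap.smul_apply, smul_eq_mul]
    rw [← hpdef, ← ha, ← hk, hX, hZ]
    field_simp
    ring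
  have hvv : C.q v v = C.q s s - (2 * m * p / a - m ^ 2 * k / a ^ 2) := by
    rw [hv]
    simp only [map_sub, map_smul, LinearMap.sub_apply, LinearMap.smul_apply, smul_eq_mul, hαα,
      hαs, hκs, hκα]
    rw [← hm, ← hpdef, ← ha, ← hk, hX, hZ]
    field_simp
    ring
  have hle : C.q v v ≤ 0 := by
    by_cases hv0 : v = 0
    · rw [hv0]
      simp
    · exact (hodge_pos (C := C.bare) hC.bare (x := x) (y := y) (A := κ) (v := v) hpp hκx hκy hκκ
        hvx hvy hvκ hv0).le
  rw [hvv] at hle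
  linarith

/-- there are finitely many lattice vectors in a ball -/
theorem lattice_finite (R : ℝ) : {v : Vec b | v ∈ lattice b ∧ ‖v‖ ≤ R}.Finite := by
  have h1 : (Set.Icc (fun _ : Fin b => -⌈R⌉) (fun _ => ⌈R⌉)).Finite := Set.finite_Icc _ _
  refine (h1.image fun m : Fin b → ℤ => (fun k => (m k : ℝ) : Vec b)).subset ?_
  rintro v ⟨hv, hvR⟩
  have hv' : ∀ k, ∃ m : ℤ, v k = m := hv
  choose m hm using hv'
  refine ⟨m, ?_, funext fun k => (hm k).symm⟩
  have h2 : ∀ k, |(m k : ℝ)| ≤ R := fun k => by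
    rw [← hm k, ← Real.norm_eq_abs]
    exact (norm_le_pi_norm v k).trans hvR
  have h3 : ∀ k, (m k : ℝ) ≤ ⌈R⌉ ∧ (-⌈R⌉ : ℝ) ≤ m k := fun k => by
    have h4 := abs_le.1 (h2 k)
    have h5 := Int.le_ceil R
    constructor <;> linarith
  constructor
  · intro k
    exact_mod_cast (h3 k).2
  · intro k
    exact_mod_cast (h3 k).1

/-- an isotropic nef class is non-negative on the walls of the members near by -/
theorem near_wall (hC : C.Base) (hW : C.Walls) {i : C.I} {x y κ α : Vec b} (hp : C.per i x y)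
    (hκ : κ ∈ C.kahler i) (hκl : κ ∈ lattice b) (hα : α ∈ lattice b) (hα0 : α ≠ 0)
    (hαα : C.q α α = 0) (hnef : C.Nef i α) :
    ∃ ε : ℝ, 0 < ε ∧ ∀ j x' y' κ', C.per j x' y' → κ' ∈ C.kahler j → C.q α x' = 0 →
      C.q α y' = 0 → dist x' x < ε → dist y' y < ε → dist κ' κ < ε →
      ∀ s, C.Sym s → C.q s x' = 0 → C.q s y' = 0 → 0 < C.q s κ' → 0 ≤ C.q s α := by
  obtain ⟨hαx, hαy, hακ⟩ := hC.nef_pos hp hnef hα0 hαα hκ
  obtain ⟨K, hK0, hK⟩ := hW.sym_bound
  by_contra hcon
  push Not at hcon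
  have hex : ∀ n : ℕ, ∃ j x' y' κ' s, C.per j x' y' ∧ κ' ∈ C.kahler j ∧ C.q α x' = 0 ∧
      C.q α y' = 0 ∧ dist x' x < 1 / ((n : ℝ) + 1) ∧ dist y' y < 1 / ((n : ℝ) + 1) ∧
      dist κ' κ < 1 / ((n : ℝ) + 1) ∧ C.Sym s ∧ C.q s x' = 0 ∧ C.q s y' = 0 ∧
      0 < C.q s κ' ∧ C.q s α < 0 := by
    intro n
    obtain ⟨j, x', y', κ', h1, h2, h3, h4, h5, h6, h7, s, h8, h9, h10, h11, h12⟩ :=
      hcon (1 / ((n : ℝ) + 1)) (by positivity)
    exact ⟨j, x', y', κ', s, h1, h2, h3, h4, h5, h6, h7, h8, h9, h10, h11, h12⟩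
  choose j x' y' κ' s h1 h2 h3 h4 h5 h6 h7 h8 h9 h10 h11 h12 using hex
  have hlim : ∀ {z : ℕ → Vec b} {w : Vec b}, (∀ n, dist (z n) w < 1 / ((n : ℝ) + 1)) →
      Tendsto z atTop (𝓝 w) := by
    intro z w hz
    rw [tendsto_iff_dist_tendsto_zero]
    exact squeeze_zero (fun n => dist_nonneg) (fun n => (hz n).le)
      tendsto_one_div_add_atTop_nhds_zero_nat
  have hx' := hlim h5
  have hy' := hlim h6
  have hκ' := hlim h7
  have hsl : ∀ n, s n ∈ lattice b := fun n => hW.sym_mem (h8 n)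
  have hm1 : ∀ n, C.q (s n) α ≤ -1 := by
    intro n
    obtain ⟨m, hm⟩ := hC.integral _ (hsl n) α hα
    have h := h12 n
    rw [hm] at h ⊢
    have h' : m < 0 := by exact_mod_cast h
    have : m ≤ -1 := by omega
    exact_mod_cast this
  -- `q(s, κ')` is bounded
  have hcont : ∀ w : Vec b, Continuous fun v : Vec b => C.q w v := fun w =>
    LinearMap.continuous_of_finiteDimensional (C.q w)
  have hacont : Tendsto (fun n => C.q α (κ' n)) atTop (𝓝 (C.q α κ)) :=
    ((hcont α).tendsto κ).comp hκ'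
  have hbd : ∀ᶠ n in atTop, C.q (s n) (κ' n) ≤ K * C.q α κ := by
    have e1 : ∀ᶠ n in atTop, C.q α (κ' n) < 2 * C.q α κ :=
      hacont.eventually_lt_const (by linarith)
    have e2 : ∀ᶠ n in atTop, 0 < C.q α (κ' n) := hacont.eventually_const_lt hακ
    filter_upwards [e1, e2] with n e1 e2
    obtain ⟨t1, t2⟩ := hC.kahler_type _ _ _ (h1 n) _ (h2 n)
    have hkk := hC.kahler_pos _ _ (h2 n) _ (h2 n)
    have hin := wall_ineq hC (hC.per_pos _ _ _ (h1 n)) t1 t2 hkk hαα (h3 n) (h4 n) e2 (h9 n)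
      (h10 n)
    have hKn := hK _ (h8 n)
    have hp0 := h11 n
    have hm := hm1 n
    have h13 : 0 ≤ C.q (s n) α ^ 2 * C.q (κ' n) (κ' n) / C.q α (κ' n) ^ 2 := by positivity
    have h14 : -K ≤ 2 * C.q (s n) α * C.q (s n) (κ' n) / C.q α (κ' n) := by linarith
    rw [le_div_iff₀ e2] at h14
    have h15 : C.q (s n) (κ' n) * 1 ≤ C.q (s n) (κ' n) * -C.q (s n) α :=
      mul_le_mul_of_nonneg_left (by linarith) hp0.le
    have h16 : K * C.q α (κ' n) ≤ K * (2 * C.q α κ) := mul_le_mul_of_nonneg_left e1.le hK0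
    nlinarith
  by_cases hR : ∃ R : ℝ, ∃ᶠ n in atTop, ‖s n‖ ≤ R
  · -- one wall is met infinitely often
    obtain ⟨R, hR⟩ := hR
    obtain ⟨v, hv⟩ : ∃ v, ∃ᶠ n in atTop, s n = v := by
      by_contra hno
      push Not at hno
      have h13 : ∀ᶠ n in atTop, ∀ v ∈ {v : Vec b | v ∈ lattice b ∧ ‖v‖ ≤ R}, s n ≠ v :=
        (eventually_all_finite (lattice_finite R)).2 fun v _ => hno v
      obtain ⟨n, hn1, hn2⟩ := (hR.and_eventually h13).exists
      exact hn2 (s n) ⟨hsl n, hn1⟩ rfl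
    obtain ⟨n₀, hn₀⟩ := hv.exists
    have hvS : C.Sym v := hn₀ ▸ h8 n₀
    have hvα : C.q v α ≤ -1 := hn₀ ▸ hm1 n₀
    have hvx : C.q v x = 0 := by
      by_contra hne
      have h13 : ∀ᶠ n in atTop, C.q v (x' n) ≠ 0 :=
        (((hcont v).tendsto x).comp hx').eventually_ne hne
      obtain ⟨n, hn1, hn2⟩ := (hv.and_eventually h13).exists
      exact hn2 (hn1 ▸ h9 n)
    have hvy : C.q v y = 0 := by
      by_contra hne
      have h13 : ∀ᶠ n in atTop, C.q v (y' n) ≠ 0 :=
        (((hcont v).tendsto y).comp hy').eventually_ne hne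
      obtain ⟨n, hn1, hn2⟩ := (hv.and_eventually h13).exists
      exact hn2 (hn1 ▸ h10 n)
    have hvκ : 0 ≤ C.q v κ := by
      by_contra hne
      push Not at hne
      have h13 : ∀ᶠ n in atTop, C.q v (κ' n) < 0 :=
        (((hcont v).tendsto κ).comp hκ').eventually_lt_const hne
      obtain ⟨n, hn1, hn2⟩ := (hv.and_eventually h13).exists
      have := h11 n
      rw [hn1] at this
      linarith
    have := (nef_wall hC hW hp hκ hκl hα hnef hvS hvx hvy hvκ).2
    linarith
  · -- the walls go to infinity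
    push Not at hR
    have hninf : Tendsto (fun n => ‖s n‖) atTop atTop :=
      tendsto_atTop.2 fun R => by
        filter_upwards [hR R] with n hn
        exact hn.le
    have hs0 : ∀ n, s n ≠ 0 := by
      intro n h0
      have := hm1 n
      rw [h0] at this
      simp at this
      linarith
    let u : ℕ → Vec b := fun n => ‖s n‖⁻¹ • s n
    have hu1 : ∀ n, u n ∈ Metric.sphere (0 : Vec b) 1 := by
      intro n
      have : ‖s n‖ ≠ 0 := norm_ne_zero_iff.2 (hs0 n)
      rw [mem_sphere_zero_iff_norm, norm_smul, norm_inv, norm_norm, inv_mul_cancel₀ this]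
    obtain ⟨w, hw, φ, hφ, hlimu⟩ := (isCompact_sphere (0 : Vec b) 1).tendsto_subseq hu1
    have hw0 : w ≠ 0 := by
      rintro rfl
      simp at hw
    have hφt := hφ.tendsto_atTop
    have hq2 : Continuous fun p : Vec b × Vec b => C.q p.1 p.2 := by
      have h13 : (fun p : Vec b × Vec b => C.q p.1 p.2) =
          fun p => ∑ k, p.1 k * C.q (fun j => if k = j then 1 else 0) p.2 := by
        funext p
        have h := LinearMap.pi_apply_eq_sum_univ (C.q.flip p.2) p.1
        simpa using h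
      rw [h13]
      refine continuous_finsetSum _ fun k _ => ?_
      exact ((continuous_apply k).comp continuous_fst).mul
        ((hcont (fun j => if k = j then 1 else 0)).comp continuous_snd)
    have hpair : ∀ {z : ℕ → Vec b} {v : Vec b}, Tendsto z atTop (𝓝 v) →
        Tendsto (fun n => C.q (u (φ n)) (z (φ n))) atTop (𝓝 (C.q w v)) := fun {z v} hz =>
      (hq2.tendsto (w, v)).comp (hlimu.prodMk_nhds (hz.comp hφt))
    have hwx : C.q w x = 0 := by
      refine tendsto_nhds_unique (hpair hx') ?_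
      have : (fun n => C.q (u (φ n)) (x' (φ n))) = fun _ => (0 : ℝ) := by
        funext n
        change C.q (‖s (φ n)‖⁻¹ • s (φ n)) (x' (φ n)) = 0
        rw [C.q.map_smul, LinearMap.smul_apply, h9, smul_zero]
      rw [this]
      exact tendsto_const_nhds
    have hwy : C.q w y = 0 := by
      refine tendsto_nhds_unique (hpair hy') ?_
      have : (fun n => C.q (u (φ n)) (y' (φ n))) = fun _ => (0 : ℝ) := by
        funext n
        change C.q (‖s (φ n)‖⁻¹ • s (φ n)) (y' (φ n)) = 0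
        rw [C.q.map_smul, LinearMap.smul_apply, h10, smul_zero]
      rw [this]
      exact tendsto_const_nhds
    have hinv : Tendsto (fun n => ‖s (φ n)‖⁻¹) atTop (𝓝 0) :=
      tendsto_inv_atTop_zero.comp (hninf.comp hφt)
    have hwκ : C.q w κ = 0 := by
      refine tendsto_nhds_unique (hpair hκ') ?_
      have h13 : ∀ᶠ n in atTop, C.q (s (φ n)) (κ' (φ n)) ≤ K * C.q α κ := hφt.eventually hbd
      refine squeeze_zero' (g := fun n => ‖s (φ n)‖⁻¹ * (K * C.q α κ)) ?_ ?_ ?_
      · refine Eventually.of_forall fun n => ?_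
        change 0 ≤ C.q (‖s (φ n)‖⁻¹ • s (φ n)) (κ' (φ n))
        rw [C.q.map_smul, LinearMap.smul_apply, smul_eq_mul]
        exact mul_nonneg (inv_nonneg.2 (norm_nonneg _)) (h11 _).le
      · filter_upwards [h13] with n hn
        change C.q (‖s (φ n)‖⁻¹ • s (φ n)) (κ' (φ n)) ≤ _
        rw [C.q.map_smul, LinearMap.smul_apply, smul_eq_mul]
        exact mul_le_mul_of_nonneg_left hn (inv_nonneg.2 (norm_nonneg _))
      · simpa using hinv.mul_const (K * C.q α κ)
    have hww : 0 ≤ C.q w w := by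
      have h13 : Tendsto (fun n => C.q (u (φ n)) (u (φ n))) atTop (𝓝 (C.q w w)) :=
        (hq2.tendsto (w, w)).comp (hlimu.prodMk_nhds hlimu)
      have h14 : Tendsto (fun n => -(K * (‖s (φ n)‖⁻¹ * ‖s (φ n)‖⁻¹))) atTop (𝓝 0) := by
        simpa using ((hinv.mul hinv).const_mul K).neg
      refine le_of_tendsto_of_tendsto' h14 h13 fun n => ?_
      change _ ≤ C.q (‖s (φ n)‖⁻¹ • s (φ n)) (‖s (φ n)‖⁻¹ • s (φ n))
      rw [map_smul, C.q.map_smul, LinearMap.smul_apply, smul_eq_mul, smul_eq_mul]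
      have h15 := hK _ (h8 (φ n))
      have h16 : 0 ≤ ‖s (φ n)‖⁻¹ * ‖s (φ n)‖⁻¹ := by positivity
      nlinarith
    obtain ⟨t1, t2⟩ := hC.kahler_type _ _ _ hp _ hκ
    have := hodge_pos (C := C.bare) hC.bare (x := x) (y := y) (A := κ) (v := w)
      (hC.per_pos _ _ _ hp) t1 t2 (hC.kahler_pos i κ hκ κ hκ) hwx hwy hwκ hw0
    have h17 : C.q w w < 0 := this
    linarith

end LData

end Pool.Agent.SYM.V3.Lat
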