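import Pool.Agent.SYM.V3.ExistsR

/-!
# SYM/V3/NearR : rational planes near a given plane orthogonal to `α`
-/

set_option autoImplicit false

open Module Filter Topology

namespace Pool.Agent.SYM.V3.Lat

namespace LData

variable {b : ℕ} {C : LData b}

/-- `b ≥ 4` if some member has a non-zero nef isotropic class -/
theorem four_le (hC : C.Facts) {i : C.I} {α : Vec b} (hα0 : α ≠ 0) (hαα : C.q α α = 0)
    (hnef : C.Nef i α) : 4 ≤ b := by
  obtain ⟨x, y, hp⟩ := hC.per_exists i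
  obtain ⟨κ, hκ⟩ := hC.kahler_nonempty i
  obtain ⟨hαx, hαy, ha⟩ := nef_pos hC hp hnef hα0 hκ
  obtain ⟨hκx, hκy, hκκ, -, -⟩ := (hC.kahler_iff i x y hp κ hκ κ).1 hκ
  have hpp := hC.per_pos i x y hp
  have hκα : C.q κ α = C.q α κ := hC.symm _ _
  have hxα : C.q x α = 0 := by rw [hC.symm, hαx]
  have hyα : C.q y α = 0 := by rw [hC.symm, hαy]
  have hxκ : C.q x κ = 0 := by rw [hC.symm, hκx]
  have hyκ : C.q y κ = 0 := by rw [hC.symm, hκy]
  have hli : LinearIndependent ℝ ![x, y, α, κ] := by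
    rw [Fintype.linearIndependent_iff]
    intro c hc
    rw [Fin.sum_univ_four] at hc
    change c 0 • x + c 1 • y + c 2 • α + c 3 • κ = 0 at hc
    have e1 : c 3 * C.q α κ = 0 := by
      have := congrArg (fun v => C.q v α) hc
      simp only [map_add, map_smul, LinearMap.add_apply, LinearMap.smul_apply, smul_eq_mul, hxα,
        hyα, hαα, hκα, map_zero, LinearMap.zero_apply] at this
      linarith
    have c3 : c 3 = 0 := (mul_eq_zero.1 e1).resolve_right ha.ne'
    have e2 : c 2 * C.q α κ = 0 := by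
      have := congrArg (fun v => C.q v κ) hc
      simp only [map_add, map_smul, LinearMap.add_apply, LinearMap.smul_apply, smul_eq_mul, hxκ,
        hyκ, c3, map_zero, LinearMap.zero_apply] at this
      linarith
    have c2 : c 2 = 0 := (mul_eq_zero.1 e2).resolve_right ha.ne'
    rw [c2, c3, zero_smul, zero_smul, add_zero, add_zero] at hc
    have c01 : ¬ (c 0 ≠ 0 ∨ c 1 ≠ 0) := by
      intro h
      have := hpp _ _ h
      rw [hc] at this
      simp at this
    push Not at c01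
    intro k
    fin_cases k
    · exact c01.1
    · exact c01.2
    · exact c2
    · exact c3
  have h := hli.fintype_card_le_finrank
  simpa using h

/-- a positively oriented orthogonal basis of the period plane -/
theorem exists_orth_basis (hC : C.Facts) (hB : C.PerBasis) (i : C.I) :
    ∃ x y, C.per i x y ∧ C.q x y = 0 ∧ C.PosPlane x y := by
  obtain ⟨x, y, hp⟩ := hC.per_exists i
  have hpp := hC.per_pos i x y hp
  have hxx : 0 < C.q x x := by
    have := hpp 1 0 (Or.inl one_ne_zero)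
    simpa using this
  have h1 := hB i x y hp 1 0 (-(C.q x y / C.q x x)) 1 (by simp)
  rw [one_smul, zero_smul, add_zero, one_smul] at h1
  refine ⟨x, (-(C.q x y / C.q x x)) • x + y, h1, ?_, hC.per_pos _ _ _ h1⟩
  rw [map_add, map_smul, smul_eq_mul]
  field_simp
  ring

/-- rational orthogonal positive vectors of `α^⊥` near `x` and `y` -/
theorem approx_plane (hC : C.Facts) {x y α : Vec b} (hα : α ∈ lattice b) (hα0 : α ≠ 0)
    (hp : C.PosPlane x y) (hxy : C.q x y = 0) (hαx : C.q α x = 0) (hαy : C.q α y = 0) {ε : ℝ}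
    (hε : 0 < ε) : ∃ A ∈ lattice b, ∃ A0 ∈ lattice b, ∃ s t : ℝ, 0 < s ∧ 0 < t ∧
      C.q A α = 0 ∧ C.q A0 α = 0 ∧ C.q A A0 = 0 ∧ 0 < C.q A A ∧ 0 < C.q A0 A0 ∧
      dist (s • A0) x < ε ∧ dist (t • A) y < ε := by
  have hxx : 0 < C.q x x := by
    have := hp 1 0 (Or.inl one_ne_zero)
    simpa using this
  have hyy : 0 < C.q y y := by
    have := hp 0 1 (Or.inr one_ne_zero)
    simpa using this
  obtain ⟨w, hw, hdpos⟩ : ∃ w ∈ lattice b, 0 < C.q α w := by
    obtain ⟨w, hw, hd⟩ := exists_pair hC hα0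
    rcases lt_or_gt_of_ne hd with h | h
    · refine ⟨-w, (lattice b).neg_mem hw, ?_⟩
      rw [map_neg]
      linarith
    · exact ⟨w, hw, h⟩
  obtain ⟨d, hd'⟩ := hC.integral α hα w hw
  -- the projection to `α^⊥`
  let p : Vec b →ₗ[ℝ] Vec b := (C.q α w) • LinearMap.id - (C.q α).smulRight w
  have hpv : ∀ v, p v = C.q α w • v - C.q α v • w := fun v => by simp [p]
  have hpα : ∀ v, C.q (p v) α = 0 := by
    intro v
    rw [hpv, map_sub, map_smul, map_smul, LinearMap.sub_apply, LinearMap.smul_apply,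
      LinearMap.smul_apply, smul_eq_mul, smul_eq_mul, hC.symm v α, hC.symm w α]
    ring
  have hplat : ∀ v ∈ lattice b, p v ∈ lattice b := by
    intro v hv
    obtain ⟨m, hm⟩ := hC.integral α hα v hv
    rw [hpv, hd', hm]
    exact (lattice b).sub_mem (lattice_smul hv d) (lattice_smul hw m)
  have hpc : Continuous p := LinearMap.continuous_of_finiteDimensional p
  set δ : ℝ := C.q α w with hδ
  have hpx : p x = δ • x := by rw [hpv, hαx, zero_smul, sub_zero]
  have hpy : p y = δ • y := by rw [hpv, hαy, zero_smul, sub_zero]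
  -- the normalised projection
  let f : Vec b → Vec b := fun v => δ⁻¹ • p v
  have hfc : Continuous f := hpc.const_smul δ⁻¹
  have hfx : f x = x := by
    change δ⁻¹ • p x = x
    rw [hpx, smul_smul, inv_mul_cancel₀ hdpos.ne', one_smul]
  let g : Vec b → Vec b := fun v => y - (C.q (f v) y / C.q (f v) (f v)) • f v
  have hgx : g x = y := by
    change y - (C.q (f x) y / C.q (f x) (f x)) • f x = y
    rw [hfx, hxy, zero_div, zero_smul, sub_zero]
  have hqf : Continuous fun v => C.q (f v) (f v) := continuous_q_self.comp hfc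
  have hgc : ContinuousAt g x := by
    have h1 : ContinuousAt (fun v => C.q (f v) y / C.q (f v) (f v)) x := by
      refine ((continuous_q_left y).comp hfc).continuousAt.div hqf.continuousAt ?_
      rw [hfx]
      exact hxx.ne'
    exact continuousAt_const.sub (h1.smul hfc.continuousAt)
  have hev : ∀ᶠ v in 𝓝 x, 0 < C.q (f v) (f v) ∧ dist (f v) x < ε ∧ dist (g v) y < ε ∧
      0 < C.q (g v) (g v) := by
    have h1 : ∀ᶠ v in 𝓝 x, 0 < C.q (f v) (f v) := by
      have h3 : Tendsto (fun v => C.q (f v) (f v)) (𝓝 x) (𝓝 (C.q (f x) (f x))) :=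
        hqf.continuousAt
      rw [hfx] at h3
      exact h3.eventually_const_lt hxx
    have h2 : ∀ᶠ v in 𝓝 x, dist (f v) x < ε := by
      have h3 : Tendsto (fun v => dist (f v) x) (𝓝 x) (𝓝 (dist (f x) x)) :=
        (hfc.dist continuous_const).continuousAt
      rw [hfx, dist_self] at h3
      exact h3.eventually_lt_const hε
    have h4 : ∀ᶠ v in 𝓝 x, dist (g v) y < ε := by
      have h3 : Tendsto (fun v => dist (g v) y) (𝓝 x) (𝓝 (dist (g x) y)) :=
        hgc.dist continuousAt_const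
      rw [hgx, dist_self] at h3
      exact h3.eventually_lt_const hε
    have h5 : ∀ᶠ v in 𝓝 x, 0 < C.q (g v) (g v) := by
      have h3 : Tendsto (fun v => C.q (g v) (g v)) (𝓝 x) (𝓝 (C.q (g x) (g x))) :=
        continuous_q_self.continuousAt.comp hgc
      rw [hgx] at h3
      exact h3.eventually_const_lt hyy
    filter_upwards [h1, h2, h4, h5] with v a1 a2 a3 a4
    exact ⟨a1, a2, a3, a4⟩
  obtain ⟨U, hUsub, hU, hxU⟩ := mem_nhds_iff.1 hev
  obtain ⟨v, hv, N, hN, hvU⟩ := exists_rat hU hxU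
  have hNr : (0 : ℝ) < N := by exact_mod_cast hN
  obtain ⟨a1, a2, a3, a4⟩ := hUsub hvU
  set A0 : Vec b := p v with hA0
  have hA0lat : A0 ∈ lattice b := hplat v hv
  have hfA0 : f ((N : ℝ)⁻¹ • v) = (δ⁻¹ * (N : ℝ)⁻¹) • A0 := by
    change δ⁻¹ • p ((N : ℝ)⁻¹ • v) = _
    rw [map_smul, smul_smul]
  set s : ℝ := δ⁻¹ * (N : ℝ)⁻¹ with hs
  have hspos : 0 < s := by positivity
  rw [hfA0] at a1 a2
  have posA0 : 0 < C.q A0 A0 := by
    simp only [map_smul, LinearMap.smul_apply, smul_eq_mul] at a1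
    by_contra hcon
    push Not at hcon
    have h0 : 0 ≤ s * (s * -(C.q A0 A0)) := by
      have := neg_nonneg.2 hcon
      positivity
    linarith
  obtain ⟨r, hr⟩ := hC.integral A0 hA0lat A0 hA0lat
  let p2 : Vec b →ₗ[ℝ] Vec b := (C.q A0 A0) • p - ((C.q A0).comp p).smulRight A0
  have hp2 : ∀ v, p2 v = C.q A0 A0 • p v - C.q A0 (p v) • A0 := fun v => by simp [p2]
  have hA0α : C.q A0 α = 0 := hpα v
  have hp2α : ∀ v, C.q (p2 v) α = 0 := by
    intro v
    rw [hp2]
    simp only [map_sub, map_smul, LinearMap.sub_apply, LinearMap.smul_apply, smul_eq_mul, hA0α]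
    rw [hpα]
    ring
  have hp2A : ∀ v, C.q (p2 v) A0 = 0 := by
    intro v
    rw [hp2]
    simp only [map_sub, map_smul, LinearMap.sub_apply, LinearMap.smul_apply, smul_eq_mul]
    rw [hC.symm (p v) A0]
    ring
  have hp2lat : ∀ v ∈ lattice b, p2 v ∈ lattice b := by
    intro v hv
    obtain ⟨m, hm⟩ := hC.integral A0 hA0lat (p v) (hplat v hv)
    rw [hp2, hr, hm]
    exact (lattice b).sub_mem (lattice_smul (hplat v hv) r) (lattice_smul hA0lat m)
  have hp2c : Continuous p2 := LinearMap.continuous_of_finiteDimensional p2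
  set c : ℝ := C.q A0 A0 * δ with hc
  have hcpos : 0 < c := by positivity
  have hgy : c⁻¹ • p2 y = g ((N : ℝ)⁻¹ • v) := by
    change c⁻¹ • p2 y = y - (C.q (f ((N : ℝ)⁻¹ • v)) y /
      C.q (f ((N : ℝ)⁻¹ • v)) (f ((N : ℝ)⁻¹ • v))) • f ((N : ℝ)⁻¹ • v)
    rw [hfA0, hp2, hpy]
    simp only [map_smul, LinearMap.smul_apply, smul_eq_mul, smul_sub, smul_smul]
    have e1 : c⁻¹ * (C.q A0 A0 * δ) = 1 := by rw [hc]; field_simp
    have e2 : c⁻¹ * (δ * C.q A0 y) = s * C.q A0 y / (s * (s * C.q A0 A0)) * s := by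
      rw [hc]
      field_simp
    rw [e1, e2, one_smul]
  have hU2 : IsOpen {v : Vec b | dist (c⁻¹ • p2 v) y < ε ∧ 0 < C.q (p2 v) (p2 v)} :=
    (isOpen_lt ((hp2c.const_smul c⁻¹).dist continuous_const) continuous_const).inter
      (isOpen_lt continuous_const (continuous_q_self.comp hp2c))
  have hyU2 : y ∈ {v : Vec b | dist (c⁻¹ • p2 v) y < ε ∧ 0 < C.q (p2 v) (p2 v)} := by
    refine ⟨by rw [hgy]; exact a3, ?_⟩
    rw [← hgy] at a4
    simp only [map_smul, LinearMap.smul_apply, smul_eq_mul] at a4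
    by_contra hcon
    push Not at hcon
    have h0 : 0 ≤ c⁻¹ * (c⁻¹ * -(C.q (p2 y) (p2 y))) := by
      have := neg_nonneg.2 hcon
      positivity
    linarith
  obtain ⟨u, hu, M, hM, huU⟩ := exists_rat hU2 hyU2
  have hMr : (0 : ℝ) < M := by exact_mod_cast hM
  obtain ⟨b1, b2⟩ := huU
  refine ⟨p2 u, hp2lat u hu, A0, hA0lat, s, c⁻¹ * (M : ℝ)⁻¹, hspos, by positivity, hp2α u, hA0α,
    hp2A u, ?_, posA0, a2, ?_⟩
  · simp only [map_smul, LinearMap.smul_apply, smul_eq_mul] at b2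
    by_contra hcon
    push Not at hcon
    have h0 : 0 ≤ (M : ℝ)⁻¹ * ((M : ℝ)⁻¹ * -(C.q (p2 u) (p2 u))) := by
      have := neg_nonneg.2 hcon
      positivity
    linarith
  · rw [map_smul, smul_smul] at b1
    exact b1

/-- small deformations of `X_i` along which `α` remains nef; `P` is a property which passes from
them to `X_i` -/
def NearProp (C : LData b) (α : Vec b) (P : C.I → Prop) (i : C.I) : Prop :=
  ∀ x y, C.per i x y → ∃ ε : ℝ, 0 < ε ∧ ∀ x' y', dist x' x < ε → dist y' y < ε →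
    C.q α x' = 0 → C.q α y' = 0 → ∃ j, C.per j x' y' ∧ C.Nef j α ∧ (P j → P i)

/-- a special member near `i` -/
theorem exists_cusp_near (hC : C.Facts) (hO : C.KahlerOpen) (hB : C.PerBasis) {i : C.I}
    {α : Vec b} (hα : α ∈ lattice b) (hα0 : α ≠ 0) (hαα : C.q α α = 0) (hnef : C.Nef i α)
    {P : C.I → Prop} (hP : C.NearProp α P i) :
    ∃ D : Cusp C α, D.Facts ∧ (P D.j → P i) := by
  obtain ⟨x, y, hp, hxy, hpp⟩ := exists_orth_basis hC hB i
  obtain ⟨κ, hκ⟩ := hC.kahler_nonempty i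
  obtain ⟨hαx, hαy, -⟩ := nef_pos hC hp hnef hα0 hκ
  obtain ⟨ε, hε, hnear⟩ := hP x y hp
  obtain ⟨A, hA, A0, hA0, s, t, hs, ht, hAα, hA0α, hAA0, posA, posA0, h1, h2⟩ :=
    approx_plane hC hα hα0 hpp hxy hαx hαy hε
  obtain ⟨j, hj, hjn, hjP⟩ := hnear _ _ h1 h2
    (by rw [map_smul, hC.symm α A0, hA0α, smul_zero]) (by
      rw [map_smul, hC.symm α A, hAα, smul_zero])
  have hj' : C.per j A0 A := by
    have h3 := hB j _ _ hj s⁻¹ 0 0 t⁻¹ (by
      have : 0 < s⁻¹ * t⁻¹ := by positivity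
      linarith)
    rw [smul_smul, inv_mul_cancel₀ hs.ne', one_smul, zero_smul, add_zero, zero_smul, zero_add,
      smul_smul, inv_mul_cancel₀ ht.ne', one_smul] at h3
    exact h3
  obtain ⟨κj, hκj⟩ := hC.kahler_nonempty j
  obtain ⟨w, hw, hwk⟩ := exists_ample hC hO hA hA0 hAA0 posA posA0 hj' hκj
  exact ⟨⟨A, A0, w, j⟩,
    { hα := hα, hα0 := hα0, hαα := hαα, hA := hA, hA0 := hA0, hAα := hAα, hA0α := hA0α
      hAA0 := hAA0, posA := posA, posA0 := posA0, per := hj', kah := hwk, hω := hw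
      nef := hjn }, hjP⟩

end LData

end Pool.Agent.SYM.V3.Lat
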