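import Pool.Agent.SYM.V3.Quant

/-!
# SYM/V3/QBoot : the bootstrap

`G ^ (p / 2)` integrable for `p = 2`; `GradEst.gain` for every `w i` improves `p` to `p (1 + 1 / N)`
(`|Δ w|^p ≤ (K (1 + √G))^p ≤ C (1 + G^(p/2))`, `G ≤ K (1 + ∑ gr w w)`), after finitely many steps
`p > N` and `GradEst.sup` applies.
-/

set_option autoImplicit false

open MeasureTheory Set Filter
open scoped Topology ContDiff

namespace Pool.Agent.SYM.V3

private lemma rpow_two_le {a r : ℝ} (ha : 0 ≤ a) (hr : 0 ≤ r) :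
    (1 + a) ^ r ≤ 2 ^ r * (1 + a ^ r) := by
  have hm : 1 + a ≤ 2 * max 1 a := by
    have h1 := le_max_left 1 a
    have h2 := le_max_right 1 a
    linarith
  have h0 : 0 ≤ max 1 a := le_trans zero_le_one (le_max_left _ _)
  calc (1 + a) ^ r ≤ (2 * max 1 a) ^ r := Real.rpow_le_rpow (by positivity) hm hr
    _ = 2 ^ r * (max 1 a) ^ r := Real.mul_rpow (by norm_num) h0
    _ ≤ 2 ^ r * (1 + a ^ r) := by
      apply mul_le_mul_of_nonneg_left _ (by positivity)
      rcases le_total 1 a with h | h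
      · rw [max_eq_right h]
        linarith
      · rw [max_eq_left h, Real.one_rpow]
        have := Real.rpow_nonneg ha r
        linarith

private lemma rpow_sum_le {ι : Type} [Fintype ι] [Nonempty ι] {a : ι → ℝ} {r : ℝ}
    (ha : ∀ i, 0 ≤ a i) (hr : 0 ≤ r) :
    (∑ i, a i) ^ r ≤ (Fintype.card ι : ℝ) ^ r * ∑ i, a i ^ r := by
  obtain ⟨j, -, hj⟩ := Finset.exists_max_image Finset.univ a Finset.univ_nonempty
  have h1 : ∑ i, a i ≤ (Fintype.card ι : ℝ) * a j := by
    have := Finset.sum_le_card_nsmul Finset.univ a (a j) (fun i hi => hj i hi)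
    simpa [nsmul_eq_mul] using this
  calc (∑ i, a i) ^ r ≤ ((Fintype.card ι : ℝ) * a j) ^ r :=
        Real.rpow_le_rpow (Finset.sum_nonneg fun i _ => ha i) h1 hr
    _ = (Fintype.card ι : ℝ) ^ r * a j ^ r := Real.mul_rpow (by positivity) (ha j)
    _ ≤ (Fintype.card ι : ℝ) ^ r * ∑ i, a i ^ r := by
      apply mul_le_mul_of_nonneg_left _ (by positivity)
      exact Finset.single_le_sum (f := fun i => a i ^ r)
        (fun i _ => Real.rpow_nonneg (ha i) r) (Finset.mem_univ j)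

private lemma boot_aux {D : Reg} (hC : D.Calculus) {N : ℕ} (hG : D.GradEst N) (hN : 0 < N)
    {ι : Type} [Fintype ι] [Nonempty ι] {w : ι → D.X → ℝ} (hw : ∀ i, w i ∈ D.sm) {G : D.X → ℝ}
    (hGc : Continuous G) (hG0 : ∀ x, 0 ≤ G x) (hGi : Integrable G D.vol) {K : ℝ} (hK : 0 ≤ K)
    (h1 : ∀ i x, |w i x| ≤ K) (h2 : ∀ i x, D.gr (w i) (w i) x ≤ K * (1 + G x))
    (h3 : ∀ i x, |D.lap (w i) x| ≤ K * (1 + √(G x)))
    (h4 : ∀ x, G x ≤ K * (1 + ∑ i, D.gr (w i) (w i) x)) : ∃ M, ∀ x, G x ≤ M := by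
  haveI := hC.fin
  have hgr : ∀ i x, 0 ≤ D.gr (w i) (w i) x := fun i x => hC.gr_nonneg _ (hw i) x
  have hgrc : ∀ i, Continuous (D.gr (w i) (w i)) := fun i =>
    hC.sm_cont _ (hC.gr_sm _ (hw i) _ (hw i))
  have hlc : ∀ i, Continuous (D.lap (w i)) := fun i => hC.sm_cont _ (hC.lap_sm _ (hw i))
  have hgi : ∀ i, Integrable (D.gr (w i) (w i)) D.vol := by
    intro i
    refine Integrable.mono' (((integrable_const (1 : ℝ)).add hGi).const_mul K)
      (hgrc i).aestronglyMeasurable (Eventually.of_forall fun x => ?_)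
    rw [Real.norm_of_nonneg (hgr i x)]
    exact h2 i x
  -- the integrals of powers of the Laplacian
  have hlap : ∀ p : ℝ, 2 ≤ p → Integrable (fun x => G x ^ (p / 2)) D.vol → ∀ i,
      Integrable (fun x => |D.lap (w i) x| ^ p) D.vol := by
    intro p hp hI i
    have hp0 : 0 ≤ p := by linarith
    refine Integrable.mono' (((integrable_const (1 : ℝ)).add hI).const_mul (K ^ p * 2 ^ p))
      ((hlc i).abs.rpow_const fun x => Or.inr hp0).aestronglyMeasurable
      (Eventually.of_forall fun x => ?_)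
    rw [Real.norm_of_nonneg (Real.rpow_nonneg (abs_nonneg _) _)]
    calc |D.lap (w i) x| ^ p ≤ (K * (1 + √(G x))) ^ p :=
          Real.rpow_le_rpow (abs_nonneg _) (h3 i x) hp0
      _ = K ^ p * (1 + √(G x)) ^ p := Real.mul_rpow hK (by positivity)
      _ ≤ K ^ p * (2 ^ p * (1 + √(G x) ^ p)) := by
          apply mul_le_mul_of_nonneg_left _ (Real.rpow_nonneg hK p)
          exact rpow_two_le (Real.sqrt_nonneg _) hp0
      _ = K ^ p * 2 ^ p * (1 + G x ^ (p / 2)) := by
          rw [Real.sqrt_eq_rpow, ← Real.rpow_mul (hG0 x)]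
          rw [show 1 / 2 * p = p / 2 by ring]
          ring
  -- the gain
  have hstep : ∀ p : ℝ, 2 ≤ p → Integrable (fun x => G x ^ (p / 2)) D.vol →
      Integrable (fun x => G x ^ (p * (1 + 1 / N) / 2)) D.vol := by
    intro p hp hI
    set r : ℝ := p * (1 + 1 / N) / 2 with hr
    have hr0 : 0 ≤ r := by positivity
    have hgain : ∀ i, Integrable (fun x => (D.gr (w i) (w i) x) ^ r) D.vol := fun i =>
      hG.gain p hp (w i) (hw i) ⟨K, h1 i⟩ (hgi i) (hlap p hp hI i)
    have hsum : Integrable (fun x => ∑ i, (D.gr (w i) (w i) x) ^ r) D.vol :=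
      integrable_finset_sum _ fun i _ => hgain i
    refine Integrable.mono' (((integrable_const (1 : ℝ)).add
      (hsum.const_mul ((Fintype.card ι : ℝ) ^ r))).const_mul (K ^ r * 2 ^ r))
      (hGc.rpow_const fun x => Or.inr hr0).aestronglyMeasurable
      (Eventually.of_forall fun x => ?_)
    rw [Real.norm_of_nonneg (Real.rpow_nonneg (hG0 x) _)]
    have hs0 : 0 ≤ ∑ i, D.gr (w i) (w i) x := Finset.sum_nonneg fun i _ => hgr i x
    calc G x ^ r ≤ (K * (1 + ∑ i, D.gr (w i) (w i) x)) ^ r :=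
          Real.rpow_le_rpow (hG0 x) (h4 x) hr0
      _ = K ^ r * (1 + ∑ i, D.gr (w i) (w i) x) ^ r := Real.mul_rpow hK (by positivity)
      _ ≤ K ^ r * (2 ^ r * (1 + (∑ i, D.gr (w i) (w i) x) ^ r)) := by
          apply mul_le_mul_of_nonneg_left _ (Real.rpow_nonneg hK r)
          exact rpow_two_le hs0 hr0
      _ ≤ K ^ r * (2 ^ r * (1 + (Fintype.card ι : ℝ) ^ r * ∑ i, D.gr (w i) (w i) x ^ r)) := by
          apply mul_le_mul_of_nonneg_left _ (Real.rpow_nonneg hK r)
          apply mul_le_mul_of_nonneg_left _ (by positivity)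
          have := rpow_sum_le (fun i => hgr i x) hr0
          linarith
      _ = K ^ r * 2 ^ r * (1 + (Fintype.card ι : ℝ) ^ r * ∑ i, D.gr (w i) (w i) x ^ r) := by
          ring
  -- iterate
  have hN' : (0 : ℝ) < N := by exact_mod_cast hN
  have hq : (1 : ℝ) < 1 + 1 / N := by
    have : (0 : ℝ) < 1 / N := by positivity
    linarith
  have hiter : ∀ k : ℕ, Integrable (fun x => G x ^ (2 * (1 + 1 / (N : ℝ)) ^ k / 2)) D.vol := by
    intro k
    induction k with
    | zero => simpa using hGi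
    | succ k ih =>
      have hp : (2 : ℝ) ≤ 2 * (1 + 1 / (N : ℝ)) ^ k := by
        have := one_le_pow₀ hq.le (n := k)
        linarith
      have := hstep _ hp ih
      refine this.congr (Eventually.of_forall fun x => ?_)
      show G x ^ _ = G x ^ _
      congr 1
      ring
  obtain ⟨k, hk⟩ := pow_unbounded_of_one_lt (N : ℝ) hq
  set p : ℝ := 2 * (1 + 1 / (N : ℝ)) ^ k with hp
  have hone := one_le_pow₀ hq.le (n := k)
  have hp2 : 2 ≤ p := by rw [hp]; linarith
  have hpN : (N : ℝ) < p := by rw [hp]; linarith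
  have hb : ∀ i, ∃ L, ∀ x, D.gr (w i) (w i) x ≤ L := fun i =>
    hG.sup p hpN hp2 (w i) (hw i) ⟨K, h1 i⟩ (hgi i) (hlap p hp2 (hiter k) i)
  choose L hL using hb
  refine ⟨K * (1 + ∑ i, L i), fun x => (h4 x).trans ?_⟩
  apply mul_le_mul_of_nonneg_left _ hK
  have := Finset.sum_le_sum fun i (_ : i ∈ Finset.univ) => hL i x
  linarith

theorem bootstrap {D : Reg} (hC : D.Calculus) {N : ℕ} (hG : D.GradEst N) (hN : 0 < N)
    {ι : Type} [Fintype ι] {w : ι → D.X → ℝ} (hw : ∀ i, w i ∈ D.sm) {G : D.X → ℝ}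
    (hGc : Continuous G) (hG0 : ∀ x, 0 ≤ G x) (hGi : Integrable G D.vol) {K : ℝ}
    (h1 : ∀ i x, |w i x| ≤ K) (h2 : ∀ i x, D.gr (w i) (w i) x ≤ K * (1 + G x))
    (h3 : ∀ i x, |D.lap (w i) x| ≤ K * (1 + √(G x)))
    (h4 : ∀ x, G x ≤ K * (1 + ∑ i, D.gr (w i) (w i) x)) : ∃ M, ∀ x, G x ≤ M := by
  rcases isEmpty_or_nonempty ι with he | hne
  · exact ⟨K, fun x => by simpa using h4 x⟩
  have hle := le_abs_self K
  refine boot_aux hC hG hN hw hGc hG0 hGi (abs_nonneg K) (fun i x => (h1 i x).trans hle)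
    (fun i x => (h2 i x).trans ?_) (fun i x => (h3 i x).trans ?_) fun x => (h4 x).trans ?_
  · have := hG0 x
    exact mul_le_mul_of_nonneg_right hle (by positivity)
  · exact mul_le_mul_of_nonneg_right hle (by positivity)
  · have : 0 ≤ ∑ i, D.gr (w i) (w i) x := Finset.sum_nonneg fun i _ => hC.gr_nonneg _ (hw i) x
    exact mul_le_mul_of_nonneg_right hle (by positivity)

end Pool.Agent.SYM.V3
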