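import Pool.Agent.SYM.V3.QSec

/-!
# SYM/V3/QCut : the singular set has capacity zero

Cut-offs `χ_j` of `Reg.exists_cut` (`SYM/SingMoser.lean`): `0 ≤ χ_j ≤ 1`, `χ_j → 1`,
`∫ gr χ_j χ_j ≤ E / (j + 1)²`.
`adj_bdd`: `d0 (χ v) = χ d0 v + r`, `n r ≤ gr χ χ n v`; `|∫ ⟨r, e⟩| ≤ C ∫ √(gr χ χ) → 0`
(`√g ≤ (δ + g / δ) / 2`, finite measure), dominated convergence for the rest.
`bk_bdd`: `n (d1 (χ e)) ≤ gr χ χ n e` (as `d1 e = 0`),
`n (ds (χ e)) ≤ (1 + ε) χ² n (ds e) + (1 + ε⁻¹) gr χ χ n e`; `j → ∞`, then `ε → 0`.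
-/

set_option autoImplicit false

open MeasureTheory Set Filter
open scoped Topology ContDiff

namespace Pool.Agent.SYM.V3

variable {D : Reg} {φ : D.X → ℝ} {B : Bun D} {k : ℝ} {m : ℕ}

private theorem sqrt_mul_sqrt_le {a b : ℝ} (ha : 0 ≤ a) (hb : 0 ≤ b) :
    √a * √b ≤ (a + b) / 2 := by
  nlinarith [sq_nonneg (√a - √b), Real.sq_sqrt ha, Real.sq_sqrt hb]

/-- `ip s t` is integrable if `s` is bounded and `t` is square integrable -/
private theorem ip_int (hC : D.Calculus) {A : Sec D.X} (hA : A.Facts D) {s t : A.S} {M : ℝ}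
    (hs : ∀ x, A.n s x ≤ M) (ht : Integrable (A.n t) D.vol) :
    Integrable (fun x => ‖A.ip s t x‖) D.vol := by
  have := hC.fin
  refine Integrable.mono' (g := fun x => (M + A.n t x) / 2)
    (((integrable_const M).add ht).div_const 2) (hA.cont s t).norm.aestronglyMeasurable
    (Eventually.of_forall fun x => ?_)
  rw [norm_norm]
  have h1 := ip_le hA s t x
  have h2 := sqrt_mul_sqrt_le (hA.nonneg s x) (hA.nonneg t x)
  have h3 := hs x
  linarith

private theorem ip_int' (hC : D.Calculus) {A : Sec D.X} (hA : A.Facts D) {s t : A.S} {M : ℝ}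
    (hs : Integrable (A.n s) D.vol) (ht : ∀ x, A.n t x ≤ M) :
    Integrable (fun x => ‖A.ip s t x‖) D.vol := by
  have := hC.fin
  refine Integrable.mono' (g := fun x => (A.n s x + M) / 2)
    ((hs.add (integrable_const M)).div_const 2) (hA.cont s t).norm.aestronglyMeasurable
    (Eventually.of_forall fun x => ?_)
  rw [norm_norm]
  have h1 := ip_le hA s t x
  have h2 := sqrt_mul_sqrt_le (hA.nonneg s x) (hA.nonneg t x)
  have h3 := ht x
  linarith

/-- dominated convergence for the cut-offs -/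
private theorem cut_dct {χ : ℕ → D.X → ℝ} (hc : ∀ j, Continuous (χ j)) (h0 : ∀ j x, 0 ≤ χ j x)
    (h1 : ∀ j x, χ j x ≤ 1) (hl : ∀ x, Tendsto (fun j => χ j x) atTop (𝓝 1)) {f : D.X → ℂ}
    (hf : Continuous f) (hi : Integrable (fun x => ‖f x‖) D.vol) :
    Tendsto (fun j => ∫ x, (χ j x : ℂ) * f x ∂D.vol) atTop (𝓝 (∫ x, f x ∂D.vol)) := by
  refine tendsto_integral_of_dominated_convergence (fun x => ‖f x‖) (fun j => ?_) hi
    (fun j => Eventually.of_forall fun x => ?_) (Eventually.of_forall fun x => ?_)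
  · exact ((Complex.continuous_ofReal.comp (hc j)).mul hf).aestronglyMeasurable
  · rw [norm_mul, Complex.norm_real, Real.norm_of_nonneg (h0 j x)]
    exact mul_le_of_le_one_left (norm_nonneg _) (h1 j x)
  · have h2 : Tendsto (fun j => (χ j x : ℂ)) atTop (𝓝 ((1 : ℝ) : ℂ)) :=
      (Complex.continuous_ofReal.tendsto 1).comp (hl x)
    have h3 := h2.mul_const (f x)
    simpa using h3

theorem adj_bdd (hC : D.Calculus) (hP : D.Pole φ) (hB : B.Facts k m) {v : B.A0.S} {e : B.A1.S}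
    (hv : ∃ M, ∀ x, B.A0.n v x ≤ M) (hv' : Integrable (B.A1.n (B.d0 v)) D.vol)
    (he : ∃ M, ∀ x, B.A1.n e x ≤ M) (he' : Integrable (B.A0.n (B.ds e)) D.vol) :
    ∫ x, B.A1.ip (B.d0 v) e x ∂D.vol = ∫ x, B.A0.ip v (B.ds e) x ∂D.vol := by
  have := hC.fin
  obtain ⟨Mv, hMv⟩ := hv
  obtain ⟨Me, hMe⟩ := he
  obtain ⟨χ, E, hE, hχc, hχ0, hχ1, hχl, hχg⟩ := Reg.exists_cut hC hP
  have hχs : ∀ j, χ j ∈ D.sm := fun j => hC.cs_sm (hχc j)
  have hχcont : ∀ j, Continuous (χ j) := fun j => hC.sm_cont _ (hχs j)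
  have i1 : Integrable (fun x => ‖B.A1.ip (B.d0 v) e x‖) D.vol := ip_int' hC hB.f1 hv' hMe
  have i0 : Integrable (fun x => ‖B.A0.ip v (B.ds e) x‖) D.vol := ip_int hC hB.f0 hMv he'
  -- the two limits
  have l1 := cut_dct hχcont hχ0 hχ1 hχl (hB.f1.cont (B.d0 v) e) i1
  have l0 := cut_dct hχcont hχ0 hχ1 hχl (hB.f0.cont v (B.ds e)) i0
  -- the error term
  set r : ℕ → B.A1.S := fun j => B.d0 (B.A0.mul (χ j) v) - B.A1.mul (χ j) (B.d0 v) with hr
  have hrn : ∀ j x, B.A1.n (r j) x ≤ D.gr (χ j) (χ j) x * B.A0.n v x :=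
    fun j x => hB.leib0 (χ j) (hχs j) v x
  set Q : ℝ := max Mv 0 * max Me 0 with hQ
  have hQ0 : 0 ≤ Q := mul_nonneg (le_max_right _ _) (le_max_right _ _)
  have hg0 : ∀ j x, 0 ≤ D.gr (χ j) (χ j) x := fun j x => hC.gr_nonneg _ (hχs j) x
  have hgi : ∀ j, Integrable (D.gr (χ j) (χ j)) D.vol := fun j =>
    Reg.cs_integrable hC (hC.cs_gr _ (hχc j) _ (hχs j))
  have hpt : ∀ j x, ‖B.A1.ip (r j) e x‖ ≤
      (1 / ((j : ℝ) + 1) + Q * ((j : ℝ) + 1) * D.gr (χ j) (χ j) x) / 2 := by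
    intro j x
    have h1 := ip_le hB.f1 (r j) e x
    have h2 : B.A1.n (r j) x * B.A1.n e x ≤ Q * D.gr (χ j) (χ j) x := by
      have a1 : B.A1.n (r j) x ≤ D.gr (χ j) (χ j) x * max Mv 0 :=
        (hrn j x).trans (mul_le_mul_of_nonneg_left ((hMv x).trans (le_max_left _ _)) (hg0 j x))
      have a2 : B.A1.n e x ≤ max Me 0 := (hMe x).trans (le_max_left _ _)
      calc B.A1.n (r j) x * B.A1.n e x
          ≤ (D.gr (χ j) (χ j) x * max Mv 0) * max Me 0 :=
            mul_le_mul a1 a2 (hB.f1.nonneg _ _) (mul_nonneg (hg0 j x) (le_max_right _ _))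
        _ = Q * D.gr (χ j) (χ j) x := by rw [hQ]; ring
    have h3 : √(B.A1.n (r j) x) * √(B.A1.n e x) = √(B.A1.n (r j) x * B.A1.n e x) :=
      (Real.sqrt_mul (hB.f1.nonneg _ _) _).symm
    have h4 : √(B.A1.n (r j) x * B.A1.n e x) ≤ √(Q * D.gr (χ j) (χ j) x) := Real.sqrt_le_sqrt h2
    have hj : (0 : ℝ) < (j : ℝ) + 1 := by positivity
    have h5 : √(Q * D.gr (χ j) (χ j) x) =
        √(1 / ((j : ℝ) + 1)) * √(Q * ((j : ℝ) + 1) * D.gr (χ j) (χ j) x) := by
      rw [← Real.sqrt_mul (by positivity)]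
      congr 1
      field_simp
    have h6 := sqrt_mul_sqrt_le (a := 1 / ((j : ℝ) + 1))
      (b := Q * ((j : ℝ) + 1) * D.gr (χ j) (χ j) x) (by positivity)
      (mul_nonneg (mul_nonneg hQ0 hj.le) (hg0 j x))
    rw [h3] at h1
    rw [← h5] at h6
    linarith
  have hri : ∀ j, Integrable (B.A1.ip (r j) e) D.vol := by
    intro j
    refine Integrable.mono' (g := fun x =>
      (1 / ((j : ℝ) + 1) + Q * ((j : ℝ) + 1) * D.gr (χ j) (χ j) x) / 2) ?_
      (hB.f1.cont (r j) e).aestronglyMeasurable (Eventually.of_forall (hpt j))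
    exact ((integrable_const _).add ((hgi j).const_mul _)).div_const 2
  have hrl : Tendsto (fun j => ∫ x, B.A1.ip (r j) e x ∂D.vol) atTop (𝓝 0) := by
    have hb : ∀ j : ℕ, ‖∫ x, B.A1.ip (r j) e x ∂D.vol‖ ≤
        (D.vol.real univ + Q * E) / 2 * (1 / ((j : ℝ) + 1)) := by
      intro j
      have hj : (0 : ℝ) < (j : ℝ) + 1 := by positivity
      have h1 := norm_integral_le_integral_norm (μ := D.vol) (B.A1.ip (r j) e)
      have h2 : ∫ x, ‖B.A1.ip (r j) e x‖ ∂D.vol ≤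
          ∫ x, (1 / ((j : ℝ) + 1) + Q * ((j : ℝ) + 1) * D.gr (χ j) (χ j) x) / 2 ∂D.vol :=
        integral_mono (hri j).norm
          (((integrable_const _).add ((hgi j).const_mul _)).div_const 2) (hpt j)
      have h3 : ∫ x, (1 / ((j : ℝ) + 1) + Q * ((j : ℝ) + 1) * D.gr (χ j) (χ j) x) / 2 ∂D.vol =
          (D.vol.real univ * (1 / ((j : ℝ) + 1)) +
            Q * ((j : ℝ) + 1) * ∫ x, D.gr (χ j) (χ j) x ∂D.vol) / 2 := by
        rw [integral_div, integral_add (integrable_const _) ((hgi j).const_mul _),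
          integral_const_mul, integral_const, smul_eq_mul]
      have h4 : Q * ((j : ℝ) + 1) * ∫ x, D.gr (χ j) (χ j) x ∂D.vol ≤
          Q * E * (1 / ((j : ℝ) + 1)) := by
        calc Q * ((j : ℝ) + 1) * ∫ x, D.gr (χ j) (χ j) x ∂D.vol
            ≤ Q * ((j : ℝ) + 1) * (E / ((j : ℝ) + 1) ^ 2) :=
              mul_le_mul_of_nonneg_left (hχg j) (mul_nonneg hQ0 hj.le)
          _ = Q * E * (1 / ((j : ℝ) + 1)) := by field_simp
      rw [h3] at h2
      nlinarith
    refine squeeze_zero_norm hb ?_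
    have h5 := (tendsto_one_div_add_atTop_nhds_zero_nat (𝕜 := ℝ)).const_mul
      ((D.vol.real univ + Q * E) / 2)
    simpa using h5
  -- the identity for each cut-off
  have key : ∀ j, ∫ x, (χ j x : ℂ) * B.A1.ip (B.d0 v) e x ∂D.vol +
      ∫ x, B.A1.ip (r j) e x ∂D.vol = ∫ x, (χ j x : ℂ) * B.A0.ip v (B.ds e) x ∂D.vol := by
    intro j
    have h1 := hB.adj (χ j) (hχc j) v e
    have h2 : ∀ x, B.A1.ip (B.d0 (B.A0.mul (χ j) v)) e x =
        (χ j x : ℂ) * B.A1.ip (B.d0 v) e x + B.A1.ip (r j) e x := by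
      intro x
      have h3 : B.d0 (B.A0.mul (χ j) v) = B.A1.mul (χ j) (B.d0 v) + r j := by
        rw [hr]
        simp
      rw [h3, hB.f1.add_left, hB.f1.mul_ip _ (hχs j)]
    have h4 : ∀ x, B.A0.ip (B.A0.mul (χ j) v) (B.ds e) x =
        (χ j x : ℂ) * B.A0.ip v (B.ds e) x := fun x => hB.f0.mul_ip _ (hχs j) v (B.ds e) x
    have hint : Integrable (fun x => (χ j x : ℂ) * B.A1.ip (B.d0 v) e x) D.vol := by
      refine Integrable.mono' (g := fun x => ‖B.A1.ip (B.d0 v) e x‖) i1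
        ((Complex.continuous_ofReal.comp (hχcont j)).mul
          (hB.f1.cont (B.d0 v) e)).aestronglyMeasurable (Eventually.of_forall fun x => ?_)
      rw [norm_mul, Complex.norm_real, Real.norm_of_nonneg (hχ0 j x)]
      exact mul_le_of_le_one_left (norm_nonneg _) (hχ1 j x)
    rw [← integral_add hint (hri j)]
    rw [← integral_congr_ae (Eventually.of_forall h2), h1]
    exact integral_congr_ae (Eventually.of_forall h4)
  have hlim : Tendsto (fun j => ∫ x, (χ j x : ℂ) * B.A0.ip v (B.ds e) x ∂D.vol) atTop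
      (𝓝 (∫ x, B.A1.ip (B.d0 v) e x ∂D.vol + 0)) := (l1.add hrl).congr key
  rw [add_zero] at hlim
  exact tendsto_nhds_unique hlim l0

theorem bk_bdd (hC : D.Calculus) (hP : D.Pole φ) (hB : B.Facts k m) {e : B.A1.S}
    (he : ∃ M, ∀ x, B.A1.n e x ≤ M) (h1 : B.d1 e = 0) (h2 : Integrable (B.A0.n (B.ds e)) D.vol) :
    k * ∫ x, B.A1.n e x ∂D.vol ≤ ∫ x, B.A0.n (B.ds e) x ∂D.vol := by
  have := hC.fin
  obtain ⟨M0, hM0⟩ := he
  set M : ℝ := max M0 0 with hMdef
  have hM : ∀ x, B.A1.n e x ≤ M := fun x => (hM0 x).trans (le_max_left _ _)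
  have hMn : 0 ≤ M := le_max_right _ _
  obtain ⟨χ, E, hE, hχc, hχ0, hχ1, hχl, hχg⟩ := Reg.exists_cut hC hP
  have hχs : ∀ j, χ j ∈ D.sm := fun j => hC.cs_sm (hχc j)
  have hχcont : ∀ j, Continuous (χ j) := fun j => hC.sm_cont _ (hχs j)
  have hg0 : ∀ j x, 0 ≤ D.gr (χ j) (χ j) x := fun j x => hC.gr_nonneg _ (hχs j) x
  have hgi : ∀ j, Integrable (D.gr (χ j) (χ j)) D.vol := fun j =>
    Reg.cs_integrable hC (hC.cs_gr _ (hχc j) _ (hχs j))
  have hG : Tendsto (fun j => ∫ x, D.gr (χ j) (χ j) x ∂D.vol) atTop (𝓝 0) := by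
    have h3 : Tendsto (fun j : ℕ => E / ((j : ℝ) + 1) ^ 2) atTop (𝓝 0) := by
      have h4 := ((tendsto_one_div_add_atTop_nhds_zero_nat (𝕜 := ℝ)).pow 2).const_mul E
      simpa [div_eq_mul_inv, inv_pow] using h4
    exact squeeze_zero (fun j => integral_nonneg (hg0 j)) hχg h3
  set I0 : ℝ := ∫ x, B.A0.n (B.ds e) x ∂D.vol with hI0
  have hI00 : 0 ≤ I0 := integral_nonneg fun x => hB.f0.nonneg _ x
  -- the inequality for each cut-off
  have key : ∀ ε : ℝ, 0 < ε → ∀ j, k * ∫ x, χ j x ^ 2 * B.A1.n e x ∂D.vol ≤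
      (1 + ε) * I0 + (2 + ε⁻¹) * M * ∫ x, D.gr (χ j) (χ j) x ∂D.vol := by
    intro ε hε j
    have hb := hB.bk (χ j) (hχc j) e
    have a0 : ∫ x, B.A1.n (B.A1.mul (χ j) e) x ∂D.vol = ∫ x, χ j x ^ 2 * B.A1.n e x ∂D.vol :=
      integral_congr_ae (Eventually.of_forall fun x => n_mul hB.f1 (hχs j) e x)
    have a1 : ∫ x, B.A2.n (B.d1 (B.A1.mul (χ j) e)) x ∂D.vol ≤
        ∫ x, M * D.gr (χ j) (χ j) x ∂D.vol := by
      refine integral_mono_of_nonneg (Eventually.of_forall fun x => hB.f2.nonneg _ x)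
        ((hgi j).const_mul M) (Eventually.of_forall fun x => ?_)
      have h3 := hB.leib1 (χ j) (hχs j) e x
      rw [h1, mul_zero' hB.f2 (hχs j), sub_zero] at h3
      exact h3.trans (by
        rw [mul_comm]
        exact mul_le_mul_of_nonneg_right (hM x) (hg0 j x))
    have a2 : ∫ x, B.A0.n (B.ds (B.A1.mul (χ j) e)) x ∂D.vol ≤
        ∫ x, ((1 + ε) * B.A0.n (B.ds e) x + (1 + ε⁻¹) * M * D.gr (χ j) (χ j) x) ∂D.vol := by
      refine integral_mono_of_nonneg (Eventually.of_forall fun x => hB.f0.nonneg _ x)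
        ((h2.const_mul _).add ((hgi j).const_mul _)) (Eventually.of_forall fun x => ?_)
      have h3 := hB.leibs (χ j) (hχs j) e x
      have h4 := n_add_le hB.f0 (B.A0.mul (χ j) (B.ds e))
        (B.ds (B.A1.mul (χ j) e) - B.A0.mul (χ j) (B.ds e)) hε x
      rw [add_sub_cancel, n_mul hB.f0 (hχs j)] at h4
      have h5 : χ j x ^ 2 ≤ 1 := pow_le_one₀ (hχ0 j x) (hχ1 j x)
      have h6 : χ j x ^ 2 * B.A0.n (B.ds e) x ≤ B.A0.n (B.ds e) x :=
        mul_le_of_le_one_left (hB.f0.nonneg _ x) h5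
      have h7 : D.gr (χ j) (χ j) x * B.A1.n e x ≤ M * D.gr (χ j) (χ j) x := by
        rw [mul_comm]
        exact mul_le_mul_of_nonneg_right (hM x) (hg0 j x)
      have hε1 : 0 ≤ 1 + ε := by linarith
      have hε2 : 0 ≤ 1 + ε⁻¹ := by positivity
      have h8 := mul_le_mul_of_nonneg_left h6 hε1
      have h9 := mul_le_mul_of_nonneg_left (h3.trans h7) hε2
      simp only
      linarith
    rw [integral_add (h2.const_mul _) ((hgi j).const_mul _), integral_const_mul,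
      integral_const_mul] at a2
    rw [integral_const_mul] at a1
    rw [a0] at hb
    linarith
  -- the limit in `j`
  have hne : Integrable (B.A1.n e) D.vol := by
    refine Integrable.mono' (g := fun _ => M) (integrable_const M)
      (n_cont hB.f1 e).aestronglyMeasurable (Eventually.of_forall fun x => ?_)
    rw [Real.norm_of_nonneg (hB.f1.nonneg e x)]
    exact hM x
  have l1 : Tendsto (fun j => ∫ x, χ j x ^ 2 * B.A1.n e x ∂D.vol) atTop
      (𝓝 (∫ x, B.A1.n e x ∂D.vol)) := by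
    refine tendsto_integral_of_dominated_convergence (fun x => B.A1.n e x) (fun j => ?_) hne
      (fun j => Eventually.of_forall fun x => ?_) (Eventually.of_forall fun x => ?_)
    · exact (((hχcont j).pow 2).mul (n_cont hB.f1 e)).aestronglyMeasurable
    · rw [Real.norm_of_nonneg (mul_nonneg (sq_nonneg _) (hB.f1.nonneg e x))]
      exact mul_le_of_le_one_left (hB.f1.nonneg e x) (pow_le_one₀ (hχ0 j x) (hχ1 j x))
    · have h3 := ((hχl x).pow 2).mul_const (B.A1.n e x)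
      simpa using h3
  have key2 : ∀ ε : ℝ, 0 < ε → k * ∫ x, B.A1.n e x ∂D.vol ≤ (1 + ε) * I0 := by
    intro ε hε
    have l2 := l1.const_mul k
    have l3 : Tendsto (fun j => (1 + ε) * I0 +
        (2 + ε⁻¹) * M * ∫ x, D.gr (χ j) (χ j) x ∂D.vol) atTop
        (𝓝 ((1 + ε) * I0 + (2 + ε⁻¹) * M * 0)) :=
      (hG.const_mul _).const_add _
    rw [mul_zero, add_zero] at l3
    exact le_of_tendsto_of_tendsto' l2 l3 (key ε hε)
  refine le_of_forall_pos_le_add fun δ hδ => ?_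
  have h3 := key2 (δ / (I0 + 1)) (by positivity)
  have h4 : (1 + δ / (I0 + 1)) * I0 ≤ I0 + δ := by
    have h5 : δ / (I0 + 1) * I0 ≤ δ := by
      rw [div_mul_eq_mul_div, div_le_iff₀ (by linarith)]
      nlinarith
    nlinarith
  linarith

end Pool.Agent.SYM.V3
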