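import Pool.Agent.SYM.V3.Quant

/-!
# SYM/V3/QSec : pointwise algebra of sections and the space of square integrable sections
-/

set_option autoImplicit false

open MeasureTheory Set Filter
open scoped Topology ContDiff ComplexConjugate

namespace Pool.Agent.SYM.V3

variable {D : Reg} {A : Sec D.X} (hA : A.Facts D)
include hA

/-- the positive semidefinite form at a point -/
private noncomputable def pre (x : D.X) : PreInnerProductSpace.Core ℂ A.S where
  inner s t := A.ip s t x
  conj_inner_symm s t := hA.symm s t x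
  re_inner_nonneg s := hA.nonneg s x
  add_left s t r := hA.add_left s t r x
  smul_left s t c := hA.smul_left c s t x

theorem ip_self (s : A.S) (x : D.X) : A.ip s s x = (A.n s x : ℂ) := by
  have h := hA.symm s s x
  rw [Complex.conj_eq_iff_re] at h
  exact h.symm

theorem ip_add_right (s t r : A.S) (x : D.X) : A.ip r (s + t) x = A.ip r s x + A.ip r t x := by
  rw [← hA.symm r (s + t) x, hA.add_left, map_add, hA.symm, hA.symm]

theorem ip_smul_right (c : ℂ) (s t : A.S) (x : D.X) : A.ip s (c • t) x = c * A.ip s t x := by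
  rw [← hA.symm s (c • t) x, hA.smul_left, map_mul, Complex.conj_conj, hA.symm]

/-- Cauchy-Schwarz -/
theorem ip_sq_le (s t : A.S) (x : D.X) : ‖A.ip s t x‖ ^ 2 ≤ A.n s x * A.n t x := by
  letI := pre hA x
  have h := InnerProductSpace.Core.inner_mul_inner_self_le (𝕜 := ℂ) s t
  have h1 : ‖A.ip t s x‖ = ‖A.ip s t x‖ := by
    rw [← hA.symm s t x, Complex.norm_conj]
  have h2 : ‖A.ip s t x‖ * ‖A.ip t s x‖ ≤ A.n s x * A.n t x := h
  rw [h1] at h2
  rw [sq]
  exact h2

theorem ip_le (s t : A.S) (x : D.X) : ‖A.ip s t x‖ ≤ √(A.n s x) * √(A.n t x) := by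
  rw [← Real.sqrt_mul (hA.nonneg s x)]
  exact Real.le_sqrt_of_sq_le (ip_sq_le hA s t x)

theorem n_cont (s : A.S) : Continuous (A.n s) :=
  Complex.continuous_re.comp (hA.cont s s)

theorem n_smul (c : ℂ) (s : A.S) (x : D.X) : A.n (c • s) x = ‖c‖ ^ 2 * A.n s x := by
  have h : A.ip (c • s) (c • s) x = ((‖c‖ ^ 2 * A.n s x : ℝ) : ℂ) := by
    rw [hA.smul_left, ip_smul_right hA, ip_self hA, ← mul_assoc, Complex.conj_mul']
    push_cast
    rfl
  rw [Sec.n, h, Complex.ofReal_re]

theorem n_zero (x : D.X) : A.n 0 x = 0 := by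
  have h := n_smul hA 0 (0 : A.S) x
  rw [zero_smul] at h
  rw [h]
  simp

theorem n_neg (s : A.S) (x : D.X) : A.n (-s) x = A.n s x := by
  have h := n_smul hA (-1) s x
  rw [neg_smul, one_smul] at h
  rw [h]
  simp

private theorem n_add (s t : A.S) (x : D.X) :
    A.n (s + t) x = A.n s x + 2 * (A.ip s t x).re + A.n t x := by
  have h1 : A.ip (s + t) (s + t) x = A.ip s s x + A.ip s t x + (A.ip t s x + A.ip t t x) := by
    rw [hA.add_left, ip_add_right hA, ip_add_right hA]
  have h2 : (A.ip t s x).re = (A.ip s t x).re := by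
    rw [← hA.symm s t x, Complex.conj_re]
  rw [Sec.n, h1]
  simp only [Complex.add_re, h2]
  simp only [Sec.n]
  ring

theorem n_add_le (s t : A.S) {ε : ℝ} (hε : 0 < ε) (x : D.X) :
    A.n (s + t) x ≤ (1 + ε) * A.n s x + (1 + ε⁻¹) * A.n t x := by
  rw [n_add hA]
  have h1 : (A.ip s t x).re ≤ √(A.n s x) * √(A.n t x) :=
    (Complex.re_le_norm _).trans (ip_le hA s t x)
  have hs := Real.sq_sqrt (hA.nonneg s x)
  have ht := Real.sq_sqrt (hA.nonneg t x)
  set a := √(A.n s x)
  set b := √(A.n t x)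
  have h2 : 2 * (a * b) ≤ ε * a ^ 2 + ε⁻¹ * b ^ 2 := by
    have h3 : 0 ≤ ε⁻¹ * (ε * a - b) ^ 2 := by positivity
    have h4 : ε⁻¹ * (ε * a - b) ^ 2 = ε * a ^ 2 + ε⁻¹ * b ^ 2 - 2 * (a * b) := by
      field_simp
      ring
    linarith
  rw [← hs, ← ht]
  nlinarith

theorem n_mul {χ : D.X → ℝ} (hχ : χ ∈ D.sm) (s : A.S) (x : D.X) :
    A.n (A.mul χ s) x = χ x ^ 2 * A.n s x := by
  have h : A.ip (A.mul χ s) (A.mul χ s) x = ((χ x ^ 2 * A.n s x : ℝ) : ℂ) := by
    rw [hA.mul_ip χ hχ, ← hA.symm s (A.mul χ s) x, hA.mul_ip χ hχ, ip_self hA, map_mul,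
      Complex.conj_ofReal, Complex.conj_ofReal]
    push_cast
    ring
  rw [Sec.n, h, Complex.ofReal_re]

theorem mul_zero' {χ : D.X → ℝ} (hχ : χ ∈ D.sm) : A.mul χ (0 : A.S) = 0 := by
  refine hA.eq_zero _ fun x => ?_
  rw [n_mul hA hχ, n_zero hA, mul_zero]

private theorem n_meas (s : A.S) : AEStronglyMeasurable (A.n s) D.vol :=
  (n_cont hA s).aestronglyMeasurable

theorem int_add {s t : A.S} (hs : Integrable (A.n s) D.vol) (ht : Integrable (A.n t) D.vol) :
    Integrable (A.n (s + t)) D.vol := by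
  refine ((hs.const_mul 2).add (ht.const_mul 2)).mono' (n_meas hA _) (Eventually.of_forall
    fun x => ?_)
  rw [Real.norm_eq_abs, abs_of_nonneg (hA.nonneg _ x)]
  have h := n_add_le hA s t one_pos x
  simp only [Pi.add_apply]
  norm_num at h
  linarith

theorem int_smul (c : ℂ) {s : A.S} (hs : Integrable (A.n s) D.vol) :
    Integrable (A.n (c • s)) D.vol := by
  have h : A.n (c • s) = fun x => ‖c‖ ^ 2 * A.n s x := funext fun x => n_smul hA c s x
  rw [h]
  exact hs.const_mul _

theorem int_ip {s t : A.S} (hs : Integrable (A.n s) D.vol) (ht : Integrable (A.n t) D.vol) :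
    Integrable (A.ip s t) D.vol := by
  refine (hs.add ht).mono' (hA.cont s t).aestronglyMeasurable (Eventually.of_forall fun x => ?_)
  have h1 := ip_le hA s t x
  have h2 := Real.sq_sqrt (hA.nonneg s x)
  have h3 := Real.sq_sqrt (hA.nonneg t x)
  have h4 := two_mul_le_add_sq (√(A.n s x)) (√(A.n t x))
  have h5 := mul_nonneg (Real.sqrt_nonneg (A.n s x)) (Real.sqrt_nonneg (A.n t x))
  simp only [Pi.add_apply]
  nlinarith

/-- the square integrable smooth sections -/
def L2 : Submodule ℂ A.S where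
  carrier := {s | Integrable (A.n s) D.vol}
  zero_mem' := by
    have : A.n (0 : A.S) = fun _ => 0 := funext fun x => n_zero hA x
    show Integrable (A.n (0 : A.S)) D.vol
    rw [this]
    exact integrable_zero _ _ _
  add_mem' := fun hs ht => int_add hA hs ht
  smul_mem' := fun c _ hs => int_smul hA c hs

private theorem int_ip_self (s : A.S) :
    ∫ x, A.ip s s x ∂D.vol = ((∫ x, A.n s x ∂D.vol : ℝ) : ℂ) := by
  rw [← integral_complex_ofReal]
  exact integral_congr_ae (Eventually.of_forall fun x => ip_self hA s x)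

/-- the `L²` inner product -/
noncomputable def core (hC : D.Calculus) : InnerProductSpace.Core ℂ (L2 hA) where
  inner s t := ∫ x, A.ip s t x ∂D.vol
  conj_inner_symm := by
    intro s t
    show conj (∫ x, A.ip t s x ∂D.vol) = ∫ x, A.ip s t x ∂D.vol
    rw [← integral_conj]
    exact integral_congr_ae (Eventually.of_forall fun x => hA.symm s t x)
  re_inner_nonneg := by
    intro s
    show 0 ≤ (∫ x, A.ip s s x ∂D.vol).re
    rw [int_ip_self hA, Complex.ofReal_re]
    exact integral_nonneg fun x => hA.nonneg _ x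
  add_left := by
    intro s t r
    show ∫ x, A.ip (s + t : A.S) r x ∂D.vol = ∫ x, A.ip s r x ∂D.vol + ∫ x, A.ip t r x ∂D.vol
    rw [← integral_add (int_ip hA s.2 r.2) (int_ip hA t.2 r.2)]
    exact integral_congr_ae (Eventually.of_forall fun x => hA.add_left s t r x)
  smul_left := by
    intro s t c
    show ∫ x, A.ip (c • (s : A.S)) t x ∂D.vol = conj c * ∫ x, A.ip s t x ∂D.vol
    rw [← integral_const_mul]
    exact integral_congr_ae (Eventually.of_forall fun x => hA.smul_left c s t x)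
  definite := by
    intro s hs
    have h1 : ∫ x, A.n s x ∂D.vol = 0 := by
      have h2 : ∫ x, A.ip s s x ∂D.vol = 0 := hs
      rw [int_ip_self hA] at h2
      exact_mod_cast h2
    haveI := hC.pos
    have h3 : A.n (s : A.S) =ᵐ[D.vol] 0 :=
      (integral_eq_zero_iff_of_nonneg (fun x => hA.nonneg _ x) s.2).1 h1
    have h4 : A.n (s : A.S) = 0 :=
      (Continuous.ae_eq_iff_eq D.vol (n_cont hA s) continuous_zero).1 h3
    exact Subtype.ext (hA.eq_zero _ fun x => congrFun h4 x)

end Pool.Agent.SYM.V3
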