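import Pool.Agent.SYM.V3.QLoc
import Pool.Agent.SYM.V3.QSec

/-!
# SYM/V3/QFrame : cut-off coefficients of an eigensection

`w (c, true) = z c * Re (co c s)`, `w (c, false) = z c * Im (co c s)`. On `tsupport (z c)`:
`u c ≤ M`, `|f| ≤ √(n s)`, `gr z z ≤ K z ≤ K`, `|Δ z| ≤ K`; `lap_mul_loc`, `gr_mul_loc`,
`gr_loc_facts`, `Bun.Frame.gr_le`, `lap_le` (with `n (ds (d0 s)) = l² n s`) give the upper bounds.
Lower bound: at `x` choose `c` with `z c x ≥ 1 / C.N`; there `z² gr f f ≤ 2 gr (z f) (z f) +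
2 f² gr z z` and `Bun.Frame.nab_le`.
-/

set_option autoImplicit false

open MeasureTheory Set Filter
open scoped Topology ContDiff

namespace Pool.Agent.SYM.V3

/-- real and imaginary part of the coefficient -/
private def fr {D : Reg} {C : Charts D} {B : Bun D} (co : Fin C.N → B.A0.S → D.X → ℂ) (s : B.A0.S)
    (i : Fin C.N × Bool) : D.X → ℝ :=
  match i.2 with
  | true => fun x => (co i.1 s x).re
  | false => fun x => (co i.1 s x).im

private theorem sqrt_add_le {a b : ℝ} (ha : 0 ≤ a) (hb : 0 ≤ b) : √(a + b) ≤ √a + √b := by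
  rw [Real.sqrt_le_left (by positivity)]
  nlinarith [Real.sq_sqrt ha, Real.sq_sqrt hb, mul_nonneg (Real.sqrt_nonneg a) (Real.sqrt_nonneg b)]

/-- upper and lower bound of the gradient of a product -/
private theorem prod_bounds {z f gz gf gzf : ℝ} (h : gzf ^ 2 ≤ gz * gf) (hz : 0 ≤ gz)
    (hf : 0 ≤ gf) :
    z ^ 2 * gf + 2 * (z * f) * gzf + f ^ 2 * gz ≤ 2 * (z ^ 2 * gf) + 2 * (f ^ 2 * gz) ∧
      z ^ 2 * gf ≤ 2 * (z ^ 2 * gf + 2 * (z * f) * gzf + f ^ 2 * gz) + 2 * (f ^ 2 * gz) := by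
  have ha : 0 ≤ z ^ 2 * gf := mul_nonneg (sq_nonneg _) hf
  have hb : 0 ≤ f ^ 2 * gz := mul_nonneg (sq_nonneg _) hz
  have h1 : (z * f * gzf) ^ 2 ≤ (z ^ 2 * gf) * (f ^ 2 * gz) := by
    have := mul_le_mul_of_nonneg_left h (sq_nonneg (z * f))
    nlinarith
  have h2 : 2 * |z * f * gzf| ≤ z ^ 2 * gf + f ^ 2 * gz := Reg.two_abs_le ha hb h1
  have h3 : 2 * |z * f * gzf| ≤ 1 / 2 * (z ^ 2 * gf) + 2 * (f ^ 2 * gz) :=
    Reg.two_abs_le (by positivity) (by positivity) (by nlinarith)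
  have h4 := abs_le.1 (le_refl |z * f * gzf|)
  constructor
  · nlinarith [h4.2]
  · nlinarith [h4.1]

theorem frame_cut {D : Reg} {φ : D.X → ℝ} {C : Charts D} {B : Bun D} {k : ℝ} {m : ℕ}
    {co : Fin C.N → B.A0.S → D.X → ℂ} (hC : D.Calculus) (hL : D.Leibniz) (hSh : D.Sheaf)
    (hF : C.Facts φ) {M : ℝ} (hu : ∀ c, ∀ x ∈ tsupport (C.z c), C.u c x ≤ M)
    (hB : B.Facts k m) (hFr : B.Frame C co) {s : B.A0.S} {l : ℝ}
    (hs : B.ds (B.d0 s) = (l : ℂ) • s) {M' : ℝ} (hM : ∀ x, B.A0.n s x ≤ M') :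
    ∃ (w : Fin C.N × Bool → D.X → ℝ) (K : ℝ), (∀ i, w i ∈ D.sm) ∧ (∀ i x, |w i x| ≤ K) ∧
      (∀ i x, D.gr (w i) (w i) x ≤ K * (1 + B.nab s x)) ∧
      (∀ i x, |D.lap (w i) x| ≤ K * (1 + √(B.nab s x))) ∧
      ∀ x, B.nab s x ≤ K * (1 + ∑ i, D.gr (w i) (w i) x) := by
  obtain ⟨Kz, hKz0, hKz⟩ := hF.z_bdd
  obtain ⟨Kg, hKg0, hKg⟩ := hFr.gr_le
  obtain ⟨Kn, hKn0, hKn⟩ := hFr.nab_le
  obtain ⟨Kl, hKl0, hKl⟩ := hFr.lap_le
  obtain ⟨M₁, hM₁, hM₁0⟩ : ∃ M₁ : ℝ, M ≤ M₁ ∧ 0 ≤ M₁ := ⟨max M 0, le_max_left _ _, le_max_right _ _⟩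
  obtain ⟨M₂, hM₂, hM₂0⟩ : ∃ M₂ : ℝ, M' ≤ M₂ ∧ 0 ≤ M₂ :=
    ⟨max M' 0, le_max_left _ _, le_max_right _ _⟩
  have hne : D.sm.Nonempty := ⟨_, hB.n_sm s⟩
  have hu1 : ∀ c, ∀ x ∈ tsupport (C.z c), C.u c x ≤ M₁ := fun c x hx => (hu c x hx).trans hM₁
  have hn2 : ∀ x, B.A0.n s x ≤ M₂ := fun x => (hM x).trans hM₂
  have hn0 : ∀ x, 0 ≤ B.A0.n s x := fun x => hB.f0.nonneg s x
  have hnab0 : ∀ x, 0 ≤ B.nab s x := fun x => (hB.f1.nonneg _ x).trans (hB.d0_le s x)
  have hz1 : ∀ c x, C.z c x ≤ 1 := fun c x => by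
    rw [← hF.z_sum x]
    exact Finset.single_le_sum (f := fun c => C.z c x) (fun c _ => hF.z_nonneg c x)
      (Finset.mem_univ c)
  have hz2 : ∀ c x, C.z c x ^ 2 ≤ 1 := fun c x => pow_le_one₀ (hF.z_nonneg c x) (hz1 c x)
  have hgz : ∀ c x, D.gr (C.z c) (C.z c) x ≤ Kz := fun c x => by
    have h1 := (hKz c x).2
    have h2 := mul_le_mul_of_nonneg_left (hz1 c x) hKz0
    linarith
  have hgz0 : ∀ c x, 0 ≤ D.gr (C.z c) (C.z c) x := fun c x => hC.gr_nonneg _ (hF.z_sm c) x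
  set f := fr (C := C) (B := B) co s with hfdef
  have hfsm : ∀ i, D.SmoothOn (C.U i.1) (f i) := by
    rintro ⟨c, b⟩
    cases b
    · exact hFr.im_sm c s
    · exact hFr.re_sm c s
  have hfsq : ∀ i x, x ∈ C.U i.1 → f i x ^ 2 ≤ M₂ := by
    rintro ⟨c, b⟩ x hx
    have h1 := hFr.abs_eq c s x hx
    have h2 : ‖co c s x‖ ^ 2 = (co c s x).re ^ 2 + (co c s x).im ^ 2 := by
      rw [← Complex.normSq_eq_norm_sq, Complex.normSq_apply]; ring
    have h3 := hn2 x
    cases b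
    · show (co c s x).im ^ 2 ≤ M₂
      nlinarith [sq_nonneg (co c s x).re]
    · show (co c s x).re ^ 2 ≤ M₂
      nlinarith [sq_nonneg (co c s x).im]
  have hloc : ∀ i x, x ∈ C.U i.1 → 0 ≤ D.gr (f i) (f i) x ∧
      D.gr (C.z i.1) (f i) x ^ 2 ≤ D.gr (C.z i.1) (C.z i.1) x * D.gr (f i) (f i) x := fun i x hx =>
    gr_loc_facts hC hL hSh (hF.z_sm i.1) (hF.isOpen i.1) (hfsm i) hx
  have hun : ∀ c x, x ∈ tsupport (C.z c) → C.u c x * B.A0.n s x ≤ M₁ * M₂ := fun c x hx =>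
    mul_le_mul (hu1 c x hx) (hn2 x) (hn0 x) hM₁0
  have hfgr : ∀ i x, x ∈ tsupport (C.z i.1) →
      D.gr (f i) (f i) x ≤ Kg * (B.nab s x + M₁ * M₂) := by
    rintro ⟨c, b⟩ x hx
    have hxU := hF.z_supp c hx
    have h1 := hKg c s x hxU
    have h2 := (hloc (c, true) x hxU).1
    have h3 := (hloc (c, false) x hxU).1
    have h4 : Kg * (B.nab s x + C.u c x * B.A0.n s x) ≤ Kg * (B.nab s x + M₁ * M₂) :=
      mul_le_mul_of_nonneg_left (by linarith [hun c x hx]) hKg0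
    change 0 ≤ D.gr (fun x => (co c s x).re) (fun x => (co c s x).re) x at h2
    change 0 ≤ D.gr (fun x => (co c s x).im) (fun x => (co c s x).im) x at h3
    cases b
    · show D.gr (fun x => (co c s x).im) (fun x => (co c s x).im) x ≤ _
      linarith
    · show D.gr (fun x => (co c s x).re) (fun x => (co c s x).re) x ≤ _
      linarith
  have hwsm : ∀ i, (fun x => C.z i.1 x * f i x) ∈ D.sm := fun i =>
    mul_loc hC hL hSh (hF.z_sm i.1) (hF.z_supp i.1) (hF.isOpen i.1) (hfsm i)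
  have hfabs : ∀ i x, x ∈ C.U i.1 → |f i x| ≤ √M₂ := fun i x hx => Real.abs_le_sqrt (hfsq i x hx)
  have hz0 : ∀ i x, x ∉ tsupport (C.z i) → C.z i x = 0 := fun i x hx =>
    image_eq_zero_of_notMem_tsupport hx
  -- the five constants
  have k1 : ∀ i x, |C.z i.1 x * f i x| ≤ √M₂ := by
    intro i x
    by_cases hx : x ∈ tsupport (C.z i.1)
    · rw [abs_mul, abs_of_nonneg (hF.z_nonneg i.1 x)]
      have h1 := hfabs i x (hF.z_supp i.1 hx)
      have h2 := mul_le_mul (hz1 i.1 x) h1 (abs_nonneg _) zero_le_one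
      linarith
    · rw [hz0 i.1 x hx, zero_mul, abs_zero]
      exact Real.sqrt_nonneg _
  have k2 : ∀ i x, D.gr (fun x => C.z i.1 x * f i x) (fun x => C.z i.1 x * f i x) x ≤
      (2 * Kg + 2 * Kg * (M₁ * M₂) + 2 * M₂ * Kz) * (1 + B.nab s x) := by
    intro i x
    have hM12 : 0 ≤ M₁ * M₂ := mul_nonneg hM₁0 hM₂0
    by_cases hx : x ∈ tsupport (C.z i.1)
    · have hxU := hF.z_supp i.1 hx
      rw [gr_mul_loc hC hL hSh (hF.z_sm i.1) (hF.isOpen i.1) (hfsm i) hxU]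
      obtain ⟨h1, h2⟩ := hloc i x hxU
      have h3 := (prod_bounds (z := C.z i.1 x) (f := f i x) h2 (hgz0 i.1 x) h1).1
      have h4 : C.z i.1 x ^ 2 * D.gr (f i) (f i) x ≤ Kg * (B.nab s x + M₁ * M₂) := by
        have := mul_le_mul (hz2 i.1 x) (hfgr i x hx) h1 zero_le_one
        linarith
      have h5 : f i x ^ 2 * D.gr (C.z i.1) (C.z i.1) x ≤ M₂ * Kz :=
        mul_le_mul (hfsq i x hxU) (hgz i.1 x) (hgz0 i.1 x) hM₂0
      have h6 := hnab0 x
      have h7 : 0 ≤ Kg * (M₁ * M₂) * B.nab s x := by positivity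
      have h8 : 0 ≤ M₂ * Kz * B.nab s x := by positivity
      nlinarith
    · rw [(mul_loc_zero hC hL hSh hne (z := C.z i.1) (f := f i) hx).2]
      have h6 := hnab0 x
      positivity
  have k3 : ∀ i x, |D.lap (fun x => C.z i.1 x * f i x) x| ≤
      (Kl * (|l| * √M₂ + (1 + M₁) * √M₂ + √M₁) + √M₂ * Kz + 2 * √Kz * √Kg * (1 + √(M₁ * M₂))) *
        (1 + √(B.nab s x)) := by
    intro i x
    have ht := Real.sqrt_nonneg (B.nab s x)
    have hE := Real.sqrt_nonneg Kz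
    have hE' := Real.sqrt_nonneg Kg
    have hFF := Real.sqrt_nonneg (M₁ * M₂)
    have hm := Real.sqrt_nonneg M₂
    have hm1 := Real.sqrt_nonneg M₁
    have hl := abs_nonneg l
    by_cases hx : x ∈ tsupport (C.z i.1)
    · have hxU := hF.z_supp i.1 hx
      rw [lap_mul_loc hC hL hSh (hF.z_sm i.1) (hF.isOpen i.1) (hfsm i) hxU]
      obtain ⟨h1, h2⟩ := hloc i x hxU
      -- the Laplacian of the coefficient
      have h3 : |D.lap (f i) x| ≤
          Kl * (|l| * √M₂ + (1 + M₁) * √M₂ + √M₁ * √(B.nab s x)) := by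
        have h4 := hKl i.1 s x hxU
        have h5 : |D.lap (f i) x| ≤ |D.lap (fun x => (co i.1 s x).re) x| +
            |D.lap (fun x => (co i.1 s x).im) x| := by
          obtain ⟨c, b⟩ := i
          cases b
          · show |D.lap (fun x => (co c s x).im) x| ≤ _
            linarith [abs_nonneg (D.lap (fun x => (co c s x).re) x)]
          · show |D.lap (fun x => (co c s x).re) x| ≤ _
            linarith [abs_nonneg (D.lap (fun x => (co c s x).im) x)]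
        refine (h5.trans h4).trans (mul_le_mul_of_nonneg_left ?_ hKl0)
        have e1 : √(B.A0.n (B.ds (B.d0 s)) x) ≤ |l| * √M₂ := by
          rw [hs, n_smul hB.f0, Complex.norm_real, Real.norm_eq_abs,
            Real.sqrt_mul (sq_nonneg _), Real.sqrt_sq hl]
          exact mul_le_mul_of_nonneg_left (Real.sqrt_le_sqrt (hn2 x)) hl
        have e2 : (1 + C.u i.1 x) * √(B.A0.n s x) ≤ (1 + M₁) * √M₂ :=
          mul_le_mul (by linarith [hu1 i.1 x hx]) (Real.sqrt_le_sqrt (hn2 x))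
            (Real.sqrt_nonneg _) (by linarith)
        have e3 : √(C.u i.1 x * B.nab s x) ≤ √M₁ * √(B.nab s x) := by
          rw [Real.sqrt_mul (hF.u_nonneg i.1 x)]
          exact mul_le_mul_of_nonneg_right (Real.sqrt_le_sqrt (hu1 i.1 x hx)) ht
        linarith
      have h6 : |D.gr (C.z i.1) (f i) x| ≤ √Kz * √Kg * (√(B.nab s x) + √(M₁ * M₂)) := by
        have h7 : D.gr (C.z i.1) (f i) x ^ 2 ≤ Kz * (Kg * (B.nab s x + M₁ * M₂)) :=
          h2.trans (mul_le_mul (hgz i.1 x) (hfgr i x hx) h1 hKz0)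
        have h8 := Real.abs_le_sqrt h7
        rw [Real.sqrt_mul hKz0, Real.sqrt_mul hKg0] at h8
        have h9 : √(B.nab s x + M₁ * M₂) ≤ √(B.nab s x) + √(M₁ * M₂) :=
          sqrt_add_le (hnab0 x) (mul_nonneg hM₁0 hM₂0)
        calc _ ≤ _ := h8
          _ = √Kz * √Kg * √(B.nab s x + M₁ * M₂) := by ring
          _ ≤ _ := mul_le_mul_of_nonneg_left h9 (mul_nonneg hE hE')
      have h10 : |C.z i.1 x * D.lap (f i) x| ≤
          Kl * (|l| * √M₂ + (1 + M₁) * √M₂ + √M₁ * √(B.nab s x)) := by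
        rw [abs_mul, abs_of_nonneg (hF.z_nonneg i.1 x)]
        have := mul_le_mul (hz1 i.1 x) h3 (abs_nonneg _) zero_le_one
        linarith
      have h11 : |f i x * D.lap (C.z i.1) x| ≤ √M₂ * Kz := by
        rw [abs_mul]
        exact mul_le_mul (hfabs i x hxU) (hKz i.1 x).1 (abs_nonneg _) hm
      have h12 : |C.z i.1 x * D.lap (f i) x + f i x * D.lap (C.z i.1) x +
          2 * D.gr (C.z i.1) (f i) x| ≤ |C.z i.1 x * D.lap (f i) x| +
            |f i x * D.lap (C.z i.1) x| + 2 * |D.gr (C.z i.1) (f i) x| := by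
        have a1 := abs_add_le (C.z i.1 x * D.lap (f i) x + f i x * D.lap (C.z i.1) x)
          (2 * D.gr (C.z i.1) (f i) x)
        have a2 := abs_add_le (C.z i.1 x * D.lap (f i) x) (f i x * D.lap (C.z i.1) x)
        rw [abs_mul 2, abs_two] at a1
        linarith
      refine h12.trans ?_
      generalize √(B.nab s x) = t at *
      generalize √Kz = e at *
      generalize √Kg = e' at *
      generalize √(M₁ * M₂) = F at *
      generalize √M₂ = m2 at *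
      generalize √M₁ = m1 at *
      have p1 : 0 ≤ Kl * (|l| * m2 + (1 + M₁) * m2) * t := by positivity
      have p2 : 0 ≤ Kl * m1 := by positivity
      have p3 : 0 ≤ m2 * Kz * t := by positivity
      have p4 : 0 ≤ e * e' * (1 + F * t) := by positivity
      nlinarith
    · rw [(mul_loc_zero hC hL hSh hne (z := C.z i.1) (f := f i) hx).1, abs_zero]
      positivity
  have k4 : ∀ x, B.nab s x ≤ (2 * Kn * (C.N : ℝ) ^ 2 + Kn * (4 * (C.N : ℝ) ^ 2 * (M₂ * Kz) +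
      M₁ * M₂)) *
      (1 + ∑ i : Fin C.N × Bool,
        D.gr (fun x => C.z i.1 x * f i x) (fun x => C.z i.1 x * f i x) x) := by
    intro x
    have hgw0 : ∀ i : Fin C.N × Bool,
        0 ≤ D.gr (fun x => C.z i.1 x * f i x) (fun x => C.z i.1 x * f i x) x := fun i =>
      hC.gr_nonneg _ (hwsm i) x
    have hN : 0 < C.N := by
      rcases Nat.eq_zero_or_pos C.N with h | h
      · exfalso
        have h1 := hF.z_sum x
        have : IsEmpty (Fin C.N) := by rw [h]; infer_instance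
        rw [Finset.univ_eq_empty, Finset.sum_empty] at h1
        exact zero_ne_one h1
      · exact h
    have hN' : (0 : ℝ) < C.N := by exact_mod_cast hN
    obtain ⟨c, -, hc⟩ : ∃ c ∈ (Finset.univ : Finset (Fin C.N)), 1 / (C.N : ℝ) ≤ C.z c x := by
      apply Finset.exists_le_of_sum_le
      · exact ⟨⟨0, hN⟩, Finset.mem_univ _⟩
      · rw [hF.z_sum x, Finset.sum_const, Finset.card_univ, Fintype.card_fin, nsmul_eq_mul]
        rw [mul_one_div_cancel hN'.ne']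
    have hzc : 0 < C.z c x := lt_of_lt_of_le (by positivity) hc
    have hx : x ∈ tsupport (C.z c) := subset_tsupport _ (by
      rw [Function.mem_support]; exact hzc.ne')
    have hxU := hF.z_supp c hx
    have hz2' : 1 ≤ (C.N : ℝ) ^ 2 * C.z c x ^ 2 := by
      have : 1 ≤ (C.N : ℝ) * C.z c x := by
        have := mul_le_mul_of_nonneg_left hc hN'.le
        rwa [mul_one_div_cancel hN'.ne'] at this
      nlinarith
    have key : ∀ b : Bool, D.gr (f (c, b)) (f (c, b)) x ≤ (C.N : ℝ) ^ 2 *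
        (2 * D.gr (fun x => C.z c x * f (c, b) x) (fun x => C.z c x * f (c, b) x) x +
          2 * (M₂ * Kz)) := by
      intro b
      obtain ⟨h1, h2⟩ := hloc (c, b) x hxU
      have h3 := (prod_bounds (z := C.z c x) (f := f (c, b) x) h2 (hgz0 c x) h1).2
      have h4 := gr_mul_loc hC hL hSh (hF.z_sm c) (hF.isOpen c) (hfsm (c, b)) hxU
      have h5 : f (c, b) x ^ 2 * D.gr (C.z c) (C.z c) x ≤ M₂ * Kz :=
        mul_le_mul (hfsq (c, b) x hxU) (hgz c x) (hgz0 c x) hM₂0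
      have h6 : C.z c x ^ 2 * D.gr (f (c, b)) (f (c, b)) x ≤
          2 * D.gr (fun x => C.z c x * f (c, b) x) (fun x => C.z c x * f (c, b) x) x +
            2 * (M₂ * Kz) := by
        rw [h4]; linarith
      have h7 := mul_le_mul_of_nonneg_left h6 (sq_nonneg (C.N : ℝ))
      have h8 := mul_le_mul_of_nonneg_right hz2' h1
      linarith
    have h1 := hKn c s x hxU
    have h2 := key true
    have h3 := key false
    change D.gr (fun x => (co c s x).re) (fun x => (co c s x).re) x ≤ _ at h2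
    change D.gr (fun x => (co c s x).im) (fun x => (co c s x).im) x ≤ _ at h3
    have h4 : D.gr (fun x => C.z c x * f (c, true) x) (fun x => C.z c x * f (c, true) x) x +
        D.gr (fun x => C.z c x * f (c, false) x) (fun x => C.z c x * f (c, false) x) x ≤
        ∑ i : Fin C.N × Bool,
          D.gr (fun x => C.z i.1 x * f i x) (fun x => C.z i.1 x * f i x) x := by
      have hsub := Finset.sum_le_sum_of_subset_of_nonneg
        (f := fun i : Fin C.N × Bool =>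
          D.gr (fun x => C.z i.1 x * f i x) (fun x => C.z i.1 x * f i x) x)
        (s := {(c, true), (c, false)}) (t := Finset.univ) (Finset.subset_univ _)
        (fun i _ _ => hgw0 i)
      rwa [Finset.sum_pair (by simp)] at hsub
    have h5 := hun c x hx
    set a := D.gr (fun x => C.z c x * f (c, true) x) (fun x => C.z c x * f (c, true) x) x
    set a' := D.gr (fun x => C.z c x * f (c, false) x) (fun x => C.z c x * f (c, false) x) x
    set Sg := ∑ i : Fin C.N × Bool,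
      D.gr (fun x => C.z i.1 x * f i x) (fun x => C.z i.1 x * f i x) x with hSg
    have hSg0 : 0 ≤ Sg := Finset.sum_nonneg fun i _ => hgw0 i
    have h6 : B.nab s x ≤ Kn * ((C.N : ℝ) ^ 2 * (2 * a + 2 * (M₂ * Kz)) +
        (C.N : ℝ) ^ 2 * (2 * a' + 2 * (M₂ * Kz)) + M₁ * M₂) :=
      h1.trans (mul_le_mul_of_nonneg_left (by linarith) hKn0)
    have h7 : Kn * ((C.N : ℝ) ^ 2 * (2 * a + 2 * (M₂ * Kz)) +
        (C.N : ℝ) ^ 2 * (2 * a' + 2 * (M₂ * Kz)) + M₁ * M₂) =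
        2 * Kn * (C.N : ℝ) ^ 2 * (a + a') + Kn * (4 * (C.N : ℝ) ^ 2 * (M₂ * Kz) + M₁ * M₂) := by
      ring
    have h8 : 2 * Kn * (C.N : ℝ) ^ 2 * (a + a') ≤ 2 * Kn * (C.N : ℝ) ^ 2 * Sg :=
      mul_le_mul_of_nonneg_left h4 (by positivity)
    have h9 : 0 ≤ Kn * (4 * (C.N : ℝ) ^ 2 * (M₂ * Kz) + M₁ * M₂) * Sg := by positivity
    have h10 : 0 ≤ 2 * Kn * (C.N : ℝ) ^ 2 := by positivity
    nlinarith
  -- assembly
  obtain ⟨K1, hK1, hK10⟩ : ∃ K : ℝ, √M₂ = K ∧ 0 ≤ K := ⟨_, rfl, Real.sqrt_nonneg _⟩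
  obtain ⟨K2, hK2, hK20⟩ : ∃ K : ℝ, 2 * Kg + 2 * Kg * (M₁ * M₂) + 2 * M₂ * Kz = K ∧ 0 ≤ K :=
    ⟨_, rfl, by positivity⟩
  obtain ⟨K3, hK3, hK30⟩ : ∃ K : ℝ, Kl * (|l| * √M₂ + (1 + M₁) * √M₂ + √M₁) + √M₂ * Kz +
      2 * √Kz * √Kg * (1 + √(M₁ * M₂)) = K ∧ 0 ≤ K := ⟨_, rfl, by positivity⟩
  obtain ⟨K4, hK4, hK40⟩ : ∃ K : ℝ, 2 * Kn * (C.N : ℝ) ^ 2 +
      Kn * (4 * (C.N : ℝ) ^ 2 * (M₂ * Kz) + M₁ * M₂) = K ∧ 0 ≤ K := ⟨_, rfl, by positivity⟩
  rw [hK2] at k2
  rw [hK3] at k3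
  rw [hK4] at k4
  rw [hK1] at k1
  refine ⟨fun i x => C.z i.1 x * f i x, K1 + K2 + K3 + K4, hwsm, fun i x => ?_, fun i x => ?_,
    fun i x => ?_, fun x => ?_⟩
  · linarith [k1 i x]
  · have h1 := k2 i x
    have h2 : 0 ≤ (K1 + K3 + K4) * (1 + B.nab s x) :=
      mul_nonneg (by linarith) (by linarith [hnab0 x])
    linarith
  · have h1 := k3 i x
    have h2 : 0 ≤ (K1 + K2 + K4) * (1 + √(B.nab s x)) :=
      mul_nonneg (by linarith) (by linarith [Real.sqrt_nonneg (B.nab s x)])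
    linarith
  · have h1 := k4 x
    have h2 : 0 ≤ (K1 + K2 + K3) * (1 + ∑ i : Fin C.N × Bool,
        D.gr (fun x => C.z i.1 x * f i x) (fun x => C.z i.1 x * f i x) x) :=
      mul_nonneg (by linarith) (by
        linarith [Finset.sum_nonneg (s := Finset.univ) (f := fun i : Fin C.N × Bool =>
          D.gr (fun x => C.z i.1 x * f i x) (fun x => C.z i.1 x * f i x) x)
            fun i _ => hC.gr_nonneg _ (hwsm i) x])
    linarith

end Pool.Agent.SYM.V3
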