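import Mathlib

/-!
# SYM/V3/QSolve : the `L²` estimate, functional analysis

As `SYM/V3/L2.lean` (`L2.solve`), but in inner product spaces which need not be complete.
`a i = ⟪w i, g⟫ / l i` (`0` if `l i = 0`). `‖e i‖² = l i`, so `l i ≥ 0`, and `l i = 0` or `k ≤ l i`
(`hbe`); `∑_{i<n} |a i|² l i ≤ ‖f‖²` (Bessel for the orthogonal system `e i`), `hb` with
`a i l i = ⟪w i, g⟫` and Parseval.
-/

set_option autoImplicit false

open Filter
open scoped Topology InnerProductSpace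

namespace Pool.Agent.SYM.V3

private theorem inner_self_real' {E : Type*} [NormedAddCommGroup E] [InnerProductSpace ℂ E]
    (x : E) : ⟪x, x⟫_ℂ = ((‖x‖ ^ 2 : ℝ) : ℂ) := by
  rw [inner_self_eq_norm_sq_to_K]
  push_cast
  rfl

private theorem norm_sum_sq {E : Type*} [NormedAddCommGroup E] [InnerProductSpace ℂ E]
    {w : ℕ → E} (hw : Orthonormal ℂ w) (a : ℕ → ℂ) (s : Finset ℕ) :
    ‖∑ i ∈ s, a i • w i‖ ^ 2 = ∑ i ∈ s, ‖a i‖ ^ 2 := by
  have h2 := hw.inner_sum a a s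
  rw [inner_self_real'] at h2
  apply Complex.ofReal_injective
  rw [h2]
  push_cast
  exact Finset.sum_congr rfl fun i _ => Complex.conj_mul' _

theorem solve {E0 E1 : Type*} [NormedAddCommGroup E0] [InnerProductSpace ℂ E0]
    [NormedAddCommGroup E1] [InnerProductSpace ℂ E1] {w : ℕ → E0} {e : ℕ → E1} {l : ℕ → ℝ}
    {f : E1} {g : E0} {k : ℝ} (hk : 0 < k) (hw : Orthonormal ℂ w)
    (he : ∀ i j, ⟪e i, e j⟫_ℂ = if i = j then (l j : ℂ) else 0)
    (hf : ∀ i, ⟪e i, f⟫_ℂ = ⟪w i, g⟫_ℂ)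
    (hp : HasSum (fun i => ‖⟪w i, g⟫_ℂ‖ ^ 2) (‖g‖ ^ 2))
    (hb : ∀ (n : ℕ) (a : ℕ → ℂ), k * ‖f - ∑ i ∈ Finset.range n, a i • e i‖ ^ 2 ≤
      ‖g - ∑ i ∈ Finset.range n, (a i * (l i : ℂ)) • w i‖ ^ 2)
    (hbe : ∀ i, k * ‖e i‖ ^ 2 ≤ ‖(l i : ℂ) • w i‖ ^ 2) :
    ∃ a : ℕ → ℂ, (∀ n, k * ‖∑ i ∈ Finset.range n, a i • w i‖ ^ 2 ≤ ‖f‖ ^ 2) ∧
      CauchySeq (fun n => ∑ i ∈ Finset.range n, a i • w i) ∧
      Tendsto (fun n => ∑ i ∈ Finset.range n, a i • e i) atTop (𝓝 f) := by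
  have hne : ∀ i, ‖e i‖ ^ 2 = l i := by
    intro i
    have h1 := he i i
    rw [inner_self_real', if_pos rfl] at h1
    exact Complex.ofReal_injective h1
  have hl0 : ∀ i, 0 ≤ l i := fun i => by rw [← hne i]; positivity
  have hlk : ∀ i, l i ≠ 0 → k ≤ l i := by
    intro i hi
    have h1 := hbe i
    rw [hne i, norm_smul, hw.1 i, Complex.norm_real, Real.norm_eq_abs, mul_one, sq_abs] at h1
    have h0 : 0 < l i := lt_of_le_of_ne (hl0 i) (Ne.symm hi)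
    by_contra hk'
    have : l i < k := not_le.1 hk'
    nlinarith
  let c : ℕ → ℂ := fun i => ⟪w i, g⟫_ℂ
  have hc0 : ∀ i, l i = 0 → c i = 0 := by
    intro i hi
    have h1 := hne i
    rw [hi] at h1
    have h2 : e i = 0 := by
      rw [← norm_eq_zero]
      exact pow_eq_zero_iff (two_ne_zero) |>.1 h1
    simp only [c]
    rw [← hf i, h2, inner_zero_left]
  let a : ℕ → ℂ := fun i => c i / (l i : ℂ)
  have hal : ∀ i, a i * (l i : ℂ) = c i := by
    intro i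
    by_cases hi : l i = 0
    · simp only [a]
      rw [hi, hc0 i hi]; simp
    · have : (l i : ℂ) ≠ 0 := by exact_mod_cast hi
      simp only [a]
      field_simp
  have ha2 : ∀ i, k * ‖a i‖ ^ 2 ≤ ‖a i‖ ^ 2 * l i := by
    intro i
    by_cases hi : l i = 0
    · have : a i = 0 := by simp only [a]; rw [hi]; simp
      rw [this]; simp
    · have h1 := hlk i hi
      have h2 : 0 ≤ ‖a i‖ ^ 2 := by positivity
      nlinarith
  -- Bessel
  have hbess : ∀ s : Finset ℕ, ∑ i ∈ s, ‖a i‖ ^ 2 * l i ≤ ‖f‖ ^ 2 := by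
    intro s
    set G := ∑ i ∈ s, a i • e i with hG
    have h1 : 0 ≤ ‖f - G‖ ^ 2 := by positivity
    have h2 : ‖f - G‖ ^ 2 = ‖f‖ ^ 2 - 2 * (⟪f, G⟫_ℂ).re + ‖G‖ ^ 2 := by
      rw [norm_sub_sq (𝕜 := ℂ)]; rfl
    have h3 : ⟪G, f⟫_ℂ = ((∑ i ∈ s, ‖a i‖ ^ 2 * l i : ℝ) : ℂ) := by
      rw [hG, sum_inner]
      push_cast
      refine Finset.sum_congr rfl fun i _ => ?_
      rw [inner_smul_left, hf i]
      have : ⟪w i, g⟫_ℂ = a i * (l i : ℂ) := (hal i).symm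
      rw [this, ← mul_assoc, Complex.conj_mul']
    have h4 : ⟪G, G⟫_ℂ = ((∑ i ∈ s, ‖a i‖ ^ 2 * l i : ℝ) : ℂ) := by
      rw [hG, sum_inner]
      push_cast
      refine Finset.sum_congr rfl fun i hi => ?_
      rw [inner_smul_left, inner_sum, Finset.sum_eq_single i]
      · rw [inner_smul_right, he, if_pos rfl, ← mul_assoc, Complex.conj_mul']
      · intro j _ hj
        rw [inner_smul_right, he, if_neg (Ne.symm hj), mul_zero]
      · intro h; exact (h hi).elim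
    have h5 : (⟪f, G⟫_ℂ).re = ∑ i ∈ s, ‖a i‖ ^ 2 * l i := by
      rw [← inner_conj_symm, h3, Complex.conj_ofReal, Complex.ofReal_re]
    have h6 : ‖G‖ ^ 2 = ∑ i ∈ s, ‖a i‖ ^ 2 * l i := by
      rw [inner_self_real'] at h4
      exact Complex.ofReal_injective h4
    rw [h2, h5, h6] at h1
    linarith
  have hsum : ∀ s : Finset ℕ, ∑ i ∈ s, ‖a i‖ ^ 2 ≤ ‖f‖ ^ 2 / k := by
    intro s
    rw [le_div_iff₀ hk, Finset.sum_mul]
    refine le_trans (Finset.sum_le_sum fun i _ => ?_) (hbess s)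
    have := ha2 i
    linarith
  have hsm : Summable (fun i => ‖a i‖ ^ 2) :=
    summable_of_sum_le (fun i => by positivity) hsum
  refine ⟨a, fun n => ?_, ?_, ?_⟩
  · rw [norm_sum_sq hw, Finset.mul_sum]
    exact le_trans (Finset.sum_le_sum fun i _ => ha2 i) (hbess _)
  · -- Cauchy
    set T := ∑' i, ‖a i‖ ^ 2 with hT
    have hle : ∀ n, ∑ i ∈ Finset.range n, ‖a i‖ ^ 2 ≤ T := fun n =>
      hsm.sum_le_tsum _ (fun i _ => by positivity)
    have hmain : ∀ N n m : ℕ, N ≤ n → n ≤ m →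
        dist (∑ i ∈ Finset.range n, a i • w i) (∑ i ∈ Finset.range m, a i • w i) ≤
          Real.sqrt (T - ∑ i ∈ Finset.range N, ‖a i‖ ^ 2) := by
      intro N n m hNn hnm
      rw [dist_comm, dist_eq_norm, ← Finset.sum_Ico_eq_sub _ hnm]
      refine Real.le_sqrt_of_sq_le ?_
      rw [norm_sum_sq hw, Finset.sum_Ico_eq_sub _ hnm]
      have h1 := hle m
      have h2 : ∑ i ∈ Finset.range N, ‖a i‖ ^ 2 ≤ ∑ i ∈ Finset.range n, ‖a i‖ ^ 2 :=
        Finset.sum_le_sum_of_subset_of_nonneg (Finset.range_mono hNn)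
          (fun i _ _ => by positivity)
      linarith
    refine cauchySeq_of_le_tendsto_0
      (fun N => Real.sqrt (T - ∑ i ∈ Finset.range N, ‖a i‖ ^ 2)) (fun n m N hn hm => ?_) ?_
    · rcases le_total n m with h | h
      · exact hmain N n m hn h
      · rw [dist_comm]; exact hmain N m n hm h
    · have h1 : Tendsto (fun N => T - ∑ i ∈ Finset.range N, ‖a i‖ ^ 2) atTop (𝓝 (T - T)) :=
        tendsto_const_nhds.sub hsm.hasSum.tendsto_sum_nat
      rw [sub_self] at h1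
      have h2 := h1.sqrt
      rwa [Real.sqrt_zero] at h2
  · have h1 : ∀ n, ‖g - ∑ i ∈ Finset.range n, (a i * (l i : ℂ)) • w i‖ ^ 2 =
        ‖g‖ ^ 2 - ∑ i ∈ Finset.range n, ‖c i‖ ^ 2 := by
      intro n
      have e1 : ∑ i ∈ Finset.range n, (a i * (l i : ℂ)) • w i =
          ∑ i ∈ Finset.range n, c i • w i := Finset.sum_congr rfl fun i _ => by rw [hal i]
      rw [e1]
      set G := ∑ i ∈ Finset.range n, c i • w i with hG
      have h2 : ‖g - G‖ ^ 2 = ‖g‖ ^ 2 - 2 * (⟪g, G⟫_ℂ).re + ‖G‖ ^ 2 := by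
        rw [norm_sub_sq (𝕜 := ℂ)]; rfl
      have h3 : ⟪G, g⟫_ℂ = ((∑ i ∈ Finset.range n, ‖c i‖ ^ 2 : ℝ) : ℂ) := by
        rw [hG, sum_inner]
        push_cast
        refine Finset.sum_congr rfl fun i _ => ?_
        rw [inner_smul_left]
        exact Complex.conj_mul' _
      have h5 : (⟪g, G⟫_ℂ).re = ∑ i ∈ Finset.range n, ‖c i‖ ^ 2 := by
        rw [← inner_conj_symm, h3, Complex.conj_ofReal, Complex.ofReal_re]
      have h6 : ‖G‖ ^ 2 = ∑ i ∈ Finset.range n, ‖c i‖ ^ 2 := norm_sum_sq hw c _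
      rw [h2, h5, h6]
      ring
    have h2 : Tendsto (fun n => ‖g‖ ^ 2 - ∑ i ∈ Finset.range n, ‖c i‖ ^ 2) atTop
        (𝓝 (‖g‖ ^ 2 - ‖g‖ ^ 2)) := tendsto_const_nhds.sub hp.tendsto_sum_nat
    rw [sub_self] at h2
    have h3 : ∀ n, ‖f - ∑ i ∈ Finset.range n, a i • e i‖ ^ 2 ≤
        (‖g‖ ^ 2 - ∑ i ∈ Finset.range n, ‖c i‖ ^ 2) / k := by
      intro n
      rw [le_div_iff₀ hk, ← h1 n]
      have := hb n a
      linarith
    have h4 : Tendsto (fun n => (‖g‖ ^ 2 - ∑ i ∈ Finset.range n, ‖c i‖ ^ 2) / k) atTop (𝓝 0) := by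
      have := h2.div_const k
      rwa [zero_div] at this
    have h5 : Tendsto (fun n => ‖f - ∑ i ∈ Finset.range n, a i • e i‖ ^ 2) atTop (𝓝 0) :=
      squeeze_zero (fun n => by positivity) h3 h4
    have h6 := h5.sqrt
    rw [Real.sqrt_zero] at h6
    rw [tendsto_iff_norm_sub_tendsto_zero]
    refine h6.congr fun n => ?_
    rw [Real.sqrt_sq (norm_nonneg _), norm_sub_rev]

end Pool.Agent.SYM.V3
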