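import Pool.Agent.SYM.V3.QSec

/-!
# SYM/V3/QSup : eigensections are bounded

`v = √(1 + n s)`: `v² = 1 + n s` integrable, `gr v v = gr n n / (4 (1 + n)) ≤ nab s / 2`
(`Bun.Facts.kato`), `Δ v = Δ n / (2 v) - gr n n / (4 v³) ≥ (nab - C n) / (2 v) - nab n / (2 v³)
≥ - C v`; `Moser`. Derivatives of `√(1 + t)`: see `Reg.lipschitz` in `SYM/SingLip.lean`
(`hasDerivAt_S`, `deriv2_S`, `S_contDiffOn`).
-/

set_option autoImplicit false

open MeasureTheory Set Filter
open scoped Topology ContDiff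

namespace Pool.Agent.SYM.V3

variable {D : Reg} {B : Bun D} {k : ℝ} {m : ℕ}

theorem eigen_bounded (hC : D.Calculus) (hL : D.Leibniz) (hMo : D.Moser) (hB : B.Facts k m)
    {s : B.A0.S} {l : ℝ} (hs : B.ds (B.d0 s) = (l : ℂ) • s) (h1 : Integrable (B.A0.n s) D.vol)
    (h2 : Integrable (B.nab s) D.vol) : ∃ M, ∀ x, B.A0.n s x ≤ M := by
  have _ := hL
  have hfin := hC.fin
  have hn0 : ∀ x, 0 ≤ B.A0.n s x := hB.f0.nonneg s
  have hns : B.A0.n s ∈ D.sm := hB.n_sm s
  have hnab0 : ∀ x, 0 ≤ B.nab s x := fun x => (hB.f1.nonneg (B.d0 s) x).trans (hB.d0_le s x)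
  have hr : ∀ x, B.A0.n s x ∈ Ioi (-1 : ℝ) := fun x => by
    have := hn0 x
    rw [mem_Ioi]
    linarith
  set C : ℝ := |2 * l + k * m| with hCdef
  have hlap : ∀ x, D.lap (B.A0.n s) x = B.nab s x - (2 * l + k * m) * B.A0.n s x := fun x => by
    rw [hB.weitz s x, hs, hB.f0.smul_left, Complex.conj_ofReal, Complex.re_ofReal_mul]
    have : (B.A0.ip s s x).re = B.A0.n s x := rfl
    rw [this]
    ring
  set v : D.X → ℝ := fun x => Real.sqrt (1 + B.A0.n s x) with hv
  have hvs : v ∈ D.sm := hC.comp (Ioi (-1)) _ isOpen_Ioi Reg.S_contDiffOn _ hns hr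
  have hvsq : ∀ x, v x ^ 2 = 1 + B.A0.n s x := fun x => by
    have := hn0 x
    exact Real.sq_sqrt (by linarith)
  have hvpos : ∀ x, 0 < v x := fun x => by
    have := hn0 x
    exact Real.sqrt_pos.2 (by linarith)
  have hgv : ∀ x, D.gr v v x =
      (1 / (2 * v x)) ^ 2 * D.gr (B.A0.n s) (B.A0.n s) x := fun x => by
    have e1 := (hC.gr_comp (Ioi (-1)) _ isOpen_Ioi Reg.S_contDiffOn _ hns hr v hvs x).1
    have e2 := (hC.gr_comp (Ioi (-1)) _ isOpen_Ioi Reg.S_contDiffOn _ hns hr _ hns x).2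
    rw [(Reg.hasDerivAt_S (hr x)).deriv] at e1 e2
    have e1' : D.gr v v x = 1 / (2 * v x) * D.gr (B.A0.n s) v x := e1
    have e2' : D.gr (B.A0.n s) v x = 1 / (2 * v x) * D.gr (B.A0.n s) (B.A0.n s) x := e2
    rw [e1', e2']
    ring
  have hgvi : Integrable (D.gr v v) D.vol := by
    refine Integrable.mono' (h2.const_mul (1 / 2))
      (hC.sm_cont _ (hC.gr_sm v hvs v hvs)).aestronglyMeasurable
      (Eventually.of_forall fun x => ?_)
    rw [Real.norm_eq_abs, abs_of_nonneg (hC.gr_nonneg v hvs x), hgv]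
    have hu0 := hn0 x
    have h3 : (1 / (2 * v x)) ^ 2 = 1 / (4 * (1 + B.A0.n s x)) := by
      rw [div_pow, mul_pow, hvsq]; norm_num
    rw [h3]
    calc 1 / (4 * (1 + B.A0.n s x)) * D.gr (B.A0.n s) (B.A0.n s) x
        ≤ 1 / (4 * (1 + B.A0.n s x)) * (2 * B.nab s x * B.A0.n s x) :=
          mul_le_mul_of_nonneg_left (hB.kato s x) (by positivity)
      _ = 1 / 2 * B.nab s x * (B.A0.n s x / (1 + B.A0.n s x)) := by
          field_simp
          ring
      _ ≤ 1 / 2 * B.nab s x * 1 := by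
          have := hnab0 x
          refine mul_le_mul_of_nonneg_left ?_ (by positivity)
          rw [div_le_one (by linarith)]
          linarith
      _ = 1 / 2 * B.nab s x := mul_one _
  have hv2i : Integrable (fun x => v x ^ 2) D.vol := by
    simp_rw [hvsq]
    exact (integrable_const 1).add h1
  have hvlap : ∀ x, - (C * v x) ≤ D.lap v x := fun x => by
    have e := hC.lap_comp (Ioi (-1)) _ isOpen_Ioi Reg.S_contDiffOn _ hns hr x
    rw [(Reg.hasDerivAt_S (hr x)).deriv, Reg.deriv2_S (hr x), hlap] at e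
    have e' : D.lap v x = 1 / (2 * v x) * (B.nab s x - (2 * l + k * m) * B.A0.n s x) +
      - (1 / (4 * (1 + B.A0.n s x) * v x)) * D.gr (B.A0.n s) (B.A0.n s) x := e
    rw [e']
    have hu0 := hn0 x
    have hA0 := hnab0 x
    have hk' := hB.kato s x
    have hv0 := hvpos x
    have hq := hvsq x
    set u := B.A0.n s x
    set A := B.nab s x
    set G := D.gr (B.A0.n s) (B.A0.n s) x
    set w := v x
    have h1 : 1 / (4 * (1 + u) * w) * G ≤ 1 / (4 * (1 + u) * w) * (2 * A * u) :=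
      mul_le_mul_of_nonneg_left hk' (by positivity)
    have h2 : 1 / (4 * (1 + u) * w) * (2 * A * u) ≤ 1 / (2 * w) * A := by
      have : 1 / (4 * (1 + u) * w) * (2 * A * u) =
          1 / (2 * w) * A * (u / (1 + u)) := by
        field_simp
        ring
      rw [this]
      have h3 : u / (1 + u) ≤ 1 := by rw [div_le_one (by linarith)]; linarith
      calc 1 / (2 * w) * A * (u / (1 + u)) ≤ 1 / (2 * w) * A * 1 :=
            mul_le_mul_of_nonneg_left h3 (by positivity)
        _ = 1 / (2 * w) * A := mul_one _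
    have hC0 : 0 ≤ C := abs_nonneg _
    have h4 : 1 / (2 * w) * ((2 * l + k * m) * u) ≤ C * w := by
      have h5 : 1 / (2 * w) * ((2 * l + k * m) * u) = (2 * l + k * m) * u / (2 * w) := by
        field_simp
      rw [h5, div_le_iff₀ (by positivity)]
      have h6 : (2 * l + k * m) * u ≤ C * u :=
        mul_le_mul_of_nonneg_right (le_abs_self _) hu0
      have h7 : C * u ≤ C * w ^ 2 :=
        mul_le_mul_of_nonneg_left (by rw [hq]; linarith) hC0
      have h9 : 0 ≤ C * w ^ 2 := by positivity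
      nlinarith
    have h8 : 1 / (2 * w) * (A - (2 * l + k * m) * u) =
        1 / (2 * w) * A - 1 / (2 * w) * ((2 * l + k * m) * u) := by ring
    rw [h8]
    linarith
  obtain ⟨K, hK⟩ := hMo v hvs (fun x => (hvpos x).le) hv2i hgvi ⟨C, hvlap⟩
  refine ⟨K ^ 2, fun x => ?_⟩
  have h3 := hvsq x
  have h4 : v x ^ 2 ≤ K ^ 2 := pow_le_pow_left₀ (hvpos x).le (hK x) 2
  linarith

end Pool.Agent.SYM.V3
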