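import Pool.Agent.SYM.V3.QPrim
import Pool.Agent.SYM.V3.QSup
import Pool.Agent.SYM.V3.QBoot
import Pool.Agent.SYM.V3.QFrame
import Pool.Agent.SYM.V3.QCut
import Pool.Agent.SYM.V3.QSolve

/-!
# SYM/V3/QMain : the `L²` estimate for the prequantum bundles
-/

set_option autoImplicit false

open MeasureTheory Set Filter
open scoped Topology ContDiff ComplexConjugate

namespace Pool.Agent.SYM.V3

section

variable {D : Reg} {Q : Quant D} (hQ : Q.Facts)
include hQ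

theorem Quant.Facts.moser : D.Moser := Reg.moser hQ.calculus hQ.leib hQ.pole hQ.sobolev

theorem Quant.Facts.grad : D.GradEst (2 * Q.m) :=
  hQ.honda fun _ hf _ _ hM hl =>
    Reg.lipschitz_of_sobolev hQ.calculus hQ.leib hQ.pole hQ.approx hQ.sobolev hf hM hl

/-- eigensections are bounded with bounded gradient -/
theorem Quant.Facts.lip {j : ℕ} (hj : 1 ≤ j) {s : (Q.B j).A0.S} {l : ℝ}
    (hs : (Q.B j).ds ((Q.B j).d0 s) = (l : ℂ) • s) (h1 : Integrable ((Q.B j).A0.n s) D.vol)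
    (h2 : Integrable ((Q.B j).nab s) D.vol) :
    ∃ M, ∀ x, (Q.B j).A0.n s x ≤ M ∧ (Q.B j).nab s x ≤ M := by
  have hB := hQ.bun j hj
  obtain ⟨M0, hM0, hu⟩ := charts_bounded hQ.calculus hQ.leib hQ.pole hQ.moser hQ.phi_sq hQ.sheaf
    hQ.charts
  obtain ⟨M1, hM1⟩ := eigen_bounded hQ.calculus hQ.leib hQ.moser hB hs h1 h2
  obtain ⟨w, K, hw, k1, k2, k3, k4⟩ := frame_cut hQ.calculus hQ.leib hQ.sheaf hQ.charts hu hB
    (hQ.frame j hj) hs hM1
  have hG0 : ∀ x, 0 ≤ (Q.B j).nab s x := fun x =>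
    (hB.f1.nonneg _ x).trans (hB.d0_le s x)
  obtain ⟨M2, hM2⟩ := bootstrap hQ.calculus hQ.grad (by have := hQ.m_pos; omega) hw
    (hB.nab_cont s) hG0 h2 k1 k2 k3 k4
  exact ⟨max M1 M2, fun x => ⟨(hM1 x).trans (le_max_left _ _), (hM2 x).trans (le_max_right _ _)⟩⟩

theorem Quant.Facts.lipHol {j : ℕ} (hj : 1 ≤ j) : (Q.B j).LipHol := by
  intro s h1 h2 h3
  refine hQ.lip hj (l := 0) ?_ h1 h2
  rw [h3, (hQ.bun j hj).ls.zero, Complex.ofReal_zero, zero_smul]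

end

/-- bounded continuous functions are integrable -/
theorem bdd_int {D : Reg} (hC : D.Calculus) {A : Sec D.X} (hA : A.Facts D) {s : A.S}
    (hs : ∃ M, ∀ x, A.n s x ≤ M) : Integrable (A.n s) D.vol := by
  obtain ⟨M, hM⟩ := hs
  have := hC.fin
  refine Integrable.mono' (integrable_const M) (n_cont hA s).aestronglyMeasurable
    (Eventually.of_forall fun x => ?_)
  rw [Real.norm_eq_abs, abs_of_nonneg (hA.nonneg s x)]
  exact hM x

theorem bdd_add {D : Reg} {A : Sec D.X} (hA : A.Facts D) {s t : A.S}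
    (hs : ∃ M, ∀ x, A.n s x ≤ M) (ht : ∃ M, ∀ x, A.n t x ≤ M) : ∃ M, ∀ x, A.n (s + t) x ≤ M := by
  obtain ⟨M, hM⟩ := hs
  obtain ⟨M', hM'⟩ := ht
  refine ⟨(1 + 1) * M + (1 + 1⁻¹) * M', fun x => (n_add_le hA s t one_pos x).trans ?_⟩
  have := hM x
  have := hM' x
  norm_num
  linarith

theorem bdd_smul {D : Reg} {A : Sec D.X} (hA : A.Facts D) (c : ℂ) {s : A.S}
    (hs : ∃ M, ∀ x, A.n s x ≤ M) : ∃ M, ∀ x, A.n (c • s) x ≤ M := by
  obtain ⟨M, hM⟩ := hs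
  refine ⟨‖c‖ ^ 2 * M, fun x => ?_⟩
  rw [n_smul hA]
  exact mul_le_mul_of_nonneg_left (hM x) (by positivity)

theorem bdd_sum {D : Reg} {A : Sec D.X} (hA : A.Facts D) (a : ℕ → ℂ) {s : ℕ → A.S}
    (hs : ∀ i, ∃ M, ∀ x, A.n (s i) x ≤ M) (n : ℕ) :
    ∃ M, ∀ x, A.n (∑ i ∈ Finset.range n, a i • s i) x ≤ M := by
  induction n with
  | zero => exact ⟨0, fun x => by rw [Finset.range_zero, Finset.sum_empty, n_zero hA]⟩
  | succ n ih =>
    rw [Finset.sum_range_succ]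
    exact bdd_add hA ih (bdd_smul hA _ (hs n))

theorem nab_zero {D : Reg} {B : Bun D} {k : ℝ} {m : ℕ} (hB : B.Facts k m) (x : D.X) :
    B.nab 0 x = 0 := by
  have := hB.nab_smul 0 0 x
  rw [zero_smul, norm_zero] at this
  simpa using this

theorem nab_sum {D : Reg} {B : Bun D} {k : ℝ} {m : ℕ} (hB : B.Facts k m) (a : ℕ → ℂ)
    {s : ℕ → B.A0.S} (hs : ∀ i, ∃ M, ∀ x, B.nab (s i) x ≤ M) (n : ℕ) :
    ∃ M, ∀ x, B.nab (∑ i ∈ Finset.range n, a i • s i) x ≤ M := by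
  induction n with
  | zero => exact ⟨0, fun x => by rw [Finset.range_zero, Finset.sum_empty, nab_zero hB]⟩
  | succ n ih =>
    obtain ⟨M, hM⟩ := ih
    obtain ⟨M', hM'⟩ := hs n
    rw [Finset.sum_range_succ]
    refine ⟨2 * M + 2 * (‖a n‖ ^ 2 * M'), fun x => (hB.nab_add _ _ x).trans ?_⟩
    rw [hB.nab_smul]
    have h1 := hM x
    have h2 := mul_le_mul_of_nonneg_left (hM' x) (by positivity : 0 ≤ ‖a n‖ ^ 2)
    linarith

/-- the `L²` estimate from a basis of Lipschitz eigensections -/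
theorem l2Est {D : Reg} {φ : D.X → ℝ} (hC : D.Calculus) (hP : D.Pole φ) {B : Bun D} {k : ℝ}
    {m : ℕ} (hk : 0 < k) (hB : B.Facts k m) {v : ℕ → B.A0.S} {l : ℕ → ℝ} (hS : B.Spectrum v l)
    (hlip : ∀ i, ∃ M, ∀ x, B.A0.n (v i) x ≤ M ∧ B.nab (v i) x ≤ M) : B.L2Est k := by
  intro f hf hf2 hf1
  have v0 : ∀ i, ∃ M, ∀ x, B.A0.n (v i) x ≤ M := fun i => by
    obtain ⟨M, hM⟩ := hlip i; exact ⟨M, fun x => (hM x).1⟩
  have v1 : ∀ i, ∃ M, ∀ x, B.nab (v i) x ≤ M := fun i => by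
    obtain ⟨M, hM⟩ := hlip i; exact ⟨M, fun x => (hM x).2⟩
  have e0 : ∀ i, ∃ M, ∀ x, B.A1.n (B.d0 (v i)) x ≤ M := fun i => by
    obtain ⟨M, hM⟩ := v1 i; exact ⟨M, fun x => (hB.d0_le _ x).trans (hM x)⟩
  have eI : ∀ i, Integrable (B.A1.n (B.d0 (v i))) D.vol := fun i => bdd_int hC hB.f1 (e0 i)
  have dsI : ∀ i, Integrable (B.A0.n (B.ds (B.d0 (v i)))) D.vol := fun i => by
    rw [hS.eig i]; exact int_smul hB.f0 _ (hS.int i)
  have fI : Integrable (B.A1.n f) D.vol := bdd_int hC hB.f1 hf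
  letI c0 := core hB.f0 hC
  letI c1 := core hB.f1 hC
  letI n0 : NormedAddCommGroup (L2 hB.f0) := c0.toNormedAddCommGroup
  letI n1 : NormedAddCommGroup (L2 hB.f1) := c1.toNormedAddCommGroup
  letI i0 : InnerProductSpace ℂ (L2 hB.f0) := InnerProductSpace.ofCore c0.toCore
  letI i1 : InnerProductSpace ℂ (L2 hB.f1) := InnerProductSpace.ofCore c1.toCore
  have in0 : ∀ s t : L2 hB.f0, inner ℂ s t = ∫ x, B.A0.ip s t x ∂D.vol := fun s t => rfl
  have in1 : ∀ s t : L2 hB.f1, inner ℂ s t = ∫ x, B.A1.ip s t x ∂D.vol := fun s t => rfl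
  have nn0 : ∀ s : L2 hB.f0, ‖s‖ ^ 2 = ∫ x, B.A0.n s x ∂D.vol := fun s => by
    have h1 := inner_self_eq_norm_sq (𝕜 := ℂ) s
    rw [← h1, in0]
    have h2 : B.A0.ip (s : B.A0.S) (s : B.A0.S) = fun x => (B.A0.n (s : B.A0.S) x : ℂ) :=
      funext fun x => ip_self hB.f0 _ x
    rw [h2]
    exact (congrArg Complex.re (integral_ofReal (𝕜 := ℂ) (f := B.A0.n (s : B.A0.S)))).trans
      (Complex.ofReal_re _)
  have nn1 : ∀ s : L2 hB.f1, ‖s‖ ^ 2 = ∫ x, B.A1.n s x ∂D.vol := fun s => by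
    have h1 := inner_self_eq_norm_sq (𝕜 := ℂ) s
    rw [← h1, in1]
    have h2 : B.A1.ip (s : B.A1.S) (s : B.A1.S) = fun x => (B.A1.n (s : B.A1.S) x : ℂ) :=
      funext fun x => ip_self hB.f1 _ x
    rw [h2]
    exact (congrArg Complex.re (integral_ofReal (𝕜 := ℂ) (f := B.A1.n (s : B.A1.S)))).trans
      (Complex.ofReal_re _)
  set w : ℕ → L2 hB.f0 := fun i => ⟨v i, hS.int i⟩ with hw
  set e : ℕ → L2 hB.f1 := fun i => ⟨B.d0 (v i), eI i⟩ with he
  set F : L2 hB.f1 := ⟨f, fI⟩ with hF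
  set g : L2 hB.f0 := ⟨B.ds f, hf2⟩ with hg
  -- combinations
  have cf : ∀ (n : ℕ) (a : ℕ → ℂ), (∃ M, ∀ x, B.A1.n (f - ∑ i ∈ Finset.range n,
      a i • B.d0 (v i)) x ≤ M) ∧ B.d1 (f - ∑ i ∈ Finset.range n, a i • B.d0 (v i)) = 0 ∧
      B.ds (f - ∑ i ∈ Finset.range n, a i • B.d0 (v i)) =
        B.ds f - ∑ i ∈ Finset.range n, (a i * (l i : ℂ)) • v i := by
    intro n a
    refine ⟨?_, ?_, ?_⟩
    · have h1 : ∃ M, ∀ x, B.A1.n (-∑ i ∈ Finset.range n, a i • B.d0 (v i)) x ≤ M := by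
        obtain ⟨M, hM⟩ := bdd_sum hB.f1 a e0 n
        exact ⟨M, fun x => by rw [n_neg hB.f1]; exact hM x⟩
      have h2 := bdd_add hB.f1 hf h1
      simpa only [sub_eq_add_neg] using h2
    · rw [hB.l1.sub, hf1, hB.l1.sum, zero_sub, neg_eq_zero]
      refine Finset.sum_eq_zero fun i _ => ?_
      rw [hB.l1.smul, hB.d1_d0, smul_zero]
    · rw [hB.ls.sub, hB.ls.sum]
      congr 1
      refine Finset.sum_congr rfl fun i _ => ?_
      rw [hB.ls.smul, hS.eig i, smul_smul]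
  have co0 : ∀ (n : ℕ) (a : ℕ → ℂ), ((∑ i ∈ Finset.range n, a i • w i : L2 hB.f0) : B.A0.S) =
      ∑ i ∈ Finset.range n, a i • v i := by
    intro n a
    rw [Submodule.coe_sum]
    rfl
  have co1 : ∀ (n : ℕ) (a : ℕ → ℂ), ((∑ i ∈ Finset.range n, a i • e i : L2 hB.f1) : B.A1.S) =
      ∑ i ∈ Finset.range n, a i • B.d0 (v i) := by
    intro n a
    rw [Submodule.coe_sum]
    rfl
  have hadj : ∀ i (t : B.A1.S), (∃ M, ∀ x, B.A1.n t x ≤ M) → Integrable (B.A0.n (B.ds t)) D.vol →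
      ∫ x, B.A1.ip (B.d0 (v i)) t x ∂D.vol = ∫ x, B.A0.ip (v i) (B.ds t) x ∂D.vol :=
    fun i t ht ht2 => adj_bdd hC hP hB (v0 i) (eI i) ht ht2
  obtain ⟨a, a1, a2, a3⟩ := solve (w := w) (e := e) (l := l) (f := F) (g := g) hk (by
      rw [orthonormal_iff_ite]
      intro i j
      rw [in0]
      exact hS.ortho i j) (by
      intro i j
      rw [in1]
      show ∫ x, B.A1.ip (B.d0 (v i)) (B.d0 (v j)) x ∂D.vol = _
      rw [hadj i _ (e0 j) (dsI j), hS.eig j]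
      have h1 : B.A0.ip (v i) ((l j : ℂ) • v j) = fun x => (l j : ℂ) * B.A0.ip (v i) (v j) x :=
        funext fun x => ip_smul_right hB.f0 _ _ _ x
      rw [h1, integral_const_mul, hS.ortho i j]
      split_ifs <;> simp) (by
      intro i
      rw [in1, in0]
      exact hadj i f hf hf2) (by
      rw [nn0]
      exact hS.parseval (B.ds f) hf2) (by
      intro n a
      obtain ⟨b1, b2, b3⟩ := cf n a
      rw [nn1, nn0, Submodule.coe_sub, Submodule.coe_sub, co1, co0]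
      have b4 : Integrable (B.A0.n (B.ds (f - ∑ i ∈ Finset.range n, a i • B.d0 (v i)))) D.vol := by
        rw [b3]
        have := (g - ∑ i ∈ Finset.range n, (a i * (l i : ℂ)) • w i : L2 hB.f0).2
        have h5 : ((g - ∑ i ∈ Finset.range n, (a i * (l i : ℂ)) • w i : L2 hB.f0) : B.A0.S) =
            B.ds f - ∑ i ∈ Finset.range n, (a i * (l i : ℂ)) • v i := by
          rw [Submodule.coe_sub, co0]
        rw [← h5]
        exact this
      have := bk_bdd hC hP hB b1 b2 b4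
      rw [b3] at this
      exact this) (by
      intro i
      rw [nn1, nn0]
      have := bk_bdd hC hP hB (e0 i) (hB.d1_d0 _) (dsI i)
      rw [hS.eig i] at this
      exact this)
  refine ⟨fun n => ∑ i ∈ Finset.range n, a i • v i, fun n => ?_, fun n => ?_, fun ε hε => ?_, ?_⟩
  · obtain ⟨M, hM⟩ := bdd_sum hB.f0 a v0 n
    obtain ⟨M', hM'⟩ := nab_sum hB a v1 n
    exact ⟨max M M', fun x => ⟨(hM x).trans (le_max_left _ _), (hM' x).trans (le_max_right _ _)⟩⟩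
  · have := a1 n
    rw [nn0, nn1, co0] at this
    exact this
  · rw [Metric.cauchySeq_iff] at a2
    obtain ⟨n₀, hn⟩ := a2 (√ε) (Real.sqrt_pos.2 hε)
    refine ⟨n₀, fun n h1 n' h2 => ?_⟩
    have h3 := hn n h1 n' h2
    rw [dist_eq_norm] at h3
    have h4 : ‖(∑ i ∈ Finset.range n, a i • w i) - ∑ i ∈ Finset.range n', a i • w i‖ ^ 2 < ε := by
      have := pow_lt_pow_left₀ h3 (norm_nonneg _) (two_ne_zero)
      rwa [Real.sq_sqrt hε.le] at this
    rw [nn0, Submodule.coe_sub, co0, co0] at h4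
    exact h4
  · have h1 : Tendsto (fun n => ‖(∑ i ∈ Finset.range n, a i • e i) - F‖ ^ 2) atTop (𝓝 0) := by
      have := (tendsto_iff_norm_sub_tendsto_zero.1 a3).pow 2
      simpa using this
    refine h1.congr fun n => ?_
    rw [nn1, Submodule.coe_sub, co1]
    congr 1
    funext x
    congr 2
    rw [hB.l0.sum]
    refine Finset.sum_congr rfl fun i _ => ?_
    rw [hB.l0.smul]

theorem goal {D : Reg} {Q : Quant D} (hQ : Q.Facts) : Q.Goal := by
  intro j hj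
  have hS := hQ.spec j hj
  refine ⟨l2Est hQ.calculus hQ.pole (mul_pos (by exact_mod_cast hj) hQ.κ_pos) (hQ.bun j hj) hS
    fun i => hQ.lip hj (hS.eig i) (hS.int i) (hS.nab_int i), hQ.lipHol hj⟩

end Pool.Agent.SYM.V3
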