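import Pool.Agent.SYM.V3.Peak
import Pool.Agent.SYM.V3.QMain

/-!
# SYM/V3/PkCacc : the Caccioppoli inequality for bounded harmonic functions

`f = η₂ δ ∈ sm`, `f = δ` on `V`, `Δ f = 0` on `V`. With the cut-off functions `χ_j` of
`Reg.exists_cut` and `F = χ_j η` Stokes gives
`0 = ∫ F² f Δ f = - ∫ gr (F² f) f = - ∫ F² gr f f - 2 ∫ F f gr F f`, so
`∫ F² gr f f ≤ 4 ∫ f² gr F F ≤ 8 M² ∫ (gr η η + gr χ_j χ_j)`, then `j → ∞` (Fatou).
-/

set_option autoImplicit false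

open MeasureTheory Set Filter
open scoped Topology ContDiff ComplexConjugate

namespace Pool.Agent.SYM.V3

/-- the inequality for one cut-off function `F` with compact support -/
private theorem cacc_aux {D : Reg} (hC : D.Calculus) (hL : D.Leibniz) {f F : D.X → ℝ} {M : ℝ}
    (hf : f ∈ D.sm) (hF : F ∈ D.cs) (h0 : ∀ x, F x ≠ 0 → D.lap f x = 0)
    (hM : ∀ x, f x ^ 2 * D.gr F F x ≤ M ^ 2 * D.gr F F x) :
    ∫ x, F x ^ 2 * D.gr f f x ∂D.vol ≤ 4 * M ^ 2 * ∫ x, D.gr F F x ∂D.vol := by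
  have hFs := hC.cs_sm hF
  have cf := hC.sm_cont f hf
  have cF := hC.sm_cont F hFs
  have cgf := hC.sm_cont _ (hC.gr_sm f hf f hf)
  have hFf : (fun x => F x * f x) ∈ D.sm := hL.mul F hFs f hf
  have hG : (fun x => F x * (F x * f x)) ∈ D.cs := hL.cs_mul F hF _ hFf
  have hgFf : D.gr F f ∈ D.cs := hC.cs_gr F hF f hf
  have hgFF : D.gr F F ∈ D.cs := hC.cs_gr F hF F hFs
  have i1 : Integrable (fun x => F x ^ 2 * D.gr f f x) D.vol := by
    have := hC.cs_int F hF (fun x => F x * D.gr f f x) (cF.mul cgf)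
    refine this.congr (ae_of_all _ fun x => ?_)
    simp only
    ring
  have i2 : Integrable (fun x => D.gr F f x * (2 * (F x * f x))) D.vol :=
    hC.cs_int _ hgFf _ ((cF.mul cf).const_mul 2)
  have i3 : Integrable (D.gr F F) D.vol := hC.cs_integrable hgFF
  have st := hC.stokes _ hG f hf
  have e1 : ∫ x, F x * (F x * f x) * D.lap f x ∂D.vol = 0 := by
    have : ∀ x, F x * (F x * f x) * D.lap f x = 0 := by
      intro x
      by_cases hx : F x = 0
      · rw [hx]; ring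
      · rw [h0 x hx, mul_zero]
    simp [this]
  have e2 : ∀ x, D.gr (fun z => F z * (F z * f z)) f x =
      F x ^ 2 * D.gr f f x + D.gr F f x * (2 * (F x * f x)) := by
    intro x
    rw [hL.gr_mul F hFs _ hFf f hf x, hL.gr_mul F hFs f hf f hf x]
    ring
  rw [e1] at st
  simp only [e2] at st
  rw [integral_add i1 i2] at st
  have key : - ∫ x, D.gr F f x * (2 * (F x * f x)) ∂D.vol ≤
      ∫ x, (1 / 2 * (F x ^ 2 * D.gr f f x) + 2 * M ^ 2 * D.gr F F x) ∂D.vol := by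
    rw [← integral_neg]
    refine integral_mono i2.neg ((i1.const_mul _).add (i3.const_mul _)) fun x => ?_
    simp only
    have h1 := Reg.gr_sq_le hC hL hFs hf x
    have n1 := hC.gr_nonneg f hf x
    have n2 := hC.gr_nonneg F hFs x
    have h2 := Reg.two_abs_le (m := D.gr F f x * (F x * f x))
      (a := 1 / 2 * (F x ^ 2 * D.gr f f x)) (b := 2 * (f x ^ 2 * D.gr F F x))
      (by positivity) (by positivity) (by
        have : 0 ≤ (F x * f x) ^ 2 * (D.gr F F x * D.gr f f x - D.gr F f x ^ 2) :=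
          mul_nonneg (sq_nonneg _) (by linarith)
        nlinarith)
    have h3 := neg_abs_le (D.gr F f x * (F x * f x))
    have h4 := hM x
    nlinarith
  rw [integral_add (i1.const_mul _) (i3.const_mul _), integral_const_mul, integral_const_mul]
    at key
  linarith

theorem caccioppoli {D : Reg} {φ : D.X → ℝ} (hC : D.Calculus) (hL : D.Leibniz) (hP : D.Pole φ)
    (hS : D.Sheaf) {U V : Set D.X} (hU : IsOpen U) (hV : IsOpen V) {η η₂ δ : D.X → ℝ} {M K : ℝ}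
    (hη : η ∈ D.sm) (hη0 : ∀ x, 0 ≤ η x) (hη1 : ∀ x, η x ≤ 1) (hηV : tsupport η ⊆ V)
    (hηK : ∀ x, D.gr η η x ≤ K) (hη₂ : η₂ ∈ D.sm) (hη₂V : ∀ x ∈ V, η₂ x = 1)
    (hη₂U : tsupport η₂ ⊆ U) (hδ : D.SmoothOn U δ) (hlap : ∀ x ∈ U, D.lap δ x = 0)
    (hM : ∀ x ∈ U, |δ x| ≤ M) :
    Integrable (fun x => η x ^ 2 * D.gr δ δ x) D.vol ∧
      ∫ x, η x ^ 2 * D.gr δ δ x ∂D.vol ≤ 8 * M ^ 2 * ∫ x, D.gr η η x ∂D.vol := by
  have hVU : V ⊆ U := fun x hx => hη₂U (subset_tsupport _ (by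
    rw [Function.mem_support, hη₂V x hx]; exact one_ne_zero))
  set f : D.X → ℝ := fun x => η₂ x * δ x with hfdef
  have hf : f ∈ D.sm := mul_loc hC hL hS hη₂ hη₂U hU hδ
  have hfδ : ∀ x ∈ V, f =ᶠ[𝓝 x] δ := by
    intro x hx
    filter_upwards [hV.mem_nhds hx] with y hy
    rw [hfdef]
    simp only
    rw [hη₂V y hy, one_mul]
  have hlapf : ∀ x ∈ V, D.lap f x = 0 := fun x hx => by
    rw [hS.lap_loc _ _ x (hfδ x hx)]; exact hlap x (hVU hx)
  have hgr : ∀ x ∈ V, D.gr f f x = D.gr δ δ x := fun x hx => by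
    rw [(hS.gr_loc _ _ f x (hfδ x hx)).1, (hS.gr_loc _ _ δ x (hfδ x hx)).2]
  have hηx : ∀ x, x ∉ V → η x = 0 := fun x hx => by
    by_contra h
    exact hx (hηV (subset_tsupport _ h))
  have hfM : ∀ x ∈ V, f x ^ 2 ≤ M ^ 2 := by
    intro x hx
    have h1 := hM x (hVU hx)
    have h2 : f x = δ x := (hfδ x hx).eq_of_nhds
    rw [h2, ← sq_abs (δ x)]
    exact pow_le_pow_left₀ (abs_nonneg _) h1 2
  obtain ⟨χ, E, hE0, hχ, hχ0, hχ1, hχt, hχE⟩ := Reg.exists_cut hC hP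
  have hgη : ∀ x, 0 ≤ D.gr η η x := hC.gr_nonneg η hη
  have hgηc : Continuous (D.gr η η) := hC.sm_cont _ (hC.gr_sm η hη η hη)
  have hgηi : Integrable (D.gr η η) D.vol :=
    Reg.bdd_integrable hC hgηc (M := K) fun x => by rw [abs_of_nonneg (hgη x)]; exact hηK x
  have hF : ∀ j, (fun x => χ j x * η x) ∈ D.cs := fun j => hL.cs_mul _ (hχ j) η hη
  have hFs : ∀ j, (fun x => χ j x * η x) ∈ D.sm := fun j => hC.cs_sm (hF j)
  have hgF0 : ∀ j x, x ∉ V →
      D.gr (fun x => χ j x * η x) (fun x => χ j x * η x) x = 0 := by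
    intro j x hx
    have e : (fun x => χ j x * η x) = fun x => η x * χ j x := by
      funext y; ring
    rw [e]
    exact (mul_loc_zero hC hL hS ⟨η, hη⟩ (fun h => hx (hηV h))).2
  have hstep : ∀ j : ℕ, ∫ x, (χ j x * η x) ^ 2 * D.gr f f x ∂D.vol ≤
      8 * M ^ 2 * (∫ x, D.gr η η x ∂D.vol + E / ((j : ℝ) + 1) ^ 2) := by
    intro j
    have h1 := cacc_aux (M := M) hC hL hf (hF j) (fun x hx => hlapf x (by
      by_contra h
      exact hx (by rw [hηx x h, mul_zero]))) (fun x => by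
      by_cases hx : x ∈ V
      · exact mul_le_mul_of_nonneg_right (hfM x hx) (hC.gr_nonneg _ (hFs j) x)
      · rw [hgF0 j x hx, mul_zero, mul_zero])
    have hs := hC.cs_sm (hχ j)
    have i1 : Integrable (D.gr (χ j) (χ j)) D.vol := hC.cs_integrable (hC.cs_gr _ (hχ j) _ hs)
    have i2 : Integrable (D.gr (fun x => χ j x * η x) (fun x => χ j x * η x)) D.vol :=
      hC.cs_integrable (hC.cs_gr _ (hF j) _ (hFs j))
    have h2 : ∫ x, D.gr (fun x => χ j x * η x) (fun x => χ j x * η x) x ∂D.vol ≤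
        ∫ x, (2 * D.gr η η x + 2 * D.gr (χ j) (χ j) x) ∂D.vol := by
      refine integral_mono i2 ((hgηi.const_mul 2).add (i1.const_mul 2)) fun x => ?_
      have a := Reg.gr_mul_le hC hL hs hη x
      have n1 := hC.gr_nonneg _ hs x
      have n2 := hgη x
      have c1 : χ j x ^ 2 ≤ 1 := pow_le_one₀ (hχ0 j x) (hχ1 j x)
      have c2 : η x ^ 2 ≤ 1 := pow_le_one₀ (hη0 x) (hη1 x)
      have d1 := mul_le_mul_of_nonneg_right c1 n2
      have d2 := mul_le_mul_of_nonneg_right c2 n1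
      simp only
      linarith
    rw [integral_add (hgηi.const_mul 2) (i1.const_mul 2), integral_const_mul,
      integral_const_mul] at h2
    have h3 := hχE j
    have h4 : (0 : ℝ) ≤ M ^ 2 := sq_nonneg M
    calc ∫ x, (χ j x * η x) ^ 2 * D.gr f f x ∂D.vol
        ≤ 4 * M ^ 2 * ∫ x, D.gr (fun x => χ j x * η x) (fun x => χ j x * η x) x ∂D.vol := h1
      _ ≤ 4 * M ^ 2 * (2 * ∫ x, D.gr η η x ∂D.vol + 2 * ∫ x, D.gr (χ j) (χ j) x ∂D.vol) :=
          mul_le_mul_of_nonneg_left h2 (by positivity)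
      _ ≤ 4 * M ^ 2 * (2 * ∫ x, D.gr η η x ∂D.vol + 2 * (E / ((j : ℝ) + 1) ^ 2)) :=
          mul_le_mul_of_nonneg_left (by linarith) (by positivity)
      _ = 8 * M ^ 2 * (∫ x, D.gr η η x ∂D.vol + E / ((j : ℝ) + 1) ^ 2) := by ring
  have hpt : ∀ x, η x ^ 2 * D.gr f f x = η x ^ 2 * D.gr δ δ x := by
    intro x
    by_cases hx : x ∈ V
    · rw [hgr x hx]
    · rw [hηx x hx]; ring
  have hlim : Tendsto (fun j : ℕ => 8 * M ^ 2 * (∫ x, D.gr η η x ∂D.vol +
      E / ((j : ℝ) + 1) ^ 2)) atTop (𝓝 (8 * M ^ 2 * ∫ x, D.gr η η x ∂D.vol)) := by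
    have h1 : Tendsto (fun j : ℕ => 1 / ((j : ℝ) + 1)) atTop (𝓝 0) :=
      tendsto_one_div_add_atTop_nhds_zero_nat
    have h2 : Tendsto (fun j : ℕ => E * (1 / ((j : ℝ) + 1)) ^ 2) atTop (𝓝 (E * 0 ^ 2)) :=
      (h1.pow 2).const_mul E
    have h3 : Tendsto (fun j : ℕ => E / ((j : ℝ) + 1) ^ 2) atTop (𝓝 0) := by
      have e : (fun j : ℕ => E / ((j : ℝ) + 1) ^ 2) =
          fun j : ℕ => E * (1 / ((j : ℝ) + 1)) ^ 2 := by
        funext j
        rw [div_pow, one_pow]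
        ring
      rw [e]
      simpa using h2
    have h4 := (h3.const_add (∫ x, D.gr η η x ∂D.vol)).const_mul (8 * M ^ 2)
    simpa using h4
  have cf := hC.sm_cont _ (hC.gr_sm f hf f hf)
  have hres := Reg.fatou_int (μ := D.vol)
    (f := fun (j : ℕ) x => (χ j x * η x) ^ 2 * D.gr f f x)
    (g := fun x => η x ^ 2 * D.gr f f x) (fun j => by
      have h1 := hC.cs_int _ (hF j) (fun x => (χ j x * η x) * D.gr f f x)
        ((hC.sm_cont _ (hFs j)).mul cf)
      refine h1.congr (ae_of_all _ fun x => ?_)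
      simp only
      ring) (fun j x => mul_nonneg (sq_nonneg _) (hC.gr_nonneg f hf x)) (fun x => by
      have h1 := (((hχt x).mul_const (η x)).pow 2).mul_const (D.gr f f x)
      simpa using h1) hstep hlim
  simp only [hpt] at hres
  exact hres

end Pool.Agent.SYM.V3
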