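import Pool.Agent.SYM.V3.PkCacc

/-!
# SYM/V3/PkEst : the approximate section

`k = j κ`. `χ = cut p (R / √k)`, `η = cut p (2 R / √k)`, `η₂ = cut p (4 R / √k)`,
`U = {k d² < (8 R)²}`, `v` is the section of `tensor` for `χ`, `δ = φ' - φ` is harmonic on `U` with
`|k δ| ≤ 2 ζ`. On `U`: `exp (- k φ) ≤ exp ζ exp (- k d² / 2)`.
* `gr χ χ ≤ B k / R²`, and it vanishes where `k d² < R²` (`χ` is locally constant there), so
  `∫ 2 gr χ χ exp (- k φ) ≤ 2 (B k / R²) e exp (- R² / 2) B (2 R / √k)^(2m)`.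
* `χ ≤ η`, `∫ η² gr δ δ ≤ 8 (2 ζ / k)² ∫ gr η η ≤ 8 (2 ζ / k)² (B k / (4 R²)) B (4 R / √k)^(2m)`.
-/

set_option autoImplicit false

open MeasureTheory Set Filter
open scoped Topology ContDiff ComplexConjugate

namespace Pool.Agent.SYM.V3

/-- The properties of the approximate section `v` at `p`; `k = j κ`. -/
structure Approx {D : Reg} (Q : Quant D) (P : Pts D) (p : P.P) (j : ℕ) (R ζ E : ℝ)
    (v : (Q.B j).A0.S) : Prop where
  le : ∀ x, (Q.B j).A0.n v x ≤ 3
  zero : ∀ x, 4 * R ^ 2 ≤ j * Q.κ * P.d p x ^ 2 → (Q.B j).A0.n v x = 0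
  ge : ∀ x, j * Q.κ * P.d p x ^ 2 < R ^ 2 →
    Real.exp (-(j * Q.κ * P.d p x ^ 2 / 2 + ζ)) ≤ (Q.B j).A0.n v x
  int : Integrable ((Q.B j).A1.n ((Q.B j).d0 v)) D.vol
  energy : ∫ x, (Q.B j).A1.n ((Q.B j).d0 v) x ∂D.vol ≤ E * (j * Q.κ) * ((j * Q.κ) ^ Q.m)⁻¹

/-- the gradient of a locally constant function -/
private theorem gr_zero {D : Reg} (hC : D.Calculus) (hS : D.Sheaf) {χ : D.X → ℝ} (hχ : χ ∈ D.sm)
    {x : D.X} {c : ℝ} (h : χ =ᶠ[𝓝 x] fun _ => c) : D.gr χ χ x = 0 := by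
  rw [(hS.gr_loc χ (fun _ => c) χ x h).1]
  have h1 := (hC.gr_comp univ (fun _ => c) isOpen_univ contDiffOn_const χ hχ
    (fun _ => mem_univ _) χ hχ x).1
  rw [h1]
  simp

/-- `{k d² < a²}` is `{d < a / √k}`. -/
private theorem lt_iff {k d a : ℝ} (hk : 0 < k) (hd : 0 ≤ d) (ha : 0 ≤ a) :
    k * d ^ 2 < a ^ 2 ↔ d < a / √k := by
  have hs : 0 < √k := Real.sqrt_pos.2 hk
  have h1 : k * d ^ 2 = (d * √k) ^ 2 := by
    rw [mul_pow, Real.sq_sqrt hk.le]
    ring
  rw [h1, lt_div_iff₀ hs]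
  exact sq_lt_sq₀ (by positivity) ha

private theorem pow_eq {k a : ℝ} (hk : 0 < k) (m : ℕ) :
    (a / √k) ^ (2 * m) = a ^ (2 * m) * (k ^ m)⁻¹ := by
  rw [div_pow, pow_mul √k, Real.sq_sqrt hk.le]
  rfl

theorem exists_approx {D : Reg} {Q : Quant D} (hQ : Q.Facts) {P : Pts D} {T : Peak D}
    (hT : T.Facts Q P) {B : ℝ} (hR : P.Rcd Q.m B) :
    ∃ C : ℝ, 0 < C ∧ ∀ (p : P.P) (j : ℕ) (R ζ : ℝ), 1 ≤ j → 1 ≤ R → 0 < ζ → ζ ≤ 1 →
      (∃ φ φ', T.pot j φ φ' {x | j * Q.κ * P.d p x ^ 2 < (8 * R) ^ 2} ∧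
        ∀ x, j * Q.κ * P.d p x ^ 2 < (8 * R) ^ 2 →
          |j * Q.κ * φ x - j * Q.κ * P.d p x ^ 2 / 2| ≤ ζ ∧
          |j * Q.κ * φ' x - j * Q.κ * P.d p x ^ 2 / 2| ≤ ζ) →
      ∃ v, Approx Q P p j R ζ (C * R ^ (2 * Q.m) * (Real.exp (-(R ^ 2 / 2)) + ζ ^ 2)) v := by
  have hC := hQ.calculus
  have hS := hQ.sheaf
  have hB := hR.one_le
  have hκ := hQ.κ_pos
  have hκ₁ := hT.κ₁_pos
  have hfin : IsFiniteMeasure D.vol := hC.fin
  set m := Q.m with hm
  set c₁ : ℝ := 6 * B ^ 2 * 2 ^ (2 * m) with hc₁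
  set c₂ : ℝ := 12 * (T.κ₁ / Q.κ) ^ 2 * B ^ 2 * 4 ^ (2 * m) with hc₂
  have hc₁0 : 0 < c₁ := by positivity
  have hc₂0 : 0 < c₂ := by positivity
  refine ⟨c₁ + c₂, by positivity, ?_⟩
  rintro p j R ζ hj hR1 hζ hζ1 ⟨φ, φ', hpot, hφ⟩
  have hj0 : (0 : ℝ) < j := by exact_mod_cast hj
  set k : ℝ := j * Q.κ with hk
  have hk0 : 0 < k := by positivity
  have hR0 : 0 < R := by linarith
  have hs : 0 < √k := Real.sqrt_pos.2 hk0
  have hd := hR.nonneg p
  have hBun := hQ.bun j hj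
  -- the three cut-off functions
  obtain ⟨χ, hχ, hχ0, hχ1, hχe, hχs, hχg⟩ := hR.cut p (R / √k) (by positivity)
  obtain ⟨η, hη, hη0, hη1, hηe, hηs, hηg⟩ := hR.cut p (2 * R / √k) (by positivity)
  obtain ⟨η₂, hη₂, hη₂0, hη₂1, hη₂e, hη₂s, hη₂g⟩ := hR.cut p (4 * R / √k) (by positivity)
  have e2 : 2 * (R / √k) = 2 * R / √k := by ring
  have e4 : 2 * (2 * R / √k) = 4 * R / √k := by ring
  have e8 : 2 * (4 * R / √k) = 8 * R / √k := by ring
  rw [e2] at hχs
  rw [e4] at hηs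
  rw [e8] at hη₂s
  have hopen : ∀ a : ℝ, IsOpen {x | P.d p x < a} := fun a =>
    isOpen_lt (hR.cont p) continuous_const
  set U : Set D.X := {x | k * P.d p x ^ 2 < (8 * R) ^ 2} with hU
  have hUeq : U = {x | P.d p x < 8 * R / √k} := by
    ext x
    exact lt_iff hk0 (hd x) (by positivity)
  have hUo : IsOpen U := by
    rw [hUeq]
    exact hopen _
  set V : Set D.X := {x | P.d p x < 4 * R / √k} with hV
  have hVo : IsOpen V := hopen _
  have hχU : tsupport χ ⊆ U := by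
    rw [hUeq]
    refine hχs.trans fun x hx => ?_
    have h1 : P.d p x < 2 * R / √k := hx
    have h2 : 2 * R / √k ≤ 8 * R / √k := by gcongr; norm_num
    exact lt_of_lt_of_le h1 h2
  obtain ⟨v, hv1, hv2, hv3⟩ := hT.tensor j φ φ' U hj hUo hpot χ hχ hχU
  -- the weight
  have hexp : ∀ x ∈ U, Real.exp (-(k * φ x)) ≤ 3 * Real.exp (-(k * P.d p x ^ 2 / 2)) := by
    intro x hx
    have h1 := (abs_le.1 (hφ x hx).1).1
    have h2 : -(k * φ x) ≤ 1 + -(k * P.d p x ^ 2 / 2) := by linarith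
    calc Real.exp (-(k * φ x)) ≤ Real.exp (1 + -(k * P.d p x ^ 2 / 2)) := Real.exp_le_exp.2 h2
      _ = Real.exp 1 * Real.exp (-(k * P.d p x ^ 2 / 2)) := Real.exp_add _ _
      _ ≤ 3 * Real.exp (-(k * P.d p x ^ 2 / 2)) := by
        gcongr
        linarith [Real.exp_one_lt_d9]
  have hexp3 : ∀ x ∈ U, Real.exp (-(k * φ x)) ≤ 3 := by
    intro x hx
    refine (hexp x hx).trans ?_
    have h1 : Real.exp (-(k * P.d p x ^ 2 / 2)) ≤ 1 := by
      rw [Real.exp_le_one_iff]
      have : 0 ≤ k * P.d p x ^ 2 / 2 := by positivity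
      linarith
    linarith
  -- outside of the support
  have hχz : ∀ x, 2 * R / √k ≤ P.d p x → χ x = 0 ∧ D.gr χ χ x = 0 := by
    intro x hx
    have h1 : x ∉ tsupport χ := fun h => absurd (hχs h) (not_lt.2 hx)
    refine ⟨image_eq_zero_of_notMem_tsupport h1, ?_⟩
    refine gr_zero hC hS hχ (c := 0) ?_
    exact notMem_tsupport_iff_eventuallyEq.1 h1
  have hχz' : ∀ x, P.d p x < R / √k → D.gr χ χ x = 0 := by
    intro x hx
    refine gr_zero hC hS hχ (c := 1) ?_
    filter_upwards [(hopen (R / √k)).mem_nhds hx] with y hy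
    exact hχe y hy
  have hηz : ∀ x, x ∉ V → η x = 0 ∧ D.gr η η x = 0 := by
    intro x hx
    have h1 : x ∉ tsupport η := fun h => hx (hηs h)
    refine ⟨image_eq_zero_of_notMem_tsupport h1, ?_⟩
    refine gr_zero hC hS hη (c := 0) ?_
    exact notMem_tsupport_iff_eventuallyEq.1 h1
  have hχη : ∀ x, χ x ^ 2 ≤ η x ^ 2 := by
    intro x
    by_cases hx : P.d p x < 2 * R / √k
    · rw [hηe x hx]
      have := hχ0 x
      have := hχ1 x
      nlinarith
    · rw [(hχz x (not_lt.1 hx)).1]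
      have := sq_nonneg (η x)
      simpa using this
  -- the difference of the potentials
  set δ : D.X → ℝ := fun y => φ' y - φ y with hδ
  obtain ⟨hsm, hsm'⟩ := hT.smooth j φ φ' U hpot
  have hδsm : D.SmoothOn U δ := by
    intro x hx
    obtain ⟨h, hh, he⟩ := hsm x hx
    obtain ⟨h', hh', he'⟩ := hsm' x hx
    refine ⟨fun y => h' y - h y, hC.sm_sub h' hh' h hh, ?_⟩
    filter_upwards [he, he'] with y h1 h2
    rw [hδ, h1, h2]
  have hδlap : ∀ x ∈ U, D.lap δ x = 0 := by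
    intro x hx
    obtain ⟨h, hh, he⟩ := hsm x hx
    obtain ⟨h', hh', he'⟩ := hsm' x hx
    have h1 : δ =ᶠ[𝓝 x] fun y => h' y - h y := by
      filter_upwards [he, he'] with y h1 h2
      rw [hδ, h1, h2]
    rw [hS.lap_loc _ _ _ h1, hC.lap_sub h' hh' h hh, hS.lap_loc _ _ _ he, hS.lap_loc _ _ _ he',
      (hT.lap j φ φ' U hpot x hx).1, (hT.lap j φ φ' U hpot x hx).2, sub_self]
  have hδM : ∀ x ∈ U, |δ x| ≤ 2 * ζ / k := by
    intro x hx
    obtain ⟨h1, h2⟩ := hφ x hx
    rw [abs_le] at h1 h2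
    have h3 : |δ x| * k = |k * φ' x - k * φ x| := by
      rw [← abs_of_pos hk0, ← abs_mul, abs_of_pos hk0, hδ]
      congr 1
      ring
    rw [le_div_iff₀ hk0, h3, abs_le]
    constructor <;> linarith [h1.1, h1.2, h2.1, h2.2]
  have hδg : ∀ x ∈ U, 0 ≤ D.gr δ δ x := by
    intro x hx
    obtain ⟨h, hh, he⟩ := hδsm x hx
    have h1 : D.gr δ δ x = D.gr h h x := by
      rw [(hS.gr_loc δ h δ x he.symm).1, (hS.gr_loc δ h h x he.symm).2]
    rw [h1]
    exact hC.gr_nonneg h hh x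
  -- Caccioppoli
  set K : ℝ := B / (2 * R / √k) ^ 2 with hK
  obtain ⟨hint, hcac⟩ := caccioppoli hC hQ.leib hQ.pole hS hUo hVo hη hη0 hη1 hηs hηg hη₂
    (fun x hx => hη₂e x hx) (by rw [hUeq]; exact hη₂s) hδsm hδlap hδM
  have hδη : ∀ x, 0 ≤ η x ^ 2 * D.gr δ δ x := by
    intro x
    by_cases hx : x ∈ U
    · exact mul_nonneg (sq_nonneg _) (hδg x hx)
    · have h1 : x ∉ V := by
        intro h
        refine hx ?_
        rw [hUeq]
        have h2 : P.d p x < 4 * R / √k := h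
        have h3 : 4 * R / √k ≤ 8 * R / √k := by gcongr; norm_num
        exact lt_of_lt_of_le h2 h3
      rw [(hηz x h1).1]
      simp
  set q : ℝ := (k ^ m)⁻¹ with hq
  have hq0 : 0 < q := by positivity
  set e : ℝ := Real.exp (-(R ^ 2 / 2)) with he
  have he0 : 0 < e := Real.exp_pos _
  set A : Set D.X := {x | P.d p x < 2 * R / √k} with hA
  have hAo : IsOpen A := hopen _
  have hAv : D.vol.real A ≤ B * ((2 * R) ^ (2 * m) * q) := by
    rw [hq, ← pow_eq hk0]
    exact hR.vol_le p _ (by positivity)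
  have hVv : D.vol.real V ≤ B * ((4 * R) ^ (2 * m) * q) := by
    rw [hq, ← pow_eq hk0]
    exact hR.vol_le p _ (by positivity)
  have hK0 : 0 ≤ K := by positivity
  have hgrη : ∫ x, D.gr η η x ∂D.vol ≤ K * D.vol.real V := by
    have h1 : Integrable (D.gr η η) D.vol := by
      refine Integrable.mono' (integrable_const K)
        (hC.sm_cont _ (hC.gr_sm η hη η hη)).measurable.aestronglyMeasurable
        (Eventually.of_forall fun x => ?_)
      rw [Real.norm_eq_abs, abs_of_nonneg (hC.gr_nonneg η hη x)]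
      exact hηg x
    have h2 : ∫ x, D.gr η η x ∂D.vol ≤ ∫ x, V.indicator (fun _ => K) x ∂D.vol := by
      refine integral_mono h1 ((integrable_const K).indicator hVo.measurableSet) fun x => ?_
      by_cases hx : x ∈ V
      · rw [indicator_of_mem hx]
        exact hηg x
      · rw [indicator_of_notMem hx, (hηz x hx).2]
    rw [integral_indicator_const _ hVo.measurableSet, smul_eq_mul, mul_comm] at h2
    exact h2
  -- the bound of the energy density
  set a : ℝ := 6 * (B / (R / √k) ^ 2) * e with ha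
  have ha0 : 0 ≤ a := by positivity
  set b : ℝ := 6 * (j * T.κ₁ / 2) ^ 2 with hb
  have hb0 : 0 ≤ b := by positivity
  have hn0 : ∀ x, 0 ≤ (Q.B j).A1.n ((Q.B j).d0 v) x := fun x => hBun.f1.nonneg _ x
  have hle : ∀ x, (Q.B j).A1.n ((Q.B j).d0 v) x ≤
      A.indicator (fun _ => a) x + b * (η x ^ 2 * D.gr δ δ x) := by
    intro x
    have hind : 0 ≤ A.indicator (fun _ => a) x := indicator_nonneg (fun _ _ => ha0) x
    by_cases hx : x ∈ U
    · have h3 := hv3 x hx
      have hE0 := Real.exp_pos (-(k * φ x))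
      have hE3 := hexp3 x hx
      have hg0 := hδg x hx
      have h4 : 2 * (j * T.κ₁ / 2) ^ 2 * χ x ^ 2 * D.gr δ δ x * Real.exp (-(k * φ x)) ≤
          b * (η x ^ 2 * D.gr δ δ x) := by
        calc 2 * (j * T.κ₁ / 2) ^ 2 * χ x ^ 2 * D.gr δ δ x * Real.exp (-(k * φ x))
            ≤ 2 * (j * T.κ₁ / 2) ^ 2 * η x ^ 2 * D.gr δ δ x * 3 := by
              have := hχη x
              gcongr
          _ = b * (η x ^ 2 * D.gr δ δ x) := by rw [hb]; ring
      have h5 : 2 * D.gr χ χ x * Real.exp (-(k * φ x)) ≤ A.indicator (fun _ => a) x := by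
        by_cases h6 : P.d p x < R / √k
        · rw [hχz' x h6]
          simpa using hind
        by_cases h7 : P.d p x < 2 * R / √k
        · have h8 : x ∈ A := h7
          rw [indicator_of_mem h8]
          have h9 : R ^ 2 ≤ k * P.d p x ^ 2 := by
            by_contra h
            exact h6 ((lt_iff hk0 (hd x) hR0.le).1 (not_le.1 h))
          have h10 : Real.exp (-(k * φ x)) ≤ 3 * e := by
            refine (hexp x hx).trans ?_
            have : Real.exp (-(k * P.d p x ^ 2 / 2)) ≤ e := Real.exp_le_exp.2 (by linarith)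
            linarith
          have h11 := hχg x
          have h12 := hC.gr_nonneg χ hχ x
          calc 2 * D.gr χ χ x * Real.exp (-(k * φ x))
              ≤ 2 * (B / (R / √k) ^ 2) * (3 * e) := by gcongr
            _ = a := by rw [ha]; ring
        · rw [(hχz x (not_lt.1 h7)).2]
          simpa using hind
      have h13 : 2 * (D.gr χ χ x + (j * T.κ₁ / 2) ^ 2 * χ x ^ 2 * D.gr δ δ x) *
          Real.exp (-(k * φ x)) = 2 * D.gr χ χ x * Real.exp (-(k * φ x)) +
            2 * (j * T.κ₁ / 2) ^ 2 * χ x ^ 2 * D.gr δ δ x * Real.exp (-(k * φ x)) := by ring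
      rw [← hk, h13] at h3
      linarith
    · rw [(hv2 x hx).2]
      have := mul_nonneg hb0 (hδη x)
      linarith
  have hGint : Integrable (fun x => A.indicator (fun _ => a) x + b * (η x ^ 2 * D.gr δ δ x))
      D.vol :=
    ((integrable_const a).indicator hAo.measurableSet).add (hint.const_mul b)
  have hncont : Continuous ((Q.B j).A1.n ((Q.B j).d0 v)) :=
    Complex.continuous_re.comp (hBun.f1.cont _ _)
  have hnint : Integrable ((Q.B j).A1.n ((Q.B j).d0 v)) D.vol := by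
    refine Integrable.mono' hGint hncont.measurable.aestronglyMeasurable
      (Eventually.of_forall fun x => ?_)
    rw [Real.norm_eq_abs, abs_of_nonneg (hn0 x)]
    exact hle x
  refine ⟨v, ?_, ?_, ?_, hnint, ?_⟩
  · intro x
    by_cases hx : x ∈ U
    · rw [hv1 x hx]
      have h1 := hexp3 x hx
      have h2 := Real.exp_pos (-(k * φ x))
      have h3 : χ x ^ 2 ≤ 1 := by
        have := hχ0 x
        have := hχ1 x
        nlinarith
      calc χ x ^ 2 * Real.exp (-(k * φ x)) ≤ 1 * 3 := by gcongr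
        _ = 3 := by norm_num
    · rw [(hv2 x hx).1]
      norm_num
  · intro x hx
    by_cases hxU : x ∈ U
    · have h1 : 2 * R / √k ≤ P.d p x := by
        by_contra h
        have := (lt_iff hk0 (hd x) (by positivity : (0 : ℝ) ≤ 2 * R)).2 (not_le.1 h)
        rw [mul_pow] at this
        norm_num at this
        linarith
      rw [hv1 x hxU, (hχz x h1).1]
      simp
    · exact (hv2 x hxU).1
  · intro x hx
    have hxU : x ∈ U := by
      show k * P.d p x ^ 2 < (8 * R) ^ 2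
      nlinarith
    have h1 := (lt_iff hk0 (hd x) hR0.le).1 hx
    rw [hv1 x hxU, hχe x h1]
    have h2 := (abs_le.1 (hφ x hxU).1).2
    rw [one_pow, one_mul]
    exact Real.exp_le_exp.2 (by rw [← hk]; linarith)
  · have h1 : ∫ x, (Q.B j).A1.n ((Q.B j).d0 v) x ∂D.vol ≤
        a * D.vol.real A + b * (8 * (2 * ζ / k) ^ 2 * (K * D.vol.real V)) := by
      calc ∫ x, (Q.B j).A1.n ((Q.B j).d0 v) x ∂D.vol
          ≤ ∫ x, (A.indicator (fun _ => a) x + b * (η x ^ 2 * D.gr δ δ x)) ∂D.vol :=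
            integral_mono hnint hGint hle
        _ = a * D.vol.real A + b * ∫ x, η x ^ 2 * D.gr δ δ x ∂D.vol := by
            rw [integral_add ((integrable_const a).indicator hAo.measurableSet)
              (hint.const_mul b), integral_indicator_const _ hAo.measurableSet, smul_eq_mul,
              mul_comm, integral_const_mul]
        _ ≤ a * D.vol.real A + b * (8 * (2 * ζ / k) ^ 2 * (K * D.vol.real V)) := by
            have h2 : ∫ x, η x ^ 2 * D.gr δ δ x ∂D.vol ≤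
                8 * (2 * ζ / k) ^ 2 * (K * D.vol.real V) :=
              hcac.trans (mul_le_mul_of_nonneg_left hgrη (by positivity))
            gcongr
    have h2 : a * D.vol.real A ≤ c₁ * R ^ (2 * m) * e * k * q := by
      have h3 : a = 6 * B * e * (k / R ^ 2) := by
        rw [ha, div_pow, Real.sq_sqrt hk0.le]
        field_simp
      have h4 : k / R ^ 2 ≤ k := div_le_self hk0.le (one_le_pow₀ hR1)
      calc a * D.vol.real A ≤ 6 * B * e * k * (B * ((2 * R) ^ (2 * m) * q)) := by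
            rw [h3]
            gcongr
        _ = c₁ * R ^ (2 * m) * e * k * q := by
            rw [hc₁, mul_pow]
            ring
    have h5 : b * (8 * (2 * ζ / k) ^ 2 * (K * D.vol.real V)) ≤
        c₂ * R ^ (2 * m) * ζ ^ 2 * k * q := by
      have h3 : K = B / 4 * (k / R ^ 2) := by
        rw [hK, div_pow, mul_pow, Real.sq_sqrt hk0.le]
        field_simp
        try norm_num
      have h4 : k / R ^ 2 ≤ k := div_le_self hk0.le (one_le_pow₀ hR1)
      have h6 : K * D.vol.real V ≤ B / 4 * k * (B * ((4 * R) ^ (2 * m) * q)) := by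
        rw [h3]
        gcongr
      calc b * (8 * (2 * ζ / k) ^ 2 * (K * D.vol.real V))
          ≤ b * (8 * (2 * ζ / k) ^ 2 * (B / 4 * k * (B * ((4 * R) ^ (2 * m) * q)))) := by
            gcongr
        _ = c₂ * R ^ (2 * m) * ζ ^ 2 * k * q := by
            rw [hb, hc₂, mul_pow, hk]
            field_simp
            ring
    calc ∫ x, (Q.B j).A1.n ((Q.B j).d0 v) x ∂D.vol
        ≤ c₁ * R ^ (2 * m) * e * k * q + c₂ * R ^ (2 * m) * ζ ^ 2 * k * q := by linarith
      _ ≤ (c₁ + c₂) * R ^ (2 * m) * (e + ζ ^ 2) * k * q := by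
          have h7 : 0 ≤ c₁ * R ^ (2 * m) * ζ ^ 2 * k * q := by positivity
          have h8 : 0 ≤ c₂ * R ^ (2 * m) * e * k * q := by positivity
          nlinarith

end Pool.Agent.SYM.V3
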