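import Pool.Agent.SYM.V3.Peak
import Pool.Agent.SYM.V3.QMain

/-!
# SYM/V3/PkGap : the spectral gap

`s` is a partial sum of the `L²` projection of `v` to the kernel: with the eigensections `v_i`,
`l_i` of `Spectrum` and `c_i = ⟨v_i, v⟩`, `s = ∑_{i < n, l_i = 0} c_i v_i`. By Parseval `∫ |v - s|²` is
the sum of `|c_i|²` over the other `i`; `l_i = 0` or `l_i ≥ k` (`bk_bdd` for `∂bar v_i`, as in
`l2Est`), and `⟨∂bar v_i, ∂bar v⟩ = l_i c_i` (`adj_bdd` with `e = ∂bar v_i`), so Bessel's inequality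
for the orthogonal system `∂bar v_i` gives `∑ l_i |c_i|² ≤ ∫ |∂bar v|²`. If `l_i = 0` then
`∫ |∂bar v_i|² = 0`, so `∂bar v_i = 0` (`n` is continuous, `vol` is positive on open sets, `eq_zero`).
-/

set_option autoImplicit false

open MeasureTheory Set Filter
open scoped Topology ContDiff ComplexConjugate

namespace Pool.Agent.SYM.V3

private theorem nsub {H : Type*} [NormedAddCommGroup H] [InnerProductSpace ℂ H] (x y : H) :
    ‖x - y‖ ^ 2 = ‖x‖ ^ 2 - 2 * (inner ℂ y x).re + ‖y‖ ^ 2 := by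
  rw [@norm_sub_sq ℂ]
  have h := inner_re_symm (𝕜 := ℂ) x y
  simp only [RCLike.re_to_complex] at h ⊢
  rw [h]

/-- the Hilbert space part -/
theorem proj_aux {H0 H1 : Type*} [NormedAddCommGroup H0] [InnerProductSpace ℂ H0]
    [NormedAddCommGroup H1] [InnerProductSpace ℂ H1] {w : ℕ → H0} {e : ℕ → H1} {l : ℕ → ℝ}
    {T : H0} {g : H1} {k : ℝ} (hk : 0 < k) (hw : Orthonormal ℂ w)
    (he : ∀ i j, inner ℂ (e i) (e j) = if i = j then (l i : ℂ) else 0)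
    (hg : ∀ i, inner ℂ (e i) g = (l i : ℂ) * inner ℂ (w i) T)
    (hT : HasSum (fun i => ‖inner ℂ (w i) T‖ ^ 2) (‖T‖ ^ 2))
    (hl : ∀ i, l i = 0 ∨ k ≤ l i) {η : ℝ} (hη : 0 < η) :
    ∃ n, k * ‖T - ∑ i ∈ (Finset.range n).filter (fun i => l i = 0),
      inner ℂ (w i) T • w i‖ ^ 2 ≤ ‖g‖ ^ 2 + η := by
  set a : ℕ → ℂ := fun i => inner ℂ (w i) T with ha
  have hl0 : ∀ i, 0 ≤ l i := fun i => by
    rcases hl i with h | h
    · rw [h]
    · linarith
  -- Bessel's inequality for `g`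
  have key : ∀ n, ∑ i ∈ Finset.range n, l i * ‖a i‖ ^ 2 ≤ ‖g‖ ^ 2 := by
    intro n
    set S : H1 := ∑ i ∈ Finset.range n, a i • e i with hS
    have h1 : inner ℂ S g = ((∑ i ∈ Finset.range n, l i * ‖a i‖ ^ 2 : ℝ) : ℂ) := by
      rw [hS, sum_inner]
      push_cast
      refine Finset.sum_congr rfl fun i _ => ?_
      rw [inner_smul_left, hg i, ← Complex.conj_mul' (a i)]
      ring
    have h2 : inner ℂ S S = ((∑ i ∈ Finset.range n, l i * ‖a i‖ ^ 2 : ℝ) : ℂ) := by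
      have h3 : ∀ j ∈ Finset.range n, inner ℂ (e j) S = a j * (l j : ℂ) := by
        intro j hj
        rw [hS, inner_sum]
        rw [Finset.sum_eq_single j]
        · rw [inner_smul_right, he, if_pos rfl]
        · intro i _ hij
          rw [inner_smul_right, he, if_neg (Ne.symm hij), mul_zero]
        · exact fun h => absurd hj h
      conv_lhs => rw [hS]
      rw [sum_inner]
      push_cast
      refine Finset.sum_congr rfl fun i hi => ?_
      rw [inner_smul_left, ← hS, h3 i hi, ← Complex.conj_mul' (a i)]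
      ring
    have h4 : 0 ≤ ‖g - S‖ ^ 2 := sq_nonneg _
    have h5 : ‖g - S‖ ^ 2 = ‖g‖ ^ 2 - 2 * (inner ℂ S g).re + ‖S‖ ^ 2 := nsub g S
    have h6 : ‖S‖ ^ 2 = (inner ℂ S S).re := by
      rw [inner_self_eq_norm_sq_to_K]
      norm_cast
    rw [h5, h6, h1, h2, Complex.ofReal_re] at h4
    linarith
  obtain ⟨n, hn⟩ : ∃ n, ‖T‖ ^ 2 - η / k < ∑ i ∈ Finset.range n, ‖a i‖ ^ 2 := by
    have h1 := hT.tendsto_sum_nat
    have h2 : ‖T‖ ^ 2 - η / k < ‖T‖ ^ 2 := by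
      have : 0 < η / k := by positivity
      linarith
    exact ((tendsto_order.1 h1).1 _ h2).exists
  refine ⟨n, ?_⟩
  set F := (Finset.range n).filter (fun i => l i = 0) with hF
  have h1 : ‖T - ∑ i ∈ F, a i • w i‖ ^ 2 = ‖T‖ ^ 2 - ∑ i ∈ F, ‖a i‖ ^ 2 := by
    have h2 : inner ℂ (∑ i ∈ F, a i • w i) T = ((∑ i ∈ F, ‖a i‖ ^ 2 : ℝ) : ℂ) := by
      rw [sum_inner]
      push_cast
      refine Finset.sum_congr rfl fun i _ => ?_
      rw [inner_smul_left, ← Complex.conj_mul' (a i)]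
    have h3 : ‖∑ i ∈ F, a i • w i‖ ^ 2 = ∑ i ∈ F, ‖a i‖ ^ 2 := by
      have h4 := hw.inner_sum a a F
      have h5 : ‖∑ i ∈ F, a i • w i‖ ^ 2 = (inner ℂ (∑ i ∈ F, a i • w i) (∑ i ∈ F, a i • w i)).re := by
        rw [inner_self_eq_norm_sq_to_K]
        norm_cast
      rw [h5, h4]
      have h6 : (∑ i ∈ F, conj (a i) * a i) = ((∑ i ∈ F, ‖a i‖ ^ 2 : ℝ) : ℂ) := by
        push_cast
        exact Finset.sum_congr rfl fun i _ => Complex.conj_mul' (a i)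
      rw [h6, Complex.ofReal_re]
    have h5 : ‖T - ∑ i ∈ F, a i • w i‖ ^ 2 =
        ‖T‖ ^ 2 - 2 * (inner ℂ (∑ i ∈ F, a i • w i) T).re + ‖∑ i ∈ F, a i • w i‖ ^ 2 := nsub _ _
    rw [h5, h2, h3, Complex.ofReal_re]
    ring
  rw [h1]
  have h2 : ∑ i ∈ Finset.range n, ‖a i‖ ^ 2 =
      ∑ i ∈ F, ‖a i‖ ^ 2 + ∑ i ∈ (Finset.range n).filter (fun i => ¬ l i = 0), ‖a i‖ ^ 2 :=
    (Finset.sum_filter_add_sum_filter_not _ _ _).symm
  have h3 : k * ∑ i ∈ (Finset.range n).filter (fun i => ¬ l i = 0), ‖a i‖ ^ 2 ≤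
      ∑ i ∈ Finset.range n, l i * ‖a i‖ ^ 2 := by
    rw [Finset.mul_sum]
    refine le_trans (Finset.sum_le_sum fun i hi => ?_)
      (Finset.sum_le_sum_of_subset_of_nonneg (Finset.filter_subset _ _)
        fun i _ _ => mul_nonneg (hl0 i) (sq_nonneg _))
    have h4 : k ≤ l i := (hl i).resolve_left (Finset.mem_filter.1 hi).2
    exact mul_le_mul_of_nonneg_right h4 (sq_nonneg _)
  have h4 := key n
  have h5 : k * (η / k) = η := by field_simp
  have h6 : k * (‖T‖ ^ 2 - η / k) ≤ k * ∑ i ∈ Finset.range n, ‖a i‖ ^ 2 :=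
    mul_le_mul_of_nonneg_left hn.le hk.le
  rw [h2] at h6
  nlinarith

/-- Projection to the holomorphic sections. -/
theorem project {D : Reg} {φ : D.X → ℝ} (hC : D.Calculus) (hP : D.Pole φ) {B : Bun D} {k : ℝ}
    {m : ℕ} (hk : 0 < k) (hB : B.Facts k m) {v : ℕ → B.A0.S} {l : ℕ → ℝ} (hS : B.Spectrum v l)
    (hlip : ∀ i, ∃ M, ∀ x, B.A0.n (v i) x ≤ M ∧ B.nab (v i) x ≤ M) {t : B.A0.S}
    (ht : ∃ M, ∀ x, B.A0.n t x ≤ M) (hd : Integrable (B.A1.n (B.d0 t)) D.vol) {η : ℝ}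
    (hη : 0 < η) :
    ∃ s : B.A0.S, B.d0 s = 0 ∧ (∃ M, ∀ x, B.A0.n s x ≤ M ∧ B.nab s x ≤ M) ∧
      k * ∫ x, B.A0.n (t - s) x ∂D.vol ≤ ∫ x, B.A1.n (B.d0 t) x ∂D.vol + η := by
  have v0 : ∀ i, ∃ M, ∀ x, B.A0.n (v i) x ≤ M := fun i => by
    obtain ⟨M, hM⟩ := hlip i; exact ⟨M, fun x => (hM x).1⟩
  have v1 : ∀ i, ∃ M, ∀ x, B.nab (v i) x ≤ M := fun i => by
    obtain ⟨M, hM⟩ := hlip i; exact ⟨M, fun x => (hM x).2⟩
  have e0 : ∀ i, ∃ M, ∀ x, B.A1.n (B.d0 (v i)) x ≤ M := fun i => by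
    obtain ⟨M, hM⟩ := v1 i; exact ⟨M, fun x => (hB.d0_le _ x).trans (hM x)⟩
  have eI : ∀ i, Integrable (B.A1.n (B.d0 (v i))) D.vol := fun i => bdd_int hC hB.f1 (e0 i)
  have dsI : ∀ i, Integrable (B.A0.n (B.ds (B.d0 (v i)))) D.vol := fun i => by
    rw [hS.eig i]; exact int_smul hB.f0 _ (hS.int i)
  have tI : Integrable (B.A0.n t) D.vol := bdd_int hC hB.f0 ht
  let c0 := core hB.f0 hC
  let c1 := core hB.f1 hC
  let n0 : NormedAddCommGroup (L2 hB.f0) := c0.toNormedAddCommGroup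
  let n1 : NormedAddCommGroup (L2 hB.f1) := c1.toNormedAddCommGroup
  let i0 : InnerProductSpace ℂ (L2 hB.f0) := InnerProductSpace.ofCore c0.toCore
  let i1 : InnerProductSpace ℂ (L2 hB.f1) := InnerProductSpace.ofCore c1.toCore
  have in0 : ∀ s t : L2 hB.f0, inner ℂ s t = ∫ x, B.A0.ip s t x ∂D.vol := fun s t => rfl
  have in1 : ∀ s t : L2 hB.f1, inner ℂ s t = ∫ x, B.A1.ip s t x ∂D.vol := fun s t => rfl
  have nn0 : ∀ s : L2 hB.f0, ‖s‖ ^ 2 = ∫ x, B.A0.n s x ∂D.vol := fun s => by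
    have h1 := inner_self_eq_norm_sq (𝕜 := ℂ) s
    rw [← h1, in0]
    have h2 : B.A0.ip (s : B.A0.S) (s : B.A0.S) = fun x => (B.A0.n (s : B.A0.S) x : ℂ) :=
      funext fun x => ip_self hB.f0 _ x
    rw [h2]
    exact (congrArg Complex.re (integral_ofReal (𝕜 := ℂ) (f := B.A0.n (s : B.A0.S)))).trans
      (Complex.ofReal_re _)
  have nn1 : ∀ s : L2 hB.f1, ‖s‖ ^ 2 = ∫ x, B.A1.n s x ∂D.vol := fun s => by
    have h1 := inner_self_eq_norm_sq (𝕜 := ℂ) s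
    rw [← h1, in1]
    have h2 : B.A1.ip (s : B.A1.S) (s : B.A1.S) = fun x => (B.A1.n (s : B.A1.S) x : ℂ) :=
      funext fun x => ip_self hB.f1 _ x
    rw [h2]
    exact (congrArg Complex.re (integral_ofReal (𝕜 := ℂ) (f := B.A1.n (s : B.A1.S)))).trans
      (Complex.ofReal_re _)
  have hadj : ∀ i (t' : B.A0.S), (∃ M, ∀ x, B.A0.n t' x ≤ M) →
      Integrable (B.A1.n (B.d0 t')) D.vol →
      ∫ x, B.A1.ip (B.d0 t') (B.d0 (v i)) x ∂D.vol =
        (l i : ℂ) * ∫ x, B.A0.ip t' (v i) x ∂D.vol := by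
    intro i t' h1 h2
    rw [adj_bdd hC hP hB h1 h2 (e0 i) (dsI i), hS.eig i]
    have h3 : B.A0.ip t' ((l i : ℂ) • v i) = fun x => (l i : ℂ) * B.A0.ip t' (v i) x :=
      funext fun x => ip_smul_right hB.f0 _ _ _ x
    rw [h3, integral_const_mul]
  have hconj : ∀ {A : Sec D.X} (_ : A.Facts D) (s t : A.S),
      conj (∫ x, A.ip s t x ∂D.vol) = ∫ x, A.ip t s x ∂D.vol := by
    intro A hA s t
    rw [← integral_conj]
    exact integral_congr_ae (Eventually.of_forall fun x => hA.symm t s x)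
  have hen : ∀ i, ∫ x, B.A1.n (B.d0 (v i)) x ∂D.vol = l i := by
    intro i
    have h2 := hadj i (v i) (v0 i) (eI i)
    rw [hS.ortho i i, if_pos rfl, mul_one] at h2
    have h3 := nn1 ⟨B.d0 (v i), eI i⟩
    have h4 := inner_self_eq_norm_sq (𝕜 := ℂ) (⟨B.d0 (v i), eI i⟩ : L2 hB.f1)
    rw [in1] at h4
    have h5 : ∫ x, B.A1.ip (B.d0 (v i)) (B.d0 (v i)) x ∂D.vol = (l i : ℂ) := h2
    have h6 : (∫ x, B.A1.n (B.d0 (v i)) x ∂D.vol) = ((l i : ℂ)).re := by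
      rw [← h5]
      exact h3.symm.trans h4.symm
    rw [h6, Complex.ofReal_re]
  have hle : ∀ i, l i = 0 ∨ k ≤ l i := by
    intro i
    have h1 := hen i
    have h2 : ∫ x, B.A0.n (B.ds (B.d0 (v i))) x ∂D.vol = l i ^ 2 := by
      rw [hS.eig i]
      have h3 : B.A0.n ((l i : ℂ) • v i) = fun x => l i ^ 2 * B.A0.n (v i) x :=
        funext fun x => by rw [n_smul hB.f0, Complex.norm_real, Real.norm_eq_abs, sq_abs]
      have h4 : ∫ x, B.A0.n (v i) x ∂D.vol = 1 := by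
        have h5 := hS.ortho i i
        rw [if_pos rfl] at h5
        have h6 := nn0 ⟨v i, hS.int i⟩
        have h7 := inner_self_eq_norm_sq (𝕜 := ℂ) (⟨v i, hS.int i⟩ : L2 hB.f0)
        rw [in0] at h7
        have h8 : (∫ x, B.A0.n (v i) x ∂D.vol) = (∫ x, B.A0.ip (v i) (v i) x ∂D.vol).re :=
          h6.symm.trans h7.symm
        rw [h8, h5, Complex.one_re]
      rw [h3, integral_const_mul, h4, mul_one]
    have h3 := bk_bdd hC hP hB (e0 i) (hB.d1_d0 _) (dsI i)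
    rw [h1, h2] at h3
    have h4 : 0 ≤ l i := by
      rw [← h1]
      exact integral_nonneg fun x => hB.f1.nonneg _ x
    rcases h4.eq_or_lt with h5 | h5
    · exact Or.inl h5.symm
    · right
      by_contra h6
      push Not at h6
      nlinarith
  set w : ℕ → L2 hB.f0 := fun i => ⟨v i, hS.int i⟩ with hw
  set e : ℕ → L2 hB.f1 := fun i => ⟨B.d0 (v i), eI i⟩ with he
  set T : L2 hB.f0 := ⟨t, tI⟩ with hT
  set g : L2 hB.f1 := ⟨B.d0 t, hd⟩ with hg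
  obtain ⟨n, hn⟩ := proj_aux (w := w) (e := e) (l := l) (T := T) (g := g) hk (by
      rw [orthonormal_iff_ite]
      intro i j
      rw [in0]
      exact hS.ortho i j) (by
      intro i j
      rw [in1]
      show ∫ x, B.A1.ip (B.d0 (v i)) (B.d0 (v j)) x ∂D.vol = _
      rw [hadj j (v i) (v0 i) (eI i), hS.ortho i j]
      split_ifs with h
      · rw [h, mul_one]
      · rw [mul_zero]) (by
      intro i
      rw [in1, in0]
      show ∫ x, B.A1.ip (B.d0 (v i)) (B.d0 t) x ∂D.vol = (l i : ℂ) * ∫ x, B.A0.ip (v i) t x ∂D.vol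
      rw [← hconj hB.f1, hadj i t ht hd, map_mul, Complex.conj_ofReal, hconj hB.f0]) (by
      rw [nn0]
      exact hS.parseval t tI) hle hη
  set F := (Finset.range n).filter (fun i => l i = 0) with hF
  set a : ℕ → ℂ := fun i => inner ℂ (w i) T with ha
  have co0 : ((∑ i ∈ F, a i • w i : L2 hB.f0) : B.A0.S) = ∑ i ∈ F, a i • v i := by
    rw [Submodule.coe_sum]
    rfl
  refine ⟨∑ i ∈ F, a i • v i, ?_, ?_, ?_⟩
  · rw [hB.l0.sum]
    refine Finset.sum_eq_zero fun i hi => ?_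
    have h0 : B.d0 (v i) = 0 := by
      have := hC.pos
      have h1 := hen i
      rw [(Finset.mem_filter.1 hi).2] at h1
      have h2 := (integral_eq_zero_iff_of_nonneg (fun x => hB.f1.nonneg _ x) (eI i)).1 h1
      have h3 := (Continuous.ae_eq_iff_eq D.vol (n_cont hB.f1 (B.d0 (v i)))
        continuous_zero).1 h2
      exact hB.f1.eq_zero _ fun x => congrFun h3 x
    rw [hB.l0.smul, h0, smul_zero]
  · have h1 : ∑ i ∈ F, a i • v i =
        ∑ i ∈ Finset.range n, (if l i = 0 then a i else 0) • v i := by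
      rw [hF, Finset.sum_filter]
      refine Finset.sum_congr rfl fun i _ => ?_
      split_ifs
      · rfl
      · rw [zero_smul]
    rw [h1]
    obtain ⟨M, hM⟩ := bdd_sum hB.f0 (fun i => if l i = 0 then a i else 0) v0 n
    obtain ⟨M', hM'⟩ := nab_sum hB (fun i => if l i = 0 then a i else 0) v1 n
    exact ⟨max M M', fun x => ⟨(hM x).trans (le_max_left _ _), (hM' x).trans (le_max_right _ _)⟩⟩
  · rw [nn0, nn1, Submodule.coe_sub, co0] at hn
    exact hn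

theorem gap_section {D : Reg} {Q : Quant D} (hQ : Q.Facts) {j : ℕ} (hj : 1 ≤ j)
    {v : (Q.B j).A0.S} (hv : ∃ M, ∀ x, (Q.B j).A0.n v x ≤ M)
    (hv1 : Integrable ((Q.B j).A1.n ((Q.B j).d0 v)) D.vol) {ε : ℝ} (hε : 0 < ε) :
    ∃ s, Q.Hol j s ∧ ∫ x, (Q.B j).A0.n (v - s) x ∂D.vol ≤
      (∫ x, (Q.B j).A1.n ((Q.B j).d0 v) x ∂D.vol) / (j * Q.κ) + ε := by
  have hS := hQ.spec j hj
  have hk : 0 < (j : ℝ) * Q.κ := mul_pos (by exact_mod_cast hj) hQ.κ_pos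
  obtain ⟨s, h1, h2, h3⟩ := V3.project hQ.calculus hQ.pole hk (hQ.bun j hj) hS
    (fun i => hQ.lip hj (hS.eig i) (hS.int i) (hS.nab_int i)) hv hv1 (mul_pos hk hε)
  refine ⟨s, ⟨h1, h2⟩, ?_⟩
  rw [← sub_le_iff_le_add, le_div_iff₀ hk]
  nlinarith

end Pool.Agent.SYM.V3
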