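import Pool.Agent.SYM.V3.Peak
import Pool.Agent.SYM.V3.QMain

/-!
# SYM/V3/PkSup : holomorphic sections and their gradients at the scale `k^(-1/2)`

`k = j κ`, `w = |s|²`: `Δ w = |∇ s|² - k m w ≥ - k m w` (`weitz`), apply `mean` with `λ = m k`. For
`w = |∇ s|²` apply `mean` with `λ = (m + 2) k` (`weitz1`); `∫ |∇ s|² = ∫ (Δ |s|² + k m |s|²)`
`= k m ∫ |s|²`: `∫ Δ |s|² = 0` because `|s|²` is bounded with bounded gradient
(`gr (|s|²) (|s|²) ≤ 2 |∇ s|² |s|²`, `kato`), with the cut-off functions of `Reg.exists_cut`.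
-/

set_option autoImplicit false

open MeasureTheory Set Filter
open scoped Topology ContDiff ComplexConjugate

namespace Pool.Agent.SYM.V3

theorem sup_hol {D : Reg} {Q : Quant D} (hQ : Q.Facts) {P : Pts D} {B : ℝ} (hR : P.Rcd Q.m B)
    {j : ℕ} (hj : 1 ≤ j) (hk : 1 ≤ j * Q.κ) (hG : (Q.B j).Grad (j * Q.κ) Q.m)
    {s : (Q.B j).A0.S} (hs : Q.Hol j s) (x : D.X) :
    (Q.B j).A0.n s x ≤ B * (Q.m * (j * Q.κ)) ^ Q.m * ∫ y, (Q.B j).A0.n s y ∂D.vol ∧
      (Q.B j).nab s x ≤ B * ((Q.m + 2) * (j * Q.κ)) ^ Q.m * (Q.m * (j * Q.κ)) *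
        ∫ y, (Q.B j).A0.n s y ∂D.vol := by
  have hC := hQ.calculus
  have hB := hQ.bun j hj
  have hfin := hC.fin
  obtain ⟨h0, M, hM⟩ := hs
  have hm : (1 : ℝ) ≤ (Q.m : ℝ) := by exact_mod_cast hQ.m_pos
  have hn0 : ∀ y, 0 ≤ (Q.B j).A0.n s y := hB.f0.nonneg s
  have hns : (Q.B j).A0.n s ∈ D.sm := hB.n_sm s
  have hnab0 : ∀ y, 0 ≤ (Q.B j).nab s y := fun y =>
    (hB.f1.nonneg ((Q.B j).d0 s) y).trans (hB.d0_le s y)
  set k : ℝ := j * Q.κ with hkdef
  have hlap : ∀ y, D.lap ((Q.B j).A0.n s) y =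
      (Q.B j).nab s y - k * Q.m * (Q.B j).A0.n s y := by
    intro y
    have h1 := hB.weitz s y
    have h2 : (Q.B j).A0.ip ((Q.B j).ds ((Q.B j).d0 s)) s y = 0 := by
      have h3 := hB.f0.smul_left 0 (0 : (Q.B j).A0.S) s y
      rw [zero_smul] at h3
      rw [h0, hB.ls.zero, h3]
      simp
    rw [h2, Complex.zero_re, mul_zero, sub_zero] at h1
    exact h1
  have hM0 : 0 ≤ M := (hn0 x).trans (hM x).1
  have hint : Integrable ((Q.B j).A0.n s) D.vol := by
    refine Integrable.mono' (integrable_const M) (hC.sm_cont _ hns).aestronglyMeasurable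
      (Eventually.of_forall fun y => ?_)
    rw [Real.norm_eq_abs, abs_of_nonneg (hn0 y)]
    exact (hM y).1
  have hnint : Integrable ((Q.B j).nab s) D.vol := by
    refine Integrable.mono' (integrable_const M) (hB.nab_cont s).aestronglyMeasurable
      (Eventually.of_forall fun y => ?_)
    rw [Real.norm_eq_abs, abs_of_nonneg (hnab0 y)]
    exact (hM y).2
  have hI0 : 0 ≤ ∫ y, (Q.B j).A0.n s y ∂D.vol := integral_nonneg hn0
  -- the mean value inequality for the section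
  have hm1 : (1 : ℝ) ≤ Q.m * k := by nlinarith
  have hm2 : (1 : ℝ) ≤ (Q.m + 2) * k := by nlinarith
  have part1 := hR.mean _ hns hn0 ⟨M, fun y => (hM y).1⟩ (Q.m * k) hm1 (fun y => by
    rw [hlap y]
    have := hnab0 y
    nlinarith) x
  have part2 := hR.mean _ (hG.nab_sm s) hnab0 ⟨M, fun y => (hM y).2⟩ ((Q.m + 2) * k) hm2
    (fun y => hG.weitz1 s h0 y) x
  refine ⟨part1, ?_⟩
  -- the integral of the Laplacian
  obtain ⟨φ, hφ⟩ : ∃ φ, D.Pole φ := ⟨Q.φ, hQ.pole⟩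
  have t1 := Reg.lap_cut_tendsto' hC hφ hns (M := M) (fun y => by
    rw [abs_of_nonneg (hn0 y)]; exact (hM y).1)
  have hlapc : Continuous (D.lap ((Q.B j).A0.n s)) := hC.sm_cont _ (hC.lap_sm _ hns)
  have hlapb : ∀ y, |D.lap ((Q.B j).A0.n s) y| ≤ M + k * Q.m * M := by
    intro y
    have a1 := hM y
    have a2 := hn0 y
    have a3 := hnab0 y
    have a4 : 0 ≤ k * Q.m := by nlinarith
    have a5 : k * Q.m * (Q.B j).A0.n s y ≤ k * Q.m * M := mul_le_mul_of_nonneg_left a1.1 a4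
    have a6 : 0 ≤ k * Q.m * (Q.B j).A0.n s y := mul_nonneg a4 a2
    rw [hlap y, abs_le]
    constructor
    · linarith
    · have : 0 ≤ k * Q.m * M := mul_nonneg a4 hM0
      linarith [a1.2]
  have t2 : Tendsto (fun i : ℕ => ∫ y, Reg.cut φ i y * D.lap ((Q.B j).A0.n s) y ∂D.vol) atTop
      (𝓝 (∫ y, D.lap ((Q.B j).A0.n s) y ∂D.vol)) := by
    refine tendsto_integral_of_dominated_convergence (fun _ => M + k * Q.m * M) (fun i => ?_)
      (integrable_const _) (fun i => Eventually.of_forall fun y => ?_)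
      (Eventually.of_forall fun y => ?_)
    · exact ((hC.sm_cont _ (hC.cs_sm (Reg.cut_cs hφ i))).mul hlapc).aestronglyMeasurable
    · rw [Real.norm_eq_abs, abs_mul, abs_of_nonneg (Reg.cut_nonneg i y)]
      calc Reg.cut φ i y * |D.lap ((Q.B j).A0.n s) y| ≤ 1 * |D.lap ((Q.B j).A0.n s) y| :=
            mul_le_mul_of_nonneg_right (Reg.cut_le_one i y) (abs_nonneg _)
        _ ≤ M + k * Q.m * M := by rw [one_mul]; exact hlapb y
    · have h3 := (Reg.cut_tendsto_one (φ := φ) y).mul_const (D.lap ((Q.B j).A0.n s) y)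
      simpa using h3
  have hzero : ∫ y, D.lap ((Q.B j).A0.n s) y ∂D.vol = 0 := tendsto_nhds_unique t2 t1
  have hnabI : ∫ y, (Q.B j).nab s y ∂D.vol = Q.m * k * ∫ y, (Q.B j).A0.n s y ∂D.vol := by
    have h3 : ∫ y, D.lap ((Q.B j).A0.n s) y ∂D.vol =
        ∫ y, (Q.B j).nab s y ∂D.vol - k * Q.m * ∫ y, (Q.B j).A0.n s y ∂D.vol := by
      rw [← integral_const_mul, ← integral_sub hnint (hint.const_mul _)]
      exact integral_congr_ae (Eventually.of_forall hlap)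
    rw [hzero] at h3
    linarith
  rw [hnabI] at part2
  calc (Q.B j).nab s x ≤ B * ((Q.m + 2) * k) ^ Q.m * (Q.m * k * ∫ y, (Q.B j).A0.n s y ∂D.vol) :=
        part2
    _ = B * ((Q.m + 2) * k) ^ Q.m * (Q.m * k) * ∫ y, (Q.B j).A0.n s y ∂D.vol := by ring

end Pool.Agent.SYM.V3
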