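import Pool.Agent.SYM.V3.PkEst
import Pool.Agent.SYM.V3.PkGap
import Pool.Agent.SYM.V3.PkSup

/-!
# SYM/V3/PkLow : the holomorphic section near `p`

`k = j κ`. `gap_section` gives `s` with `∫ |v - s|² ≤ 2 E k^(-m)`; `∫ |v|² ≤ 3 B (2 R)^(2m) k^(-m)`, so
`∫ |s|² ≤ C R^(2m) k^(-m)` if `E ≤ 1`, and by `sup_hol` `|s|² ≤ C' R^(2m)`,
`|∇ s|² ≤ C' R^(2m) k`, `gr (|s|²) (|s|²) ≤ 2 |∇ s|² |s|² ≤ (2 C' R^(2m))² k` (`kato`), so by `lip`
`| |s(x)|² - |s(y)|² | ≤ C'' R^(2m) √k (d x + d y)`. Take `a = c R^(-2m)` with `c` small: on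
`{k d² < a²}` the function `|s|²` varies by less than `1/100`. If `E ≤ c' a^(2m)` with `c'` small,
then `∫ |v - s|²` is less than `vol {k d² < a²} / 100`, so `|v - s|² < 1/100` somewhere there.
-/

set_option autoImplicit false

open MeasureTheory Set Filter
open scoped Topology ContDiff ComplexConjugate

namespace Pool.Agent.SYM.V3

private lemma ball_iff {k d b : ℝ} (hk : 0 < k) (hd : 0 ≤ d) (hb : 0 ≤ b) :
    k * d ^ 2 < b ^ 2 ↔ d < b / √k := by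
  have hs : 0 < √k := Real.sqrt_pos.2 hk
  have h1 : k * d ^ 2 = (√k * d) ^ 2 := by rw [mul_pow, Real.sq_sqrt hk.le]
  rw [h1, lt_div_iff₀ hs, mul_comm d]
  exact sq_lt_sq₀ (by positivity) hb

private lemma sqrt_pow {k : ℝ} (hk : 0 < k) (m : ℕ) : √k ^ (2 * m) = k ^ m := by
  rw [pow_mul, Real.sq_sqrt hk.le]

private lemma sub_le {D : Reg} {A : Sec D.X} (hA : A.Facts D) (v s : A.S) (x : D.X) :
    A.n s x ≤ 2 * A.n v x + 2 * A.n (v - s) x ∧ A.n v x ≤ 2 * A.n s x + 2 * A.n (v - s) x := by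
  constructor
  · have h := n_add_le hA v (-(v - s)) one_pos x
    rw [n_neg hA, show v + -(v - s) = s by abel] at h
    norm_num at h
    exact h
  · have h := n_add_le hA s (v - s) one_pos x
    rw [show s + (v - s) = v by abel] at h
    norm_num at h
    exact h

/-- the section of `gap_section` with its bounds -/
private theorem bounds {D : Reg} {Q : Quant D} (hQ : Q.Facts) {P : Pts D} {T : Peak D}
    (hT : T.Facts Q P) {B : ℝ} (hR : P.Rcd Q.m B) :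
    ∃ C : ℝ, 1 ≤ C ∧ ∀ (p : P.P) (j : ℕ) (R ζ E : ℝ) (v : (Q.B j).A0.S), 1 ≤ j →
      1 ≤ j * Q.κ → 1 ≤ R → 0 < E → E ≤ 1 → Approx Q P p j R ζ E v →
      ∃ s, Q.Hol j s ∧ Integrable ((Q.B j).A0.n (v - s)) D.vol ∧
        ∫ x, (Q.B j).A0.n (v - s) x ∂D.vol ≤ 2 * E * ((j * Q.κ) ^ Q.m)⁻¹ ∧
        (∀ x, (Q.B j).A0.n s x ≤ C * R ^ (2 * Q.m)) ∧
        ∀ x, (Q.B j).nab s x ≤ C * R ^ (2 * Q.m) * (j * Q.κ) := by
  have hB1 := hR.one_le
  have hB0 : 0 < B := by linarith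
  have hm := hQ.m_pos
  have hm1 : (1 : ℝ) ≤ Q.m := by exact_mod_cast hm
  set m : ℕ := Q.m with hmdef
  set C1 : ℝ := 6 * B * 4 ^ m + 4 with hC1
  have hC1pos : 0 < C1 := by positivity
  set C2 : ℝ := B * (m : ℝ) ^ m * C1 with hC2
  set C3 : ℝ := B * ((m : ℝ) + 2) ^ m * m * C1 with hC3
  have hC2pos : 0 ≤ C2 := by positivity
  have hC3pos : 0 ≤ C3 := by positivity
  refine ⟨C2 + C3 + 1, by linarith, fun p j R ζ E v hj hk1 hR1 hE0 hE1 hv => ?_⟩
  have hBn := hQ.bun j hj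
  set k : ℝ := j * Q.κ with hk
  have hk0 : 0 < k := by linarith
  have hkm : 0 < k ^ m := by positivity
  have hR0 : 0 < R := by linarith
  have hRm : 1 ≤ R ^ (2 * m) := one_le_pow₀ hR1
  obtain ⟨s, hs, hsi⟩ := gap_section hQ hj ⟨3, hv.le⟩ hv.int (ε := E * (k ^ m)⁻¹) (by positivity)
  obtain ⟨hs0, M, hM⟩ := hs
  have hsb : ∃ M, ∀ x, (Q.B j).A0.n s x ≤ M := ⟨M, fun x => (hM x).1⟩
  have hvb : ∃ M, ∀ x, (Q.B j).A0.n v x ≤ M := ⟨3, hv.le⟩
  have hsI : Integrable ((Q.B j).A0.n s) D.vol := bdd_int hQ.calculus hBn.f0 hsb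
  have hvI : Integrable ((Q.B j).A0.n v) D.vol := bdd_int hQ.calculus hBn.f0 hvb
  have hdI : Integrable ((Q.B j).A0.n (v - s)) D.vol := by
    refine bdd_int hQ.calculus hBn.f0 ?_
    have h1 : ∃ M, ∀ x, (Q.B j).A0.n (-s) x ≤ M := by
      obtain ⟨M, hM⟩ := hsb
      exact ⟨M, fun x => by rw [n_neg hBn.f0]; exact hM x⟩
    simpa only [sub_eq_add_neg] using bdd_add hBn.f0 hvb h1
  have h2E : ∫ x, (Q.B j).A0.n (v - s) x ∂D.vol ≤ 2 * E * (k ^ m)⁻¹ := by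
    refine hsi.trans ?_
    have h1 : (∫ x, (Q.B j).A1.n ((Q.B j).d0 v) x ∂D.vol) / k ≤ E * (k ^ m)⁻¹ := by
      rw [div_le_iff₀ hk0]
      refine hv.energy.trans (le_of_eq ?_)
      ring
    linarith
  -- the integral of `|v|²`
  have hvint : ∫ x, (Q.B j).A0.n v x ∂D.vol ≤ 3 * B * 4 ^ m * R ^ (2 * m) * (k ^ m)⁻¹ := by
    have hfin := hQ.calculus.fin
    set S : Set D.X := {x | P.d p x < 2 * R / √k} with hS
    have hSm : MeasurableSet S := (isOpen_Iio.preimage (hR.cont p)).measurableSet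
    have h1 : ∀ x, (Q.B j).A0.n v x ≤ S.indicator (fun _ => (3 : ℝ)) x := by
      intro x
      by_cases hx : x ∈ S
      · rw [indicator_of_mem hx]; exact hv.le x
      · rw [indicator_of_notMem hx]
        refine le_of_eq (hv.zero x ?_)
        have hx' : ¬ (k * P.d p x ^ 2 < (2 * R) ^ 2) := by
          rw [ball_iff hk0 (hR.nonneg p x) (by positivity)]
          exact hx
        push Not at hx'
        linarith [show (2 * R) ^ 2 = 4 * R ^ 2 by ring]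
    have h2 : ∫ x, (Q.B j).A0.n v x ∂D.vol ≤ ∫ x, S.indicator (fun _ => (3 : ℝ)) x ∂D.vol :=
      integral_mono hvI ((integrable_const (3 : ℝ)).indicator hSm) h1
    have h3 : ∫ x, S.indicator (fun _ => (3 : ℝ)) x ∂D.vol = D.vol.real S * 3 := by
      rw [integral_indicator hSm, setIntegral_const, smul_eq_mul]
    have h4 := hR.vol_le p (2 * R / √k) (by positivity)
    have h5 : (2 * R / √k) ^ (2 * m) = 4 ^ m * R ^ (2 * m) * (k ^ m)⁻¹ := by
      rw [div_pow, sqrt_pow hk0, mul_pow, pow_mul, div_eq_mul_inv]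
      norm_num
    rw [h5] at h4
    calc ∫ x, (Q.B j).A0.n v x ∂D.vol ≤ D.vol.real S * 3 := h2.trans (le_of_eq h3)
      _ ≤ B * (4 ^ m * R ^ (2 * m) * (k ^ m)⁻¹) * 3 := mul_le_mul_of_nonneg_right h4 (by norm_num)
      _ = 3 * B * 4 ^ m * R ^ (2 * m) * (k ^ m)⁻¹ := by ring
  have hsint : ∫ x, (Q.B j).A0.n s x ∂D.vol ≤ C1 * R ^ (2 * m) * (k ^ m)⁻¹ := by
    have h1 : ∫ x, (Q.B j).A0.n s x ∂D.vol ≤
        ∫ x, (2 * (Q.B j).A0.n v x + 2 * (Q.B j).A0.n (v - s) x) ∂D.vol :=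
      integral_mono hsI ((hvI.const_mul 2).add (hdI.const_mul 2))
        (fun x => (sub_le hBn.f0 v s x).1)
    rw [integral_add (hvI.const_mul 2) (hdI.const_mul 2), integral_const_mul,
      integral_const_mul] at h1
    have h2 : (k ^ m)⁻¹ ≤ R ^ (2 * m) * (k ^ m)⁻¹ :=
      le_mul_of_one_le_left (by positivity) hRm
    have h3 : 4 * E * (k ^ m)⁻¹ ≤ 4 * (R ^ (2 * m) * (k ^ m)⁻¹) := by
      have h4 : E * (k ^ m)⁻¹ ≤ (k ^ m)⁻¹ := mul_le_of_le_one_left (by positivity) hE1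
      linarith
    calc ∫ x, (Q.B j).A0.n s x ∂D.vol ≤ _ := h1
      _ ≤ 2 * (3 * B * 4 ^ m * R ^ (2 * m) * (k ^ m)⁻¹) + 2 * (2 * E * (k ^ m)⁻¹) := by linarith
      _ ≤ 6 * B * 4 ^ m * R ^ (2 * m) * (k ^ m)⁻¹ + 4 * (R ^ (2 * m) * (k ^ m)⁻¹) := by linarith
      _ = C1 * R ^ (2 * m) * (k ^ m)⁻¹ := by rw [hC1]; ring
  have hsup := sup_hol hQ hR hj hk1 (hT.grad j hj) (s := s) ⟨hs0, M, hM⟩
  have hcancel : k ^ m * (k ^ m)⁻¹ = 1 := mul_inv_cancel₀ hkm.ne'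
  refine ⟨s, ⟨hs0, M, hM⟩, hdI, h2E, fun x => ?_, fun x => ?_⟩
  · have h1 := (hsup x).1
    have h2 : B * ((m : ℝ) * k) ^ m * ∫ y, (Q.B j).A0.n s y ∂D.vol ≤
        B * ((m : ℝ) * k) ^ m * (C1 * R ^ (2 * m) * (k ^ m)⁻¹) :=
      mul_le_mul_of_nonneg_left hsint (by positivity)
    have h3 : B * ((m : ℝ) * k) ^ m * (C1 * R ^ (2 * m) * (k ^ m)⁻¹) = C2 * R ^ (2 * m) := by
      rw [mul_pow, hC2]
      calc B * ((m : ℝ) ^ m * k ^ m) * (C1 * R ^ (2 * m) * (k ^ m)⁻¹) =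
          B * (m : ℝ) ^ m * C1 * R ^ (2 * m) * (k ^ m * (k ^ m)⁻¹) := by ring
        _ = _ := by rw [hcancel, mul_one]
    refine (h1.trans h2).trans ?_
    rw [h3]
    exact mul_le_mul_of_nonneg_right (by linarith) (by positivity)
  · have h1 := (hsup x).2
    have h2 : B * (((m : ℝ) + 2) * k) ^ m * ((m : ℝ) * k) * ∫ y, (Q.B j).A0.n s y ∂D.vol ≤
        B * (((m : ℝ) + 2) * k) ^ m * ((m : ℝ) * k) * (C1 * R ^ (2 * m) * (k ^ m)⁻¹) :=
      mul_le_mul_of_nonneg_left hsint (by positivity)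
    have h3 : B * (((m : ℝ) + 2) * k) ^ m * ((m : ℝ) * k) * (C1 * R ^ (2 * m) * (k ^ m)⁻¹) =
        C3 * R ^ (2 * m) * k := by
      rw [mul_pow, hC3]
      calc B * (((m : ℝ) + 2) ^ m * k ^ m) * ((m : ℝ) * k) * (C1 * R ^ (2 * m) * (k ^ m)⁻¹) =
          B * ((m : ℝ) + 2) ^ m * m * C1 * R ^ (2 * m) * k * (k ^ m * (k ^ m)⁻¹) := by ring
        _ = _ := by rw [hcancel, mul_one]
    refine (h1.trans h2).trans ?_
    rw [h3]
    refine mul_le_mul_of_nonneg_right ?_ hk0.le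
    exact mul_le_mul_of_nonneg_right (by linarith) (by positivity)

theorem exists_hol {D : Reg} {Q : Quant D} (hQ : Q.Facts) {P : Pts D} {T : Peak D}
    (hT : T.Facts Q P) {B : ℝ} (hR : P.Rcd Q.m B) :
    ∃ c : ℝ, 0 < c ∧ c ≤ 1 / 4 ∧ ∀ (p : P.P) (j : ℕ) (R ζ E : ℝ) (v : (Q.B j).A0.S), 1 ≤ j →
      1 ≤ j * Q.κ → 1 ≤ R → 0 < ζ → ζ ≤ 1 / 4 → 0 < E → E ≤ c * (c / R ^ (2 * Q.m)) ^ (2 * Q.m) →
      Approx Q P p j R ζ E v →
      ∃ s, Q.Hol j s ∧
        (∀ x, j * Q.κ * P.d p x ^ 2 < (c / R ^ (2 * Q.m)) ^ 2 → 1 / 8 ≤ (Q.B j).A0.n s x) ∧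
        ∀ q, (∀ x, j * Q.κ * P.d q x ^ 2 < 1 → (Q.B j).A0.n v x = 0) →
          ∀ x, j * Q.κ * P.d q x ^ 2 < (c / R ^ (2 * Q.m)) ^ 2 → (Q.B j).A0.n s x ≤ 1 / 16 := by
  obtain ⟨C, hC1, hb⟩ := bounds hQ hT hR
  have hB1 := hR.one_le
  have hB0 : 0 < B := by linarith
  have hC0 : 0 < C := by linarith
  set m : ℕ := Q.m with hmdef
  set c : ℝ := 1 / (400 * B * C) with hc
  have hc0 : 0 < c := by positivity
  have hBC : 1 ≤ B * C := one_le_mul_of_one_le_of_one_le hB1 hC1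
  have hc400 : c ≤ 1 / 400 := by
    rw [hc, div_le_div_iff₀ (by positivity) (by norm_num)]
    nlinarith
  have hcB : 400 * B * C * c = 1 := by
    rw [hc]; field_simp
  refine ⟨c, hc0, by linarith, fun p j R ζ E v hj hk1 hR1 hζ0 hζ4 hE0 hEc hv => ?_⟩
  have hBn := hQ.bun j hj
  have hR0 : 0 < R := by linarith
  have hRm : 1 ≤ R ^ (2 * m) := one_le_pow₀ hR1
  have hRm0 : 0 < R ^ (2 * m) := by positivity
  set a : ℝ := c / R ^ (2 * m) with ha
  have ha0 : 0 < a := by positivity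
  have hac : a ≤ c := div_le_self hc0.le hRm
  have ha1 : a ≤ 1 := by linarith
  have haR : a * R ^ (2 * m) = c := by rw [ha]; field_simp
  have ham : a ^ (2 * m) ≤ 1 := pow_le_one₀ ha0.le ha1
  have hE1 : E ≤ 1 := by
    refine hEc.trans ?_
    have h1 : c * a ^ (2 * m) ≤ c * 1 := mul_le_mul_of_nonneg_left ham hc0.le
    linarith
  obtain ⟨s, hs, hdI, h2E, hn, hnab⟩ := hb p j R ζ E v hj hk1 hR1 hE0 hE1 hv
  set k : ℝ := j * Q.κ with hk
  have hk0 : 0 < k := by linarith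
  have hkm : 0 < k ^ m := by positivity
  have hsq0 : 0 < √k := Real.sqrt_pos.2 hk0
  have hsq1 : 1 ≤ √k := Real.one_le_sqrt.2 hk1
  have hsq : √k ^ 2 = k := Real.sq_sqrt hk0.le
  -- Lipschitz bound
  have hlip : ∀ (q : P.P) x y, |(Q.B j).A0.n s x - (Q.B j).A0.n s y| ≤
      B * (2 * (C * R ^ (2 * m)) * √k) * (P.d q x + P.d q y) := by
    refine hR.lip _ (hBn.n_sm s) _ (by positivity) fun x => ?_
    have h1 := hBn.kato s x
    have h2 := hn x
    have h3 := hnab x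
    have h4 : 0 ≤ (Q.B j).A0.n s x := hBn.f0.nonneg s x
    have h5 : 0 ≤ (Q.B j).nab s x := (hBn.f1.nonneg _ x).trans (hBn.d0_le s x)
    have h6 : 0 ≤ C * R ^ (2 * m) := by positivity
    have h7 : (Q.B j).nab s x * (Q.B j).A0.n s x ≤ C * R ^ (2 * m) * k * (C * R ^ (2 * m)) :=
      mul_le_mul h3 h2 h4 (by positivity)
    have h8 : (2 * (C * R ^ (2 * m)) * √k) ^ 2 = 4 * (C * R ^ (2 * m)) ^ 2 * k := by
      rw [mul_pow, hsq]; ring
    have h9 : 0 ≤ (C * R ^ (2 * m)) ^ 2 * k := by positivity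
    rw [h8]
    calc D.gr ((Q.B j).A0.n s) ((Q.B j).A0.n s) x ≤ 2 * ((Q.B j).nab s x * (Q.B j).A0.n s x) := by
          linarith
      _ ≤ 2 * (C * R ^ (2 * m) * k * (C * R ^ (2 * m))) := by linarith
      _ = 2 * ((C * R ^ (2 * m)) ^ 2 * k) := by ring
      _ ≤ 4 * (C * R ^ (2 * m)) ^ 2 * k := by linarith
  have hvar : ∀ (q : P.P) x y, k * P.d q x ^ 2 < a ^ 2 → k * P.d q y ^ 2 < a ^ 2 →
      |(Q.B j).A0.n s x - (Q.B j).A0.n s y| ≤ 1 / 100 := by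
    intro q x y hx hy
    rw [ball_iff hk0 (hR.nonneg q x) ha0.le, lt_div_iff₀ hsq0] at hx
    rw [ball_iff hk0 (hR.nonneg q y) ha0.le, lt_div_iff₀ hsq0] at hy
    refine (hlip q x y).trans ?_
    have h1 : B * (2 * (C * R ^ (2 * m)) * √k) * (P.d q x + P.d q y) =
        2 * B * C * R ^ (2 * m) * (P.d q x * √k + P.d q y * √k) := by ring
    rw [h1]
    have h2 : 2 * B * C * R ^ (2 * m) * (P.d q x * √k + P.d q y * √k) ≤
        2 * B * C * R ^ (2 * m) * (2 * a) := by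
      refine mul_le_mul_of_nonneg_left (by linarith) (by positivity)
    have h3 : 2 * B * C * R ^ (2 * m) * (2 * a) = (400 * B * C * c) / 100 := by
      rw [← haR]; ring
    rw [hcB] at h3
    linarith
  -- a good point in every ball
  have hpt : ∀ q : P.P, ∃ y, k * P.d q y ^ 2 < a ^ 2 ∧ (Q.B j).A0.n (v - s) y < 1 / 100 := by
    intro q
    by_contra hcon
    push Not at hcon
    have hfin := hQ.calculus.fin
    set S : Set D.X := {x | P.d q x < a / √k} with hS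
    have hSm : MeasurableSet S := (isOpen_Iio.preimage (hR.cont q)).measurableSet
    have hρ0 : 0 < a / √k := by positivity
    have hρ1 : a / √k ≤ 1 := by
      rw [div_le_one hsq0]; linarith
    have h1 := hR.le_vol q (a / √k) hρ0 hρ1
    have h2 : (a / √k) ^ (2 * m) = a ^ (2 * m) * (k ^ m)⁻¹ := by
      rw [div_pow, sqrt_pow hk0, div_eq_mul_inv]
    rw [h2] at h1
    have h3 : ∀ x, S.indicator (fun _ => (1 / 100 : ℝ)) x ≤ (Q.B j).A0.n (v - s) x := by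
      intro x
      by_cases hx : x ∈ S
      · rw [indicator_of_mem hx]
        exact hcon x ((ball_iff hk0 (hR.nonneg q x) ha0.le).2 hx)
      · rw [indicator_of_notMem hx]
        exact hBn.f0.nonneg _ x
    have h4 : ∫ x, S.indicator (fun _ => (1 / 100 : ℝ)) x ∂D.vol ≤
        ∫ x, (Q.B j).A0.n (v - s) x ∂D.vol :=
      integral_mono ((integrable_const (1 / 100 : ℝ)).indicator hSm) hdI h3
    rw [integral_indicator hSm, setIntegral_const, smul_eq_mul] at h4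
    have hvol0 : 0 < D.vol.real S := by
      have : 0 < a ^ (2 * m) * (k ^ m)⁻¹ := by positivity
      have h5 : 0 < B * D.vol.real S := lt_of_lt_of_le this h1
      exact (pos_iff_pos_of_mul_pos h5).1 hB0
    have h5 : 2 * E * (k ^ m)⁻¹ ≤ 2 * c * B * D.vol.real S := by
      have h6 : E * (k ^ m)⁻¹ ≤ c * (a ^ (2 * m) * (k ^ m)⁻¹) := by
        rw [← mul_assoc]
        exact mul_le_mul_of_nonneg_right hEc (by positivity)
      have h7 : c * (a ^ (2 * m) * (k ^ m)⁻¹) ≤ c * (B * D.vol.real S) :=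
        mul_le_mul_of_nonneg_left h1 hc0.le
      linarith
    have h8 : 2 * c * B ≤ 1 / 200 := by
      have h9 : 400 * B * c ≤ 400 * B * C * c := by
        have : 400 * B * c * 1 ≤ 400 * B * c * C := mul_le_mul_of_nonneg_left hC1 (by positivity)
        linarith
      linarith
    have h10 : 2 * c * B * D.vol.real S ≤ 1 / 200 * D.vol.real S :=
      mul_le_mul_of_nonneg_right h8 hvol0.le
    linarith
  refine ⟨s, hs, fun x hx => ?_, fun q hq x hx => ?_⟩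
  · obtain ⟨y, hy1, hy2⟩ := hpt p
    have h1 := (sub_le hBn.f0 v s y).2
    have h2 := hv.ge y (lt_of_lt_of_le hy1 (pow_le_pow_left₀ ha0.le (by linarith) 2))
    have h3 : 23 / 32 ≤ Real.exp (-(k * P.d p y ^ 2 / 2 + ζ)) := by
      have h4 := Real.add_one_le_exp (-(k * P.d p y ^ 2 / 2 + ζ))
      have h5 : a ^ 2 ≤ 1 / 16 := by
        have := pow_le_pow_left₀ ha0.le (by linarith : a ≤ 1 / 4) 2
        norm_num at this
        linarith
      linarith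
    have h4 := abs_le.1 (hvar p x y hx hy1)
    linarith [h4.1]
  · obtain ⟨y, hy1, hy2⟩ := hpt q
    have h1 := (sub_le hBn.f0 v s y).1
    have h2 : (Q.B j).A0.n v y = 0 := by
      refine hq y (lt_of_lt_of_le hy1 ?_)
      exact pow_le_one₀ ha0.le ha1
    have h4 := abs_le.1 (hvar q x y hx hy1)
    linarith [h4.2]

end Pool.Agent.SYM.V3
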