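import Pool.Agent.SYM.V3.PkLow

/-!
# SYM/V3/PkMain : holomorphic sections separate the points of the completion

For `p`, `q` choose `R` with `C R^(2m) exp(- R² / 2) ≤ E / 2`, `E = c (c / R^(2m))^(2m)`, then `ζ`, then
`j` from `peak` with `j κ` so large that the balls of radius `2 R / √k + 1 / √k` around `p` and `q` are
disjoint (`Rcd.sep`).
-/

set_option autoImplicit false

open MeasureTheory Set Filter
open scoped Topology ContDiff ComplexConjugate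

namespace Pool.Agent.SYM.V3

private lemma choose_R (m : ℕ) {C c : ℝ} (hc : 0 < c) :
    ∃ R : ℝ, 1 ≤ R ∧ C * R ^ (2 * m) * Real.exp (-(R ^ 2 / 2)) ≤
      c * (c / R ^ (2 * m)) ^ (2 * m) / 2 := by
  set N : ℕ := m + 2 * m ^ 2 with hN
  have h1 : Tendsto (fun x : ℝ => C * 2 ^ N * (x ^ N * Real.exp (-x))) atTop (𝓝 0) := by
    have := (Real.tendsto_pow_mul_exp_neg_atTop_nhds_zero N).const_mul (C * 2 ^ N)
    simpa using this
  have hE : 0 < c * c ^ (2 * m) / 2 := by positivity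
  obtain ⟨t, ht1, ht2⟩ := ((h1.eventually (gt_mem_nhds hE)).and (eventually_ge_atTop 1)).exists
  have ht0 : (0 : ℝ) < 2 * t := by linarith
  have hs : √(2 * t) ^ 2 = 2 * t := Real.sq_sqrt ht0.le
  have hp : √(2 * t) ^ (2 * m) = (2 * t) ^ m := by rw [pow_mul, hs]
  refine ⟨√(2 * t), ?_, ?_⟩
  · rw [Real.one_le_sqrt]
    linarith
  · rw [hs, hp, show -(2 * t / 2) = -t by ring, div_pow, ← pow_mul]
    have hpos : (0 : ℝ) < (2 * t) ^ (m * (2 * m)) := by positivity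
    have e1 : c * (c ^ (2 * m) / (2 * t) ^ (m * (2 * m))) / 2 =
        (c * c ^ (2 * m) / 2) / (2 * t) ^ (m * (2 * m)) := by ring
    rw [e1, le_div_iff₀ hpos]
    have e2 : C * (2 * t) ^ m * Real.exp (-t) * (2 * t) ^ (m * (2 * m)) =
        C * 2 ^ N * (t ^ N * Real.exp (-t)) := by
      have : (2 * t) ^ m * (2 * t) ^ (m * (2 * m)) = 2 ^ N * t ^ N := by
        rw [← pow_add, ← mul_pow]
        congr 1
        rw [hN]
        ring
      calc C * (2 * t) ^ m * Real.exp (-t) * (2 * t) ^ (m * (2 * m)) =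
          C * ((2 * t) ^ m * (2 * t) ^ (m * (2 * m))) * Real.exp (-t) := by ring
        _ = _ := by rw [this]; ring
    rw [e2]
    exact ht1.le

private lemma choose_z {C' E : ℝ} (hC : 0 < C') (hE : 0 < E) :
    ∃ ζ : ℝ, 0 < ζ ∧ ζ ≤ 1 / 4 ∧ C' * ζ ^ 2 ≤ E / 2 := by
  refine ⟨min (1 / 4) (√(E / (2 * C'))), ?_, min_le_left _ _, ?_⟩
  · have : 0 < √(E / (2 * C')) := Real.sqrt_pos.2 (by positivity)
    exact lt_min (by norm_num) this
  · have h0 : 0 < min (1 / 4) (√(E / (2 * C'))) :=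
      lt_min (by norm_num) (Real.sqrt_pos.2 (by positivity))
    have h1 : min (1 / 4) (√(E / (2 * C'))) ^ 2 ≤ E / (2 * C') := by
      calc min (1 / 4) (√(E / (2 * C'))) ^ 2 ≤ √(E / (2 * C')) ^ 2 :=
            pow_le_pow_left₀ h0.le (min_le_right _ _) 2
        _ = _ := Real.sq_sqrt (by positivity)
    calc C' * min (1 / 4) (√(E / (2 * C'))) ^ 2 ≤ C' * (E / (2 * C')) :=
          mul_le_mul_of_nonneg_left h1 hC.le
      _ = E / 2 := by field_simp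

/-- the sections at two points, with the same `j` -/
private theorem pair {D : Reg} {Q : Quant D} (hQ : Q.Facts) {P : Pts D} {T : Peak D}
    (hT : T.Facts Q P) (hE : D.EigenLip) {B : ℝ} (hR : P.Rcd Q.m B) (p q : P.P) {ρ₀ : ℝ}
    (hρ₀ : 0 < ρ₀) :
    ∃ (j : ℕ) (a : ℝ), 1 ≤ j ∧ 0 < a ∧ ∀ z, z = p ∨ z = q → ∃ s, Q.Hol j s ∧
      (∀ x, P.d z x < a → 1 / 8 ≤ (Q.B j).A0.n s x) ∧
      ∀ q', (∀ x, ρ₀ ≤ P.d z x + P.d q' x) → ∀ x, P.d q' x < a → (Q.B j).A0.n s x ≤ 1 / 16 := by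
  obtain ⟨C, hC0, hC⟩ := exists_approx hQ hT hR
  obtain ⟨c, hc0, hc4, hc⟩ := exists_hol hQ hT hR
  obtain ⟨R, hR1, hRE⟩ := choose_R (C := C) Q.m hc0
  have hR0 : 0 < R := by linarith
  set E₀ : ℝ := c * (c / R ^ (2 * Q.m)) ^ (2 * Q.m) with hE₀
  have hE₀pos : 0 < E₀ := by positivity
  obtain ⟨ζ, hζ0, hζ4, hζE⟩ := choose_z (C' := C * R ^ (2 * Q.m)) (by positivity) hE₀pos
  obtain ⟨j, hj1, hjρ, hpk⟩ := hT.peak hE p q (8 * R) ζ (min 1 (ρ₀ / (2 * R + 1)))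
    (by positivity) hζ0 (lt_min one_pos (by positivity))
  have hκ := hQ.κ_pos
  have hjpos : (0 : ℝ) < j := by exact_mod_cast hj1
  have hk0 : 0 < j * Q.κ := mul_pos hjpos hκ
  have hmin0 : 0 < min 1 (ρ₀ / (2 * R + 1)) := lt_min one_pos (by positivity)
  have hk1 : 1 ≤ j * Q.κ := by
    have h1 : min 1 (ρ₀ / (2 * R + 1)) ^ 2 ≤ 1 := by
      have := pow_le_pow_left₀ hmin0.le (min_le_left 1 (ρ₀ / (2 * R + 1))) 2
      simpa using this
    nlinarith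
  have hsq0 : 0 < √(j * Q.κ) := Real.sqrt_pos.2 hk0
  have hsq : √(j * Q.κ) ^ 2 = j * Q.κ := Real.sq_sqrt hk0.le
  -- the balls are disjoint
  have hbig : 2 * R + 1 ≤ √(j * Q.κ) * ρ₀ := by
    have h1 : 1 ≤ √(j * Q.κ) * min 1 (ρ₀ / (2 * R + 1)) := by
      have h2 : 1 ≤ (√(j * Q.κ) * min 1 (ρ₀ / (2 * R + 1))) ^ 2 := by
        rw [mul_pow, hsq]; exact hjρ
      exact (one_le_sq_iff₀ (by positivity)).1 h2
    have h3 : √(j * Q.κ) * min 1 (ρ₀ / (2 * R + 1)) ≤ √(j * Q.κ) * (ρ₀ / (2 * R + 1)) :=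
      mul_le_mul_of_nonneg_left (min_le_right _ _) hsq0.le
    have h4 := h1.trans h3
    rw [mul_div_assoc', le_div_iff₀ (by positivity), one_mul] at h4
    exact h4
  have ha0 : 0 < c / R ^ (2 * Q.m) := by positivity
  refine ⟨j, c / R ^ (2 * Q.m) / √(j * Q.κ), hj1, by positivity, fun z hz => ?_⟩
  obtain ⟨φ, φ', hpot, hφ⟩ := hpk z hz
  obtain ⟨v, hv⟩ := hC z j R ζ hj1 hR1 hζ0 (by linarith) ⟨φ, φ', hpot, hφ⟩
  have hEle : C * R ^ (2 * Q.m) * (Real.exp (-(R ^ 2 / 2)) + ζ ^ 2) ≤ E₀ := by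
    rw [mul_add]
    linarith
  obtain ⟨s, hs1, hs2, hs3⟩ := hc z j R ζ _ v hj1 hk1 hR1 hζ0 hζ4 (by positivity) hEle hv
  have hball : ∀ d : ℝ, 0 ≤ d → d < c / R ^ (2 * Q.m) / √(j * Q.κ) →
      j * Q.κ * d ^ 2 < (c / R ^ (2 * Q.m)) ^ 2 := by
    intro d hd0 hd
    rw [lt_div_iff₀ hsq0] at hd
    have := pow_lt_pow_left₀ hd (by positivity) two_ne_zero
    rw [mul_pow, hsq] at this
    linarith
  refine ⟨s, hs1, fun x hx => hs2 x (hball _ (hR.nonneg z x) hx), fun q' hq' x hx => ?_⟩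
  refine hs3 q' (fun y hy => ?_) x (hball _ (hR.nonneg q' x) hx)
  refine hv.zero y ?_
  have h1 : √(j * Q.κ) * P.d q' y < 1 := by
    have : (√(j * Q.κ) * P.d q' y) ^ 2 < 1 := by rw [mul_pow, hsq]; exact hy
    exact (sq_lt_one_iff₀ (mul_nonneg hsq0.le (hR.nonneg q' y))).1 this
  have h2 : 2 * R ≤ √(j * Q.κ) * P.d z y := by
    have h3 := mul_le_mul_of_nonneg_left (hq' y) hsq0.le
    rw [mul_add] at h3
    linarith
  have h4 := pow_le_pow_left₀ (by positivity) h2 2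
  rw [mul_pow, mul_pow, hsq] at h4
  linarith

theorem sep_main {D : Reg} {Q : Quant D} (hQ : Q.Facts) {P : Pts D} {T : Peak D}
    (hT : T.Facts Q P) : Q.Sep P := by
  have hE : D.EigenLip := fun _ hf _ _ hM hl =>
    Reg.lipschitz_of_sobolev hQ.calculus hQ.leib hQ.pole hQ.approx hQ.sobolev hf hM hl
  obtain ⟨B, hR⟩ := hT.rcd hE
  refine ⟨fun p => ?_, fun p q hpq => ?_⟩
  · obtain ⟨j, a, hj, ha, h⟩ := pair hQ hT hE hR p p one_pos
    obtain ⟨s, hs1, hs2, -⟩ := h p (Or.inl rfl)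
    exact ⟨j, s, 1 / 8, a, hj, hs1, by norm_num, ha, hs2⟩
  · obtain ⟨ρ₀, hρ₀, hd⟩ := hR.sep p q hpq
    obtain ⟨j, a, hj, ha, h⟩ := pair hQ hT hE hR p q hρ₀
    obtain ⟨s, hs1, hs2, hs3⟩ := h p (Or.inl rfl)
    obtain ⟨t, ht1, ht2, ht3⟩ := h q (Or.inr rfl)
    refine ⟨j, s, t, 1 / 8, a, hj, hs1, ht1, by norm_num, ha, fun x hx => ⟨hs2 x hx, ?_⟩,
      fun x hx => ⟨ht2 x hx, ?_⟩⟩
    · have := ht3 p (fun y => by rw [add_comm]; exact hd y) x hx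
      linarith
    · have := hs3 q hd x hx
      linarith

end Pool.Agent.SYM.V3
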