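import Pool.Agent.SYM.V3.Quant

/-!
# SYM/V3/QExt : almost subharmonic functions with logarithmic growth are bounded

`v ≥ 0` smooth on `X`, `v ≤ K |φ|`, `Δ v ≥ - K`. Put `ψ_T t = T √(T² + t²) - T²` (`0 ≤ ψ_T t ≤ T t`,
`0 ≤ ψ_T' t ≤ t` for `t ≥ 0`, `ψ_T'' t = (1 + t²/T²)^(-3/2) → 1` for `T → ∞`, smooth on `ℝ`).
`Δ ψ_T(v) = ψ_T' Δ v + ψ_T'' gr v v ≥ - K v + ψ_T''(v) gr v v`. `Reg.lap_cut_tendsto` (growth
`ψ_T(v) ≤ T K |φ|`) and `Reg.fatou_cut` give `∫ ψ_T''(v) gr v v ≤ K ∫ v` for every `T`, then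
`T = j + 1 → ∞` with `Reg.fatou` (as in the proof of `Reg.h20_int` in `SYM/SingLip.lean`), so
`gr v v` is integrable; `v² ≤ K² φ²` is integrable; apply `Moser` to `v + 1`
(`Δ (v+1) = Δ v ≥ - K (v + 1)`).
-/

set_option autoImplicit false

open MeasureTheory Set Filter
open scoped Topology ContDiff

namespace Pool.Agent.SYM.V3

/-- `ψ_T` -/
private noncomputable def psi (T t : ℝ) : ℝ := T * √(T ^ 2 + t ^ 2) - T ^ 2

private lemma rpos {T : ℝ} (hT : 0 < T) (t : ℝ) : 0 < √(T ^ 2 + t ^ 2) :=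
  Real.sqrt_pos.2 (by positivity)

private lemma psi_contDiff {T : ℝ} (hT : 0 < T) : ContDiff ℝ ∞ (psi T) := by
  unfold psi
  refine (contDiff_const.mul (ContDiff.sqrt (by fun_prop) fun t => ?_)).sub contDiff_const
  positivity

private lemma psi_hasDeriv {T : ℝ} (hT : 0 < T) (t : ℝ) :
    HasDerivAt (psi T) (T * t / √(T ^ 2 + t ^ 2)) t := by
  have h1 : HasDerivAt (fun t : ℝ => T ^ 2 + t ^ 2) (2 * t) t := by
    simpa using (hasDerivAt_pow 2 t).const_add (T ^ 2)
  have h2 := h1.sqrt (by positivity : T ^ 2 + t ^ 2 ≠ 0)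
  have h3 := (h2.const_mul T).sub_const (T ^ 2)
  have hr := rpos hT t
  have e : T * (2 * t / (2 * √(T ^ 2 + t ^ 2))) = T * t / √(T ^ 2 + t ^ 2) := by
    field_simp
  rw [e] at h3
  exact h3

private lemma psi_deriv2 {T : ℝ} (hT : 0 < T) (t : ℝ) :
    deriv (deriv (psi T)) t = T ^ 3 / √(T ^ 2 + t ^ 2) ^ 3 := by
  have he : deriv (psi T) = fun t => T * t / √(T ^ 2 + t ^ 2) :=
    funext fun t => (psi_hasDeriv hT t).deriv
  rw [he]
  have h1 : HasDerivAt (fun t : ℝ => T ^ 2 + t ^ 2) (2 * t) t := by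
    simpa using (hasDerivAt_pow 2 t).const_add (T ^ 2)
  have h2 := h1.sqrt (by positivity : T ^ 2 + t ^ 2 ≠ 0)
  have hr := rpos hT t
  have h4 : HasDerivAt (fun t : ℝ => T * t) T t := by
    simpa using (hasDerivAt_id t).const_mul T
  have h3 := (h4.div h2 hr.ne').deriv
  have hsq : √(T ^ 2 + t ^ 2) ^ 2 = T ^ 2 + t ^ 2 := Real.sq_sqrt (by positivity)
  refine h3.trans ?_
  have e : T * √(T ^ 2 + t ^ 2) - T * t * (2 * t / (2 * √(T ^ 2 + t ^ 2))) =
      T ^ 3 / √(T ^ 2 + t ^ 2) := by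
    rw [eq_div_iff hr.ne']
    calc (T * √(T ^ 2 + t ^ 2) - T * t * (2 * t / (2 * √(T ^ 2 + t ^ 2)))) * √(T ^ 2 + t ^ 2)
        = T * √(T ^ 2 + t ^ 2) ^ 2 - T * t ^ 2 := by field_simp
      _ = T ^ 3 := by rw [hsq]; ring
  rw [e, div_div]
  congr 1
  ring

private lemma psi_facts {T : ℝ} (hT : 0 < T) {t : ℝ} (ht : 0 ≤ t) :
    0 ≤ psi T t ∧ psi T t ≤ T * t ∧ 0 ≤ T * t / √(T ^ 2 + t ^ 2) ∧
      T * t / √(T ^ 2 + t ^ 2) ≤ t := by
  have hr := rpos hT t
  have h1 : T ≤ √(T ^ 2 + t ^ 2) := Real.le_sqrt_of_sq_le (by nlinarith [sq_nonneg t])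
  have h2 : √(T ^ 2 + t ^ 2) ≤ T + t := by
    rw [Real.sqrt_le_left (by linarith)]
    nlinarith [mul_nonneg hT.le ht]
  refine ⟨?_, ?_, by positivity, ?_⟩
  · unfold psi
    nlinarith
  · unfold psi
    nlinarith
  · rw [div_le_iff₀ hr]
    nlinarith

theorem bounded_of_log {D : Reg} {φ : D.X → ℝ} (hC : D.Calculus) (hL : D.Leibniz) (hP : D.Pole φ)
    (hMo : D.Moser) (hφ : Integrable (fun x => φ x ^ 2) D.vol) {v : D.X → ℝ} (hv : v ∈ D.sm)
    (h0 : ∀ x, 0 ≤ v x) {K : ℝ} (hK : ∀ x, v x ≤ K * |φ x|) (hl : ∀ x, -K ≤ D.lap v x) :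
    ∃ M, ∀ x, v x ≤ M := by
  have _ := hL
  by_cases hne : Nonempty D.X
  swap
  · exact ⟨0, fun x => (hne ⟨x⟩).elim⟩
  have hfin := hC.fin
  have hK0 : 0 ≤ K := by
    obtain ⟨x⟩ := hne
    have h1 := (h0 x).trans (hK x)
    have h2 : 0 < |φ x| := abs_pos.2 (hP.neg x).ne
    by_contra hneg
    have := mul_neg_of_neg_of_pos (not_le.1 hneg) h2
    linarith
  have cv : Continuous v := hC.sm_cont v hv
  have cφ : Continuous φ := hC.sm_cont φ hP.sm
  have hv2 : Integrable (fun x => v x ^ 2) D.vol := by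
    refine Integrable.mono' (hφ.const_mul (K ^ 2)) (cv.pow 2).aestronglyMeasurable
      (ae_of_all _ fun x => ?_)
    rw [Real.norm_of_nonneg (sq_nonneg _), ← sq_abs (φ x), ← mul_pow]
    exact pow_le_pow_left₀ (h0 x) (hK x) 2
  have hv1 : Integrable v D.vol := by
    refine Integrable.mono' (hv2.add (integrable_const 1)) cv.aestronglyMeasurable
      (ae_of_all _ fun x => ?_)
    rw [Real.norm_of_nonneg (h0 x)]
    show v x ≤ v x ^ 2 + 1
    nlinarith [sq_nonneg (v x - 1)]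
  have cg : Continuous (D.gr v v) := hC.sm_cont _ (hC.gr_sm v hv v hv)
  have g0 := hC.gr_nonneg v hv
  set R : ℝ := K * ∫ x, v x ∂D.vol with hR
  have step : ∀ T : ℝ, 0 < T →
      Integrable (fun x => T ^ 3 / √(T ^ 2 + v x ^ 2) ^ 3 * D.gr v v x) D.vol ∧
      ∫ x, T ^ 3 / √(T ^ 2 + v x ^ 2) ^ 3 * D.gr v v x ∂D.vol ≤ R := by
    intro T hT
    set W : D.X → ℝ := fun x => psi T (v x) with hW
    have hWs : W ∈ D.sm := hC.comp univ (psi T) isOpen_univ (psi_contDiff hT).contDiffOn v hv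
      (fun _ => mem_univ _)
    have hlapW : ∀ x, D.lap W x = T * v x / √(T ^ 2 + v x ^ 2) * D.lap v x +
        T ^ 3 / √(T ^ 2 + v x ^ 2) ^ 3 * D.gr v v x := by
      intro x
      have e := hC.lap_comp univ (psi T) isOpen_univ (psi_contDiff hT).contDiffOn v hv
        (fun _ => mem_univ _) x
      rw [(psi_hasDeriv hT (v x)).deriv, psi_deriv2 hT] at e
      exact e
    have h1 := Reg.lap_cut_tendsto hC hP hWs (M := T * K) (fun x => by
      obtain ⟨p1, p2, -, -⟩ := psi_facts hT (h0 x)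
      rw [hW]
      simp only
      rw [abs_of_nonneg p1, mul_assoc]
      exact p2.trans (mul_le_mul_of_nonneg_left (hK x) hT.le))
    have h2 := (Reg.cut_tendsto_integral hC hP cv hv1).const_mul K
    have hlim := h1.add h2
    rw [zero_add] at hlim
    have hcont : Continuous (fun x => T ^ 3 / √(T ^ 2 + v x ^ 2) ^ 3 * D.gr v v x) := by
      refine (continuous_const.div ?_ fun x => ?_).mul cg
      · exact ((continuous_const.add (cv.pow 2)).sqrt).pow 3
      · exact (pow_pos (rpos hT (v x)) 3).ne'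
    refine Reg.fatou_cut hC hP hcont (fun x => ?_) hlim (fun j => ?_)
    · have := rpos hT (v x)
      exact mul_nonneg (by positivity) (g0 x)
    have hχ := Reg.cut_cs hP (φ := φ) j
    have i0 := hC.cs_int _ hχ _ hcont
    have i1 := hC.cs_int _ hχ _ (hC.sm_cont _ (hC.lap_sm _ hWs))
    have i2 := hC.cs_int _ hχ _ cv
    rw [← integral_const_mul, ← integral_add i1 (i2.const_mul K)]
    refine integral_mono i0 (i1.add (i2.const_mul K)) (fun x => ?_)
    show Reg.cut φ j x * (T ^ 3 / √(T ^ 2 + v x ^ 2) ^ 3 * D.gr v v x) ≤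
      Reg.cut φ j x * D.lap W x + K * (Reg.cut φ j x * v x)
    have c0 := Reg.cut_nonneg (φ := φ) j x
    obtain ⟨-, -, p3, p4⟩ := psi_facts hT (h0 x)
    have e1 : -(K * v x) ≤ T * v x / √(T ^ 2 + v x ^ 2) * D.lap v x := by
      have f1 := mul_le_mul_of_nonneg_left (hl x) p3
      have f2 := mul_le_mul_of_nonneg_right p4 hK0
      nlinarith
    have e2 : T ^ 3 / √(T ^ 2 + v x ^ 2) ^ 3 * D.gr v v x ≤ D.lap W x + K * v x := by
      rw [hlapW]
      linarith
    calc Reg.cut φ j x * (T ^ 3 / √(T ^ 2 + v x ^ 2) ^ 3 * D.gr v v x)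
        ≤ Reg.cut φ j x * (D.lap W x + K * v x) := mul_le_mul_of_nonneg_left e2 c0
      _ = _ := by ring
  have hgi : Integrable (D.gr v v) D.vol := by
    refine (Reg.fatou (G := fun (j : ℕ) x => ((j : ℝ) + 1) ^ 3 /
      √(((j : ℝ) + 1) ^ 2 + v x ^ 2) ^ 3 * D.gr v v x) (fun j => (step _ (by positivity)).1)
      (fun j x => ?_) cg.aestronglyMeasurable
      (fun x => ?_) (tendsto_const_nhds (x := R)) (fun j => (step _ (by positivity)).2)).1
    · have := rpos (T := (j : ℝ) + 1) (by positivity) (v x)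
      exact mul_nonneg (by positivity) (g0 x)
    · have h1 : Tendsto (fun j : ℕ => (j : ℝ) + 1) atTop atTop :=
        tendsto_atTop_add_const_right _ _ tendsto_natCast_atTop_atTop
      have h2 : Tendsto (fun j : ℕ => v x / ((j : ℝ) + 1)) atTop (𝓝 0) := h1.const_div_atTop _
      have h3 : Tendsto (fun j : ℕ => √(1 + (v x / ((j : ℝ) + 1)) ^ 2)) atTop (𝓝 1) := by
        have := ((h2.pow 2).const_add 1).sqrt
        simpa using this
      have h4 : Tendsto (fun j : ℕ => (1 / √(1 + (v x / ((j : ℝ) + 1)) ^ 2)) ^ 3) atTop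
          (𝓝 1) := by
        have := ((tendsto_const_nhds (x := (1 : ℝ))).div h3 one_ne_zero).pow 3
        simpa using this
      have e : (fun j : ℕ => ((j : ℝ) + 1) ^ 3 / √(((j : ℝ) + 1) ^ 2 + v x ^ 2) ^ 3 *
          D.gr v v x) = fun j : ℕ => (1 / √(1 + (v x / ((j : ℝ) + 1)) ^ 2)) ^ 3 * D.gr v v x := by
        funext j
        have hj : (0 : ℝ) < (j : ℝ) + 1 := by positivity
        have e1 : ((j : ℝ) + 1) ^ 2 + v x ^ 2 =
            ((j : ℝ) + 1) ^ 2 * (1 + (v x / ((j : ℝ) + 1)) ^ 2) := by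
          field_simp
        have e2 : √(((j : ℝ) + 1) ^ 2 + v x ^ 2) =
            ((j : ℝ) + 1) * √(1 + (v x / ((j : ℝ) + 1)) ^ 2) := by
          rw [e1, Real.sqrt_mul (by positivity), Real.sqrt_sq hj.le]
        have h5 : 0 < √(1 + (v x / ((j : ℝ) + 1)) ^ 2) := Real.sqrt_pos.2 (by positivity)
        rw [e2, mul_pow]
        congr 1
        field_simp
      rw [e]
      simpa using h4.mul_const (D.gr v v x)
  -- Moser for `v + 1`
  have hsmooth : ContDiffOn ℝ ∞ (fun t : ℝ => t + 1) univ := by fun_prop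
  have hws : (fun x => v x + 1) ∈ D.sm := hC.comp univ (fun t => t + 1) isOpen_univ hsmooth v hv
    (fun _ => mem_univ _)
  have hd : ∀ t : ℝ, deriv (fun t : ℝ => t + 1) t = 1 := fun t => by simp
  have hgr : ∀ x, D.gr (fun x => v x + 1) (fun x => v x + 1) x = D.gr v v x := by
    intro x
    have a1 := (hC.gr_comp univ (fun t => t + 1) isOpen_univ hsmooth v hv
      (fun _ => mem_univ _) _ hws x).1
    have a2 := (hC.gr_comp univ (fun t => t + 1) isOpen_univ hsmooth v hv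
      (fun _ => mem_univ _) v hv x).2
    rw [a1, a2, hd]
    ring
  have hlapw : ∀ x, D.lap (fun x => v x + 1) x = D.lap v x := by
    intro x
    have a1 := hC.lap_comp univ (fun t => t + 1) isOpen_univ hsmooth v hv
      (fun _ => mem_univ _) x
    have e : deriv (fun t : ℝ => t + 1) = fun _ => (1 : ℝ) := funext hd
    rw [a1, e]
    simp
  have hw2 : Integrable (fun x => (v x + 1) ^ 2) D.vol := by
    have := (hv2.add (hv1.const_mul 2)).add (integrable_const (1 : ℝ))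
    refine this.congr (ae_of_all _ fun x => ?_)
    simp only [Pi.add_apply]
    ring
  obtain ⟨M, hM⟩ := hMo _ hws (fun x => by have := h0 x; linarith) hw2
    (hgi.congr (ae_of_all _ fun x => (hgr x).symm)) ⟨K, fun x => by
      rw [hlapw]
      refine le_trans ?_ (hl x)
      have := mul_nonneg hK0 (h0 x)
      linarith⟩
  refine ⟨M, fun x => ?_⟩
  have := hM x
  linarith

end Pool.Agent.SYM.V3
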