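import Pool.Agent.SYM.V3.Quant

/-!
# SYM/V3/QLoc : local calculus

`Leibniz` and `Calculus` give additivity; `Δ (f h)` by polarisation from
`(f + h)² = f² + 2 f h + h²`. For local functions choose
representatives (`SmoothOn`), use `lap_loc`, `gr_loc` and `glue`.
-/

set_option autoImplicit false

open MeasureTheory Set Filter
open scoped Topology ContDiff

namespace Pool.Agent.SYM.V3

variable {D : Reg} (hC : D.Calculus) (hL : D.Leibniz)
include hC hL

omit hL in
private theorem zero_sm {f : D.X → ℝ} (hf : f ∈ D.sm) : (fun _ : D.X => (0 : ℝ)) ∈ D.sm := by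
  have h := hC.sm_sub f hf f hf
  have e : (fun x => f x - f x) = fun _ : D.X => (0 : ℝ) := by
    funext x; ring
  rwa [e] at h

omit hL in
private theorem neg_sm {f : D.X → ℝ} (hf : f ∈ D.sm) : (fun x => 0 - f x) ∈ D.sm :=
  hC.sm_sub _ (zero_sm hC hf) f hf

omit hL in
private theorem lap_zero' {f : D.X → ℝ} (hf : f ∈ D.sm) (x : D.X) :
    D.lap (fun _ : D.X => (0 : ℝ)) x = 0 := by
  have h := hC.lap_sub f hf f hf x
  have e : (fun z => f z - f z) = fun _ : D.X => (0 : ℝ) := by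
    funext z; ring
  rw [e] at h
  rw [h, sub_self]

private theorem gr_zero' {f k : D.X → ℝ} (hf : f ∈ D.sm) (hk : k ∈ D.sm) (x : D.X) :
    D.gr (fun _ : D.X => (0 : ℝ)) k x = 0 := by
  have h := hL.gr_sub f hf f hf k hk x
  have e : (fun z => f z - f z) = fun _ : D.X => (0 : ℝ) := by
    funext z; ring
  rw [e] at h
  rw [h, sub_self]

theorem add_sm {f h : D.X → ℝ} (hf : f ∈ D.sm) (hh : h ∈ D.sm) : (fun x => f x + h x) ∈ D.sm := by
  have h1 := hC.sm_sub f hf _ (neg_sm hC hh)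
  have e : (fun x => f x - (0 - h x)) = fun x => f x + h x := by
    funext x; ring
  rwa [e] at h1

theorem const_sm (hs : D.sm.Nonempty) (c : ℝ) : (fun _ : D.X => c) ∈ D.sm := by
  obtain ⟨f, hf⟩ := hs
  exact hC.comp univ (fun _ => c) isOpen_univ contDiffOn_const f hf (fun _ => mem_univ _)

theorem lap_add {f h : D.X → ℝ} (hf : f ∈ D.sm) (hh : h ∈ D.sm) (x : D.X) :
    D.lap (fun z => f z + h z) x = D.lap f x + D.lap h x := by
  have h1 := hC.lap_sub f hf _ (neg_sm hC hh) x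
  have h2 := hC.lap_sub _ (zero_sm hC hh) h hh x
  have e : (fun x => f x - (0 - h x)) = fun x => f x + h x := by
    funext x; ring
  rw [e, h2, lap_zero' hC hh] at h1
  rw [h1]; ring

theorem gr_add {f h k : D.X → ℝ} (hf : f ∈ D.sm) (hh : h ∈ D.sm) (hk : k ∈ D.sm) (x : D.X) :
    D.gr (fun z => f z + h z) k x = D.gr f k x + D.gr h k x ∧
      D.gr k (fun z => f z + h z) x = D.gr k f x + D.gr k h x := by
  have key : D.gr (fun z => f z + h z) k x = D.gr f k x + D.gr h k x := by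
    have h1 := hL.gr_sub f hf _ (neg_sm hC hh) k hk x
    have h2 := hL.gr_sub _ (zero_sm hC hh) h hh k hk x
    have e : (fun x => f x - (0 - h x)) = fun x => f x + h x := by
      funext x; ring
    rw [e, h2, gr_zero' hC hL hh hk] at h1
    rw [h1]; ring
  refine ⟨key, ?_⟩
  rw [hL.gr_symm k hk _ (add_sm hC hL hf hh) x, key, hL.gr_symm k hk f hf x,
    hL.gr_symm k hk h hh x]

omit hL in
private theorem lap_smul {f : D.X → ℝ} (hf : f ∈ D.sm) (c : ℝ) (x : D.X) :
    D.lap (fun z => c * f z) x = c * D.lap f x := by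
  have h := hC.lap_comp univ (fun t => c * t) isOpen_univ (by fun_prop) f hf
    (fun _ => mem_univ _) x
  have e1 : deriv (fun t : ℝ => c * t) = fun _ => c := by
    funext t
    simp
  rw [h, e1]
  simp

omit hL in
private theorem lap_sq' {f : D.X → ℝ} (hf : f ∈ D.sm) (x : D.X) :
    D.lap (fun z => f z ^ 2) x = 2 * f x * D.lap f x + 2 * D.gr f f x := by
  have h := hC.lap_comp univ (fun t => t ^ 2) isOpen_univ (by fun_prop) f hf
    (fun _ => mem_univ _) x
  have e1 : deriv (fun t : ℝ => t ^ 2) = fun t => 2 * t := by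
    funext t
    simp
  have e2 : deriv (fun t : ℝ => 2 * t) = fun _ => 2 := by
    funext t
    simp
  rw [h, e1, e2]

omit hL in
private theorem sq_sm {f : D.X → ℝ} (hf : f ∈ D.sm) : (fun z => f z ^ 2) ∈ D.sm :=
  hC.comp univ (fun t => t ^ 2) isOpen_univ (by fun_prop) f hf (fun _ => mem_univ _)

theorem lap_mul {f h : D.X → ℝ} (hf : f ∈ D.sm) (hh : h ∈ D.sm) (x : D.X) :
    D.lap (fun z => f z * h z) x = f x * D.lap h x + h x * D.lap f x + 2 * D.gr f h x := by
  have hs := add_sm hC hL hf hh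
  have hm := hL.mul f hf h hh
  have hm2 := hC.smul_sm hm 2
  have h1 := lap_sq' hC hs x
  rw [lap_add hC hL hf hh, (gr_add hC hL hf hh hs x).1, (gr_add hC hL hf hh hf x).2,
    (gr_add hC hL hf hh hh x).2, hL.gr_symm h hh f hf x] at h1
  have e : (fun z => (f z + h z) ^ 2) = fun z => (f z ^ 2 + h z ^ 2) + 2 * (f z * h z) := by
    funext z; ring
  rw [e, lap_add hC hL (add_sm hC hL (sq_sm hC hf) (sq_sm hC hh)) hm2,
    lap_add hC hL (sq_sm hC hf) (sq_sm hC hh), lap_sq' hC hf, lap_sq' hC hh,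
    lap_smul hC hm] at h1
  linarith

theorem sum_sm {ι : Type} (s : Finset ι) {w : ι → D.X → ℝ} (hw : ∀ i, w i ∈ D.sm)
    (hs : D.sm.Nonempty) : (fun x => ∑ i ∈ s, w i x) ∈ D.sm := by
  classical
  induction s using Finset.induction_on with
  | empty =>
    obtain ⟨f, hf⟩ := hs
    simpa using zero_sm hC hf
  | insert a s ha ih =>
    have e : (fun x => ∑ i ∈ insert a s, w i x) = fun x => w a x + ∑ i ∈ s, w i x := by
      funext x; rw [Finset.sum_insert ha]
    rw [e]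
    exact add_sm hC hL (hw a) ih

theorem lap_sum {ι : Type} (s : Finset ι) {w : ι → D.X → ℝ} (hw : ∀ i, w i ∈ D.sm)
    (hs : D.sm.Nonempty) (x : D.X) :
    D.lap (fun z => ∑ i ∈ s, w i z) x = ∑ i ∈ s, D.lap (w i) x := by
  classical
  induction s using Finset.induction_on with
  | empty =>
    obtain ⟨f, hf⟩ := hs
    simpa using lap_zero' hC hf x
  | insert a s ha ih =>
    have e : (fun x => ∑ i ∈ insert a s, w i x) = fun x => w a x + ∑ i ∈ s, w i x := by
      funext x; rw [Finset.sum_insert ha]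
    rw [e, lap_add hC hL (hw a) (sum_sm hC hL s hw hs), Finset.sum_insert ha, ih]

/-- weighted Cauchy-Schwarz for sums -/
theorem gr_sum_le {ι : Type} (s : Finset ι) {w : ι → D.X → ℝ} (hw : ∀ i, w i ∈ D.sm)
    (hs : D.sm.Nonempty) (x : D.X)
    {p q : ι → ℝ} (hp : ∀ i, 0 ≤ p i) (hq : ∀ i, 0 ≤ q i)
    (h : ∀ i ∈ s, D.gr (w i) (w i) x ≤ p i * q i) :
    D.gr (fun z => ∑ i ∈ s, w i z) (fun z => ∑ i ∈ s, w i z) x ≤ (∑ i ∈ s, p i) * ∑ i ∈ s, q i := by
  classical
  induction s using Finset.induction_on with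
  | empty =>
    obtain ⟨f, hf⟩ := hs
    have h0 := gr_zero' hC hL hf (zero_sm hC hf) x
    simp only [Finset.sum_empty, mul_zero]
    exact h0.le
  | insert a s ha ih =>
    have e : (fun x => ∑ i ∈ insert a s, w i x) = fun x => w a x + ∑ i ∈ s, w i x := by
      funext x; rw [Finset.sum_insert ha]
    have hS := sum_sm hC hL s hw hs
    have hT := add_sm hC hL (hw a) hS
    have ih' := ih (fun i hi => h i (Finset.mem_insert_of_mem hi))
    have ha' := h a (Finset.mem_insert_self a s)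
    have hP : 0 ≤ ∑ i ∈ s, p i := Finset.sum_nonneg (fun i _ => hp i)
    have hQ : 0 ≤ ∑ i ∈ s, q i := Finset.sum_nonneg (fun i _ => hq i)
    rw [e, (gr_add hC hL (hw a) hS hT x).1, (gr_add hC hL (hw a) hS (hw a) x).2,
      (gr_add hC hL (hw a) hS hS x).2, hL.gr_symm _ hS _ (hw a) x, Finset.sum_insert ha,
      Finset.sum_insert ha]
    have hcs := Reg.gr_sq_le hC hL (hw a) hS x
    have hn := hC.gr_nonneg _ hS x
    have hna := hC.gr_nonneg _ (hw a) x
    have h2 := Reg.two_abs_le (m := D.gr (w a) (fun x => ∑ i ∈ s, w i x) x)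
      (a := p a * ∑ i ∈ s, q i) (b := (∑ i ∈ s, p i) * q a)
      (mul_nonneg (hp a) hQ) (mul_nonneg hP (hq a)) (by
        refine hcs.trans ?_
        refine (mul_le_mul ha' ih' hn (mul_nonneg (hp a) (hq a))).trans (le_of_eq ?_)
        ring)
    have h3 := le_abs_self (D.gr (w a) (fun x => ∑ i ∈ s, w i x) x)
    nlinarith

/-- a cut-off times a local function -/
theorem mul_loc (hSh : D.Sheaf) {U : Set D.X} {z f : D.X → ℝ} (hz : z ∈ D.sm)
    (hzU : tsupport z ⊆ U) (hU : IsOpen U) (hf : D.SmoothOn U f) : (fun x => z x * f x) ∈ D.sm := by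
  have _ := hU
  refine hSh.glue _ fun x _ => ?_
  by_cases hx : x ∈ tsupport z
  · obtain ⟨h, hh, he⟩ := hf x (hzU hx)
    refine ⟨fun y => z y * h y, hL.mul z hz h hh, ?_⟩
    filter_upwards [he] with y hy
    rw [hy]
  · refine ⟨fun _ => 0, zero_sm hC hz, ?_⟩
    filter_upwards [notMem_tsupport_iff_eventuallyEq.1 hx] with y hy
    rw [hy]; simp

theorem lap_mul_loc (hSh : D.Sheaf) {U : Set D.X} {z f : D.X → ℝ} (hz : z ∈ D.sm)
    (hU : IsOpen U) (hf : D.SmoothOn U f) {x : D.X} (hx : x ∈ U) :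
    D.lap (fun y => z y * f y) x = z x * D.lap f x + f x * D.lap z x + 2 * D.gr z f x := by
  have _ := hU
  obtain ⟨h, hh, he⟩ := hf x hx
  have e1 : (fun y => z y * f y) =ᶠ[𝓝 x] fun y => z y * h y := by
    filter_upwards [he] with y hy
    rw [hy]
  rw [hSh.lap_loc _ _ x e1, lap_mul hC hL hz hh, hSh.lap_loc _ _ x he,
    (hSh.gr_loc _ _ z x he).2, he.eq_of_nhds]

theorem gr_mul_loc (hSh : D.Sheaf) {U : Set D.X} {z f : D.X → ℝ} (hz : z ∈ D.sm)
    (hU : IsOpen U) (hf : D.SmoothOn U f) {x : D.X} (hx : x ∈ U) :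
    D.gr (fun y => z y * f y) (fun y => z y * f y) x =
      z x ^ 2 * D.gr f f x + 2 * (z x * f x) * D.gr z f x + f x ^ 2 * D.gr z z x := by
  have _ := hU
  obtain ⟨h, hh, he⟩ := hf x hx
  have e1 : (fun y => z y * f y) =ᶠ[𝓝 x] fun y => z y * h y := by
    filter_upwards [he] with y hy
    rw [hy]
  have hm := hL.mul z hz h hh
  rw [(hSh.gr_loc _ _ (fun y => z y * f y) x e1).1, (hSh.gr_loc _ _ (fun y => z y * h y) x e1).2,
    hL.gr_mul z hz h hh _ hm x, hL.gr_symm h hh _ hm x, hL.gr_symm z hz _ hm x,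
    hL.gr_mul z hz h hh h hh x, hL.gr_mul z hz h hh z hz x, hL.gr_symm h hh z hz x]
  have e2 : D.gr f f x = D.gr h h x := by
    rw [(hSh.gr_loc _ _ h x he).2, (hSh.gr_loc _ _ f x he).1]
  have e3 : D.gr z f x = D.gr z h x := ((hSh.gr_loc _ _ z x he).2).symm
  rw [e2, e3, ← he.eq_of_nhds]
  ring

theorem gr_loc_facts (hSh : D.Sheaf) {U : Set D.X} {z f : D.X → ℝ} (hz : z ∈ D.sm)
    (hU : IsOpen U) (hf : D.SmoothOn U f) {x : D.X} (hx : x ∈ U) :
    0 ≤ D.gr f f x ∧ D.gr z f x ^ 2 ≤ D.gr z z x * D.gr f f x := by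
  have _ := hU
  obtain ⟨h, hh, he⟩ := hf x hx
  have e2 : D.gr f f x = D.gr h h x := by
    rw [(hSh.gr_loc _ _ h x he).2, (hSh.gr_loc _ _ f x he).1]
  have e3 : D.gr z f x = D.gr z h x := ((hSh.gr_loc _ _ z x he).2).symm
  rw [e2, e3]
  exact ⟨hC.gr_nonneg h hh x, Reg.gr_sq_le hC hL hz hh x⟩

/-- outside the support of the cut-off -/
theorem mul_loc_zero (hSh : D.Sheaf) (hs : D.sm.Nonempty) {z f : D.X → ℝ} {x : D.X}
    (hx : x ∉ tsupport z) :
    D.lap (fun y => z y * f y) x = 0 ∧ D.gr (fun y => z y * f y) (fun y => z y * f y) x = 0 := by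
  obtain ⟨g, hg⟩ := hs
  have e1 : (fun y => z y * f y) =ᶠ[𝓝 x] fun _ => (0 : ℝ) := by
    filter_upwards [notMem_tsupport_iff_eventuallyEq.1 hx] with y hy
    rw [hy]; simp
  refine ⟨?_, ?_⟩
  · rw [hSh.lap_loc _ _ x e1, lap_zero' hC hg]
  · rw [(hSh.gr_loc _ _ (fun y => z y * f y) x e1).1, (hSh.gr_loc _ _ (fun _ => (0 : ℝ)) x e1).2,
      gr_zero' hC hL hg (zero_sm hC hg)]

end Pool.Agent.SYM.V3
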