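import Pool.Agent.SYM.V3.QPrimA
import Pool.Agent.SYM.V3.QExt

/-!
# SYM/V3/QPrim : the local primitives of `ω_J` are bounded

`bounded_of_log` for `log V`, then `le_V`.
-/

set_option autoImplicit false

open MeasureTheory Set Filter
open scoped Topology ContDiff

namespace Pool.Agent.SYM.V3

theorem charts_bounded {D : Reg} {C : Charts D} {φ : D.X → ℝ} (hC : D.Calculus) (hL : D.Leibniz)
    (hP : D.Pole φ) (hMo : D.Moser) (hφ : Integrable (fun x => φ x ^ 2) D.vol) (hSh : D.Sheaf)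
    (hF : C.Facts φ) : ∃ M : ℝ, 0 ≤ M ∧ ∀ c, ∀ x ∈ tsupport (C.z c), C.u c x ≤ M := by
  obtain ⟨hs, K1, hK1, h1⟩ := lap_log_V hC hL hSh hF
  obtain ⟨K2, hK2, h2⟩ := V_le hF hP.le
  obtain ⟨K3, hK3, h3⟩ := le_V hF
  obtain ⟨M, hM⟩ := bounded_of_log hC hL hP hMo hφ hs
    (fun x => Real.log_nonneg (one_le_V hF x)) (K := max K1 K2)
    (fun x => (h2 x).trans (mul_le_mul_of_nonneg_right (le_max_right _ _) (abs_nonneg _)))
    (fun x => (neg_le_neg (le_max_left _ _)).trans (h1 x))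
  refine ⟨K3 * Real.exp M, by positivity, fun c x hx => ?_⟩
  have h4 : C.V x ≤ Real.exp M := by
    rw [← Real.log_le_iff_le_exp (lt_of_lt_of_le one_pos (one_le_V hF x))]
    exact hM x
  have h5 := h3 c x hx
  have h6 := mul_le_mul_of_nonneg_left h4 hK3
  linarith

end Pool.Agent.SYM.V3
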