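import Pool.Agent.SYM.V3.QLoc

/-!
# SYM/V3/QPrimA : `log V`, `V = ∑ z_c (1 + u_c)`, is almost subharmonic

At a point `x` let `I = {c : x ∈ tsupport (z c)}` (the other terms vanish near `x`),
`w_c = z_c (1 + u_c) ∈ sm` (`mul_loc`), `g_c = gr z_c u_c`.
`Δ V = ∑_I (z_c a_c + (1 + u_c) Δ z_c + 2 g_c)`. For `z_c x ≠ 0` put
`q_c = gr w_c w_c / (z_c (1 + u_c)) = z_c gr u_c u_c / (1 + u_c) + 2 g_c + (1 + u_c) gr z_c z_c / z_c`;
for `z_c x = 0` both `gr z_c z_c` (`z_bdd`), `g_c` (Cauchy-Schwarz) and `gr w_c w_c` vanish, `q_c = 0`.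
`gr_sum_le`: `gr V V ≤ V ∑ q_c`. So (`kato`: `gr u_c u_c ≤ a_c u_c ≤ a_c (1 + u_c)`)
`V Δ V - gr V V ≥ V ∑_I (1 + u_c) (Δ z_c - gr z_c z_c / z_c) ≥ - 2 K V ∑_I (1 + u_c)` and
`1 + u_c ≤ K' V` for `c ∈ I` by `comp` and `∑ z = 1`. Finally
`Δ log V = Δ V / V - gr V V / V²` (`lap_comp` on `Ioi 0`), `V ≥ 1`.
-/

set_option autoImplicit false

open MeasureTheory Set Filter
open scoped Topology ContDiff

namespace Pool.Agent.SYM.V3

/-- `V = ∑ z_c (1 + u_c)` -/
noncomputable def Charts.V {D : Reg} (C : Charts D) (x : D.X) : ℝ :=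
  ∑ c, C.z c x * (1 + C.u c x)

variable {D : Reg} {C : Charts D} {φ : D.X → ℝ}

private theorem one_add_sm (hC : D.Calculus) {h : D.X → ℝ} (hh : h ∈ D.sm) :
    (fun x => 1 + h x) ∈ D.sm ∧ (∀ x, D.lap (fun x => 1 + h x) x = D.lap h x) ∧
      ∀ k ∈ D.sm, ∀ x, D.gr (fun x => 1 + h x) k x = D.gr h k x ∧
        D.gr k (fun x => 1 + h x) x = D.gr k h x := by
  have hF : ContDiffOn ℝ ∞ (fun t : ℝ => 1 + t) univ := (contDiff_const.add contDiff_id).contDiffOn
  have hd : deriv (fun t : ℝ => 1 + t) = fun _ => 1 := by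
    funext t
    simp
  refine ⟨hC.comp univ _ isOpen_univ hF h hh (fun _ => mem_univ _), fun x => ?_, fun k hk x => ?_⟩
  · have := hC.lap_comp univ _ isOpen_univ hF h hh (fun _ => mem_univ _) x
    rw [this, hd]
    simp
  · have := hC.gr_comp univ _ isOpen_univ hF h hh (fun _ => mem_univ _) k hk x
    rw [this.1, this.2, hd]
    simp

private theorem one_add_smoothOn (hC : D.Calculus) {U : Set D.X} {f : D.X → ℝ}
    (hf : D.SmoothOn U f) : D.SmoothOn U (fun x => 1 + f x) := by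
  intro x hx
  obtain ⟨h, hh, he⟩ := hf x hx
  refine ⟨fun y => 1 + h y, (one_add_sm hC hh).1, ?_⟩
  filter_upwards [he] with y hy
  rw [hy]

/-- local calculus of `1 + f` -/
private theorem one_add_loc (hC : D.Calculus) (hSh : D.Sheaf) {U : Set D.X} {f : D.X → ℝ}
    (hf : D.SmoothOn U f) {x : D.X} (hx : x ∈ U) :
    D.lap (fun y => 1 + f y) x = D.lap f x ∧
      D.gr (fun y => 1 + f y) (fun y => 1 + f y) x = D.gr f f x ∧
      ∀ k ∈ D.sm, D.gr k (fun y => 1 + f y) x = D.gr k f x := by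
  obtain ⟨h, hh, he⟩ := hf x hx
  obtain ⟨h1, h2, h3⟩ := one_add_sm hC hh
  have he1 : (fun y => 1 + f y) =ᶠ[𝓝 x] (fun y => 1 + h y) := by
    filter_upwards [he] with y hy
    rw [hy]
  refine ⟨?_, ?_, fun k hk => ?_⟩
  · rw [hSh.lap_loc _ _ x he1, h2 x, hSh.lap_loc _ _ x he]
  · rw [(hSh.gr_loc _ _ (fun y => 1 + f y) x he1).1, (hSh.gr_loc _ _ (fun y => 1 + h y) x he1).2,
      (h3 _ h1 x).1, (h3 h hh x).2, (hSh.gr_loc _ _ h x he).2, (hSh.gr_loc _ _ f x he).1]
  · rw [(hSh.gr_loc _ _ k x he1).2, (h3 k hk x).2, (hSh.gr_loc _ _ k x he).2]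

private theorem w_sm (hC : D.Calculus) (hL : D.Leibniz) (hSh : D.Sheaf) (hF : C.Facts φ)
    (c : Fin C.N) : (fun x => C.z c x * (1 + C.u c x)) ∈ D.sm :=
  mul_loc hC hL hSh (hF.z_sm c) (hF.z_supp c) (hF.isOpen c) (one_add_smoothOn hC (hF.u_sm c))

theorem V_sm (hC : D.Calculus) (hL : D.Leibniz) (hSh : D.Sheaf) (hF : C.Facts φ) : C.V ∈ D.sm := by
  rcases isEmpty_or_nonempty (Fin C.N) with he | hne
  · refine hSh.glue _ fun x _ => ?_
    have := hF.z_sum x
    rw [Finset.univ_eq_empty, Finset.sum_empty] at this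
    exact absurd this zero_ne_one
  · obtain ⟨c⟩ := hne
    exact sum_sm hC hL Finset.univ (w_sm hC hL hSh hF) ⟨_, hF.z_sm c⟩

theorem one_le_V (hF : C.Facts φ) (x : D.X) : 1 ≤ C.V x := by
  rw [← hF.z_sum x, Charts.V]
  refine Finset.sum_le_sum fun c _ => ?_
  nlinarith [hF.z_nonneg c x, hF.u_nonneg c x, mul_nonneg (hF.z_nonneg c x) (hF.u_nonneg c x)]

theorem le_V (hF : C.Facts φ) : ∃ K : ℝ, 0 ≤ K ∧ ∀ c, ∀ x ∈ tsupport (C.z c),
    1 + C.u c x ≤ K * C.V x := by
  obtain ⟨K, hK, hcomp⟩ := hF.comp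
  refine ⟨2 + K, by linarith, fun c x hx => ?_⟩
  have h1 : ∑ c', C.z c' x * (1 + C.u c x) ≤
      ∑ c', (2 * (C.z c' x * (1 + C.u c' x)) + K * C.z c' x) := by
    refine Finset.sum_le_sum fun c' _ => ?_
    by_cases hz : C.z c' x = 0
    · rw [hz]
      simp
    · have hx' : x ∈ tsupport (C.z c') := subset_tsupport _ hz
      have h2 := hcomp c c' x hx hx'
      have h3 := hF.z_nonneg c' x
      nlinarith [mul_le_mul_of_nonneg_left h2 h3]
  rw [← Finset.sum_mul, hF.z_sum x, one_mul, Finset.sum_add_distrib, ← Finset.mul_sum,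
    ← Finset.mul_sum, hF.z_sum x, mul_one] at h1
  have h2 := one_le_V hF x
  have h3 : 1 + C.u c x ≤ 2 * C.V x + K := h1
  nlinarith [mul_le_mul_of_nonneg_left h2 hK]

theorem V_le (hF : C.Facts φ) (hφ : ∀ x, φ x ≤ -3) : ∃ K : ℝ, 0 ≤ K ∧ ∀ x,
    Real.log (C.V x) ≤ K * |φ x| := by
  obtain ⟨K, hK, hg⟩ := hF.growth
  refine ⟨K + 1, by linarith, fun x => ?_⟩
  have hneg : φ x ≤ -3 := hφ x
  have habs : |φ x| = -φ x := abs_of_nonpos (by linarith)
  have hE : 1 ≤ Real.exp (K * |φ x|) := Real.one_le_exp (by positivity)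
  have h1 : C.V x ≤ ∑ c, C.z c x * (2 * Real.exp (K * |φ x|)) := by
    rw [Charts.V]
    refine Finset.sum_le_sum fun c _ => ?_
    by_cases hz : C.z c x = 0
    · rw [hz]
      simp
    · have hx' : x ∈ tsupport (C.z c) := subset_tsupport _ hz
      have h2 := hg c x hx'
      have h3 : -(K * φ x) = K * |φ x| := by rw [habs]; ring
      rw [h3] at h2
      exact mul_le_mul_of_nonneg_left (by linarith) (hF.z_nonneg c x)
  rw [← Finset.sum_mul, hF.z_sum x, one_mul] at h1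
  have hV := one_le_V hF x
  have h2 : Real.log (C.V x) ≤ Real.log (2 * Real.exp (K * |φ x|)) :=
    Real.log_le_log (by linarith) h1
  rw [Real.log_mul (by norm_num) (by positivity), Real.log_exp] at h2
  have h3 : Real.log 2 ≤ 1 := by
    have := Real.log_two_lt_d9
    linarith
  have h4 : (3 : ℝ) ≤ |φ x| := by rw [habs]; linarith
  nlinarith

/-- the pointwise inequality for one chart -/
private theorem term_ge {z u a Δz g G Z K K' V : ℝ} (hz : 0 < z) (hu : 0 ≤ u) (ha : 0 ≤ a)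
    (hG : G ≤ a * u) (hZ : Z ≤ K * z) (hΔ : |Δz| ≤ K) (hV : 1 + u ≤ K' * V) (hK : 0 ≤ K) :
    -(2 * K * (K' * V)) ≤ (z * a + (1 + u) * Δz + 2 * g) -
      (z ^ 2 * G + 2 * (z * (1 + u)) * g + (1 + u) ^ 2 * Z) / (z * (1 + u)) := by
  have h1u : 0 < 1 + u := by linarith
  have e : (z ^ 2 * G + 2 * (z * (1 + u)) * g + (1 + u) ^ 2 * Z) / (z * (1 + u)) =
      z * (G / (1 + u)) + 2 * g + (1 + u) * (Z / z) := by
    field_simp
  rw [e]
  have h1 : G / (1 + u) ≤ a := by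
    rw [div_le_iff₀ h1u]
    nlinarith
  have h2 : Z / z ≤ K := by
    rw [div_le_iff₀ hz]
    exact hZ
  have h3 : -K ≤ Δz := (abs_le.mp hΔ).1
  have h4 : z * (G / (1 + u)) ≤ z * a := mul_le_mul_of_nonneg_left h1 hz.le
  have h5 : (1 + u) * (Z / z) ≤ (1 + u) * K := mul_le_mul_of_nonneg_left h2 h1u.le
  have h6 : -((1 + u) * K) ≤ (1 + u) * Δz := by nlinarith
  have h7 : (1 + u) * K ≤ (K' * V) * K := mul_le_mul_of_nonneg_right hV hK
  nlinarith

theorem lap_log_V (hC : D.Calculus) (hL : D.Leibniz) (hSh : D.Sheaf) (hF : C.Facts φ) :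
    (fun x => Real.log (C.V x)) ∈ D.sm ∧
      ∃ K : ℝ, 0 ≤ K ∧ ∀ x, -K ≤ D.lap (fun x => Real.log (C.V x)) x := by
  have hlog : ContDiffOn ℝ ∞ Real.log (Ioi 0) :=
    Real.contDiffOn_log.mono fun t ht => ne_of_gt ht
  have hVs := V_sm hC hL hSh hF
  have hV0 : ∀ x, C.V x ∈ Ioi (0 : ℝ) := fun x => lt_of_lt_of_le one_pos (one_le_V hF x)
  refine ⟨hC.comp _ _ isOpen_Ioi hlog _ hVs hV0, ?_⟩
  obtain ⟨K, hK, hz⟩ := hF.z_bdd
  obtain ⟨K', hK', hle⟩ := le_V hF
  refine ⟨2 * K * K' * C.N, by positivity, fun x => ?_⟩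
  have hVx : 0 < C.V x := hV0 x
  -- the formula for the Laplacian of the logarithm
  have hlap := hC.lap_comp _ _ isOpen_Ioi hlog _ hVs hV0 x
  have hd1 : deriv Real.log (C.V x) = (C.V x)⁻¹ := Real.deriv_log _
  have hd2 : deriv (deriv Real.log) (C.V x) = -((C.V x) ^ 2)⁻¹ := by
    rw [Real.deriv_log', deriv_inv]
  rw [hd1, hd2] at hlap
  rw [hlap]
  -- notation
  have hw := w_sm hC hL hSh hF
  set w : Fin C.N → D.X → ℝ := fun c y => C.z c y * (1 + C.u c y) with hwdef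
  have hVw : C.V = fun y => ∑ c, w c y := rfl
  have hlapV : D.lap C.V x = ∑ c, D.lap (w c) x := by
    rw [hVw]
    exact lap_sum hC hL Finset.univ hw ⟨_, hVs⟩ x
  -- the weights
  set q : Fin C.N → ℝ := fun c => D.gr (w c) (w c) x / w c x with hqdef
  have hw0 : ∀ c, 0 ≤ w c x := fun c =>
    mul_nonneg (hF.z_nonneg c x) (by linarith [hF.u_nonneg c x])
  have hgrw : ∀ c, 0 ≤ D.gr (w c) (w c) x := fun c => hC.gr_nonneg _ (hw c) x
  have hq0 : ∀ c, 0 ≤ q c := fun c => div_nonneg (hgrw c) (hw0 c)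
  have hsm : D.sm.Nonempty := ⟨_, hVs⟩
  -- if the weight vanishes so does the gradient
  have hzero : ∀ c, C.z c x = 0 → D.gr (C.z c) (C.z c) x = 0 := fun c h0 =>
    le_antisymm (by have := (hz c x).2; rw [h0, mul_zero] at this; exact this)
      (hC.gr_nonneg _ (hF.z_sm c) x)
  have hgr0 : ∀ c, C.z c x = 0 → D.gr (w c) (w c) x = 0 := by
    intro c h0
    by_cases hx : x ∈ tsupport (C.z c)
    · have hxU := hF.z_supp c hx
      have e := gr_mul_loc hC hL hSh (hF.z_sm c) (hF.isOpen c) (one_add_smoothOn hC (hF.u_sm c)) hxU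
      have e' : D.gr (w c) (w c) x = C.z c x ^ 2 * D.gr (fun y => 1 + C.u c y)
          (fun y => 1 + C.u c y) x + 2 * (C.z c x * (1 + C.u c x)) *
          D.gr (C.z c) (fun y => 1 + C.u c y) x +
          (1 + C.u c x) ^ 2 * D.gr (C.z c) (C.z c) x := e
      rw [e', h0, hzero c h0]
      ring
    · exact (mul_loc_zero hC hL hSh hsm hx).2
  have hpq : ∀ c ∈ (Finset.univ : Finset (Fin C.N)), D.gr (w c) (w c) x ≤ w c x * q c := by
    intro c _
    by_cases h0 : w c x = 0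
    · have hz0 : C.z c x = 0 := by
        rcases mul_eq_zero.mp h0 with h | h
        · exact h
        · exact absurd h (by linarith [hF.u_nonneg c x])
      rw [hgr0 c hz0, h0, zero_mul]
    · rw [hqdef]
      simp only
      rw [mul_div_cancel₀ _ h0]
  have hgrV : D.gr C.V C.V x ≤ C.V x * ∑ c, q c := by
    rw [hVw]
    exact gr_sum_le hC hL Finset.univ hw hsm x hw0 hq0 hpq
  -- termwise inequality
  have hterm : ∀ c, -(2 * K * (K' * C.V x)) ≤ D.lap (w c) x - q c := by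
    intro c
    have hneg : -(2 * K * (K' * C.V x)) ≤ 0 := by
      have : 0 ≤ 2 * K * (K' * C.V x) := by positivity
      linarith
    by_cases hx : x ∈ tsupport (C.z c)
    · have hxU := hF.z_supp c hx
      obtain ⟨e1, e2, e3⟩ := one_add_loc hC hSh (hF.u_sm c) hxU
      have el : D.lap (w c) x = C.z c x * D.lap (fun y => 1 + C.u c y) x +
          (1 + C.u c x) * D.lap (C.z c) x + 2 * D.gr (C.z c) (fun y => 1 + C.u c y) x :=
        lap_mul_loc hC hL hSh (hF.z_sm c) (hF.isOpen c) (one_add_smoothOn hC (hF.u_sm c)) hxU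
      have eg : D.gr (w c) (w c) x = C.z c x ^ 2 * D.gr (fun y => 1 + C.u c y)
          (fun y => 1 + C.u c y) x + 2 * (C.z c x * (1 + C.u c x)) *
          D.gr (C.z c) (fun y => 1 + C.u c y) x +
          (1 + C.u c x) ^ 2 * D.gr (C.z c) (C.z c) x :=
        gr_mul_loc hC hL hSh (hF.z_sm c) (hF.isOpen c) (one_add_smoothOn hC (hF.u_sm c)) hxU
      rw [e1, e3 _ (hF.z_sm c), hF.lap_u c x hxU] at el
      rw [e2, e3 _ (hF.z_sm c)] at eg
      have hkato := hF.kato c x hxU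
      have hzb := hz c x
      have hKV := hle c x hx
      have hfac := gr_loc_facts hC hL hSh (hF.z_sm c) (hF.isOpen c) (hF.u_sm c) hxU
      rcases (hF.z_nonneg c x).eq_or_lt with h0 | hpos
      · have hz0 : C.z c x = 0 := h0.symm
        have hg0 : D.gr (C.z c) (C.u c) x = 0 := by
          have := hfac.2
          rw [hzero c hz0, zero_mul] at this
          exact pow_eq_zero_iff (two_ne_zero) |>.mp (le_antisymm this (sq_nonneg _))
        have hq : q c = 0 := by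
          rw [hqdef]
          simp only
          rw [hgr0 c hz0, zero_div]
        rw [hq, el, hz0, hg0]
        have h3 : -K ≤ D.lap (C.z c) x := (abs_le.mp hzb.1).1
        have h1u : 0 ≤ 1 + C.u c x := by linarith [hF.u_nonneg c x]
        have h4 : (1 + C.u c x) * K ≤ (K' * C.V x) * K := mul_le_mul_of_nonneg_right hKV hK
        have h5 : 0 ≤ (K' * C.V x) * K := by positivity
        nlinarith
      · have hq : q c = (C.z c x ^ 2 * D.gr (C.u c) (C.u c) x + 2 * (C.z c x * (1 + C.u c x)) *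
            D.gr (C.z c) (C.u c) x + (1 + C.u c x) ^ 2 * D.gr (C.z c) (C.z c) x) /
            (C.z c x * (1 + C.u c x)) := by
          rw [← eg]
        rw [hq, el]
        exact term_ge hpos (hF.u_nonneg c x) (hF.a_nonneg c x) hkato hzb.2 hzb.1 hKV hK
    · have h0 := mul_loc_zero hC hL hSh hsm (f := fun y => 1 + C.u c y) hx
      have el : D.lap (w c) x = 0 := h0.1
      have eg : D.gr (w c) (w c) x = 0 := h0.2
      have hq : q c = 0 := by
        rw [hqdef]
        simp only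
        rw [eg, zero_div]
      rw [el, hq, sub_zero]
      exact hneg
  have hsum : ∑ _c : Fin C.N, -(2 * K * (K' * C.V x)) ≤ ∑ c, (D.lap (w c) x - q c) :=
    Finset.sum_le_sum fun c _ => hterm c
  rw [Finset.sum_sub_distrib, ← hlapV, Finset.sum_const, Finset.card_univ, Fintype.card_fin,
    nsmul_eq_mul] at hsum
  -- conclusion
  have h1 : (C.V x)⁻¹ * D.lap C.V x + -((C.V x) ^ 2)⁻¹ * D.gr C.V C.V x =
      (C.V x * D.lap C.V x - D.gr C.V C.V x) / (C.V x) ^ 2 := by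
    field_simp
    ring
  rw [h1, le_div_iff₀ (by positivity)]
  have h2 : C.V x * (D.lap C.V x - ∑ c, q c) ≤ C.V x * D.lap C.V x - D.gr C.V C.V x := by
    nlinarith
  have h3 : C.V x * ((C.N : ℝ) * -(2 * K * (K' * C.V x))) ≤
      C.V x * (D.lap C.V x - ∑ c, q c) := mul_le_mul_of_nonneg_left hsum hVx.le
  nlinarith

end Pool.Agent.SYM.V3
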